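import Pool.Agent.CubeRank.ADefs

/-!
# Nowhere zero vectors with pairwise isotropic differences
-/

set_option autoImplicit false

namespace Pool.Agent.CubeRank

namespace AClique

open Finset

/-- counting: an affine space of dimension at most `D` over `F_3` contains at most `2 ^ D` nowhere
zero vectors -/
theorem count (m : ℕ) (D : ℕ) : ∀ (V : Submodule (ZMod 3) (Fin m → ZMod 3)) (z : Fin m → ZMod 3)
    (E : Finset (Fin m → ZMod 3)), Module.finrank (ZMod 3) V ≤ D → (∀ x ∈ E, x - z ∈ V) →
    (∀ x ∈ E, ∀ i, x i ≠ 0) → E.card ≤ 2 ^ D := by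
  induction D with
  | zero =>
    intro V z E hV hz _
    have hV0 : V = ⊥ := by
      rw [← Submodule.finrank_eq_zero (R := ZMod 3)]
      omega
    rw [pow_zero, Finset.card_le_one]
    intro a ha b hb
    have h1 := hz a ha
    have h2 := hz b hb
    rw [hV0, Submodule.mem_bot, sub_eq_zero] at h1 h2
    rw [h1, h2]
  | succ D ih =>
    intro V z E hV hz hE
    by_cases hV0 : V = ⊥
    · have : E.card ≤ 1 := by
        rw [Finset.card_le_one]
        intro a ha b hb
        have h1 := hz a ha
        have h2 := hz b hb
        rw [hV0, Submodule.mem_bot, sub_eq_zero] at h1 h2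
        rw [h1, h2]
      exact this.trans Nat.one_le_two_pow
    · obtain ⟨v, hv, hv0⟩ := Submodule.exists_mem_ne_zero_of_ne_bot hV0
      obtain ⟨i, hi⟩ := Function.ne_iff.1 hv0
      set V' : Submodule (ZMod 3) (Fin m → ZMod 3) :=
        V ⊓ LinearMap.ker (LinearMap.proj (R := ZMod 3) (φ := fun _ : Fin m => ZMod 3) i) with hV'
      have hlt : V' < V := by
        refine lt_of_le_of_ne inf_le_left ?_
        intro h
        have h1 : v ∈ V' := by rw [h]; exact hv
        have h2 := (Submodule.mem_inf.1 h1).2
        rw [LinearMap.mem_ker] at h2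
        exact hi h2
      have hfin : Module.finrank (ZMod 3) V' ≤ D := by
        have := Submodule.finrank_lt_finrank_of_lt hlt
        omega
      have key : ∀ c : ZMod 3, (E.filter (fun x => x i = c)).card ≤ 2 ^ D := by
        intro c
        rcases (E.filter (fun x => x i = c)).eq_empty_or_nonempty with h | ⟨z', hz'⟩
        · rw [h, Finset.card_empty]
          exact Nat.zero_le _
        · have hz1 := (Finset.mem_filter.1 hz').1
          have hz2 := (Finset.mem_filter.1 hz').2
          refine ih V' z' _ hfin ?_ ?_
          · intro x hx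
            have hx1 := (Finset.mem_filter.1 hx).1
            have hx2 := (Finset.mem_filter.1 hx).2
            refine Submodule.mem_inf.2 ⟨?_, ?_⟩
            · have h1 := V.sub_mem (hz x hx1) (hz z' hz1)
              rw [sub_sub_sub_cancel_right] at h1
              exact h1
            · rw [LinearMap.mem_ker]
              change x i - z' i = 0
              rw [hx2, hz2, sub_self]
          · intro x hx
            exact hE x (Finset.mem_filter.1 hx).1
      have hcov : E ⊆ E.filter (fun x => x i = 1) ∪ E.filter (fun x => x i = 2) := by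
        intro x hx
        have h1 := hE x hx i
        have h2 : ∀ c : ZMod 3, c ≠ 0 → c = 1 ∨ c = 2 := by decide
        rcases h2 _ h1 with h | h
        · exact Finset.mem_union_left _ (Finset.mem_filter.2 ⟨hx, h⟩)
        · exact Finset.mem_union_right _ (Finset.mem_filter.2 ⟨hx, h⟩)
      calc E.card ≤ (E.filter (fun x => x i = 1) ∪ E.filter (fun x => x i = 2)).card :=
            Finset.card_le_card hcov
        _ ≤ (E.filter (fun x => x i = 1)).card + (E.filter (fun x => x i = 2)).card :=
            Finset.card_union_le _ _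
        _ ≤ 2 ^ D + 2 ^ D := Nat.add_le_add (key 1) (key 2)
        _ = 2 ^ (D + 1) := by ring

/-- the bilinear form -/
noncomputable def bil {ι : Type*} (S : Finset ι) (u : ι → ZMod 3) :
    (ι → ZMod 3) →ₗ[ZMod 3] (ι → ZMod 3) →ₗ[ZMod 3] ZMod 3 :=
  LinearMap.mk₂ (ZMod 3) (fun a b => ∑ i ∈ S, u i * a i * b i)
    (by
      intro a a' b
      rw [← Finset.sum_add_distrib]
      apply Finset.sum_congr rfl
      intro i _
      rw [Pi.add_apply]
      ring)
    (by
      intro c a b
      rw [smul_eq_mul, Finset.mul_sum]
      apply Finset.sum_congr rfl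
      intro i _
      rw [Pi.smul_apply, smul_eq_mul]
      ring)
    (by
      intro a b b'
      rw [← Finset.sum_add_distrib]
      apply Finset.sum_congr rfl
      intro i _
      rw [Pi.add_apply]
      ring)
    (by
      intro c a b
      rw [smul_eq_mul, Finset.mul_sum]
      apply Finset.sum_congr rfl
      intro i _
      rw [Pi.smul_apply, smul_eq_mul]
      ring)

theorem bil_apply {ι : Type*} (S : Finset ι) (u : ι → ZMod 3) (a b : ι → ZMod 3) :
    bil S u a b = ∑ i ∈ S, u i * a i * b i := rfl

/-- an isotropic subspace for a nondegenerate diagonal form has dimension at most half -/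
theorem isotropic {ι : Type*} [Fintype ι] (u : ι → ZMod 3) (hu : ∀ i, u i ≠ 0)
    (W : Submodule (ZMod 3) (ι → ZMod 3)) (hW : ∀ a ∈ W, ∀ b ∈ W, bil univ u a b = 0) :
    2 * Module.finrank (ZMod 3) W ≤ Fintype.card ι := by
  classical
  have hinj : Function.Injective (bil univ u) := by
    rw [← LinearMap.ker_eq_bot, LinearMap.ker_eq_bot']
    intro a ha
    funext i
    have h1 := congrArg (fun f => f (Pi.single i 1)) ha
    simp only [bil_apply, LinearMap.zero_apply] at h1
    rw [Finset.sum_eq_single i] at h1
    · rw [Pi.single_eq_same, mul_one] at h1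
      rcases mul_eq_zero.1 h1 with h | h
      · exact absurd h (hu i)
      · exact h
    · intro j _ hj
      rw [Pi.single_eq_of_ne hj, mul_zero]
    · intro h
      exact absurd (Finset.mem_univ _) h
  have h1 : Module.finrank (ZMod 3) W = Module.finrank (ZMod 3) (W.map (bil univ u)) :=
    (Submodule.equivMapOfInjective (bil univ u) hinj W).finrank_eq
  have h2 : W.map (bil univ u) ≤ W.dualAnnihilator := by
    rintro _ ⟨a, ha, rfl⟩
    rw [Submodule.mem_dualAnnihilator]
    intro b hb
    exact hW a ha b hb
  have h3 := Submodule.finrank_mono h2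
  have h4 : Module.finrank (ZMod 3) W + Module.finrank (ZMod 3) W.dualAnnihilator =
      Fintype.card ι := by
    rw [← Module.finrank_fintype_fun_eq_card (ZMod 3) (η := ι)]
    exact Subspace.finrank_add_finrank_dualAnnihilator_eq W
  have h5 : Module.finrank (ZMod 3) W ≤ Module.finrank (ZMod 3) W.dualAnnihilator :=
    h1.le.trans h3
  have h6 : Module.finrank (ZMod 3) W + Module.finrank (ZMod 3) W ≤ Fintype.card ι :=
    (Nat.add_le_add_left h5 _).trans h4.le
  omega

end AClique

open AClique in
/-- (A2) -/
theorem clique : CliqueStmt := by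
  classical
  intro m T R u E hu hE hfix hiso
  rcases E.eq_empty_or_nonempty with h | ⟨z, hz⟩
  · rw [h, Finset.card_empty]
    exact Nat.zero_le _
  set V : Submodule (ZMod 3) (Fin m → ZMod 3) :=
    Submodule.span (ZMod 3) ((fun x => x - z) '' (E : Set (Fin m → ZMod 3))) with hV
  -- the form vanishes on `V`
  have hgen : ∀ x ∈ E, ∀ y ∈ E, bil T u (x - z) (y - z) = 0 := by
    intro x hx y hy
    have h1 := hiso x hx z hz
    have h2 := hiso y hy z hz
    have h3 := hiso x hx y hy
    have h4 : 2 * bil T u (x - z) (y - z) = ∑ i ∈ T, u i * (x i - z i) ^ 2 +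
        ∑ i ∈ T, u i * (y i - z i) ^ 2 - ∑ i ∈ T, u i * (x i - y i) ^ 2 := by
      rw [bil_apply, Finset.mul_sum, ← Finset.sum_add_distrib, ← Finset.sum_sub_distrib]
      apply Finset.sum_congr rfl
      intro i _
      rw [Pi.sub_apply, Pi.sub_apply]
      ring
    rw [h1, h2, h3, add_zero, sub_zero] at h4
    rcases mul_eq_zero.1 h4 with h | h
    · exact absurd h (by decide)
    · exact h
  have hV0 : ∀ a ∈ V, ∀ b ∈ V, bil T u a b = 0 := by
    have s1 : ∀ x ∈ E, V ≤ LinearMap.ker (bil T u (x - z)) := by
      intro x hx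
      rw [hV, Submodule.span_le]
      rintro _ ⟨y, hy, rfl⟩
      exact hgen x hx y hy
    intro a ha b hb
    have s2 : V ≤ LinearMap.ker ((bil T u).flip b) := by
      rw [hV, Submodule.span_le]
      rintro _ ⟨x, hx, rfl⟩
      have := s1 x hx hb
      rw [LinearMap.mem_ker] at this
      change (bil T u).flip b (x - z) = 0
      rw [LinearMap.flip_apply]
      exact this
    have := s2 ha
    rw [LinearMap.mem_ker, LinearMap.flip_apply] at this
    exact this
  have hVfix : ∀ a ∈ V, ∀ i, i ∉ T → i ∉ R → a i = 0 := by
    intro a ha i hiT hiR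
    have s : V ≤ LinearMap.ker (LinearMap.proj (R := ZMod 3) (φ := fun _ : Fin m => ZMod 3) i) := by
      rw [hV, Submodule.span_le]
      rintro _ ⟨x, hx, rfl⟩
      change x i - z i = 0
      rw [hfix x hx z hz i hiT hiR, sub_self]
    exact s ha
  -- dimension
  let πT : (Fin m → ZMod 3) →ₗ[ZMod 3] (T → ZMod 3) :=
    LinearMap.funLeft (ZMod 3) (ZMod 3) (Subtype.val : T → Fin m)
  let πR : (Fin m → ZMod 3) →ₗ[ZMod 3] (R → ZMod 3) :=
    LinearMap.funLeft (ZMod 3) (ZMod 3) (Subtype.val : R → Fin m)
  have hrange : 2 * Module.finrank (ZMod 3) (LinearMap.range (πT.domRestrict V)) ≤ T.card := by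
    have h1 := isotropic (fun i : T => u i) (fun i => hu i i.2)
      (LinearMap.range (πT.domRestrict V)) (by
        rintro _ ⟨a, rfl⟩ _ ⟨b, rfl⟩
        have h2 := hV0 a.1 a.2 b.1 b.2
        rw [bil_apply] at h2 ⊢
        rw [← Finset.sum_coe_sort] at h2
        exact h2)
    rw [Fintype.card_coe] at h1
    exact h1
  have hker : Module.finrank (ZMod 3) (LinearMap.ker (πT.domRestrict V)) ≤ R.card := by
    have hinj : Function.Injective ((πR.domRestrict V).domRestrict
        (LinearMap.ker (πT.domRestrict V))) := by
      rw [injective_iff_map_eq_zero]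
      intro a ha
      apply Subtype.ext
      apply Subtype.ext
      funext i
      have h1 : a.1.1 ∈ V := a.1.2
      have h2 : ∀ i : T, a.1.1 i = 0 := by
        intro i
        have := a.2
        rw [LinearMap.mem_ker] at this
        exact congrFun this i
      have h3 : ∀ i : R, a.1.1 i = 0 := fun i => congrFun ha i
      by_cases hiT : i ∈ T
      · exact h2 ⟨i, hiT⟩
      · by_cases hiR : i ∈ R
        · exact h3 ⟨i, hiR⟩
        · exact hVfix _ h1 i hiT hiR
    have h1 := LinearMap.finrank_le_finrank_of_injective hinj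
    rw [Module.finrank_fintype_fun_eq_card, Fintype.card_coe] at h1
    exact h1
  have hdim : Module.finrank (ZMod 3) V ≤ T.card / 2 + R.card := by
    have h1 := LinearMap.finrank_range_add_finrank_ker (πT.domRestrict V)
    omega
  exact count m _ V z E hdim (fun x hx => Submodule.subset_span ⟨x, hx, rfl⟩) hE

end Pool.Agent.CubeRank
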