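import Mathlib

/-!
# Average of `4 ^ r(A)`: the two combinatorial statements
-/

set_option autoImplicit false

namespace Pool.Agent.CubeRank

/-- (A1) a subspace of `F_3^m` of dimension `d` which contains a nowhere zero vector contains at
least `4^d / 2^m` nowhere zero vectors (Warning's second theorem for `{1,-1}^m`) -/
def WarnStmt : Prop := ∀ (m : ℕ) (W : Submodule (ZMod 3) (Fin m → ZMod 3)) (a : Fin m → ZMod 3),
  a ∈ W → (∀ i, a i ≠ 0) →
    4 ^ Module.finrank (ZMod 3) W ≤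
      2 ^ m * Nat.card {v : Fin m → ZMod 3 // v ∈ W ∧ ∀ i, v i ≠ 0}

/-- (A2) nowhere zero vectors with pairwise isotropic differences: `u` is the diagonal form on the
coordinates in `T`, the coordinates in `R` are free, the other ones are fixed -/
def CliqueStmt : Prop := ∀ (m : ℕ) (T R : Finset (Fin m)) (u : Fin m → ZMod 3)
  (E : Finset (Fin m → ZMod 3)),
  (∀ i ∈ T, u i ≠ 0) → (∀ x ∈ E, ∀ i, x i ≠ 0) →
  (∀ x ∈ E, ∀ y ∈ E, ∀ i, i ∉ T → i ∉ R → x i = y i) →
  (∀ x ∈ E, ∀ y ∈ E, ∑ i ∈ T, u i * (x i - y i) ^ 2 = 0) →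
    E.card ≤ 2 ^ (T.card / 2 + R.card)

end Pool.Agent.CubeRank
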