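import Mathlib
import Pool.Agent.CubeRank.ADefs

/-!
# Warning's second theorem for `{1,-1}^m` (module A_WARN, by helper85)
-/

set_option autoImplicit false

open Finset MvPolynomial

namespace Pool.Agent.CubeRank

lemma zmod3_sq : ∀ c : ZMod 3, c ≠ 0 → c ^ 2 = 1 := by decide

lemma zmod3_add_self : ∀ c : ZMod 3, c ≠ 0 → c + c ≠ 0 := by decide

/-- any `2 r + 1` vectors of `F_3^r` have a nonempty subfamily with sum zero -/
lemma exists_zero_sum_fin {ι : Type*} [DecidableEq ι] (r : ℕ) (s : Finset ι)
    (g : ι → Fin r → ZMod 3) (hs : 2 * r + 1 ≤ s.card) :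
    ∃ J ⊆ s, J.Nonempty ∧ ∑ i ∈ J, g i = 0 := by
  classical
  have : Fact (Nat.Prime 3) := ⟨Nat.prime_three⟩
  let f : Fin r → MvPolynomial s (ZMod 3) := fun j => ∑ i : s, C (g i j) * X i ^ 2
  have hdeg : (∑ j, (f j).totalDegree) < Fintype.card s := by
    have h1 : ∀ j, (f j).totalDegree ≤ 2 := by
      intro j
      refine (totalDegree_finsetSum _ _).trans (Finset.sup_le fun i _ => ?_)
      refine (totalDegree_mul _ _).trans ?_
      rw [totalDegree_C, zero_add, totalDegree_X_pow]
    calc (∑ j, (f j).totalDegree) ≤ ∑ j : Fin r, 2 := Finset.sum_le_sum fun j _ => h1 j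
      _ = 2 * r := by simp [mul_comm]
      _ < Fintype.card s := by rw [Fintype.card_coe]; omega
  have hdvd := char_dvd_card_solutions_of_fintype_sum_lt (p := 3) hdeg
  have h0 : ∀ j, eval (0 : s → ZMod 3) (f j) = 0 := by
    intro j
    simp [f]
  have hne : 1 < Fintype.card { x : s → ZMod 3 // ∀ i, eval x (f i) = 0 } := by
    have : Nonempty { x : s → ZMod 3 // ∀ i, eval x (f i) = 0 } := ⟨⟨0, h0⟩⟩
    have h3 : 3 ≤ Fintype.card { x : s → ZMod 3 // ∀ i, eval x (f i) = 0 } := by
      refine Nat.le_of_dvd Fintype.card_pos ?_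
      convert hdvd
    omega
  obtain ⟨⟨x, hx⟩, hx0⟩ := Fintype.exists_ne_of_one_lt_card hne ⟨0, h0⟩
  have hxne : x ≠ 0 := fun h => hx0 (Subtype.ext h)
  refine ⟨(univ.filter (fun i : s => x i ≠ 0)).map (Function.Embedding.subtype _), ?_, ?_, ?_⟩
  · intro i hi
    simp only [Finset.mem_map, Finset.mem_filter, Finset.mem_univ, true_and] at hi
    obtain ⟨j, -, rfl⟩ := hi
    exact j.2
  · rw [Finset.map_nonempty]
    obtain ⟨i, hi⟩ := Function.ne_iff.mp hxne
    exact ⟨i, by simpa using hi⟩
  · rw [Finset.sum_map]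
    funext j
    rw [Finset.sum_apply]
    have h1 := hx j
    simp only [f, map_sum, map_mul, eval_C, map_pow, eval_X] at h1
    rw [Finset.sum_filter]
    simp only [Function.Embedding.subtype_apply]
    rw [Pi.zero_apply]
    refine Eq.trans (Finset.sum_congr rfl fun i _ => ?_) h1
    by_cases hi : x i = 0
    · rw [if_neg (not_not.mpr hi), hi]
      simp
    · rw [if_pos hi, zmod3_sq _ hi, mul_one]

/-- the same for a vector space of dimension `r` -/
lemma exists_zero_sum {ι G : Type*} [DecidableEq ι] [AddCommGroup G] [Module (ZMod 3) G]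
    [Module.Finite (ZMod 3) G] (s : Finset ι) (g : ι → G)
    (hs : 2 * Module.finrank (ZMod 3) G + 1 ≤ s.card) :
    ∃ J ⊆ s, J.Nonempty ∧ ∑ i ∈ J, g i = 0 := by
  have : Fact (Nat.Prime 3) := ⟨Nat.prime_three⟩
  let b := Module.finBasis (ZMod 3) G
  obtain ⟨J, hJ, hJn, hJ0⟩ := exists_zero_sum_fin (Module.finrank (ZMod 3) G) s
    (fun i => b.equivFun (g i)) hs
  refine ⟨J, hJ, hJn, ?_⟩
  apply b.equivFun.injective
  rw [map_sum, map_zero]
  exact hJ0

/-- the number of zero-sum subfamilies -/
lemma count_zero_sum {ι G : Type*} [DecidableEq ι] [AddCommGroup G] [DecidableEq G]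
    [Module (ZMod 3) G] [Module.Finite (ZMod 3) G] (n : ℕ) :
    ∀ (s : Finset ι) (g : ι → G), s.card = n →
      2 ^ n ≤ 4 ^ Module.finrank (ZMod 3) G *
        (s.powerset.filter (fun I => ∑ i ∈ I, g i = 0)).card := by
  induction n with
  | zero =>
    intro s g hs
    have h1 : 1 ≤ (s.powerset.filter (fun I => ∑ i ∈ I, g i = 0)).card := by
      refine Finset.card_pos.mpr ⟨∅, ?_⟩
      simp
    calc 2 ^ 0 = 1 * 1 := by norm_num
      _ ≤ _ := Nat.mul_le_mul (Nat.one_le_pow _ _ (by norm_num)) h1
  | succ n ih =>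
    intro s g hs
    by_cases hr : n + 1 ≤ 2 * Module.finrank (ZMod 3) G
    · have h1 : 1 ≤ (s.powerset.filter (fun I => ∑ i ∈ I, g i = 0)).card := by
        refine Finset.card_pos.mpr ⟨∅, ?_⟩
        simp
      have h2 : 2 ^ (n + 1) ≤ 4 ^ Module.finrank (ZMod 3) G := by
        have : (4 : ℕ) = 2 ^ 2 := by norm_num
        rw [this, ← pow_mul]
        exact Nat.pow_le_pow_right (by norm_num) hr
      calc 2 ^ (n + 1) = 2 ^ (n + 1) * 1 := (mul_one _).symm
        _ ≤ _ := Nat.mul_le_mul h2 h1
    · obtain ⟨J, hJs, ⟨j, hj⟩, hJ0⟩ := exists_zero_sum s g (by omega)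
      have hjs : j ∈ s := hJs hj
      have hcard : (s.erase j).card = n := by rw [Finset.card_erase_of_mem hjs, hs]; rfl
      set g' : ι → G := fun i => if i ∈ J then - g i else g i with hg'
      have ih1 := ih (s.erase j) g hcard
      have ih2 := ih (s.erase j) g' hcard
      set A := (s.erase j).powerset.filter (fun I => ∑ i ∈ I, g i = 0) with hA
      set B := (s.erase j).powerset.filter (fun I => ∑ i ∈ I, g' i = 0) with hB
      have key : ∀ I : Finset ι, ∑ i ∈ symmDiff I J, g i = ∑ i ∈ I, g' i := by
        intro I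
        have h1 : ∑ i ∈ symmDiff I J, g i = ∑ i ∈ I \ J, g i + ∑ i ∈ J \ I, g i := by
          rw [symmDiff_def, Finset.sup_eq_union, Finset.sum_union]
          exact disjoint_sdiff_sdiff
        have h2 : ∑ i ∈ J \ I, g i = - ∑ i ∈ I ∩ J, g i := by
          have h3 : ∑ i ∈ J \ I, g i + ∑ i ∈ J ∩ I, g i = ∑ i ∈ J, g i := by
            rw [add_comm]
            exact Finset.sum_inter_add_sum_sdiff J I g
          rw [hJ0, Finset.inter_comm] at h3
          exact eq_neg_of_add_eq_zero_left h3
        have h4 : ∑ i ∈ I, g' i = ∑ i ∈ I \ J, g i + - ∑ i ∈ I ∩ J, g i := by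
          rw [← Finset.sum_inter_add_sum_sdiff I J g', add_comm]
          congr 1
          · refine Finset.sum_congr rfl fun i hi => ?_
            simp [hg', (Finset.mem_sdiff.mp hi).2]
          · rw [← Finset.sum_neg_distrib]
            refine Finset.sum_congr rfl fun i hi => ?_
            simp [hg', (Finset.mem_inter.mp hi).2]
        rw [h1, h2, h4]
      -- the sets of B, transported by the symmetric difference with J
      set B' := B.image (fun I => symmDiff I J) with hB'
      have hBcard : B'.card = B.card := by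
        rw [hB']
        refine Finset.card_image_of_injective _ ?_
        intro I I' h
        exact symmDiff_left_injective J h
      have hdisj : Disjoint A B' := by
        rw [Finset.disjoint_left]
        intro I hI hI'
        rw [hB', Finset.mem_image] at hI'
        obtain ⟨K, hK, rfl⟩ := hI'
        rw [hB, Finset.mem_filter, Finset.mem_powerset] at hK
        rw [hA, Finset.mem_filter, Finset.mem_powerset] at hI
        have hjK : j ∉ K := fun h => Finset.notMem_erase j s (hK.1 h)
        have hjI : j ∈ symmDiff K J := by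
          rw [Finset.mem_symmDiff]
          exact Or.inr ⟨hj, hjK⟩
        exact Finset.notMem_erase j s (hI.1 hjI)
      have hsub : A ∪ B' ⊆ s.powerset.filter (fun I => ∑ i ∈ I, g i = 0) := by
        intro I hI
        rw [Finset.mem_union] at hI
        rw [Finset.mem_filter, Finset.mem_powerset]
        rcases hI with hI | hI
        · rw [hA, Finset.mem_filter, Finset.mem_powerset] at hI
          exact ⟨hI.1.trans (Finset.erase_subset _ _), hI.2⟩
        · rw [hB', Finset.mem_image] at hI
          obtain ⟨K, hK, rfl⟩ := hI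
          rw [hB, Finset.mem_filter, Finset.mem_powerset] at hK
          refine ⟨?_, ?_⟩
          · intro i hi
            rw [Finset.mem_symmDiff] at hi
            rcases hi with hi | hi
            · exact Finset.erase_subset _ _ (hK.1 hi.1)
            · exact hJs hi.1
          · rw [key]
            exact hK.2
      have hle := Finset.card_le_card hsub
      rw [Finset.card_union_of_disjoint hdisj, hBcard] at hle
      calc 2 ^ (n + 1) = 2 ^ n + 2 ^ n := by ring
        _ ≤ 4 ^ Module.finrank (ZMod 3) G * A.card + 4 ^ Module.finrank (ZMod 3) G * B.card :=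
          add_le_add ih1 ih2
        _ = 4 ^ Module.finrank (ZMod 3) G * (A.card + B.card) := by ring
        _ ≤ _ := Nat.mul_le_mul_left _ hle

/-- **Warning's second theorem for `{1,-1}^m`** -/
theorem warn : WarnStmt := by
  classical
  intro m W a haW ha
  have : Fact (Nat.Prime 3) := ⟨Nat.prime_three⟩
  set G := (Fin m → ZMod 3) ⧸ W
  set g : Fin m → G := fun i => W.mkQ (Pi.single i (a i)) with hg
  have h1 := count_zero_sum (G := G) m (Finset.univ : Finset (Fin m)) g (by simp)
  have hfin : Module.finrank (ZMod 3) G + Module.finrank (ZMod 3) W = m := by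
    have := Submodule.finrank_quotient_add_finrank W
    simpa using this
  -- zero sum sets give nowhere zero vectors
  set N := ((Finset.univ : Finset (Fin m)).powerset.filter (fun I => ∑ i ∈ I, g i = 0)) with hN
  have hcount : N.card ≤ Nat.card {v : Fin m → ZMod 3 // v ∈ W ∧ ∀ i, v i ≠ 0} := by
    rw [Nat.card_eq_fintype_card]
    have hdef : ∀ I ∈ N, (a + ∑ i ∈ I, Pi.single i (a i)) ∈ W ∧
        ∀ i, (a + ∑ i ∈ I, Pi.single i (a i) : Fin m → ZMod 3) i ≠ 0 := by
      intro I hI
      rw [hN, Finset.mem_filter] at hI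
      refine ⟨?_, ?_⟩
      · refine W.add_mem haW ?_
        have h2 : W.mkQ (∑ i ∈ I, Pi.single i (a i)) = 0 := by
          rw [map_sum]
          exact hI.2
        rwa [Submodule.mkQ_apply, Submodule.Quotient.mk_eq_zero] at h2
      · intro i
        rw [Pi.add_apply, Finset.sum_apply]
        have h3 : ∑ c ∈ I, (Pi.single c (a c) : Fin m → ZMod 3) i = if i ∈ I then a i else 0 := by
          simp [Pi.single_apply, Finset.sum_ite_eq]
        rw [h3]
        split_ifs
        · exact zmod3_add_self _ (ha i)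
        · simpa using ha i
    have hval : ∀ (I : Finset (Fin m)) (i : Fin m),
        (a + ∑ i ∈ I, Pi.single i (a i) : Fin m → ZMod 3) i = a i + if i ∈ I then a i else 0 := by
      intro I i
      rw [Pi.add_apply, Finset.sum_apply]
      congr 1
      simp [Pi.single_apply, Finset.sum_ite_eq]
    have hinj : Function.Injective
        (fun I : N => (⟨a + ∑ i ∈ (I : Finset (Fin m)), Pi.single i (a i), hdef I I.2⟩ :
          {v : Fin m → ZMod 3 // v ∈ W ∧ ∀ i, v i ≠ 0})) := by
      intro I I' h
      have h5 : (a + ∑ i ∈ (I : Finset (Fin m)), Pi.single i (a i) : Fin m → ZMod 3) =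
          a + ∑ i ∈ (I' : Finset (Fin m)), Pi.single i (a i) := congrArg Subtype.val h
      apply Subtype.ext
      ext i
      have h6 := congrFun h5 i
      rw [hval, hval] at h6
      have h7 := ha i
      by_cases h8 : i ∈ (I : Finset (Fin m)) <;> by_cases h9 : i ∈ (I' : Finset (Fin m))
      · simp [h8, h9]
      · simp only [h8, h9, if_true, if_false] at h6
        exact absurd (add_left_cancel h6) h7
      · simp only [h8, h9, if_true, if_false] at h6
        exact absurd (add_left_cancel h6).symm h7
      · simp [h8, h9]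
    have := Fintype.card_le_of_injective _ hinj
    rwa [Fintype.card_coe] at this
  have h2 : 4 ^ m = 2 ^ m * 2 ^ m := by
    rw [← mul_pow]
    norm_num
  have h3 : 2 ^ m * 4 ^ Module.finrank (ZMod 3) W ≤
      2 ^ m * (2 ^ m * Nat.card {v : Fin m → ZMod 3 // v ∈ W ∧ ∀ i, v i ≠ 0}) := by
    calc 2 ^ m * 4 ^ Module.finrank (ZMod 3) W
        ≤ (4 ^ Module.finrank (ZMod 3) G * N.card) * 4 ^ Module.finrank (ZMod 3) W :=
          Nat.mul_le_mul_right _ h1
      _ = 4 ^ (Module.finrank (ZMod 3) G + Module.finrank (ZMod 3) W) * N.card := by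
          rw [pow_add]; ring
      _ = 2 ^ m * (2 ^ m * N.card) := by rw [hfin, h2]; ring
      _ ≤ _ := Nat.mul_le_mul_left _ (Nat.mul_le_mul_left _ hcount)
  exact Nat.le_of_mul_le_mul_left h3 (by positivity)

end Pool.Agent.CubeRank
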