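import Pool.Agent.CubeRank.Main

/-!
# All but at most two
-/

set_option autoImplicit false

namespace Pool.Agent.CubeRank

open Pool.Agent.Lib_helper18 Pool.Agent.Lib_helper18.Eis Pool.Agent.Lib_helper84.Cub

theorem tw_zero_iff {m : ℕ} {p e : Fin m → ℕ} (h9 : ∀ i, p i % 9 = 2 ∨ p i % 9 = 5) :
    tw p e = 0 ↔ AA p e % 9 = 1 ∨ AA p e % 9 = 8 := by
  have h1 : tw p e = wq (AA p e) := (wq_all h9).symm
  rw [h1]
  apply wq_zero_iff
  intro h
  unfold AA at h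
  rw [Prime.dvd_finsetProd_iff Int.prime_three] at h
  obtain ⟨j, -, hj⟩ := h
  exact not_three_dvd (h9 j) (Int.prime_three.dvd_of_dvd_pow hj)

/-- from pairs to all but two -/
theorem all_but_two {m : ℕ} {Good Cls : (Fin m → ℕ) → Prop}
    (h : ∀ e e' : Fin m → ℕ, (∀ i, e i = 1 ∨ e i = 2) → (∀ i, e' i = 1 ∨ e' i = 2) →
      e ≠ e' → (∃ i, e i = e' i) → Cls e → Cls e' → Good e ∨ Good e') :
    ∃ e₀ : Fin m → ℕ, ∀ e : Fin m → ℕ, (∀ i, e i = 1 ∨ e i = 2) → Cls e →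
      e ≠ e₀ → (∃ i, e i + e₀ i ≠ 3) → Good e := by
  by_cases hall : ∀ e : Fin m → ℕ, (∀ i, e i = 1 ∨ e i = 2) → Cls e → Good e
  · exact ⟨fun _ => 0, fun e he hc _ _ => hall e he hc⟩
  · push Not at hall
    obtain ⟨e₀, he₀, hc₀, hg₀⟩ := hall
    refine ⟨e₀, fun e he hc hne hi => ?_⟩
    obtain ⟨i, hi⟩ := hi
    rcases h e e₀ he he₀ hne ⟨i, by have := he i; have := he₀ i; omega⟩ hc hc₀ with h1 | h1
    · exact h1
    · exact absurd h1 hg₀

end Pool.Agent.CubeRank
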