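import Pool.Agent.CubeRank.GFinal
import Pool.Agent.CubeRank.AClique

/-!
# The average of `4 ^ r(A)`
-/

set_option autoImplicit false

namespace Pool.Agent.CubeRank

open Pool.Agent.Lib_helper18 Pool.Agent.Lib_helper18.Eis Pool.Agent.Lib_helper84.Cub

variable {m : ℕ} {p e e' : Fin m → ℕ}

/-- the group of classes of the curve with exponents `e`, normalised by the exponents -/
def WW {m : ℕ} (p e : Fin m → ℕ) : Submodule (ZMod 3) (Fin m → ZMod 3) :=
  Submodule.span (ZMod 3) {v | UG p e (fun i => (e i : ZMod 3) * v i)}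

theorem mem_WW (h : HypG p e) {v : Fin m → ZMod 3} :
    v ∈ WW p e ↔ UG p e (fun i => (e i : ZMod 3) * v i) := by
  refine ⟨fun hv => ?_, fun hv => Submodule.subset_span hv⟩
  unfold WW at hv
  induction hv using Submodule.span_induction with
  | mem x hx => exact hx
  | zero =>
    have := UG_const p e 0
    convert this using 2
    simp
  | add x y _ _ hx hy =>
    have := UG_add h hx hy
    convert this using 1
    funext i
    simp only [Pi.add_apply]
    ring
  | smul a x _ hx =>
    have := UG_smul h hx a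
    convert this using 1
    funext i
    simp only [Pi.smul_apply, smul_eq_mul]
    ring

theorem sq_one {f : Fin m → ℕ} (hf : ∀ i, f i = 1 ∨ f i = 2) (i : Fin m) :
    (f i : ZMod 3) * (f i : ZMod 3) = 1 := by
  rcases hf i with h | h <;> rw [h] <;> decide

theorem cast_ne {f : Fin m → ℕ} (hf : ∀ i, f i = 1 ∨ f i = 2) (i : Fin m) :
    (f i : ZMod 3) ≠ 0 := by
  rcases hf i with h | h <;> rw [h] <;> decide

/-- the exponent vector itself lies in `WW` -/
theorem self_mem (h : HypG p e) : (fun i => (e i : ZMod 3)) ∈ WW p e := by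
  rw [mem_WW h]
  have := UG_const p e 1
  convert this using 2
  exact sq_one h.he _

theorem card_WW (h : HypG p e) :
    Nat.card {v // UG p e v} = 3 ^ Module.finrank (ZMod 3) (WW p e) := by
  have h1 : Nat.card (WW p e) = 3 ^ Module.finrank (ZMod 3) (WW p e) := by
    rw [Module.natCard_eq_pow_finrank (K := ZMod 3)]
    simp
  rw [← h1]
  refine Nat.card_congr ?_
  exact
    { toFun := fun v => ⟨fun i => (e i : ZMod 3) * v.1 i, by
        rw [mem_WW h]
        have := v.2
        convert this using 1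
        funext i
        rw [← mul_assoc, sq_one h.he, one_mul]⟩
      invFun := fun v => ⟨fun i => (e i : ZMod 3) * v.1 i, (mem_WW h).mp v.2⟩
      left_inv := fun v => by
        ext i
        simp only
        rw [← mul_assoc, sq_one h.he, one_mul]
      right_inv := fun v => by
        ext i
        simp only
        rw [← mul_assoc, sq_one h.he, one_mul] }

theorem finrank_pos (hm : 1 ≤ m) (h : HypG p e) : 1 ≤ Module.finrank (ZMod 3) (WW p e) := by
  rw [Nat.one_le_iff_ne_zero]
  intro h0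
  rw [Submodule.finrank_eq_zero] at h0
  have h1 := self_mem h
  rw [h0, Submodule.mem_bot] at h1
  exact cast_ne h.he ⟨0, hm⟩ (congrFun h1 ⟨0, hm⟩)

/-- the bound for the rank -/
noncomputable def rk {m : ℕ} (p e : Fin m → ℕ) : ℕ := Module.finrank (ZMod 3) (WW p e) - 1

theorem gen_rk (hm : 2 ≤ m) (h : HypG p e) : GenBy (AA p e) (rk p e) := by
  refine gen_of_cardG hm h _ ?_
  rw [card_WW h, rk, Nat.sub_add_cancel (finrank_pos (by omega) h)]

/-- the law in terms of `WW` -/
theorem law_WW (h : HypG p e) (h' : HypG p e') (h3 : ∀ i, p i = 3 → e i = e' i)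
    (htg : tg p e = tg p e') {v : Fin m → ZMod 3} (hv : v ∈ WW p e) (hv' : v ∈ WW p e') :
    ∑ i, (if p i = 3 then 0 else wq (p i : ℤ)) * v i *
      ((e i : ZMod 3) - (e' i : ZMod 3)) ^ 2 = 0 := by
  rw [mem_WW h] at hv
  rw [mem_WW h'] at hv'
  have h1 := law_class h h' h3 htg hv hv' (fun i => by
    have h2 := h.he i
    have h4 := h'.he i
    split_ifs with h5
    · rw [h5]
    · have h6 : e' i + e i = 3 := by omega
      have h7 : (e' i : ZMod 3) + (e i : ZMod 3) = 3 := by exact_mod_cast congrArg Nat.cast h6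
      linear_combination (v i) * h7 + (v i) * three_zmod)
  refine Eq.trans ?_ h1
  rw [dS, Finset.sum_filter]
  refine Finset.sum_congr rfl (fun i _ => ?_)
  have h2 := h.he i
  have h4 := h'.he i
  split_ifs with h5 h6 h6
  · rw [sg, if_pos h5]; ring
  · rw [not_not.mp h6]; ring
  · rw [sg, if_neg h5]
    have h7 : ((e i : ZMod 3) - (e' i : ZMod 3)) ^ 2 = (e i : ZMod 3) * (e i : ZMod 3) := by
      rcases h2 with h2 | h2 <;> rcases h4 with h4 | h4
      · exact absurd (h2.trans h4.symm) h6
      · rw [h2, h4]; decide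
      · rw [h2, h4]; decide
      · exact absurd (h2.trans h4.symm) h6
    rw [h7]; ring
  · rw [not_not.mp h6]; ring

/-- the exponent vectors -/
def Ex (m : ℕ) : Finset (Fin m → ℕ) := Fintype.piFinset (fun _ => {1, 2})

theorem mem_Ex {f : Fin m → ℕ} : f ∈ Ex m ↔ ∀ i, f i = 1 ∨ f i = 2 := by
  unfold Ex
  simp [Fintype.mem_piFinset]

/-- nowhere zero vectors -/
def Nz (m : ℕ) : Finset (Fin m → ZMod 3) := Fintype.piFinset (fun _ => {1, 2})

theorem z3_ne (x : ZMod 3) : x ≠ 0 ↔ x = 1 ∨ x = 2 := by revert x; decide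

theorem mem_Nz {v : Fin m → ZMod 3} : v ∈ Nz m ↔ ∀ i, v i ≠ 0 := by
  unfold Nz
  simp [Fintype.mem_piFinset, z3_ne]

theorem card_Nz (m : ℕ) : (Nz m).card = 2 ^ m := by
  unfold Nz
  rw [Fintype.card_piFinset]
  have : ({1, 2} : Finset (ZMod 3)).card = 2 := by decide
  simp [this]

/-- the primes `≡ 2, 5 (mod 9)` -/
def TT {m : ℕ} (p : Fin m → ℕ) : Finset (Fin m) :=
  Finset.univ.filter (fun i => p i ≠ 3 ∧ p i % 9 ≠ 8)

/-- the primes `≡ 8 (mod 9)` -/
def RR {m : ℕ} (p : Fin m → ℕ) : Finset (Fin m) :=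
  Finset.univ.filter (fun i => p i ≠ 3 ∧ p i % 9 = 8)

open Classical in
/-- the sum over one class -/
theorem sum_class (hw : WarnStmt) (p : Fin m → ℕ) (hp3 : ∀ i, p i % 3 = 2 ∨ p i = 3)
    (F : Finset (Fin m → ℕ))
    (hF : ∀ e ∈ F, HypG p e)
    (hF' : ∀ e ∈ F, ∀ e' ∈ F, (∀ i, p i = 3 → e i = e' i) ∧ tg p e = tg p e') :
    ∑ e ∈ F, 4 ^ Module.finrank (ZMod 3) (WW p e) ≤
      2 ^ m * (2 ^ m * 2 ^ ((TT p).card / 2 + (RR p).card)) := by
  have h1 : ∀ e ∈ F, 4 ^ Module.finrank (ZMod 3) (WW p e) ≤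
      2 ^ m * ((Nz m).filter (fun v => v ∈ WW p e)).card := by
    intro e he
    have h := hF e he
    refine (hw m (WW p e) _ (self_mem h) (cast_ne h.he)).trans ?_
    refine Nat.mul_le_mul_left _ (le_of_eq ?_)
    rw [Nat.card_eq_fintype_card, Fintype.card_subtype]
    congr 1
    ext v
    simp only [Finset.mem_filter, Finset.mem_univ, true_and, mem_Nz]
    tauto
  refine (Finset.sum_le_sum h1).trans ?_
  rw [← Finset.mul_sum]
  refine Nat.mul_le_mul_left _ ?_
  -- double counting
  have h2 : ∑ e ∈ F, ((Nz m).filter (fun v => v ∈ WW p e)).card =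
      ∑ v ∈ Nz m, (F.filter (fun e => v ∈ WW p e)).card := by
    simp only [Finset.card_filter]
    exact Finset.sum_comm
  rw [h2, ← card_Nz m]
  refine (Finset.sum_le_card_nsmul _ _ (2 ^ ((TT p).card / 2 + (RR p).card)) (fun v hv => ?_)).trans
    (le_of_eq (smul_eq_mul _ _))
  rw [mem_Nz] at hv
  -- the clique
  have h3 : (F.filter (fun e => v ∈ WW p e)).card =
      ((F.filter (fun e => v ∈ WW p e)).image (fun e => fun i => (e i : ZMod 3))).card := by
    refine (Finset.card_image_of_injOn ?_).symm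
    intro f hf g hg hfg
    have h4 := (hF f (Finset.mem_filter.mp hf).1).he
    have h5 := (hF g (Finset.mem_filter.mp hg).1).he
    funext i
    have h6 := congrFun hfg i
    simp only at h6
    rcases h4 i with h7 | h7 <;> rcases h5 i with h8 | h8 <;> rw [h7, h8] at h6 ⊢ <;>
      exact absurd h6 (by decide)
  rw [h3]
  refine clique m (TT p) (RR p)
    (fun i => (if p i = 3 then 0 else wq (p i : ℤ)) * v i) _ ?_ ?_ ?_ ?_
  · intro i hi
    have h4 := (Finset.mem_filter.mp hi).2
    show (if p i = 3 then 0 else wq (p i : ℤ)) * v i ≠ 0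
    rw [if_neg h4.1]
    have h5 := (hp3 i).resolve_right h4.1
    exact mul_ne_zero (wq_ne (by omega)) (hv i)
  · intro x hx i
    obtain ⟨f, hf, rfl⟩ := Finset.mem_image.mp hx
    exact cast_ne (hF f (Finset.mem_filter.mp hf).1).he i
  · intro x hx y hy i hi hi'
    obtain ⟨f, hf, rfl⟩ := Finset.mem_image.mp hx
    obtain ⟨g, hg, rfl⟩ := Finset.mem_image.mp hy
    have h3i : p i = 3 := by
      by_contra h4
      by_cases h5 : p i % 9 = 8
      · exact hi' (Finset.mem_filter.mpr ⟨Finset.mem_univ _, h4, h5⟩)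
      · exact hi (Finset.mem_filter.mpr ⟨Finset.mem_univ _, h4, h5⟩)
    have h6 := (hF' f (Finset.mem_filter.mp hf).1 g (Finset.mem_filter.mp hg).1).1 i h3i
    simp only
    rw [h6]
  · intro x hx y hy
    obtain ⟨f, hf, rfl⟩ := Finset.mem_image.mp hx
    obtain ⟨g, hg, rfl⟩ := Finset.mem_image.mp hy
    have hf' := Finset.mem_filter.mp hf
    have hg' := Finset.mem_filter.mp hg
    have h6 := hF' f hf'.1 g hg'.1
    have h7 := law_WW (hF f hf'.1) (hF g hg'.1) h6.1 h6.2 hf'.2 hg'.2
    refine Eq.trans ?_ h7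
    refine Finset.sum_subset (Finset.subset_univ _) (fun i _ hi => ?_)
    have h8 : (if p i = 3 then 0 else wq (p i : ℤ)) = 0 := by
      split_ifs with h9
      · rfl
      · have h10 : p i % 9 = 8 := by
          by_contra h11
          exact hi (Finset.mem_filter.mpr ⟨Finset.mem_univ _, h9, h11⟩)
        exact (wq_zero_iff (by omega)).mpr (by omega)
    simp only
    rw [h8, zero_mul, zero_mul]

end Pool.Agent.CubeRank
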