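import Pool.Agent.CubeRank.Avg
import Pool.Agent.CubeRank.AWarn

/-!
# The average of `4 ^ r(A)`, all classes together
-/

set_option autoImplicit false

namespace Pool.Agent.CubeRank

open Pool.Agent.Lib_helper18 Pool.Agent.Lib_helper18.Eis Pool.Agent.Lib_helper84.Cub

/-- the number of primes `≢ 8 (mod 9)` -/
def nT {k : ℕ} (q : Fin k → ℕ) : ℕ := (Finset.univ.filter (fun i => q i % 9 ≠ 8)).card

/-- sum over the exponent vectors, cut into the three classes -/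
theorem sum_three {k : ℕ} (q : Fin k → ℕ) (f : (Fin k → ℕ) → ℕ) (B : ℕ)
    (h : ∀ c : ZMod 3, ∑ e ∈ (Ex k).filter (fun e => tg q e = c), f e ≤ B) :
    ∑ e ∈ Ex k, f e ≤ 3 * B := by
  rw [← Finset.sum_fiberwise_of_maps_to (t := Finset.univ) (g := fun e => tg q e)
    (fun _ _ => Finset.mem_univ _)]
  refine (Finset.sum_le_sum (fun c _ => h c)).trans (le_of_eq ?_)
  rw [Finset.sum_const, smul_eq_mul]
  rfl

section

variable {k : ℕ} {q : Fin k → ℕ} (hq : ∀ i, (q i).Prime) (h3 : ∀ i, q i % 3 = 2)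
  (hinj : Function.Injective q) (hex : ∃ i, q i % 9 ≠ 8)

include h3 in
theorem TT_no : (TT q).card = nT q := by
  unfold TT nT
  congr 1
  ext i
  simp only [Finset.mem_filter, Finset.mem_univ, true_and]
  have := h3 i
  omega

include h3 in
theorem RR_no : (RR q).card = k - nT q := by
  have h1 : RR q = Finset.univ \ (Finset.univ.filter (fun i => q i % 9 ≠ 8)) := by
    unfold RR
    ext i
    simp only [Finset.mem_filter, Finset.mem_univ, true_and, Finset.mem_sdiff, not_not]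
    have := h3 i
    omega
  rw [h1, Finset.card_sdiff_of_subset (Finset.subset_univ _), Finset.card_univ, Fintype.card_fin]
  rfl

theorem nT_le : nT q ≤ k := by
  unfold nT
  refine (Finset.card_le_univ _).trans ?_
  rw [Fintype.card_fin]

theorem TT_cons : (TT (Fin.cons 3 q : Fin (k + 1) → ℕ)).card = (TT q).card := by
  unfold TT
  rw [← Finset.card_map (Fin.succEmb k)]
  congr 1
  ext i
  simp only [Finset.mem_filter, Finset.mem_univ, true_and, Finset.mem_map, Fin.coe_succEmb]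
  refine Fin.cases ?_ (fun i => ?_) i
  · simp
  · simp

theorem RR_cons : (RR (Fin.cons 3 q : Fin (k + 1) → ℕ)).card = (RR q).card := by
  unfold RR
  rw [← Finset.card_map (Fin.succEmb k)]
  congr 1
  ext i
  simp only [Finset.mem_filter, Finset.mem_univ, true_and, Finset.mem_map, Fin.coe_succEmb]
  refine Fin.cases ?_ (fun i => ?_) i
  · simp
  · simp

include hq h3 hinj hex

/-- 3 does not divide `A` -/
theorem avg_no (hk : 2 ≤ k) :
    2 ^ ((nT q + 1) / 2) * ∑ e ∈ Ex k, 4 ^ (rk q e + 1) ≤ 3 * 8 ^ k := by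
  classical
  have h1 : ∑ e ∈ Ex k, 4 ^ (rk q e + 1) ≤ 3 * (2 ^ k * (2 ^ k * 2 ^ (nT q / 2 + (k - nT q)))) := by
    refine sum_three q _ _ (fun c => ?_)
    rw [← RR_no h3, ← TT_no h3]
    refine le_trans (le_of_eq ?_) (sum_class warn q (fun i => Or.inl (h3 i))
      ((Ex k).filter (fun e => tg q e = c)) (fun e he => ?_) (fun e he e' he' => ⟨fun i hi => ?_, ?_⟩))
    · refine Finset.sum_congr rfl (fun e he => ?_)
      have he' := mem_Ex.mp (Finset.mem_filter.mp he).1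
      rw [rk, Nat.sub_add_cancel (finrank_pos (by omega) (hypG_of hq h3 hinj he' hex))]
    · exact hypG_of hq h3 hinj (mem_Ex.mp (Finset.mem_filter.mp he).1) hex
    · have := h3 i; omega
    · rw [(Finset.mem_filter.mp he).2, (Finset.mem_filter.mp he').2]
  refine (Nat.mul_le_mul_left _ h1).trans (le_of_eq ?_)
  have h2 := nT_le (q := q)
  have e1 : (8 : ℕ) ^ k = 2 ^ (k + k + k) := by
    rw [show (8 : ℕ) = 2 ^ 3 by norm_num, ← pow_mul]
    congr 1
    omega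
  have e2 : k + k + k = (nT q + 1) / 2 + (k + (k + (nT q / 2 + (k - nT q)))) := by omega
  rw [e1, e2, pow_add 2 ((nT q + 1) / 2), pow_add 2 k (k + _), pow_add 2 k (nT q / 2 + _)]
  ring

/-- 3 divides `A` -/
theorem avg_cons (hk : 1 ≤ k) {j : ℕ} (hj : j = 1 ∨ j = 2) :
    2 ^ ((nT q + 1) / 2) * ∑ e ∈ Ex k, 4 ^ rk (Fin.cons 3 q : Fin (k + 1) → ℕ) (Fin.cons j e) ≤
      3 * 8 ^ k := by
  classical
  have h1 : ∑ e ∈ Ex k, 4 ^ (rk (Fin.cons 3 q : Fin (k + 1) → ℕ) (Fin.cons j e) + 1) ≤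
      3 * (2 ^ (k + 1) * (2 ^ (k + 1) * 2 ^ (nT q / 2 + (k - nT q)))) := by
    refine sum_three q _ _ (fun c => ?_)
    rw [← RR_no h3, ← TT_no h3, ← TT_cons (q := q), ← RR_cons (q := q)]
    have hcinj : Function.Injective
        (fun e : Fin k → ℕ => (Fin.cons j e : Fin (k + 1) → ℕ)) :=
      Fin.cons_right_injective (α := fun _ : Fin (k + 1) => ℕ) j
    refine le_trans (le_of_eq ?_) (sum_class warn (Fin.cons 3 q : Fin (k + 1) → ℕ) (fun i => ?_)
      (((Ex k).filter (fun e => tg q e = c)).image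
        (fun e : Fin k → ℕ => (Fin.cons j e : Fin (k + 1) → ℕ)))
      (fun e he => ?_) (fun e he e' he' => ⟨fun i hi => ?_, ?_⟩))
    · rw [Finset.sum_image (fun _ _ _ _ h => hcinj h)]
      refine Finset.sum_congr rfl (fun e he => ?_)
      have he' := mem_Ex.mp (Finset.mem_filter.mp he).1
      rw [rk, Nat.sub_add_cancel (finrank_pos (by omega) (hypG_cons hq h3 hinj he' hex hj))]
    · refine Fin.cases ?_ (fun i => ?_) i
      · right; simp
      · left; simpa using h3 i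
    · obtain ⟨f, hf, rfl⟩ := Finset.mem_image.mp he
      exact hypG_cons hq h3 hinj (mem_Ex.mp (Finset.mem_filter.mp hf).1) hex hj
    · obtain ⟨f, hf, rfl⟩ := Finset.mem_image.mp he
      obtain ⟨g, hg, rfl⟩ := Finset.mem_image.mp he'
      revert hi
      refine Fin.cases ?_ (fun i => ?_) i
      · intro _; simp
      · intro hi
        have := h3 i
        simp at hi
        omega
    · obtain ⟨f, hf, rfl⟩ := Finset.mem_image.mp he
      obtain ⟨g, hg, rfl⟩ := Finset.mem_image.mp he'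
      rw [tg_cons, tg_cons, (Finset.mem_filter.mp hf).2, (Finset.mem_filter.mp hg).2]
  have h2 := nT_le (q := q)
  have e1 : (8 : ℕ) ^ k = 2 ^ (k + k + k) := by
    rw [show (8 : ℕ) = 2 ^ 3 by norm_num, ← pow_mul]
    congr 1
    omega
  have e2 : k + k + k = (nT q + 1) / 2 + (k + (k + (nT q / 2 + (k - nT q)))) := by omega
  have h4 : 4 * (2 ^ ((nT q + 1) / 2) *
      ∑ e ∈ Ex k, 4 ^ rk (Fin.cons 3 q : Fin (k + 1) → ℕ) (Fin.cons j e)) ≤ 4 * (3 * 8 ^ k) := by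
    calc _ = 2 ^ ((nT q + 1) / 2) *
        ∑ e ∈ Ex k, 4 ^ (rk (Fin.cons 3 q : Fin (k + 1) → ℕ) (Fin.cons j e) + 1) := by
          rw [mul_left_comm, Finset.mul_sum]
          congr 1
          exact Finset.sum_congr rfl (fun e _ => by rw [pow_succ]; ring)
      _ ≤ _ := Nat.mul_le_mul_left _ h1
      _ = _ := by
          rw [e1, e2, pow_add 2 ((nT q + 1) / 2), pow_add 2 k (k + _), pow_add 2 k (nT q / 2 + _),
            pow_succ 2 k]
          ring
  exact Nat.le_of_mul_le_mul_left h4 (by norm_num)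

end

/-! ### the least number of generators -/

/-- the least number of generators -/
noncomputable def rr (A : ℤ) : ℕ := sInf {n : ℕ | GenBy A n}

theorem rr_le {A : ℤ} {n : ℕ} (h : GenBy A n) : rr A ≤ n := Nat.sInf_le h

theorem gen_rr {A : ℤ} {n : ℕ} (h : GenBy A n) : GenBy A (rr A) :=
  Nat.sInf_mem (s := {n : ℕ | GenBy A n}) ⟨n, h⟩

section

variable {k : ℕ} {q : Fin k → ℕ} (hq : ∀ i, (q i).Prime) (h3 : ∀ i, q i % 3 = 2)
  (hinj : Function.Injective q) (hex : ∃ i, q i % 9 ≠ 8)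

include hq h3 hinj hex

theorem gen_no (hk : 2 ≤ k) {e : Fin k → ℕ} (he : ∀ i, e i = 1 ∨ e i = 2) :
    GenBy (∏ i, (q i : ℤ) ^ e i) (rk q e) := gen_rk hk (hypG_of hq h3 hinj he hex)

theorem gen_cons (hk : 1 ≤ k) {j : ℕ} (hj : j = 1 ∨ j = 2) {e : Fin k → ℕ}
    (he : ∀ i, e i = 1 ∨ e i = 2) :
    GenBy (3 ^ j * ∏ i, (q i : ℤ) ^ e i)
      (rk (Fin.cons 3 q : Fin (k + 1) → ℕ) (Fin.cons j e)) := by
  rw [← AA_cons]
  exact gen_rk (by omega) (hypG_cons hq h3 hinj he hex hj)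

/-- **the average of `4 ^ r(A)`** -/
theorem average (hk : 2 ≤ k) :
    (∀ e : Fin k → ℕ, (∀ i, e i = 1 ∨ e i = 2) →
      GenBy (∏ i, (q i : ℤ) ^ e i) (rr (∏ i, (q i : ℤ) ^ e i)) ∧
      GenBy (3 * ∏ i, (q i : ℤ) ^ e i) (rr (3 * ∏ i, (q i : ℤ) ^ e i)) ∧
      GenBy (9 * ∏ i, (q i : ℤ) ^ e i) (rr (9 * ∏ i, (q i : ℤ) ^ e i))) ∧
    2 ^ ((nT q + 1) / 2) * ∑ e ∈ Ex k, 4 ^ (rr (∏ i, (q i : ℤ) ^ e i) + 1) ≤ 3 * 8 ^ k ∧
    2 ^ ((nT q + 1) / 2) * ∑ e ∈ Ex k, 4 ^ rr (3 * ∏ i, (q i : ℤ) ^ e i) ≤ 3 * 8 ^ k ∧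
    2 ^ ((nT q + 1) / 2) * ∑ e ∈ Ex k, 4 ^ rr (9 * ∏ i, (q i : ℤ) ^ e i) ≤ 3 * 8 ^ k := by
  have g0 := fun {e : Fin k → ℕ} (he : ∀ i, e i = 1 ∨ e i = 2) => gen_no hq h3 hinj hex hk he
  have g1 := fun {e : Fin k → ℕ} (he : ∀ i, e i = 1 ∨ e i = 2) =>
    gen_cons hq h3 hinj hex (by omega) (Or.inl rfl) he
  have g2 := fun {e : Fin k → ℕ} (he : ∀ i, e i = 1 ∨ e i = 2) =>
    gen_cons hq h3 hinj hex (by omega) (Or.inr rfl) he
  norm_num at g1 g2
  refine ⟨fun e he => ⟨gen_rr (g0 he), gen_rr (g1 he), gen_rr (g2 he)⟩, ?_, ?_, ?_⟩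
  · refine le_trans (Nat.mul_le_mul_left _ (Finset.sum_le_sum (fun e he => ?_)))
      (avg_no hq h3 hinj hex hk)
    exact Nat.pow_le_pow_right (by norm_num) (Nat.succ_le_succ (rr_le (g0 (mem_Ex.mp he))))
  · refine le_trans (Nat.mul_le_mul_left _ (Finset.sum_le_sum (fun e he => ?_)))
      (avg_cons hq h3 hinj hex (by omega) (Or.inl rfl))
    exact Nat.pow_le_pow_right (by norm_num) (rr_le (g1 (mem_Ex.mp he)))
  · refine le_trans (Nat.mul_le_mul_left _ (Finset.sum_le_sum (fun e he => ?_)))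
      (avg_cons hq h3 hinj hex (by omega) (Or.inr rfl))
    exact Nat.pow_le_pow_right (by norm_num) (rr_le (g2 (mem_Ex.mp he)))

end

end Pool.Agent.CubeRank
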