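import Pool.Agent.CubeRank.Defs

/-!
# CubeRank, module M1: coordinates of the points
-/

set_option autoImplicit false

namespace Pool.Agent.CubeRank

/-- primitive multiple of a solution -/
lemma bas_prim {A : ℤ} (hA0 : A ≠ 0) (hcf : CubeFree A) :
    ∀ (n : ℕ) (x y z : ℤ), z.natAbs = n → z ≠ 0 → x ^ 3 + y ^ 3 = A * z ^ 3 →
      ∃ a b c k : ℤ, c ≠ 0 ∧ IsCoprime a b ∧ a ^ 3 + b ^ 3 = A * c ^ 3 ∧
        x = k * a ∧ y = k * b ∧ z = k * c := by
  intro n
  induction n using Nat.strong_induction_on with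
  | _ n ih =>
  intro x y z hzn hz0 hxyz
  by_cases hco : IsCoprime x y
  · exact ⟨x, y, z, 1, hz0, hco, hxyz, by ring, by ring, by ring⟩
  · have hx0y0 : ¬ (x = 0 ∧ y = 0) := by
      rintro ⟨rfl, rfl⟩
      have : A * z ^ 3 = 0 := by rw [← hxyz]; ring
      rcases mul_eq_zero.mp this with h | h
      · exact hA0 h
      · exact hz0 (pow_eq_zero_iff (by norm_num) |>.mp h)
    have : ∃ r : ℤ, Prime r ∧ r ∣ x ∧ r ∣ y := by
      by_contra hcon
      push Not at hcon
      exact hco (isCoprime_of_prime_dvd hx0y0 (fun q hq hqx => hcon q hq hqx))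
    obtain ⟨r, hr, ⟨x', hx'⟩, ⟨y', hy'⟩⟩ := this
    have hr3 : r ^ 3 ∣ A * z ^ 3 := ⟨x' ^ 3 + y' ^ 3, by rw [← hxyz, hx', hy']; ring⟩
    have hrz : r ∣ z := by
      by_contra hrz
      exact hcf r hr (hr.pow_dvd_of_dvd_mul_right 3 (fun h => hrz (hr.dvd_of_dvd_pow h)) hr3)
    obtain ⟨z', hz'⟩ := hrz
    have hz'0 : z' ≠ 0 := by rintro rfl; simp at hz'; exact hz0 hz'
    have hlt : z'.natAbs < n := by
      rw [← hzn, hz', Int.natAbs_mul]
      have h1 : 1 < r.natAbs := by
        have := hr.not_isUnit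
        rw [Int.isUnit_iff_natAbs_eq] at this
        have h2 : r.natAbs ≠ 0 := Int.natAbs_ne_zero.mpr hr.ne_zero
        omega
      have h2 : 0 < z'.natAbs := Int.natAbs_pos.mpr hz'0
      nlinarith
    have heq : x' ^ 3 + y' ^ 3 = A * z' ^ 3 := by
      have hr30 : r ^ 3 ≠ 0 := pow_ne_zero _ hr.ne_zero
      apply mul_left_cancel₀ hr30
      rw [hx', hy', hz'] at hxyz
      linear_combination hxyz
    obtain ⟨a, b, c, k, hc, hab, he, h1, h2, h3⟩ := ih _ hlt x' y' z' rfl hz'0 heq
    exact ⟨a, b, c, r * k, hc, hab, he, by rw [hx', h1]; ring, by rw [hy', h2]; ring,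
      by rw [hz', h3]; ring⟩

lemma bas_eqn {A : ℤ} {x y : ℚ} (h : (EA A).toAffine.Nonsingular x y) :
    y ^ 2 = x ^ 3 - 432 * (A : ℚ) ^ 2 := by
  have h1 := ((EA A).toAffine.equation_iff x y).1 h.1
  simp only [EA] at h1
  linear_combination h1

lemma bas_nonsing {A : ℤ} {x y : ℚ} (hx : x ≠ 0) (h : y ^ 2 = x ^ 3 - 432 * (A : ℚ) ^ 2) :
    (EA A).toAffine.Nonsingular x y := by
  rw [WeierstrassCurve.Affine.nonsingular_iff]
  refine ⟨?_, Or.inl ?_⟩
  · rw [WeierstrassCurve.Affine.equation_iff]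
    simp only [EA]
    linear_combination h
  · simp only [EA]
    intro h2
    have : x ^ 2 = 0 := by linear_combination -h2 / 3
    exact hx (pow_eq_zero_iff (two_ne_zero) |>.1 this)

lemma bas_add_ne {A a b c : ℤ} (hA : A ≠ 0) (hc : c ≠ 0) (h : a ^ 3 + b ^ 3 = A * c ^ 3) :
    ((a : ℚ) + b) ≠ 0 := by
  intro h0
  have h1 : a + b = 0 := by exact_mod_cast h0
  have h2 : A * c ^ 3 = 0 := by
    rw [← h]
    have : b = -a := by omega
    rw [this]; ring
  exact (mul_ne_zero hA (pow_ne_zero 3 hc)) h2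

theorem basics : BasicsStmt := by
  intro A hA
  have hAq : (A : ℚ) ≠ 0 := by exact_mod_cast hA
  refine ⟨?_, ?_, ?_, ?_, ?_⟩
  · intro hcf P hP
    cases P with
    | zero => exact absurd rfl hP
    | some x y h =>
      have he := bas_eqn h
      have hx : x ≠ 0 := by
        rintro rfl
        have h1 : y ^ 2 + 432 * (A : ℚ) ^ 2 = 0 := by rw [he]; ring
        have h2 : 0 < (A : ℚ) ^ 2 := by positivity
        nlinarith [sq_nonneg y]
      set X : ℚ := (36 * A + y) / (6 * x) with hX
      set Y : ℚ := (36 * A - y) / (6 * x) with hY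
      have hXY : X ^ 3 + Y ^ 3 = A := by
        rw [hX, hY]
        field_simp
        linear_combination (216 * (A : ℚ)) * he
      have hs : X + Y = 12 * A / x := by rw [hX, hY]; field_simp; ring
      have hdf : X - Y = y / (3 * x) := by rw [hX, hY]; field_simp; ring
      have hXd : (X.den : ℚ) ≠ 0 := by exact_mod_cast X.den_ne_zero
      have hYd : (Y.den : ℚ) ≠ 0 := by exact_mod_cast Y.den_ne_zero
      have hXn : (X.num : ℚ) = X * X.den := (Rat.mul_den_eq_num X).symm
      have hYn : (Y.num : ℚ) = Y * Y.den := (Rat.mul_den_eq_num Y).symm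
      have hz : (X.den : ℤ) * Y.den ≠ 0 := by
        exact_mod_cast mul_ne_zero X.den_ne_zero Y.den_ne_zero
      have hxyz : (X.num * Y.den) ^ 3 + (Y.num * X.den) ^ 3 = A * ((X.den : ℤ) * Y.den) ^ 3 := by
        have : ((X.num : ℚ) * Y.den) ^ 3 + ((Y.num : ℚ) * X.den) ^ 3 =
            A * ((X.den : ℚ) * Y.den) ^ 3 := by
          rw [hXn, hYn, ← hXY]; ring
        exact_mod_cast this
      obtain ⟨a, b, c, k, hc, hab, hE, h1, h2, h3⟩ := bas_prim hA hcf _ _ _ _ rfl hz hxyz
      have hk : (k : ℚ) ≠ 0 := by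
        rintro h0
        have : k = 0 := by exact_mod_cast h0
        rw [this, zero_mul] at h3
        exact hz h3
      have hcq : (c : ℚ) ≠ 0 := by exact_mod_cast hc
      have h1' : X * ((X.den : ℚ) * Y.den) = k * a := by
        have : ((X.num : ℚ) * Y.den) = k * a := by exact_mod_cast h1
        rw [← this, hXn]; ring
      have h2' : Y * ((X.den : ℚ) * Y.den) = k * b := by
        have : ((Y.num : ℚ) * X.den) = k * b := by exact_mod_cast h2
        rw [← this, hYn]; ring
      have h3' : ((X.den : ℚ) * Y.den) = k * c := by exact_mod_cast h3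
      have ha : X * c = a := by
        apply mul_left_cancel₀ hk
        rw [← h1', h3']; ring
      have hb : Y * c = b := by
        apply mul_left_cancel₀ hk
        rw [← h2', h3']; ring
      refine ⟨a, b, c, hc, hab, hE, x, y, h, rfl, ?_, ?_⟩
      · have : (a : ℚ) + b = 12 * A / x * c := by rw [← hs, ← ha, ← hb]; ring
        rw [this]; field_simp
      · have e1 : (a : ℚ) + b = 12 * A / x * c := by rw [← hs, ← ha, ← hb]; ring
        have e2 : (a : ℚ) - b = y / (3 * x) * c := by rw [← hdf, ← ha, ← hb]; ring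
        rw [e1, e2]; field_simp; ring
  · intro a b c hc hab hE
    have hne := bas_add_ne hA hc hE
    have hcq : (c : ℚ) ≠ 0 := by exact_mod_cast hc
    have hEq : (a : ℚ) ^ 3 + (b : ℚ) ^ 3 = A * (c : ℚ) ^ 3 := by exact_mod_cast hE
    have hx : (12 * A * c / ((a : ℚ) + b)) ≠ 0 := by
      refine div_ne_zero ?_ hne
      exact mul_ne_zero (mul_ne_zero (by norm_num) hAq) hcq
    refine ⟨.some (12 * A * c / ((a : ℚ) + b)) (36 * A * (a - b) / ((a : ℚ) + b))
      (bas_nonsing hx ?_), hc, hab, hE, _, _, _, rfl, ?_, ?_⟩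
    · field_simp
      linear_combination (1728 : ℚ) * hEq
    · field_simp
    · field_simp
  · rintro P Q a b c ⟨hc, hab, hE, x, y, h, rfl, h1, h2⟩ ⟨_, _, _, x', y', h', rfl, h1', h2'⟩
    have hne := bas_add_ne hA hc hE
    have ex : x = x' := mul_right_cancel₀ hne (h1.trans h1'.symm)
    have ey : y = y' := mul_right_cancel₀ hne (h2.trans h2'.symm)
    subst ex
    subst ey
    rfl
  · rintro P a b c a' b' c' ⟨hc, hab, hE, x, y, h, rfl, h1, h2⟩
      ⟨hc', hab', hE', x', y', h', he, h1', h2'⟩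
    rw [WeierstrassCurve.Affine.Point.some.injEq] at he
    obtain ⟨rfl, rfl⟩ := he
    have hcq : (c : ℚ) ≠ 0 := by exact_mod_cast hc
    have hcq' : (c' : ℚ) ≠ 0 := by exact_mod_cast hc'
    have hx : x ≠ 0 := by
      rintro rfl
      rw [zero_mul] at h1
      exact (mul_ne_zero (mul_ne_zero (by norm_num) hAq) hcq) h1.symm
    -- `x (a+b) c' = x (a'+b') c`
    have e1 : ((a : ℚ) + b) * c' = (a' + b') * c := by
      apply mul_left_cancel₀ hx
      linear_combination c' * h1 - c * h1'
    have e2 : ((a : ℚ) - b) * c' = (a' - b') * c := by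
      have h36 : (36 : ℚ) * A ≠ 0 := mul_ne_zero (by norm_num) hAq
      apply mul_left_cancel₀ h36
      linear_combination -c' * h2 + c * h2' + y * e1
    have f1 : (a : ℚ) * c' = a' * c := by linear_combination (e1 + e2) / 2
    have f2 : (b : ℚ) * c' = b' * c := by linear_combination (e1 - e2) / 2
    have g1 : a * c' = a' * c := by exact_mod_cast f1
    have g2 : b * c' = b' * c := by exact_mod_cast f2
    obtain ⟨u, v, huv⟩ := hab
    obtain ⟨u', v', huv'⟩ := hab'
    have d1 : c ∣ c' := ⟨u * a' + v * b', by linear_combination (-c') * huv + u * g1 + v * g2⟩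
    have d2 : c' ∣ c := ⟨u' * a + v' * b, by linear_combination (-c) * huv' - u' * g1 - v' * g2⟩
    rcases Int.natAbs_eq_natAbs_iff.1 (Int.natAbs_eq_of_dvd_dvd d1 d2) with h3 | h3
    · left
      refine ⟨?_, ?_, h3.symm⟩
      · rw [h3] at g1
        exact (mul_right_cancel₀ hc' g1).symm
      · rw [h3] at g2
        exact (mul_right_cancel₀ hc' g2).symm
    · right
      refine ⟨?_, ?_, by rw [h3]; ring⟩
      · rw [h3] at g1
        have : (a + a') * c' = 0 := by linear_combination g1
        rcases mul_eq_zero.1 this with h4 | h4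
        · omega
        · exact absurd h4 hc'
      · rw [h3] at g2
        have : (b + b') * c' = 0 := by linear_combination g2
        rcases mul_eq_zero.1 this with h4 | h4
        · omega
        · exact absurd h4 hc'
  · rintro P a b c ⟨hc, hab, hE, x, y, h, rfl, h1, h2⟩
    refine ⟨⟨hc, hab.symm, by linear_combination hE, ?_⟩,
      ⟨neg_ne_zero.2 hc, hab.neg_left.neg_right, by linear_combination -hE, x, y, h, rfl, ?_, ?_⟩⟩
    · refine ⟨x, (EA A).toAffine.negY x y, (WeierstrassCurve.Affine.nonsingular_neg ..).mpr h,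
        WeierstrassCurve.Affine.Point.neg_some h, ?_, ?_⟩
      · linear_combination h1
      · simp only [WeierstrassCurve.Affine.negY, EA]
        linear_combination -h2
    · push_cast
      linear_combination -h1
    · push_cast
      linear_combination -h2

end Pool.Agent.CubeRank
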