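import Pool.Agent.CubeRank.Defs

/-!
# The third point on a chord (module CR_CHORD of MP_8e0b0b_nt)
-/

set_option autoImplicit false

namespace Pool.Agent.CubeRank

open WeierstrassCurve WeierstrassCurve.Affine

/-- the rational algebra behind the chord formula -/
theorem chord_alg (α e1 e2 e3 x1 y1 x2 y2 x3 y3 a1 b1 c1 a2 b2 c2 a3 b3 c3 : ℚ)
    (hα : α ≠ 0) (h3 : e3 ≠ 0)
    (hx : x1 - x2 ≠ 0)
    (E1 : y1 ^ 2 = x1 ^ 3 - 432 * α ^ 2) (E2 : y2 ^ 2 = x2 ^ 3 - 432 * α ^ 2)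
    (hx3 : (x1 - x2) ^ 2 * x3 = (y1 - y2) ^ 2 - (x1 + x2) * (x1 - x2) ^ 2)
    (hy3 : (x1 - x2) * y3 = (y1 - y2) * (x3 - x1) + (x1 - x2) * y1)
    (ha1 : a1 = e1 * (36 * α + y1) / (72 * α)) (hb1 : b1 = e1 * (36 * α - y1) / (72 * α))
    (hc1 : c1 = e1 * x1 / (12 * α))
    (ha2 : a2 = e2 * (36 * α + y2) / (72 * α)) (hb2 : b2 = e2 * (36 * α - y2) / (72 * α))
    (hc2 : c2 = e2 * x2 / (12 * α))
    (ha3 : a3 = e3 * (36 * α + y3) / (72 * α)) (hb3 : b3 = e3 * (36 * α - y3) / (72 * α))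
    (hc3 : c3 = e3 * x3 / (12 * α)) :
    (e1 ^ 2 * e2 ^ 2 * (x2 - x1) ^ 3 / (5184 * α ^ 2 * e3)) * a3 =
        (a1 * a2 ^ 2 + b1 * b2 ^ 2 - α * c1 * c2 ^ 2) * a1 -
        (a1 ^ 2 * a2 + b1 ^ 2 * b2 - α * c1 ^ 2 * c2) * a2 ∧
    (e1 ^ 2 * e2 ^ 2 * (x2 - x1) ^ 3 / (5184 * α ^ 2 * e3)) * b3 =
        (a1 * a2 ^ 2 + b1 * b2 ^ 2 - α * c1 * c2 ^ 2) * b1 -
        (a1 ^ 2 * a2 + b1 ^ 2 * b2 - α * c1 ^ 2 * c2) * b2 ∧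
    (e1 ^ 2 * e2 ^ 2 * (x2 - x1) ^ 3 / (5184 * α ^ 2 * e3)) * c3 =
        (a1 * a2 ^ 2 + b1 * b2 ^ 2 - α * c1 * c2 ^ 2) * c1 -
        (a1 ^ 2 * a2 + b1 ^ 2 * b2 - α * c1 ^ 2 * c2) * c2 := by
  obtain ⟨N12, hN12⟩ : ∃ N, N = x1 ^ 3 - 3 * x1 ^ 2 * x2 + 2 * y1 * y2 + 864 * α ^ 2 := ⟨_, rfl⟩
  obtain ⟨N21, hN21⟩ : ∃ N, N = x2 ^ 3 - 3 * x2 ^ 2 * x1 + 2 * y1 * y2 + 864 * α ^ 2 := ⟨_, rfl⟩
  have hD : N21 - N12 = (x2 - x1) ^ 3 := by rw [hN12, hN21]; ring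
  have hX : N21 * x1 - N12 * x2 = (x2 - x1) ^ 3 * x3 := by
    rw [hN12, hN21]
    linear_combination (x1 - x2) * hx3 + (x1 - x2) * E1 + (x1 - x2) * E2
  have hY : N21 * y1 - N12 * y2 = (x2 - x1) ^ 3 * y3 := by
    apply mul_left_cancel₀ hx
    linear_combination (y1 - y2) * hX - (x2 - x1) ^ 3 * hy3 +
      ((x1 - x2) * y2 - x2 * (y1 - y2)) * hD
  have hL12 : a1 ^ 2 * a2 + b1 ^ 2 * b2 - α * c1 ^ 2 * c2 = e1 ^ 2 * e2 * N12 / (5184 * α ^ 2) := by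
    rw [ha1, hb1, hc1, ha2, hb2, hc2, hN12]
    field_simp
    linear_combination (e1 ^ 2 * e2 * α * 644972544) * E1
  have hL21 : a1 * a2 ^ 2 + b1 * b2 ^ 2 - α * c1 * c2 ^ 2 = e1 * e2 ^ 2 * N21 / (5184 * α ^ 2) := by
    rw [ha1, hb1, hc1, ha2, hb2, hc2, hN21]
    field_simp
    linear_combination (e1 * e2 ^ 2 * α * 644972544) * E2
  rw [hL12, hL21]
  refine ⟨?_, ?_, ?_⟩
  · rw [ha1, ha2, ha3]
    field_simp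
    linear_combination (e1 ^ 2 * e2 ^ 2) * ((-36 * α) * hD - hY)
  · rw [hb1, hb2, hb3]
    field_simp
    linear_combination (e1 ^ 2 * e2 ^ 2) * ((-36 * α) * hD + hY)
  · rw [hc1, hc2, hc3]
    field_simp
    linear_combination (e1 ^ 2 * e2 ^ 2) * (- hX)

theorem chord : ChordStmt := by
  intro A hA _ P Q R a1 b1 c1 a2 b2 c2 a3 b3 c3 hsum hPQ hP hQ hR
  obtain ⟨hc1, hco1, hF1, x1, y1, n1, hP', hx1, hy1⟩ := hP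
  obtain ⟨hc2, hco2, hF2, x2, y2, n2, hQ', hx2, hy2⟩ := hQ
  obtain ⟨hc3, hco3, hF3, x3, y3, n3, hR', hx3, hy3⟩ := hR
  have hα : (A : ℚ) ≠ 0 := by exact_mod_cast hA
  have hne : ∀ a b c : ℤ, c ≠ 0 → a ^ 3 + b ^ 3 = A * c ^ 3 → ((a : ℚ) + b) ≠ 0 := by
    intro a b c hc hF h
    have h1 : a + b = 0 := by exact_mod_cast h
    have h2 : A * c ^ 3 = 0 := by
      rw [← hF]
      linear_combination (a ^ 2 - a * b + b ^ 2) * h1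
    rcases mul_eq_zero.mp h2 with h3 | h3
    · exact hA h3
    · exact hc (pow_eq_zero_iff (by norm_num) |>.mp h3)
  have e1 := hne a1 b1 c1 hc1 hF1
  have e2 := hne a2 b2 c2 hc2 hF2
  have e3 := hne a3 b3 c3 hc3 hF3
  have hxne : x1 ≠ x2 := by
    intro h
    have h1 := (Affine.Point.X_eq_iff (h₁ := n1) (h₂ := n2)).mp h
    rw [← hP', ← hQ'] at h1
    rcases h1 with h1 | h1
    · exact hPQ h1
    · rw [h1, neg_add_cancel, zero_add] at hsum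
      rw [hsum] at hR'
      exact Affine.Point.some_ne_zero n3 hR'.symm
  have hadd := Affine.Point.add_of_X_ne' (h₁ := n1) (h₂ := n2) hxne
  rw [← hP', ← hQ'] at hadd
  have hR2 : R = -(P + Q) := by
    rw [eq_neg_iff_add_eq_zero, add_comm]
    exact hsum
  rw [hadd, neg_neg, hR'] at hR2
  have hinj := Affine.Point.some.inj hR2
  have hE1 := (Affine.equation_iff _ _).mp n1.1
  have hE2 := (Affine.equation_iff _ _).mp n2.1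
  simp only [EA, zero_mul, add_zero] at hE1 hE2
  obtain ⟨hX3, hY3⟩ := hinj
  have hd : x1 - x2 ≠ 0 := sub_ne_zero.mpr hxne
  rw [Affine.slope_of_X_ne hxne] at hX3 hY3
  simp only [Affine.addX, Affine.negAddY, EA, zero_mul, add_zero, sub_zero] at hX3 hY3
  have k3 : (x1 - x2) ^ 2 * x3 = (y1 - y2) ^ 2 - (x1 + x2) * (x1 - x2) ^ 2 := by
    rw [hX3]
    field_simp
    ring
  have k4 : (x1 - x2) * y3 = (y1 - y2) * (x3 - x1) + (x1 - x2) * y1 := by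
    rw [hY3, hX3]
    field_simp
  have key := chord_alg A (a1 + b1) (a2 + b2) (a3 + b3) x1 y1 x2 y2 x3 y3 a1 b1 c1 a2 b2 c2
    a3 b3 c3 hα e3 hd (by linarith) (by linarith) k3 k4
    (by field_simp; linarith) (by field_simp; linarith) (by field_simp; linarith)
    (by field_simp; linarith) (by field_simp; linarith) (by field_simp; linarith)
    (by field_simp; linarith) (by field_simp; linarith) (by field_simp; linarith)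
  obtain ⟨ka, kb, kc⟩ := key
  set ρ : ℚ := ((a1 : ℚ) + b1) ^ 2 * ((a2 : ℚ) + b2) ^ 2 * (x2 - x1) ^ 3 /
    (5184 * (A : ℚ) ^ 2 * ((a3 : ℚ) + b3)) with hρ
  have hρ0 : ρ ≠ 0 := by
    have : x2 - x1 ≠ 0 := sub_ne_zero.mpr (Ne.symm hxne)
    rw [hρ]
    positivity
  obtain ⟨u, v, huv⟩ := hco3
  have huv' : (u : ℚ) * a3 + v * b3 = 1 := by exact_mod_cast huv
  refine ⟨u * ((a1 * a2 ^ 2 + b1 * b2 ^ 2 - A * c1 * c2 ^ 2) * a1 -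
        (a1 ^ 2 * a2 + b1 ^ 2 * b2 - A * c1 ^ 2 * c2) * a2) +
      v * ((a1 * a2 ^ 2 + b1 * b2 ^ 2 - A * c1 * c2 ^ 2) * b1 -
        (a1 ^ 2 * a2 + b1 ^ 2 * b2 - A * c1 ^ 2 * c2) * b2), ?_, ?_, ?_, ?_⟩
  all_goals
    have hg : (u : ℚ) * (((a1 : ℚ) * a2 ^ 2 + b1 * b2 ^ 2 - A * c1 * c2 ^ 2) * a1 -
        (a1 ^ 2 * a2 + b1 ^ 2 * b2 - A * c1 ^ 2 * c2) * a2) +
      v * ((a1 * a2 ^ 2 + b1 * b2 ^ 2 - A * c1 * c2 ^ 2) * b1 -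
        (a1 ^ 2 * a2 + b1 ^ 2 * b2 - A * c1 ^ 2 * c2) * b2) = ρ := by
      rw [← ka, ← kb]
      linear_combination ρ * huv'
  · intro h
    apply hρ0
    rw [← hg]
    exact_mod_cast h
  · have : ((u : ℚ) * (((a1 : ℚ) * a2 ^ 2 + b1 * b2 ^ 2 - A * c1 * c2 ^ 2) * a1 -
        (a1 ^ 2 * a2 + b1 ^ 2 * b2 - A * c1 ^ 2 * c2) * a2) +
      v * ((a1 * a2 ^ 2 + b1 * b2 ^ 2 - A * c1 * c2 ^ 2) * b1 -
        (a1 ^ 2 * a2 + b1 ^ 2 * b2 - A * c1 ^ 2 * c2) * b2)) * a3 =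
        ((a1 : ℚ) * a2 ^ 2 + b1 * b2 ^ 2 - A * c1 * c2 ^ 2) * a1 -
        (a1 ^ 2 * a2 + b1 ^ 2 * b2 - A * c1 ^ 2 * c2) * a2 := by
      rw [hg, ka]
    exact_mod_cast this
  · have : ((u : ℚ) * (((a1 : ℚ) * a2 ^ 2 + b1 * b2 ^ 2 - A * c1 * c2 ^ 2) * a1 -
        (a1 ^ 2 * a2 + b1 ^ 2 * b2 - A * c1 ^ 2 * c2) * a2) +
      v * ((a1 * a2 ^ 2 + b1 * b2 ^ 2 - A * c1 * c2 ^ 2) * b1 -
        (a1 ^ 2 * a2 + b1 ^ 2 * b2 - A * c1 ^ 2 * c2) * b2)) * b3 =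
        ((a1 : ℚ) * a2 ^ 2 + b1 * b2 ^ 2 - A * c1 * c2 ^ 2) * b1 -
        (a1 ^ 2 * a2 + b1 ^ 2 * b2 - A * c1 ^ 2 * c2) * b2 := by
      rw [hg, kb]
    exact_mod_cast this
  · have : ((u : ℚ) * (((a1 : ℚ) * a2 ^ 2 + b1 * b2 ^ 2 - A * c1 * c2 ^ 2) * a1 -
        (a1 ^ 2 * a2 + b1 ^ 2 * b2 - A * c1 ^ 2 * c2) * a2) +
      v * ((a1 * a2 ^ 2 + b1 * b2 ^ 2 - A * c1 * c2 ^ 2) * b1 -
        (a1 ^ 2 * a2 + b1 ^ 2 * b2 - A * c1 ^ 2 * c2) * b2)) * c3 =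
        ((a1 : ℚ) * a2 ^ 2 + b1 * b2 ^ 2 - A * c1 * c2 ^ 2) * c1 -
        (a1 ^ 2 * a2 + b1 ^ 2 * b2 - A * c1 ^ 2 * c2) * c2 := by
      rw [hg, kc]
    exact_mod_cast this

end Pool.Agent.CubeRank
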