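import Pool.Agent.CubeRank.Defs

/-!
# Module CR_COLL (MP_8e0b0b_nt): three collinear points (M2)
-/

set_option autoImplicit false

namespace Pool.Agent.CubeRank

open Pool.Agent.Lib_helper18 Pool.Agent.Lib_helper18.Eis Pool.Agent.Lib_helper84.Cub
open WeierstrassCurve.Affine

namespace Collx

lemma eq_EA {A : ℤ} {x y : ℚ} (h : (EA A).toAffine.Equation x y) :
    y ^ 2 = x ^ 3 - 432 * (A : ℚ) ^ 2 := by
  rw [equation_iff] at h
  simp only [EA] at h
  linear_combination h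

/-- the line through three points of sum zero -/
lemma line_of_sum {A : ℤ} {x1 y1 x2 y2 x3 y3 : ℚ} {h1 : (EA A).toAffine.Nonsingular x1 y1}
    {h2 : (EA A).toAffine.Nonsingular x2 y2} {h3 : (EA A).toAffine.Nonsingular x3 y3}
    (h : (Point.some x1 y1 h1 + Point.some x2 y2 h2 + Point.some x3 y3 h3 : GA A) = 0) :
    ∃ ℓ μ : ℚ, y1 = ℓ * x1 + μ ∧ y2 = ℓ * x2 + μ ∧ y3 = ℓ * x3 + μ ∧ x1 + x2 + x3 = ℓ ^ 2 ∧
      x1 * x2 + x1 * x3 + x2 * x3 = -2 * ℓ * μ ∧ x1 * x2 * x3 = μ ^ 2 + 432 * (A : ℚ) ^ 2 := by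
  by_cases hxy : x1 = x2 ∧ y1 = (EA A).toAffine.negY x2 y2
  · rw [Point.add_of_Y_eq hxy.1 hxy.2, zero_add] at h
    exact absurd h (Point.some_ne_zero _)
  have hR : (Point.some x3 y3 h3 : GA A) = -(Point.some x1 y1 h1 + Point.some x2 y2 h2) := by
    rw [eq_neg_iff_add_eq_zero, add_comm]
    exact h
  rw [Point.add_some hxy, Point.neg_some, Point.some.injEq] at hR
  obtain ⟨hx3, hy3⟩ := hR
  have hp := addPolynomial_slope h1.1 h2.1 hxy
  set ℓ := (EA A).toAffine.slope x1 x2 y1 y2 with hℓ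
  rw [addPolynomial_eq, neg_inj, Cubic.prod_X_sub_C_eq, Cubic.toPoly_injective] at hp
  rw [← hx3] at hp
  simp only [Cubic.mk.injEq] at hp
  obtain ⟨-, hb, hc, hd⟩ := hp
  have hx3' : x3 = ℓ ^ 2 - x1 - x2 := by
    rw [hx3, addX]
    simp only [EA]
    ring
  have hy3' : y3 = ℓ * (x3 - x1) + y1 := by
    rw [hy3, addY, negY_negY, negAddY, ← hx3]
  simp only [EA] at hb hc hd
  refine ⟨ℓ, y1 - ℓ * x1, by ring, ?_, ?_, ?_, ?_, ?_⟩
  · by_cases hx : x1 = x2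
    · have hy : y1 ≠ (EA A).toAffine.negY x2 y2 := fun h => hxy ⟨hx, h⟩
      have := Y_eq_of_Y_ne h1.1 h2.1 hx hy
      rw [← this, ← hx]
      ring
    · rw [hℓ, slope_of_X_ne hx]
      have : x1 - x2 ≠ 0 := sub_ne_zero.2 hx
      field_simp
      ring
  · rw [hy3']
    ring
  · rw [hx3']
    ring
  · linear_combination (-1 : ℚ) * hc
  · linear_combination hd

/-- primitive integral multiples -/
lemma primitive {r1 r2 r3 : ℚ} (h : r1 ≠ 0 ∨ r2 ≠ 0) : ∃ (t : ℚ) (l m n : ℤ), t ≠ 0 ∧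
    (l : ℚ) = t * r1 ∧ (m : ℚ) = t * r2 ∧ (n : ℚ) = t * r3 ∧
    ∃ u v s : ℤ, u * l + v * m + s * n = 1 := by
  -- common denominator
  set D : ℤ := r1.den * r2.den * r3.den with hD
  have hD0 : (D : ℚ) ≠ 0 := by
    rw [hD]
    push_cast
    have e1 : (r1.den : ℚ) ≠ 0 := by exact_mod_cast r1.den_ne_zero
    have e2 : (r2.den : ℚ) ≠ 0 := by exact_mod_cast r2.den_ne_zero
    have e3 : (r3.den : ℚ) ≠ 0 := by exact_mod_cast r3.den_ne_zero
    positivity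
  set L : ℤ := r1.num * (r2.den * r3.den) with hL
  set M : ℤ := r2.num * (r1.den * r3.den) with hM
  set N : ℤ := r3.num * (r1.den * r2.den) with hN
  have n1 : (r1.num : ℚ) = r1 * r1.den := (Rat.mul_den_eq_num r1).symm
  have n2 : (r2.num : ℚ) = r2 * r2.den := (Rat.mul_den_eq_num r2).symm
  have n3 : (r3.num : ℚ) = r3 * r3.den := (Rat.mul_den_eq_num r3).symm
  have eL : (L : ℚ) = D * r1 := by rw [hL, hD]; push_cast; rw [n1]; ring
  have eM : (M : ℚ) = D * r2 := by rw [hM, hD]; push_cast; rw [n2]; ring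
  have eN : (N : ℚ) = D * r3 := by rw [hN, hD]; push_cast; rw [n3]; ring
  have hLM : L ≠ 0 ∨ M ≠ 0 := by
    rcases h with h | h
    · left
      intro h0
      rw [h0, Int.cast_zero] at eL
      exact mul_ne_zero hD0 h eL.symm
    · right
      intro h0
      rw [h0, Int.cast_zero] at eM
      exact mul_ne_zero hD0 h eM.symm
  set g1 : ℤ := (Int.gcd L M : ℤ) with hg1
  set g : ℤ := (Int.gcd g1 N : ℤ) with hg
  have d1 : g ∣ g1 := Int.gcd_dvd_left _ _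
  have d2 : g ∣ N := Int.gcd_dvd_right _ _
  have d3 : g1 ∣ L := Int.gcd_dvd_left _ _
  have d4 : g1 ∣ M := Int.gcd_dvd_right _ _
  have b1 : g1 = L * Int.gcdA L M + M * Int.gcdB L M := Int.gcd_eq_gcd_ab L M
  have b2 : g = g1 * Int.gcdA g1 N + N * Int.gcdB g1 N := Int.gcd_eq_gcd_ab g1 N
  have hg0 : g ≠ 0 := by
    intro h0
    rw [h0, zero_dvd_iff] at d1
    rw [d1, zero_dvd_iff] at d3 d4
    rcases hLM with h | h
    · exact h d3
    · exact h d4
  have hg0' : (g : ℚ) ≠ 0 := by exact_mod_cast hg0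
  obtain ⟨l, hl⟩ := d1.trans d3
  obtain ⟨m, hm⟩ := d1.trans d4
  obtain ⟨n, hn⟩ := d2
  refine ⟨D / g, l, m, n, div_ne_zero hD0 hg0', ?_, ?_, ?_, Int.gcdA g1 N * Int.gcdA L M,
    Int.gcdA g1 N * Int.gcdB L M, Int.gcdB g1 N, ?_⟩
  · rw [div_mul_eq_mul_div, eq_div_iff hg0', ← eL, hl]; push_cast; ring
  · rw [div_mul_eq_mul_div, eq_div_iff hg0', ← eM, hm]; push_cast; ring
  · rw [div_mul_eq_mul_div, eq_div_iff hg0', ← eN, hn]; push_cast; ring
  · apply mul_left_cancel₀ hg0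
    rw [mul_one]
    calc g * (Int.gcdA g1 N * Int.gcdA L M * l + Int.gcdA g1 N * Int.gcdB L M * m +
          Int.gcdB g1 N * n)
        = (g * l * Int.gcdA L M + g * m * Int.gcdB L M) * Int.gcdA g1 N +
          g * n * Int.gcdB g1 N := by ring
      _ = g := by rw [← hl, ← hm, ← hn, ← b1, ← b2]

/-- a complex cube root of unity -/
noncomputable def om : ℂ := ⟨-1 / 2, √3 / 2⟩

lemma om_rel : om ^ 2 + om + 1 = 0 := by
  have h3 : √3 * √3 = 3 := Real.mul_self_sqrt (by norm_num)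
  apply Complex.ext
  · simp only [om, pow_two, Complex.add_re, Complex.mul_re, Complex.one_re, Complex.zero_re]
    linear_combination (-1 / 4 : ℝ) * h3
  · simp only [om, pow_two, Complex.add_im, Complex.mul_im, Complex.one_im, Complex.zero_im]
    ring

/-- the embedding of the Eisenstein integers into `ℂ` -/
noncomputable def emb (z : Eis) : ℂ := (z.re : ℂ) + (z.im : ℂ) * om

lemma emb_add (x y : Eis) : emb (x + y) = emb x + emb y := by
  simp only [emb, add_re, add_im]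
  push_cast
  ring

lemma emb_sub (x y : Eis) : emb (x - y) = emb x - emb y := by
  simp only [emb, sub_re, sub_im]
  push_cast
  ring

lemma emb_mul (x y : Eis) : emb (x * y) = emb x * emb y := by
  simp only [emb, mul_re, mul_im]
  push_cast
  linear_combination -((x.im : ℂ) * y.im) * om_rel

lemma emb_int (n : ℤ) : emb (n : Eis) = n := by
  simp [emb]

lemma emb_w : emb w = om := by
  simp [emb]

lemma emb_pow3 (x : Eis) : emb (x ^ 3) = emb x ^ 3 := by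
  rw [pow_succ, pow_two, emb_mul, emb_mul]
  ring

lemma emb_inj {x y : Eis} (h : emb x = emb y) : x = y := by
  have h3 : √3 ≠ 0 := by positivity
  have hi := congrArg Complex.im h
  have hr := congrArg Complex.re h
  simp only [emb, om, Complex.add_im, Complex.mul_im, Complex.intCast_im, Complex.intCast_re,
    Complex.add_re, Complex.mul_re] at hi hr
  have e1 : ((x.im : ℝ) - y.im) * (√3 / 2) = 0 := by linarith
  have e2 : (x.im : ℝ) = y.im := by
    rcases mul_eq_zero.1 e1 with h | h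
    · linarith
    · exact absurd h (by positivity)
  have e3 : (x.re : ℝ) = y.re := by
    rw [e2] at hr
    linarith
  ext
  · exact_mod_cast e3
  · exact_mod_cast e2

end Collx

open Collx in
theorem coll : CollStmt := by
  intro A hA _ P Q R a1 b1 c1 a2 b2 c2 a3 b3 c3 hsum hP hQ hR
  obtain ⟨hc1, -, he1, x1, y1, n1, rfl, hx1, hy1⟩ := hP
  obtain ⟨hc2, -, he2, x2, y2, n2, rfl, hx2, hy2⟩ := hQ
  obtain ⟨hc3, -, he3, x3, y3, n3, rfl, hx3, hy3⟩ := hR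
  obtain ⟨ℓ, μ, l1, l2, l3, s1, s2, s3⟩ := line_of_sum hsum
  have hAq : (A : ℚ) ≠ 0 := by exact_mod_cast hA
  have hne : 36 * (A : ℚ) - μ ≠ 0 ∨ -(36 * (A : ℚ) + μ) ≠ 0 := by
    by_contra hcon
    push Not at hcon
    apply hAq
    linarith [hcon.1, hcon.2]
  obtain ⟨t, l, m, n, ht, hl, hm, hn, hprim⟩ := primitive (r3 := -12 * A * ℓ) hne
  have line : ∀ (a b c : ℤ) (x y : ℚ), x * (a + b) = 12 * A * c → y * (a + b) = 36 * A * (a - b) →
      y = ℓ * x + μ → l * a + m * b + n * c = 0 := by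
    intro a b c x y h1 h2 h3
    have : ((l * a + m * b + n * c : ℤ) : ℚ) = 0 := by
      push_cast
      rw [hl, hm, hn]
      linear_combination t * (-1 : ℚ) * h2 + t * ℓ * h1 + t * ((a : ℚ) + b) * h3
    exact_mod_cast this
  refine ⟨l, m, n, hprim, line _ _ _ _ _ hx1 hy1 l1, line _ _ _ _ _ hx2 hy2 l2,
    line _ _ _ _ _ hx3 hy3 l3, ?_⟩
  -- the symmetric functions of the `y`
  have Y1 : y1 + y2 + y3 = 3 * μ + ℓ ^ 3 := by
    rw [l1, l2, l3]; linear_combination ℓ * s1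
  have Y2 : y1 * y2 + y1 * y3 + y2 * y3 = 3 * μ ^ 2 := by
    rw [l1, l2, l3]; linear_combination ℓ ^ 2 * s2 + 2 * ℓ * μ * s1
  have Y3 : y1 * y2 * y3 = μ ^ 3 + 432 * (A : ℚ) ^ 2 * ℓ ^ 3 := by
    rw [l1, l2, l3]; linear_combination ℓ ^ 3 * s3 + ℓ ^ 2 * μ * s2 + ℓ * μ ^ 2 * s1
  -- the coordinates
  have ca : ∀ (a b : ℤ) (y : ℚ), y * (a + b) = 36 * A * (a - b) →
      72 * (A : ℚ) * a = (a + b) * (36 * A + y) ∧ 72 * (A : ℚ) * b = (a + b) * (36 * A - y) := by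
    intro a b y h
    constructor
    · linear_combination (-1 : ℚ) * h
    · linear_combination h
  obtain ⟨ea1, eb1⟩ := ca a1 b1 y1 hy1
  obtain ⟨ea2, eb2⟩ := ca a2 b2 y2 hy2
  obtain ⟨ea3, eb3⟩ := ca a3 b3 y3 hy3
  apply emb_inj
  simp only [emb_mul, emb_add, emb_sub, emb_pow3, emb_int, emb_w]
  have h72 : (72 * (A : ℂ)) ^ 3 ≠ 0 := by
    have : (A : ℂ) ≠ 0 := by exact_mod_cast hA
    exact pow_ne_zero 3 (mul_ne_zero (by norm_num) this)
  apply mul_left_cancel₀ h72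
  -- casts to `ℂ`
  have Ea1 : 72 * (A : ℂ) * a1 = (a1 + b1) * (36 * A + y1) := by exact_mod_cast congrArg (fun q : ℚ => (q : ℂ)) ea1
  have Ea2 : 72 * (A : ℂ) * a2 = (a2 + b2) * (36 * A + y2) := by exact_mod_cast congrArg (fun q : ℚ => (q : ℂ)) ea2
  have Ea3 : 72 * (A : ℂ) * a3 = (a3 + b3) * (36 * A + y3) := by exact_mod_cast congrArg (fun q : ℚ => (q : ℂ)) ea3
  have Eb1 : 72 * (A : ℂ) * b1 = (a1 + b1) * (36 * A - y1) := by exact_mod_cast congrArg (fun q : ℚ => (q : ℂ)) eb1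
  have Eb2 : 72 * (A : ℂ) * b2 = (a2 + b2) * (36 * A - y2) := by exact_mod_cast congrArg (fun q : ℚ => (q : ℂ)) eb2
  have Eb3 : 72 * (A : ℂ) * b3 = (a3 + b3) * (36 * A - y3) := by exact_mod_cast congrArg (fun q : ℚ => (q : ℂ)) eb3
  have Z1 : (y1 : ℂ) + y2 + y3 = 3 * μ + ℓ ^ 3 := by exact_mod_cast congrArg (fun q : ℚ => (q : ℂ)) Y1
  have Z2 : (y1 : ℂ) * y2 + y1 * y3 + y2 * y3 = 3 * μ ^ 2 := by exact_mod_cast congrArg (fun q : ℚ => (q : ℂ)) Y2
  have Z3 : (y1 : ℂ) * y2 * y3 = μ ^ 3 + 432 * (A : ℂ) ^ 2 * ℓ ^ 3 := by exact_mod_cast congrArg (fun q : ℚ => (q : ℂ)) Y3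
  have Hl : (l : ℂ) = t * (36 * A - μ) := by exact_mod_cast congrArg (fun q : ℚ => (q : ℂ)) hl
  have Hm : (m : ℂ) = t * (-(36 * A + μ)) := by exact_mod_cast congrArg (fun q : ℚ => (q : ℂ)) hm
  have Hn : (n : ℂ) = t * (-12 * A * ℓ) := by exact_mod_cast congrArg (fun q : ℚ => (q : ℂ)) hn
  set s : ℂ := ((a1 : ℂ) + b1) * (a2 + b2) * (a3 + b3) with hs
  have hω := om_rel
  have pa : (72 * (A : ℂ)) ^ 3 * (a1 * a2 * a3) =
      s * ((36 * A + μ) ^ 3 + 1728 * (A : ℂ) ^ 2 * ℓ ^ 3) := by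
    calc (72 * (A : ℂ)) ^ 3 * (a1 * a2 * a3)
        = (72 * (A : ℂ) * a1) * (72 * (A : ℂ) * a2) * (72 * (A : ℂ) * a3) := by ring
      _ = s * ((36 * A + y1) * (36 * A + y2) * (36 * A + y3)) := by
          rw [Ea1, Ea2, Ea3, hs]; ring
      _ = _ := by
          congr 1
          linear_combination (36 * (A : ℂ)) ^ 2 * Z1 + 36 * (A : ℂ) * Z2 + Z3
  have pw : (72 * (A : ℂ)) ^ 3 * ((a1 + om * b1) * (a2 + om * b2) * (a3 + om * b3)) =
      s * ((1 - om) * μ + 36 * A * (1 + om)) ^ 3 := by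
    calc (72 * (A : ℂ)) ^ 3 * ((a1 + om * b1) * (a2 + om * b2) * (a3 + om * b3))
        = (72 * (A : ℂ) * a1 + om * (72 * (A : ℂ) * b1)) *
          (72 * (A : ℂ) * a2 + om * (72 * (A : ℂ) * b2)) *
          (72 * (A : ℂ) * a3 + om * (72 * (A : ℂ) * b3)) := by ring
      _ = s * ((36 * A * (1 + om) + (1 - om) * y1) * (36 * A * (1 + om) + (1 - om) * y2) *
          (36 * A * (1 + om) + (1 - om) * y3)) := by
          rw [Ea1, Ea2, Ea3, Eb1, Eb2, Eb3, hs]; ring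
      _ = _ := by
          congr 1
          linear_combination (36 * (A : ℂ) * (1 + om)) ^ 2 * (1 - om) * Z1 +
            36 * (A : ℂ) * (1 + om) * (1 - om) ^ 2 * Z2 + (1 - om) ^ 3 * Z3 +
            ℓ ^ 3 * (1 - om) * 1728 * (A : ℂ) ^ 2 * hω
  have hnm : ((n ^ 3 + A * m ^ 3 : ℤ) : ℂ) =
      -(A : ℂ) * t ^ 3 * ((36 * A + μ) ^ 3 + 1728 * (A : ℂ) ^ 2 * ℓ ^ 3) := by
    push_cast
    rw [Hn, Hm]
    ring
  have hml : (m : ℂ) - om * l = -t * ((1 - om) * μ + 36 * A * (1 + om)) := by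
    rw [Hm, Hl]
    ring
  have hprod : (((a1 * a2 * a3 : ℤ)) : ℂ) = a1 * a2 * a3 := by push_cast; ring
  rw [hnm, hml, hprod]
  linear_combination (-(A : ℂ) * t ^ 3 * ((36 * A + μ) ^ 3 + 1728 * (A : ℂ) ^ 2 * ℓ ^ 3)) * pw +
    (A : ℂ) * t ^ 3 * ((1 - om) * μ + 36 * A * (1 + om)) ^ 3 * pa

end Pool.Agent.CubeRank
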