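import Pool.Agent.Lib_helper84.Cub.Defs
import Pool.Agent.Lib_helper18.Sym

/-!
# Ranks of the curves `X³ + Y³ = A`: definitions and statements of the modules
(MP_8e0b0b_nt; mathematics: helper84)
-/

set_option autoImplicit false

namespace Pool.Agent.CubeRank

open Pool.Agent.Lib_helper18 Pool.Agent.Lib_helper18.Eis Pool.Agent.Lib_helper84.Cub

/-- `y² = x³ - 432 A²`, the Weierstrass form of `X³ + Y³ = A`:
`x = 12 A / (X + Y)`, `y = 36 A (X - Y) / (X + Y)`. -/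
def EA (A : ℤ) : WeierstrassCurve ℚ where
  a₁ := 0
  a₂ := 0
  a₃ := 0
  a₄ := 0
  a₆ := -432 * (A : ℚ) ^ 2

/-- the group of rational points -/
abbrev GA (A : ℤ) : Type := (EA A).toAffine.Point

/-- `P` is the point with integral homogeneous coordinates `(a : b : c)` on `X³ + Y³ = A Z³` -/
def Crd (A : ℤ) (P : GA A) (a b c : ℤ) : Prop :=
  c ≠ 0 ∧ IsCoprime a b ∧ a ^ 3 + b ^ 3 = A * c ^ 3 ∧
    ∃ (x y : ℚ) (h : (EA A).toAffine.Nonsingular x y), P = .some x y h ∧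
      x * (a + b) = 12 * A * c ∧ y * (a + b) = 36 * A * (a - b)

/-- `A` has no cube factor -/
def CubeFree (A : ℤ) : Prop := ∀ q : ℤ, Prime q → ¬ q ^ 3 ∣ A

/-- (M1) existence and uniqueness of the coordinates; the negative -/
def BasicsStmt : Prop := ∀ A : ℤ, A ≠ 0 →
  (CubeFree A → ∀ P : GA A, P ≠ 0 → ∃ a b c : ℤ, Crd A P a b c) ∧
  (∀ a b c : ℤ, c ≠ 0 → IsCoprime a b → a ^ 3 + b ^ 3 = A * c ^ 3 → ∃ P : GA A, Crd A P a b c) ∧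
  (∀ (P Q : GA A) (a b c : ℤ), Crd A P a b c → Crd A Q a b c → P = Q) ∧
  (∀ (P : GA A) (a b c a' b' c' : ℤ), Crd A P a b c → Crd A P a' b' c' →
    (a' = a ∧ b' = b ∧ c' = c) ∨ (a' = -a ∧ b' = -b ∧ c' = -c)) ∧
  (∀ (P : GA A) (a b c : ℤ), Crd A P a b c → Crd A (-P) b a c ∧ Crd A P (-a) (-b) (-c))

/-- (M2) three collinear points: the primitive equation `l X + m Y + n Z = 0` of the line, and the
values of the linear forms `X + ω Y`, `X` on the three points -/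
def CollStmt : Prop := ∀ A : ℤ, A ≠ 0 → (¬ ∃ n : ℤ, n ^ 3 = A) →
  ∀ (P Q R : GA A) (a1 b1 c1 a2 b2 c2 a3 b3 c3 : ℤ), P + Q + R = 0 →
    Crd A P a1 b1 c1 → Crd A Q a2 b2 c2 → Crd A R a3 b3 c3 →
    ∃ l m n : ℤ, (∃ u v t : ℤ, u * l + v * m + t * n = 1) ∧
      l * a1 + m * b1 + n * c1 = 0 ∧ l * a2 + m * b2 + n * c2 = 0 ∧ l * a3 + m * b3 + n * c3 = 0 ∧
      ((n ^ 3 + A * m ^ 3 : ℤ) : Eis) *
          (((a1 : Eis) + w * b1) * ((a2 : Eis) + w * b2) * ((a3 : Eis) + w * b3)) =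
        (A : Eis) * ((m : Eis) - w * l) ^ 3 * ((a1 * a2 * a3 : ℤ) : Eis)

/-- (M2b) the third point on a chord -/
def ChordStmt : Prop := ∀ A : ℤ, A ≠ 0 → (¬ ∃ n : ℤ, n ^ 3 = A) →
  ∀ (P Q R : GA A) (a1 b1 c1 a2 b2 c2 a3 b3 c3 : ℤ), P + Q + R = 0 → P ≠ Q →
    Crd A P a1 b1 c1 → Crd A Q a2 b2 c2 → Crd A R a3 b3 c3 →
    ∃ g : ℤ, g ≠ 0 ∧
      g * a3 = (a1 * a2 ^ 2 + b1 * b2 ^ 2 - A * c1 * c2 ^ 2) * a1 -
        (a1 ^ 2 * a2 + b1 ^ 2 * b2 - A * c1 ^ 2 * c2) * a2 ∧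
      g * b3 = (a1 * a2 ^ 2 + b1 * b2 ^ 2 - A * c1 * c2 ^ 2) * b1 -
        (a1 ^ 2 * a2 + b1 ^ 2 * b2 - A * c1 ^ 2 * c2) * b2 ∧
      g * c3 = (a1 * a2 ^ 2 + b1 * b2 ^ 2 - A * c1 * c2 ^ 2) * c1 -
        (a1 ^ 2 * a2 + b1 ^ 2 * b2 - A * c1 ^ 2 * c2) * c2

/-- the tripling polynomials -/
def TX (a b : ℤ) : ℤ := a ^ 9 + 6 * a ^ 6 * b ^ 3 + 3 * a ^ 3 * b ^ 6 - b ^ 9
def TY (a b : ℤ) : ℤ := -a ^ 9 + 3 * a ^ 6 * b ^ 3 + 6 * a ^ 3 * b ^ 6 + b ^ 9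
def TZ (a b c : ℤ) : ℤ := 3 * a * b * c * (a ^ 6 + a ^ 3 * b ^ 3 + b ^ 6)

/-- (M3) tripling; note `TX + TY = 9 a³ b³ (a³ + b³) ≠ 0` -/
def TripleStmt : Prop := ∀ A : ℤ, A ≠ 0 → (¬ ∃ n : ℤ, n ^ 3 = A) →
  ∀ (P : GA A) (a b c : ℤ), Crd A P a b c →
    ∃ (x y : ℚ) (h : (EA A).toAffine.Nonsingular x y), (3 : ℕ) • P = .some x y h ∧
      x * (TX a b + TY a b) = 12 * A * TZ a b c ∧
      y * (TX a b + TY a b) = 36 * A * (TX a b - TY a b)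

/-- (M3b) growth of the coordinates under tripling -/
def GrowthStmt : Prop := ∀ A : ℤ, A ≠ 0 → (¬ ∃ n : ℤ, n ^ 3 = A) →
  ∀ (P : GA A) (a b c a' b' c' : ℤ), Crd A P a b c → Crd A ((3 : ℕ) • P) a' b' c' →
    |a * b * c| * (a ^ 6 + a ^ 3 * b ^ 3 + b ^ 6) ≤ 3 * |c'|

/-- the number `A` -/
def AA {m : ℕ} (p e : Fin m → ℕ) : ℤ := ∏ i, (p i : ℤ) ^ e i

/-- standing hypotheses on the primes and the exponents -/
structure Hyp {m : ℕ} (p e : Fin m → ℕ) : Prop where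
  hp : ∀ i, (p i).Prime
  h9 : ∀ i, p i % 9 = 2 ∨ p i % 9 = 5
  inj : Function.Injective p
  he : ∀ i, e i = 1 ∨ e i = 2

/-- (M4) every rational point comes from the 3-isogenous curve -/
def LiftStmt : Prop := ∀ (m : ℕ) (p e : Fin m → ℕ), 1 ≤ m → Hyp p e →
  ∀ a b c : ℤ, c ≠ 0 → IsCoprime a b → a ^ 3 + b ^ 3 = AA p e * c ^ 3 →
    ∃ α δ s t1 t2 : ℤ, IsCoprime α δ ∧ s ≠ 0 ∧ t1 ≠ 0 ∧ t2 ≠ 0 ∧
      α * δ * (α - δ) = AA p e * s ^ 3 ∧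
      (t1 : Eis) * ((a : Eis) + w * b) = t2 * (lam * ((α : Eis) + δ * w) ^ 3)

/-- the subgroup of multiples of 3 -/
def threeMul (A : ℤ) : AddSubgroup (GA A) := (nsmulAddMonoidHom (α := GA A) 3).range

/-- (M6) number of generators -/
def GenStmt : Prop := ∀ A : ℤ, CubeFree A → 3 ≤ A.natAbs → ∀ d : ℕ,
  (threeMul A).FiniteIndex → (threeMul A).index ≤ 3 ^ d →
    ∃ s : Finset (GA A), s.card ≤ d ∧ AddSubgroup.closure (s : Set (GA A)) = ⊤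

/-- the class of a point: `a + ω b` is a rational multiple of `λ γ³`, and `v i` is the cubic residue
symbol of `γ` at `p i` divided by that of `ω` -/
def Kap {m : ℕ} (p e : Fin m → ℕ) (P : GA (AA p e)) (v : Fin m → ZMod 3) : Prop :=
  (P = 0 ∧ ∃ c, ∀ i, v i = c) ∨
  ∃ (a b c : ℤ) (γ : Eis) (t1 t2 : ℤ), Crd (AA p e) P a b c ∧ t1 ≠ 0 ∧ t2 ≠ 0 ∧
    (t1 : Eis) * ((a : Eis) + w * b) = t2 * (lam * γ ^ 3) ∧
    ∀ i, ¬ (p i : Eis) ∣ γ ∧ sym (p i : Eis) γ = v i * sym (p i : Eis) w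

/-- residues modulo 3 as elements of `Fin 3` -/
def zf (z : ZMod 3) : Fin 3 := ⟨z.val, ZMod.val_lt z⟩

/-- the class `v` is represented by an integral point on the corresponding curve
`∑ cell k * x k ^ 3 = 0` -/
def Rep {m : ℕ} (p e : Fin m → ℕ) (v : Fin m → ZMod 3) : Prop :=
  ∃ x : Fin 3 → ℤ, IsPt p e (fun i => zf (v i)) x

/-- (M5a) every point has a class -/
def KapExStmt : Prop := ∀ (m : ℕ) (p e : Fin m → ℕ), 1 ≤ m → Hyp p e → ∀ P : GA (AA p e),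
  ∃ v, Kap p e P v

/-- (M5b) the class is additive -/
def KapAddStmt : Prop := ∀ (m : ℕ) (p e : Fin m → ℕ), 1 ≤ m → Hyp p e →
  ∀ (P Q : GA (AA p e)) (v v' : Fin m → ZMod 3), Kap p e P v → Kap p e Q v' →
    Kap p e (P + Q) (v + v')

/-- (M5c) points of class zero are multiples of 3, other classes are represented -/
def KapRepStmt : Prop := ∀ (m : ℕ) (p e : Fin m → ℕ), 1 ≤ m → Hyp p e →
  ∀ (P : GA (AA p e)) (v : Fin m → ZMod 3), Kap p e P v →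
    ((∃ c, ∀ i, v i = c) → P ∈ threeMul (AA p e)) ∧ ((¬ ∃ c, ∀ i, v i = c) → Rep p e v)

/-- signed weights -/
def sw {m : ℕ} (p e : Fin m → ℕ) (i : Fin m) : ZMod 3 := (e i : ZMod 3) * wq (p i : ℤ)

/-- total weight; it is 0 iff `A ≡ ±1 (mod 9)` -/
def tw {m : ℕ} (p e : Fin m → ℕ) : ZMod 3 := ∑ i, sw p e i

/-- the linear form of the reciprocity law -/
def Lam {m : ℕ} (p e : Fin m → ℕ) (S : Finset (Fin m)) (v : Fin m → ZMod 3) : ZMod 3 :=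
  ∑ i ∈ S, sw p e i * v i - (∑ i ∈ S, sw p e i) * tw p e * ∑ i, sw p e i * v i

/-- indicator of `S` -/
def ind {m : ℕ} (S : Finset (Fin m)) (i : Fin m) : ZMod 3 := if i ∈ S then 1 else 0

/-- (M7) the reciprocity law for two exponent vectors -/
def LawStmt : Prop := ∀ (m : ℕ) (p e e' : Fin m → ℕ) (S : Finset (Fin m)), Hyp p e → Hyp p e' →
  (∀ i, i ∈ S ↔ e i ≠ e' i) → S.Nonempty → S ≠ Finset.univ →
  ((tw p e ≠ 0 ∧ tw p e' ≠ 0) ∨ (tw p e = 0 ∧ tw p e' = 0)) →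
  ¬ (Rep p e (ind S) ∧ Rep p e' (ind S)) ∧
  (Rep p e' (ind S) → ∀ v, Rep p e v → Lam p e S v = 0) ∧
  (∀ (v v' : Fin m → ZMod 3) (c d : ZMod 3), Rep p e v → Rep p e' v' →
    (∀ i, v' i = if i ∈ S then c - v i else v i + d) → Lam p e S v = 0)

/-- generation by at most `n` points -/
def GenBy (A : ℤ) (n : ℕ) : Prop :=
  ∃ s : Finset (GA A), s.card ≤ n ∧ AddSubgroup.closure (s : Set (GA A)) = ⊤

/-- (M8) the theorem -/
def MainStmt : Prop := ∀ (m : ℕ) (p e e' : Fin m → ℕ), 3 ≤ m → Hyp p e → Hyp p e' →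
  e ≠ e' → (∃ i, e i = e' i) →
  (tw p e ≠ 0 → tw p e' ≠ 0 → GenBy (AA p e) (m - 3) ∨ GenBy (AA p e') (m - 3)) ∧
  (tw p e = 0 → tw p e' = 0 → GenBy (AA p e) (m - 4) ∨ GenBy (AA p e') (m - 4))

end Pool.Agent.CubeRank
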