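import Pool.Agent.CubeRank.Defs

/-!
# Ranks of the curves `X³ + Y³ = A`, general version: all prime factors of `A` are 3 or congruent
to 2 modulo 3, and at least one is congruent to 2 or 5 modulo 9 (statements of the modules)
-/

set_option autoImplicit false

namespace Pool.Agent.CubeRank

open Pool.Agent.Lib_helper18 Pool.Agent.Lib_helper18.Eis Pool.Agent.Lib_helper84.Cub

/-- standing hypotheses, general version -/
structure HypG {m : ℕ} (p e : Fin m → ℕ) : Prop where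
  hp : ∀ i, (p i).Prime
  h3 : ∀ i, p i % 3 = 2 ∨ p i = 3
  inj : Function.Injective p
  he : ∀ i, e i = 1 ∨ e i = 2
  ex : ∃ i, p i % 9 = 2 ∨ p i % 9 = 5

/-- (G4) every rational point comes from the 3-isogenous curve -/
def LiftStmtG : Prop := ∀ (m : ℕ) (p e : Fin m → ℕ), HypG p e →
  ∀ a b c : ℤ, c ≠ 0 → IsCoprime a b → a ^ 3 + b ^ 3 = AA p e * c ^ 3 →
    ∃ α δ s t1 t2 : ℤ, IsCoprime α δ ∧ s ≠ 0 ∧ t1 ≠ 0 ∧ t2 ≠ 0 ∧
      α * δ * (α - δ) = AA p e * s ^ 3 ∧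
      (t1 : Eis) * ((a : Eis) + w * b) = t2 * (lam * ((α : Eis) + δ * w) ^ 3)

/-- the class of a point: `a + ω b` is a rational multiple of `λ γ³`, and `γ` is congruent to
a rational integer times `ω ^ v i` modulo `p i` -/
def KapG {m : ℕ} (p e : Fin m → ℕ) (P : GA (AA p e)) (v : Fin m → ZMod 3) : Prop :=
  (P = 0 ∧ ∃ c, ∀ i, v i = c) ∨
  ∃ (a b c : ℤ) (γ : Eis) (t1 t2 : ℤ), Crd (AA p e) P a b c ∧ t1 ≠ 0 ∧ t2 ≠ 0 ∧
    (t1 : Eis) * ((a : Eis) + w * b) = t2 * (lam * γ ^ 3) ∧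
    ∀ i, ∃ n : ℤ, ¬ (p i : ℤ) ∣ n ∧ (p i : Eis) ∣ γ - n * w ^ (v i).val

/-- (G5a) every point has a class -/
def KapExStmtG : Prop := ∀ (m : ℕ) (p e : Fin m → ℕ), HypG p e → ∀ P : GA (AA p e),
  ∃ v, KapG p e P v

/-- (G5b) the class is additive -/
def KapAddStmtG : Prop := ∀ (m : ℕ) (p e : Fin m → ℕ), HypG p e →
  ∀ (P Q : GA (AA p e)) (v v' : Fin m → ZMod 3), KapG p e P v → KapG p e Q v' →
    KapG p e (P + Q) (v + v')

/-- (G5c) points of class zero are multiples of 3, other classes are represented -/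
def KapRepStmtG : Prop := ∀ (m : ℕ) (p e : Fin m → ℕ), HypG p e →
  ∀ (P : GA (AA p e)) (v : Fin m → ZMod 3), KapG p e P v →
    ((∃ c, ∀ i, v i = c) → P ∈ threeMul (AA p e)) ∧ ((¬ ∃ c, ∀ i, v i = c) → Rep p e v)

end Pool.Agent.CubeRank
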