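import Pool.Agent.CubeRank.GMain
import Pool.Agent.CubeRank.AllButTwo

/-!
# The theorems on ranks, general version
-/

set_option autoImplicit false

namespace Pool.Agent.CubeRank

open Pool.Agent.Lib_helper18 Pool.Agent.Lib_helper18.Eis Pool.Agent.Lib_helper84.Cub

variable {m : ℕ} {p e e' : Fin m → ℕ} {S : Finset (Fin m)}

/-- the set of exchanged primes -/
def dS {m : ℕ} (e e' : Fin m → ℕ) : Finset (Fin m) := Finset.univ.filter (fun i => e i ≠ e' i)

theorem mem_dS {i : Fin m} : i ∈ dS e e' ↔ e i ≠ e' i := by simp [dS]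

theorem base_ofG (h : HypG p e) (h' : HypG p e') (h3 : ∀ i, p i = 3 → e i = e' i) :
    BaseT p e e' (dS e e') where
  hp := h.hp
  h3 := h.h3
  inj := h.inj
  he := h.he
  he' := h'.he
  nS := fun i hi h3i => (mem_dS.mp hi) (h3 i h3i)
  rel := fun j => by
    have h1 := h.he j
    have h2 := h'.he j
    split_ifs with h4
    · have := mem_dS.mp h4; omega
    · by_contra h5
      exact h4 (mem_dS.mpr h5)

/-- total weights -/
theorem BaseT.tg_eq (b : BaseT p e e' S) : tg p e' = tg p e + ∑ i ∈ S, sg p e i := by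
  unfold tg
  rw [sum_split _ S, sum_split (sg p e) S, sum_sg' b]
  have h2 : ∑ i ∈ Sᶜ, sg p e' i = ∑ i ∈ Sᶜ, sg p e i :=
    Finset.sum_congr rfl (fun i hi => b.wt.out i (Finset.mem_compl.mp hi))
  rw [h2]
  linear_combination (-(∑ i ∈ S, sg p e i)) * three_zmod

/-- **the law for two curves in the same class** -/
theorem law_class (h : HypG p e) (h' : HypG p e') (h3 : ∀ i, p i = 3 → e i = e' i)
    (htg : tg p e = tg p e') {v v' : Fin m → ZMod 3} (hv : UG p e v) (hv' : UG p e' v')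
    (hvv : ∀ i, v' i = if e i = e' i then v i else - v i) :
    ∑ i ∈ dS e e', sg p e i * v i = 0 := by
  classical
  have bb := base_ofG h h' h3
  have hs : ∑ i ∈ dS e e', sg p e i = 0 := by
    have := bb.tg_eq
    rw [← htg] at this
    linear_combination -this
  by_cases hin : ∃ i ∈ dS e e', sg p e i ≠ 0
  swap
  · push Not at hin
    exact Finset.sum_eq_zero (fun i hi => by rw [hin i hi, zero_mul])
  by_cases hout : (∃ i, i ∉ dS e e' ∧ sg p e i ≠ 0) ∨ (∃ i3, p i3 = 3 ∧ e i3 = 1)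
  · have b : PairG p e e' (dS e e') :=
      { h := h, h' := h', hS := fun i => mem_dS, nS := bb.nS, inT := hin
        typ := by
          by_cases h4 : ∀ i, p i ≠ 3
          · left
            refine ⟨h4, ?_⟩
            by_cases h5 : tg p e = 0
            · exact Or.inr ⟨h5, by rw [← htg]; exact h5⟩
            · exact Or.inl ⟨h5, by rw [← htg]; exact h5⟩
          · push Not at h4
            exact Or.inr (Or.inr ⟨h4, hs⟩)
        outT := by
          rcases hout with h4 | h4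
          · exact Or.inl h4
          · exact Or.inr ⟨h4, hs⟩ }
    have h6 := b.thr (c := 0) (d := 0) hv hv' (fun i => by
      rw [hvv i]
      by_cases hi : e i = e' i
      · rw [if_pos hi, if_neg (fun h => (mem_dS.mp h) hi), add_zero]
      · rw [if_neg hi, if_pos (mem_dS.mpr hi), zero_sub])
    unfold LamG at h6
    rwa [if_pos hs] at h6
  · push Not at hout
    obtain ⟨ho1, ho2⟩ := hout
    have ht0 : tg p e = 0 := by
      unfold tg
      rw [sum_split _ (dS e e'), hs, zero_add]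
      exact Finset.sum_eq_zero (fun i hi => ho1 i (Finset.mem_compl.mp hi))
    have hC : CondG p e := by
      by_cases h4 : ∀ i, p i ≠ 3
      · exact Or.inl ⟨h4, ht0⟩
      · push Not at h4
        obtain ⟨i3, hi3⟩ := h4
        exact Or.inr ⟨i3, hi3, (h.he i3).resolve_left (ho2 i3 hi3)⟩
    have h5 := UG_sub_E h hv hC
    unfold psi at h5
    have e1 : ∑ i, sg p e i * (v i - bas p v) = ∑ i, sg p e i * v i - tg p e * bas p v := by
      unfold tg
      rw [Finset.sum_mul, ← Finset.sum_sub_distrib]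
      exact Finset.sum_congr rfl (fun i _ => by ring)
    rw [e1, ht0, zero_mul, sub_zero, sum_split _ (dS e e')] at h5
    have h6 : ∑ i ∈ (dS e e')ᶜ, sg p e i * v i = 0 :=
      Finset.sum_eq_zero (fun i hi => by rw [ho1 i (Finset.mem_compl.mp hi), zero_mul])
    rwa [h6, add_zero] at h5

/-! ### weights and residues modulo 9 -/

theorem three_ndvd {q : ℕ} (h3 : q % 3 = 2) : ¬ (3 : ℤ) ∣ (q : ℤ) := by omega

theorem three_ndvd_prod {k : ℕ} {q f : Fin k → ℕ} (h3 : ∀ i, q i % 3 = 2) :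
    ¬ (3 : ℤ) ∣ ∏ i, (q i : ℤ) ^ f i := by
  intro h
  rw [Prime.dvd_finsetProd_iff Int.prime_three] at h
  obtain ⟨j, -, hj⟩ := h
  exact three_ndvd (h3 j) (Int.prime_three.dvd_of_dvd_pow hj)

theorem tg_eq_wq {k : ℕ} {q f : Fin k → ℕ} (h3 : ∀ i, q i % 3 = 2) :
    tg q f = wq (∏ i, (q i : ℤ) ^ f i) := by
  have h3' : ∀ j, ¬ (3 : ℤ) ∣ (q j : ℤ) ^ f j := fun j h =>
    three_ndvd (h3 j) (Int.prime_three.dvd_of_dvd_pow h)
  rw [wq_prod _ _ h3']
  unfold tg sg
  refine Finset.sum_congr rfl (fun i _ => ?_)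
  rw [if_neg (by have := h3 i; omega), wq_pow (three_ndvd (h3 i))]

theorem sg_ne {p f : Fin m → ℕ} (hf : ∀ i, f i = 1 ∨ f i = 2) {i : Fin m} (h3 : p i % 3 = 2)
    (h8 : p i % 9 ≠ 8) : sg p f i ≠ 0 := by
  unfold sg
  rw [if_neg (by omega)]
  have h1 : wq (p i : ℤ) ≠ 0 := wq_ne (by omega)
  rcases hf i with h | h <;> rw [h]
  · rw [Nat.cast_one, one_mul]; exact h1
  · revert h1
    generalize wq (p i : ℤ) = x
    revert x
    decide

theorem sg_eight {p f : Fin m → ℕ} {i : Fin m} (h8 : p i % 9 = 8) : sg p f i = 0 := by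
  unfold sg
  rw [if_neg (by omega), (wq_zero_iff (by omega)).mpr (by omega), mul_zero]

theorem tg_cons {k : ℕ} {q f : Fin k → ℕ} (j : ℕ) :
    tg (Fin.cons 3 q : Fin (k + 1) → ℕ) (Fin.cons j f : Fin (k + 1) → ℕ) = tg q f := by
  unfold tg
  rw [Fin.sum_univ_succ]
  unfold sg
  simp

theorem AA_cons {k : ℕ} {q f : Fin k → ℕ} (j : ℕ) :
    AA (Fin.cons 3 q : Fin (k + 1) → ℕ) (Fin.cons j f : Fin (k + 1) → ℕ) =
      3 ^ j * ∏ i, (q i : ℤ) ^ f i := by
  unfold AA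
  rw [Fin.prod_univ_succ]
  simp

/-! ### hypotheses -/

theorem hypG_of {k : ℕ} {q f : Fin k → ℕ} (hq : ∀ i, (q i).Prime) (h3 : ∀ i, q i % 3 = 2)
    (hinj : Function.Injective q) (hf : ∀ i, f i = 1 ∨ f i = 2) (hex : ∃ i, q i % 9 ≠ 8) :
    HypG q f where
  hp := hq
  h3 := fun i => Or.inl (h3 i)
  inj := hinj
  he := hf
  ex := by
    obtain ⟨i, hi⟩ := hex
    exact ⟨i, by have := h3 i; omega⟩

theorem hypG_cons {k : ℕ} {q f : Fin k → ℕ} (hq : ∀ i, (q i).Prime) (h3 : ∀ i, q i % 3 = 2)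
    (hinj : Function.Injective q) (hf : ∀ i, f i = 1 ∨ f i = 2) (hex : ∃ i, q i % 9 ≠ 8)
    {j : ℕ} (hj : j = 1 ∨ j = 2) :
    HypG (Fin.cons 3 q : Fin (k + 1) → ℕ) (Fin.cons j f : Fin (k + 1) → ℕ) where
  hp := fun i => by
    refine Fin.cases ?_ (fun i => ?_) i
    · simpa using Nat.prime_three
    · simpa using hq i
  h3 := fun i => by
    refine Fin.cases ?_ (fun i => ?_) i
    · right; simp
    · left; simpa using h3 i
  inj := by
    rw [Fin.cons_injective_iff]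
    refine ⟨?_, hinj⟩
    rintro ⟨i, hi⟩
    have := h3 i
    omega
  he := fun i => by
    refine Fin.cases ?_ (fun i => ?_) i
    · simpa using hj
    · simpa using hf i
  ex := by
    obtain ⟨i, hi⟩ := hex
    exact ⟨i.succ, by have := h3 i; simp; omega⟩

/-! ### the theorem -/

theorem all_but {k : ℕ} {Good Cls : (Fin k → ℕ) → Prop}
    {X : (Fin k → ℕ) → (Fin k → ℕ) → Prop}
    (h : ∀ e e' : Fin k → ℕ, (∀ i, e i = 1 ∨ e i = 2) → (∀ i, e' i = 1 ∨ e' i = 2) →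
      Cls e → Cls e' → X e e' → Good e ∨ Good e') :
    ∃ e₀ : Fin k → ℕ, ∀ e : Fin k → ℕ, (∀ i, e i = 1 ∨ e i = 2) → Cls e → X e e₀ → Good e := by
  by_cases hall : ∀ e : Fin k → ℕ, (∀ i, e i = 1 ∨ e i = 2) → Cls e → Good e
  · exact ⟨fun _ => 0, fun e he hc _ => hall e he hc⟩
  · push Not at hall
    obtain ⟨e₀, he₀, hc₀, hg₀⟩ := hall
    exact ⟨e₀, fun e he hc hx => (h e e₀ he he₀ hc hc₀ hx).resolve_right hg₀⟩

/-- two vectors of exponents are neither equal nor complementary on the primes `≡ 2, 5 (mod 9)` -/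
def ApartG {k : ℕ} (q e e' : Fin k → ℕ) : Prop :=
  (∃ i, q i % 9 ≠ 8 ∧ e i ≠ e' i) ∧ (∃ i, q i % 9 ≠ 8 ∧ e i + e' i ≠ 3)

section

variable {k : ℕ} {q : Fin k → ℕ} (hq : ∀ i, (q i).Prime) (h3 : ∀ i, q i % 3 = 2)
  (hinj : Function.Injective q)

include hq h3 hinj

/-- 3 does not divide `A`: the pair -/
theorem pair_no {e e' : Fin k → ℕ} (he : ∀ i, e i = 1 ∨ e i = 2) (he' : ∀ i, e' i = 1 ∨ e' i = 2)
    (hx : ApartG q e e')
    (hcl : (tg q e ≠ 0 ∧ tg q e' ≠ 0) ∨ (tg q e = 0 ∧ tg q e' = 0)) :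
    PairG q e e' (dS e e') := by
  obtain ⟨⟨i1, hi1, hn1⟩, ⟨i2, hi2, hn2⟩⟩ := hx
  have h : HypG q e := hypG_of hq h3 hinj he ⟨i1, hi1⟩
  have h' : HypG q e' := hypG_of hq h3 hinj he' ⟨i1, hi1⟩
  have n3 : ∀ i, q i ≠ 3 := fun i => by have := h3 i; omega
  exact
    { h := h, h' := h', hS := fun i => mem_dS, nS := fun i _ => n3 i
      inT := ⟨i1, mem_dS.mpr hn1, sg_ne he (h3 i1) hi1⟩
      typ := Or.inl ⟨n3, hcl⟩
      outT := Or.inl ⟨i2, fun hh => by
        have := mem_dS.mp hh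
        have h1 := he i2
        have h2 := he' i2
        omega, sg_ne he (h3 i2) hi2⟩ }

theorem rank_no (hk : 3 ≤ k) :
    (∃ e₀ : Fin k → ℕ, ∀ e : Fin k → ℕ, (∀ i, e i = 1 ∨ e i = 2) →
      ¬ ((∏ i, (q i : ℤ) ^ e i) % 9 = 1 ∨ (∏ i, (q i : ℤ) ^ e i) % 9 = 8) →
      ApartG q e e₀ → GenBy (∏ i, (q i : ℤ) ^ e i) (k - 3)) := by
  refine all_but (fun e e' he he' hc hc' hx => ?_)
  have b := pair_no hq h3 hinj he he' hx (Or.inl ⟨?_, ?_⟩)
  · exact b.bound (by omega) (by omega)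
  · rw [tg_eq_wq h3]; exact fun h => hc ((wq_zero_iff (three_ndvd_prod h3)).mp h)
  · rw [tg_eq_wq h3]; exact fun h => hc' ((wq_zero_iff (three_ndvd_prod h3)).mp h)

theorem rank_one (hk : 4 ≤ k) :
    (∃ e₀ : Fin k → ℕ, ∀ e : Fin k → ℕ, (∀ i, e i = 1 ∨ e i = 2) →
      ((∏ i, (q i : ℤ) ^ e i) % 9 = 1 ∨ (∏ i, (q i : ℤ) ^ e i) % 9 = 8) →
      ApartG q e e₀ → GenBy (∏ i, (q i : ℤ) ^ e i) (k - 4)) := by
  refine all_but (fun e e' he he' hc hc' hx => ?_)
  have n3 : ∀ i, q i ≠ 3 := fun i => by have := h3 i; omega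
  have t1 : tg q e = 0 := by
    rw [tg_eq_wq h3]; exact (wq_zero_iff (three_ndvd_prod h3)).mpr hc
  have t2 : tg q e' = 0 := by
    rw [tg_eq_wq h3]; exact (wq_zero_iff (three_ndvd_prod h3)).mpr hc'
  have b := pair_no hq h3 hinj he he' hx (Or.inr ⟨t1, t2⟩)
  exact b.bound' (by omega) (by omega) (Or.inl ⟨n3, t1⟩) (Or.inl ⟨n3, t2⟩)

/-- 3 divides `A`: the pair -/
theorem pair_cons {e e' : Fin k → ℕ} (he : ∀ i, e i = 1 ∨ e i = 2)
    (he' : ∀ i, e' i = 1 ∨ e' i = 2) {j : ℕ} (hj : j = 1 ∨ j = 2)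
    (hin : ∃ i, q i % 9 ≠ 8 ∧ e i ≠ e' i)
    (hcl : j = 1 ∨ tg q e = tg q e')
    (hout : (∃ i, q i % 9 ≠ 8 ∧ e i + e' i ≠ 3) ∨ (j = 1 ∧ tg q e = 0)) :
    PairG (Fin.cons 3 q : Fin (k + 1) → ℕ) (Fin.cons j e) (Fin.cons j e')
      (dS (Fin.cons j e) (Fin.cons j e')) := by
  classical
  obtain ⟨i1, hi1, hn1⟩ := hin
  have h := hypG_cons hq h3 hinj he ⟨i1, hi1⟩ hj
  have h' := hypG_cons hq h3 hinj he' ⟨i1, hi1⟩ hj
  have hn3 : ∀ i : Fin k, (Fin.cons 3 q : Fin (k + 1) → ℕ) i.succ ≠ 3 := fun i => by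
    have := h3 i
    simp
    omega
  have h3e : ∀ i : Fin (k + 1), (Fin.cons 3 q : Fin (k + 1) → ℕ) i = 3 →
      (Fin.cons j e : Fin (k + 1) → ℕ) i = (Fin.cons j e' : Fin (k + 1) → ℕ) i := by
    intro i
    refine Fin.cases ?_ (fun i => ?_) i
    · intro _; simp
    · intro h; exact absurd h (hn3 i)
  have bb := base_ofG h h' h3e
  have htg := bb.tg_eq
  rw [tg_cons, tg_cons] at htg
  have hsg : ∀ i : Fin k, q i % 9 ≠ 8 →
      sg (Fin.cons 3 q : Fin (k + 1) → ℕ) (Fin.cons j e) i.succ ≠ 0 := fun i hi =>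
    sg_ne h.he (by simpa using h3 i) (by simpa using hi)
  refine
    { h := h, h' := h', hS := fun i => mem_dS, nS := bb.nS
      inT := ⟨i1.succ, mem_dS.mpr (by simpa using hn1), hsg i1 hi1⟩
      typ := ?_, outT := ?_ }
  · rcases hcl with hcl | hcl
    · exact Or.inr (Or.inl ⟨0, by simp, by simpa using hcl⟩)
    · refine Or.inr (Or.inr ⟨⟨0, by simp⟩, ?_⟩)
      rw [hcl] at htg
      linear_combination -htg
  · by_cases hh : ∃ i, q i % 9 ≠ 8 ∧ e i + e' i ≠ 3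
    · obtain ⟨i2, hi2, hn2⟩ := hh
      refine Or.inl ⟨i2.succ, fun hh => ?_, hsg i2 hi2⟩
      have h4 := mem_dS.mp hh
      have h1 := he i2
      have h2 := he' i2
      simp only [Fin.cons_succ] at h4
      omega
    · obtain ⟨hj1, ht0⟩ := hout.resolve_left hh
      refine Or.inr ⟨⟨0, by simp, by simpa using hj1⟩, ?_⟩
      -- the exchanged weight is the total weight
      push Not at hh
      have h5 := tg_cons (q := q) (f := e) j
      rw [ht0] at h5
      unfold tg at h5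
      rw [sum_split _ (dS (Fin.cons j e : Fin (k + 1) → ℕ) (Fin.cons j e'))] at h5
      have h6 : ∑ i ∈ (dS (Fin.cons j e : Fin (k + 1) → ℕ) (Fin.cons j e'))ᶜ,
          sg (Fin.cons 3 q : Fin (k + 1) → ℕ) (Fin.cons j e) i = 0 := by
        refine Finset.sum_eq_zero (fun i hi => ?_)
        have hi' := Finset.mem_compl.mp hi
        revert hi'
        refine Fin.cases ?_ (fun i => ?_) i
        · intro _
          unfold sg
          simp
        · intro hi'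
          have h7 : e i = e' i := by
            by_contra h8
            exact hi' (mem_dS.mpr (by simpa using h8))
          have h8 : q i % 9 = 8 := by
            by_contra h9
            have h10 := hh i h9
            have h11 := he i
            omega
          exact sg_eight (by simpa using h8)
      rwa [h6, add_zero] at h5

theorem rank_three (hk : 2 ≤ k) :
    (∃ e₀ : Fin k → ℕ, ∀ e : Fin k → ℕ, (∀ i, e i = 1 ∨ e i = 2) → True →
      ((∃ i, q i % 9 ≠ 8 ∧ e i ≠ e₀ i) ∧ ((∃ i, q i % 9 ≠ 8 ∧ e i + e₀ i ≠ 3) ∨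
        (∏ i, (q i : ℤ) ^ e i) % 9 = 1 ∨ (∏ i, (q i : ℤ) ^ e i) % 9 = 8)) →
      GenBy (3 * ∏ i, (q i : ℤ) ^ e i) (k - 2)) := by
  refine all_but (fun e e' he he' _ _ hx => ?_)
  have b := pair_cons hq h3 hinj he he' (Or.inl rfl) hx.1 (Or.inl rfl)
    (hx.2.imp_right (fun h => ⟨rfl, by
      rw [tg_eq_wq h3]; exact (wq_zero_iff (three_ndvd_prod h3)).mpr h⟩))
  have h1 := b.bound (d := k - 2) (by omega) (by omega)
  rwa [AA_cons, AA_cons, pow_one] at h1

theorem rank_nine (hk : 3 ≤ k) (c : ℤ) :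
    (∃ e₀ : Fin k → ℕ, ∀ e : Fin k → ℕ, (∀ i, e i = 1 ∨ e i = 2) →
      (9 ∣ (∏ i, (q i : ℤ) ^ e i) - c ∨ 9 ∣ (∏ i, (q i : ℤ) ^ e i) + c) →
      ApartG q e e₀ → GenBy (9 * ∏ i, (q i : ℤ) ^ e i) (k - 3)) := by
  refine all_but (fun e e' he he' hc hc' hx => ?_)
  have htg : tg q e = tg q e' := by
    rw [tg_eq_wq h3, tg_eq_wq h3, wq_eq_iff (three_ndvd_prod h3) (three_ndvd_prod h3)]
    omega
  have b := pair_cons hq h3 hinj he he' (j := 2) (Or.inr rfl) hx.1 (Or.inr htg) (Or.inl hx.2)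
  have h1 := b.bound' (d := k - 3) (by omega) (by omega) (Or.inr ⟨0, by simp, by simp⟩)
    (Or.inr ⟨0, by simp, by simp⟩)
  rw [AA_cons, AA_cons] at h1
  norm_num at h1
  exact h1

end

end Pool.Agent.CubeRank
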