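import Pool.Agent.CubeRank.Defs

/-!
# The class of a point is additive (M5b)
-/

set_option autoImplicit false

namespace Pool.Agent.CubeRank

open Pool.Agent.Lib_helper18 Pool.Agent.Lib_helper18.Eis Pool.Agent.Lib_helper84.Cub

namespace KapAddAux

/-- an element with rational cube is a rational multiple of a power of `w` -/
theorem ratio {X Y : Eis} {n n' : ℤ} (hn : n ≠ 0) (h : X ^ 3 * n = Y ^ 3 * n') :
    ∃ (k : ℕ) (M : ℤ), X * conj Y = M * w ^ k := by
  obtain ⟨Z, hZ⟩ : ∃ Z, Z = X * conj Y := ⟨_, rfl⟩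
  have h1 : Z ^ 3 * (n : Eis) = ((Y.norm ^ 3 * n' : ℤ) : Eis) := by
    have e := mul_conj Y
    push_cast
    rw [hZ, ← e]
    linear_combination (conj Y) ^ 3 * h
  have h2 := congrArg Eis.im h1
  obtain ⟨a, b⟩ := Z
  have h3 : 3 * (a * b * (a - b)) * n = 0 := by
    have e : ((⟨a, b⟩ : Eis) ^ 3 * (n : Eis)).im = 3 * (a * b * (a - b)) * n := by
      simp only [pow_succ, pow_zero, one_mul, mul_im, mul_re, intCast_re, intCast_im]
      ring
    rw [← e, h2]
    exact intCast_im _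
  have h4 : a * b * (a - b) = 0 := by
    rcases mul_eq_zero.mp h3 with h | h
    · rcases mul_eq_zero.mp h with h | h
      · norm_num at h
      · exact h
    · exact absurd h hn
  rw [← hZ]
  rcases mul_eq_zero.mp h4 with h | h
  · rcases mul_eq_zero.mp h with h | h
    · refine ⟨1, b, ?_⟩
      subst h
      ext <;> simp
    · refine ⟨0, a, ?_⟩
      subst h
      ext <;> simp
  · refine ⟨2, -a, ?_⟩
    have hb : b = a := by linarith
    subst hb
    rw [w_sq]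
    ext <;> simp

section

variable {q : ℕ} (hq : q.Prime) (h3 : q % 3 = 2)
include hq h3

omit hq h3 in
theorem cast_dvd {n : ℤ} : (q : Eis) ∣ (n : Eis) ↔ (q : ℤ) ∣ n := by
  rw [natCast_dvd_iff]; simp

theorem sym_conj' {Y : Eis} (hY : ¬ (q : Eis) ∣ Y) :
    ¬ (q : Eis) ∣ conj Y ∧ sym (q : Eis) (conj Y) = - sym (q : Eis) Y := by
  have hP := prime_inert hq h3
  have hn3 := n3 hq h3
  constructor
  · intro h
    have := conj_dvd h
    rw [conj_natCast, conj_conj] at this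
    exact hY this
  · have := sym_conj hP hn3 hY
    rwa [conj_natCast] at this

theorem sym_wpow (k : ℕ) : ¬ (q : Eis) ∣ w ^ k ∧ sym (q : Eis) (w ^ k) = k * sym (q : Eis) w := by
  have hP := prime_inert hq h3
  have hn3 := n3 hq h3
  exact ⟨fun h => not_dvd_w hP (hP.dvd_of_dvd_pow h), sym_pow hP hn3 (not_dvd_w hP) k⟩

theorem sym_ratio {X Y : Eis} {k : ℕ} {M : ℤ} (hX : ¬ (q : Eis) ∣ X) (hY : ¬ (q : Eis) ∣ Y)
    (h : X * conj Y = M * w ^ k) :
    sym (q : Eis) X - sym (q : Eis) Y = k * sym (q : Eis) w := by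
  have hP := prime_inert hq h3
  have hn3 := n3 hq h3
  obtain ⟨c1, c2⟩ := sym_conj' hq h3 hY
  obtain ⟨w1, w2⟩ := sym_wpow hq h3 k
  have hM : ¬ (q : ℤ) ∣ M := by
    intro hM
    have h1 : (q : Eis) ∣ X * conj Y := by
      rw [h]
      exact Dvd.dvd.mul_right (cast_dvd.2 hM) _
    exact (hP.dvd_or_dvd h1).elim hX c1
  have hM' : ¬ (q : Eis) ∣ (M : Eis) := fun h => hM (cast_dvd.1 h)
  have h1 := congrArg (sym (q : Eis)) h
  rw [sym_mul hP hn3 hX c1, sym_mul hP hn3 hM' w1, sym_int hq h3 hM, c2, w2] at h1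
  linear_combination h1

theorem sym_w_ne (h9 : q % 9 = 2 ∨ q % 9 = 5) : sym (q : Eis) w ≠ 0 := by
  have hP := prime_inert hq h3
  have hn3 := n3 hq h3
  rw [sym_w hP hn3]
  have hN : N (q : Eis) = q * q := by
    rw [N, norm_natCast, Int.natAbs_pow, Int.natAbs_natCast, pow_two]
  rw [hN]
  intro h
  rw [ZMod.natCast_eq_zero_iff] at h
  have h1 : (q * q) % 9 = 4 ∨ (q * q) % 9 = 7 := by
    rcases h9 with h9 | h9
    · left; rw [Nat.mul_mod, h9]
    · right; rw [Nat.mul_mod, h9]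
  omega

/-- cubing is injective modulo an inert prime -/
theorem cube_inj' {u v : ℤ} (h : (q : ℤ) ∣ u ^ 3 + v ^ 3) (hv : ¬ (q : ℤ) ∣ v) :
    (q : ℤ) ∣ u + v := by
  have hP := prime_inert hq h3
  have h1 : (q : Eis) ∣ ((u : Eis) + v) * (((u : Eis) + w * v) * ((u : Eis) + w ^ 2 * v)) := by
    have e : ((u : Eis) + v) * (((u : Eis) + w * v) * ((u : Eis) + w ^ 2 * v)) =
        ((u ^ 3 + v ^ 3 : ℤ) : Eis) := by
      push_cast
      have h1 := w_rel
      have h2 := w_cube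
      linear_combination ((u : Eis) + v) * u * v * h1 + ((u : Eis) + v) * v ^ 2 * h2
    rw [e]; exact cast_dvd.2 h
  rcases hP.dvd_or_dvd h1 with h2 | h2
  · have : (q : Eis) ∣ ((u + v : ℤ) : Eis) := by push_cast; exact h2
    exact cast_dvd.1 this
  · exfalso
    rcases hP.dvd_or_dvd h2 with h3 | h3
    · rw [natCast_dvd_iff] at h3
      obtain ⟨h4, h5⟩ := h3
      simp at h4 h5
      exact hv h5
    · rw [natCast_dvd_iff, w_sq] at h3
      obtain ⟨h4, h5⟩ := h3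
      simp at h4 h5
      exact hv h5

end

section

variable {m : ℕ} {p e : Fin m → ℕ} (H : Hyp p e)
include H

theorem p3 (i : Fin m) : p i % 3 = 2 := by
  rcases H.h9 i with h | h <;> omega

theorem AA_ne : AA p e ≠ 0 := by
  unfold AA
  refine Finset.prod_ne_zero_iff.2 fun i _ => pow_ne_zero _ ?_
  exact_mod_cast (H.hp i).ne_zero

theorem dvd_AA (i : Fin m) : (p i : ℤ) ∣ AA p e := by
  unfold AA
  refine (dvd_pow_self (p i : ℤ) ?_).trans (Finset.dvd_prod_of_mem _ (Finset.mem_univ i))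
  rcases H.he i with h | h <;> omega

theorem cube_ndvd (i : Fin m) : ¬ (p i : ℤ) ^ 3 ∣ AA p e := by
  intro h
  unfold AA at h
  rw [← Finset.mul_prod_erase Finset.univ _ (Finset.mem_univ i)] at h
  have hZ := Nat.prime_iff_prime_int.mp (H.hp i)
  have h0 : (p i : ℤ) ^ e i ≠ 0 := pow_ne_zero _ hZ.ne_zero
  have h1 : (p i : ℤ) ^ (e i + 1) ∣ (p i : ℤ) ^ 3 := pow_dvd_pow _ (by
    rcases H.he i with h | h <;> omega)
  have h2 := h1.trans h
  rw [pow_succ] at h2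
  have h4 := (mul_dvd_mul_iff_left h0).1 h2
  obtain ⟨j, hj, h5⟩ := (Prime.dvd_finsetProd_iff hZ _).1 h4
  have h6 := hZ.dvd_of_dvd_pow h5
  have h7 : p i ∣ p j := by exact_mod_cast h6
  have h8 := (Nat.prime_dvd_prime_iff_eq (H.hp i) (H.hp j)).1 h7
  exact (Finset.ne_of_mem_erase hj) (H.inj h8).symm

theorem not_cube (hm : 1 ≤ m) : ¬ ∃ n : ℤ, n ^ 3 = AA p e := by
  rintro ⟨n, hn⟩
  have hZ := Nat.prime_iff_prime_int.mp (H.hp ⟨0, hm⟩)
  have h1 : (p ⟨0, hm⟩ : ℤ) ∣ n ^ 3 := by rw [hn]; exact dvd_AA H _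
  have h2 := hZ.dvd_of_dvd_pow h1
  exact cube_ndvd H ⟨0, hm⟩ (by rw [← hn]; exact pow_dvd_pow_of_dvd h2 3)

/-- adding a constant to the class -/
theorem kap_shift {P : GA (AA p e)} {v : Fin m → ZMod 3} (h : Kap p e P v) (c : ZMod 3) :
    Kap p e P (fun i => v i + c) := by
  rcases h with ⟨h0, d, hd⟩ | ⟨a, b, z, γ, t1, t2, hC, ht1, ht2, he, hs⟩
  · exact Or.inl ⟨h0, d + c, fun i => by simp only [hd]⟩
  · refine Or.inr ⟨a, b, z, w ^ c.val * γ, t1, t2, hC, ht1, ht2, ?_, fun i => ?_⟩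
    · rw [he, mul_pow, ← pow_mul, mul_comm c.val, pow_mul, w_cube, one_pow, one_mul]
    · obtain ⟨h1, h2⟩ := hs i
      obtain ⟨w1, w2⟩ := sym_wpow (H.hp i) (p3 H i) c.val
      have hP := prime_inert (H.hp i) (p3 H i)
      have hn3 := n3 (H.hp i) (p3 H i)
      refine ⟨fun h => (hP.dvd_or_dvd h).elim w1 h1, ?_⟩
      rw [sym_mul hP hn3 w1 h1, h2, w2, ZMod.natCast_val, ZMod.cast_id', id]
      ring

/-- the class of the negative -/
theorem kap_neg (h1 : BasicsStmt) {P : GA (AA p e)} {v : Fin m → ZMod 3} (h : Kap p e P v) :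
    Kap p e (-P) (fun i => - v i) := by
  rcases h with ⟨h0, d, hd⟩ | ⟨a, b, z, γ, t1, t2, hC, ht1, ht2, he, hs⟩
  · exact Or.inl ⟨by rw [h0, neg_zero], -d, fun i => by simp only [hd]⟩
  · refine Or.inr ⟨b, a, z, conj γ, t1, -t2, ((h1 _ (AA_ne H)).2.2.2.2 P a b z hC).1, ht1,
      neg_ne_zero.2 ht2, ?_, fun i => ?_⟩
    · have e1 := congrArg conj he
      simp only [map_mul, map_add, map_pow, conj_intCast, conj_w, lam_eq, map_sub, map_one] at e1
      have hc := w_cube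
      have hr := w_rel
      rw [lam_eq]
      push_cast
      linear_combination w * e1 + (-(t1 : Eis) * b - t2 * conj γ ^ 3) * hc +
        (0 : Eis) * hr
    · obtain ⟨h1, h2⟩ := hs i
      obtain ⟨c1, c2⟩ := sym_conj' (H.hp i) (p3 H i) h1
      exact ⟨c1, by rw [c2, h2]; ring⟩

omit H in
theorem crd_ne {A : ℤ} {P : GA A} {a b c : ℤ} (h : Crd A P a b c) : P ≠ 0 := by
  obtain ⟨_, _, _, x, y, h, rfl, _⟩ := h
  exact WeierstrassCurve.Affine.Point.some_ne_zero h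

/-- the class of a point is unique up to constants -/
theorem kap_unique (h1 : BasicsStmt) {P : GA (AA p e)} {v v' : Fin m → ZMod 3}
    (h : Kap p e P v) (h' : Kap p e P v') : ∃ c, ∀ i, v i = v' i + c := by
  rcases h with ⟨h0, d, hd⟩ | ⟨a, b, z, γ, t1, t2, hC, ht1, ht2, he, hs⟩
  · rcases h' with ⟨h0', d', hd'⟩ | ⟨a', b', z', γ', t1', t2', hC', _⟩
    · exact ⟨d - d', fun i => by rw [hd, hd']; ring⟩
    · exact absurd h0 (crd_ne hC')
  · rcases h' with ⟨h0', d', hd'⟩ | ⟨a', b', z', γ', t1', t2', hC', ht1', ht2', he', hs'⟩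
    · exact absurd h0' (crd_ne hC)
    · have hcong : ∃ (k : ℕ) (M : ℤ), γ * conj γ' = M * w ^ k := by
        have hl := prime_lam.ne_zero
        rcases (h1 _ (AA_ne H)).2.2.2.1 P a b z a' b' z' hC hC' with ⟨ea, eb, _⟩ | ⟨ea, eb, _⟩
        · refine ratio (n := t2 * t1') (n' := t2' * t1) (mul_ne_zero ht2 ht1') ?_
          refine mul_left_cancel₀ hl ?_
          rw [ea, eb] at he'
          push_cast
          linear_combination (-(t1' : Eis)) * he + (t1 : Eis) * he'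
        · refine ratio (n := -(t2 * t1')) (n' := t2' * t1) (neg_ne_zero.2
            (mul_ne_zero ht2 ht1')) ?_
          refine mul_left_cancel₀ hl ?_
          rw [ea, eb] at he'
          push_cast at he' ⊢
          linear_combination (t1' : Eis) * he + (t1 : Eis) * he'
      obtain ⟨k, M, hk⟩ := hcong
      refine ⟨k, fun i => ?_⟩
      have e1 := sym_ratio (H.hp i) (p3 H i) (hs i).1 (hs' i).1 hk
      rw [(hs i).2, (hs' i).2] at e1
      refine mul_right_cancel₀ (sym_w_ne (H.hp i) (p3 H i) (H.h9 i)) ?_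
      linear_combination e1

/-- the coordinates of a point are prime to the primes `p i` -/
theorem crd_q (i : Fin m) {P : GA (AA p e)} {a b c : ℤ} (h : Crd (AA p e) P a b c) :
    ¬ (p i : ℤ) ∣ a ∧ ¬ (p i : ℤ) ∣ b ∧ (p i : ℤ) ∣ a + b ∧ ¬ (p i : Eis) ∣ (a : Eis) + w * b := by
  obtain ⟨_, hc, he, _⟩ := h
  have hZ := Nat.prime_iff_prime_int.mp (H.hp i)
  have h1 : (p i : ℤ) ∣ a ^ 3 + b ^ 3 := by
    rw [he]
    exact Dvd.dvd.mul_right (dvd_AA H i) _
  have hb : ¬ (p i : ℤ) ∣ b := by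
    intro hb
    have h2 : (p i : ℤ) ∣ a ^ 3 := (dvd_add_left (hb.trans (dvd_pow_self b (by norm_num)))).1 h1
    exact hZ.not_isUnit (hc.isUnit_of_dvd' (hZ.dvd_of_dvd_pow h2) hb)
  have ha : ¬ (p i : ℤ) ∣ a := by
    intro ha
    have h2 : (p i : ℤ) ∣ b ^ 3 := (dvd_add_right (ha.trans (dvd_pow_self a (by norm_num)))).1 h1
    exact hb (hZ.dvd_of_dvd_pow h2)
  refine ⟨ha, hb, cube_inj' (H.hp i) (p3 H i) h1 hb, ?_⟩
  intro h
  rw [natCast_dvd_iff] at h
  obtain ⟨h4, h5⟩ := h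
  simp at h4 h5
  exact ha h4

/-- the case that one of three points with sum zero is zero -/
theorem kap_sum_zero (h1 : BasicsStmt) {P Q R : GA (AA p e)} {v v' v'' : Fin m → ZMod 3}
    (h : Kap p e P v) (h' : Kap p e Q v') (h'' : Kap p e R v'') (h0 : P + Q + R = 0)
    (hP : P = 0) : ∃ c, ∀ i, v i + v' i + v'' i = c := by
  obtain ⟨d, hd⟩ : ∃ d, ∀ i, v i = d := by
    rcases h with ⟨_, d, hd⟩ | ⟨a, b, z, γ, t1, t2, hC, _⟩
    · exact ⟨d, hd⟩
    · exact absurd hP (crd_ne hC)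
  have hQ : Q = -R := by
    rw [hP, zero_add] at h0
    exact eq_neg_of_add_eq_zero_left h0
  obtain ⟨c, hc⟩ := kap_unique H h1 h' (hQ ▸ kap_neg H h1 h'')
  exact ⟨d + c, fun i => by rw [hd, hc]; ring⟩

/-- three points with sum zero -/
theorem kap_sum (h1 : BasicsStmt) (h2 : CollStmt) (hm : 1 ≤ m) {P Q R : GA (AA p e)}
    {v v' v'' : Fin m → ZMod 3}
    (h : Kap p e P v) (h' : Kap p e Q v') (h'' : Kap p e R v'') (h0 : P + Q + R = 0) :
    ∃ c, ∀ i, v i + v' i + v'' i = c := by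
  by_cases hP : P = 0
  · exact kap_sum_zero H h1 h h' h'' h0 hP
  by_cases hQ : Q = 0
  · obtain ⟨c, hc⟩ := kap_sum_zero H h1 h' h h'' (by rw [← h0]; abel) hQ
    exact ⟨c, fun i => by rw [← hc i]; ring⟩
  by_cases hR : R = 0
  · obtain ⟨c, hc⟩ := kap_sum_zero H h1 h'' h h' (by rw [← h0]; abel) hR
    exact ⟨c, fun i => by rw [← hc i]; ring⟩
  obtain ⟨a1, b1, c1, γ1, t1, s1, hC1, ht1, hs1, he1, hq1⟩ := h.resolve_left fun h => hP h.1
  obtain ⟨a2, b2, c2, γ2, t2, s2, hC2, ht2, hs2, he2, hq2⟩ := h'.resolve_left fun h => hQ h.1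
  obtain ⟨a3, b3, c3, γ3, t3, s3, hC3, ht3, hs3, he3, hq3⟩ := h''.resolve_left fun h => hR h.1
  obtain ⟨l, mm, n, ⟨u, z, t, hpr⟩, hl1, _, _, hcoll⟩ := h2 (AA p e) (AA_ne H) (not_cube H hm)
    P Q R a1 b1 c1 a2 b2 c2 a3 b3 c3 h0 hC1 hC2 hC3
  -- the linear form at a prime
  have hY : ∀ i, ¬ (p i : Eis) ∣ (mm : Eis) - w * l ∧
      sym (p i : Eis) ((mm : Eis) - w * l) = sym (p i : Eis) lam := by
    intro i
    have hZ := Nat.prime_iff_prime_int.mp (H.hp i)
    have hE := prime_inert (H.hp i) (p3 H i)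
    have hn3 := n3 (H.hp i) (p3 H i)
    obtain ⟨x1, x2, x3, x4⟩ := crd_q H i hC1
    have y4 := (crd_q H i hC2).2.2.2
    have z4 := (crd_q H i hC3).2.2.2
    have k1 : (p i : Eis) ∣ ((n ^ 3 + AA p e * mm ^ 3 : ℤ) : Eis) *
        (((a1 : Eis) + w * b1) * ((a2 : Eis) + w * b2) * ((a3 : Eis) + w * b3)) := by
      rw [hcoll]
      exact Dvd.dvd.mul_right (Dvd.dvd.mul_right (cast_dvd.2 (dvd_AA H i)) _) _
    have k2 : (p i : Eis) ∣ ((n ^ 3 + AA p e * mm ^ 3 : ℤ) : Eis) := by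
      rcases hE.dvd_or_dvd k1 with k | k
      · exact k
      · exfalso
        rcases hE.dvd_or_dvd k with k | k
        · rcases hE.dvd_or_dvd k with k | k
          · exact x4 k
          · exact y4 k
        · exact z4 k
    have k3 : (p i : ℤ) ∣ n := by
      have k4 := cast_dvd.1 k2
      have k5 : (p i : ℤ) ∣ n ^ 3 := (dvd_add_left (Dvd.dvd.mul_right (dvd_AA H i) _)).1 k4
      exact hZ.dvd_of_dvd_pow k5
    have k4 : (p i : ℤ) ∣ mm - l := by
      have k5 : (p i : ℤ) ∣ (mm - l) * a1 := by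
        have e : (mm - l) * a1 = mm * (a1 + b1) + n * c1 := by linear_combination -hl1
        rw [e]
        exact dvd_add (Dvd.dvd.mul_left x3 _) (Dvd.dvd.mul_right k3 _)
      exact (hZ.dvd_or_dvd k5).resolve_right x1
    have k5 : ¬ (p i : ℤ) ∣ l := by
      intro hl
      have hmm : (p i : ℤ) ∣ mm := by
        have := dvd_add k4 hl
        rwa [sub_add_cancel] at this
      apply hZ.not_dvd_one
      rw [← hpr]
      exact dvd_add (dvd_add (Dvd.dvd.mul_left hl _) (Dvd.dvd.mul_left hmm _))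
        (Dvd.dvd.mul_left k3 _)
    have k6 : (p i : Eis) ∣ ((mm : Eis) - w * l) - (l : Eis) * lam := by
      have e : ((mm : Eis) - w * l) - (l : Eis) * lam = ((mm - l : ℤ) : Eis) := by
        rw [lam_eq]
        push_cast
        ring
      rw [e]
      exact cast_dvd.2 k4
    have k7 : ¬ (p i : Eis) ∣ (l : Eis) := fun h => k5 (cast_dvd.1 h)
    have k8 := not_dvd_lam hn3
    refine ⟨fun hd => ?_, ?_⟩
    · have := dvd_sub hd k6
      rw [sub_sub_cancel] at this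
      exact (hE.dvd_or_dvd this).elim k7 k8
    · rw [sym_congr k6, sym_mul hE hn3 k7 k8, sym_int (H.hp i) (p3 H i) k5, zero_add]
  have hX : ∀ i, ¬ (p i : Eis) ∣ lam * (γ1 * γ2 * γ3) ∧ sym (p i : Eis) (lam * (γ1 * γ2 * γ3)) =
      sym (p i : Eis) lam + (v i + v' i + v'' i) * sym (p i : Eis) w := by
    intro i
    have hE := prime_inert (H.hp i) (p3 H i)
    have hn3 := n3 (H.hp i) (p3 H i)
    have n12 : ¬ (p i : Eis) ∣ γ1 * γ2 := fun h => (hE.dvd_or_dvd h).elim (hq1 i).1 (hq2 i).1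
    have n123 : ¬ (p i : Eis) ∣ γ1 * γ2 * γ3 := fun h => (hE.dvd_or_dvd h).elim n12 (hq3 i).1
    refine ⟨fun h => (hE.dvd_or_dvd h).elim (not_dvd_lam hn3) n123, ?_⟩
    rw [sym_mul hE hn3 (not_dvd_lam hn3) n123, sym_mul hE hn3 n12 (hq3 i).1,
      sym_mul hE hn3 (hq1 i).1 (hq2 i).1, (hq1 i).2, (hq2 i).2, (hq3 i).2]
    ring
  have hD : n ^ 3 + AA p e * mm ^ 3 ≠ 0 := by
    intro hD
    rw [hD, Int.cast_zero, zero_mul] at hcoll
    have i : Fin m := ⟨0, hm⟩
    have hE := prime_inert (H.hp i) (p3 H i)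
    have a0 : ∀ {a : ℤ}, ¬ (p i : ℤ) ∣ a → a ≠ 0 := fun h h0 => h (h0 ▸ dvd_zero _)
    have hA : ((AA p e : ℤ) : Eis) ≠ 0 := by
      intro h
      have := congrArg Eis.re h
      simp at this
      exact AA_ne H this
    have hYn : (mm : Eis) - w * l ≠ 0 := fun h => (hY i).1 (h ▸ dvd_zero _)
    have haa : ((a1 * a2 * a3 : ℤ) : Eis) ≠ 0 := by
      intro h
      have h4 := congrArg Eis.re h
      rw [intCast_re] at h4
      exact mul_ne_zero (mul_ne_zero (a0 (crd_q H i hC1).1) (a0 (crd_q H i hC2).1))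
        (a0 (crd_q H i hC3).1) h4
    exact mul_ne_zero (mul_ne_zero hA (pow_ne_zero 3 hYn)) haa hcoll.symm
  obtain ⟨k, M, hk⟩ := ratio (X := lam * (γ1 * γ2 * γ3)) (Y := (mm : Eis) - w * l)
    (n := (n ^ 3 + AA p e * mm ^ 3) * (s1 * s2 * s3)) (n' := AA p e * (t1 * t2 * t3) *
      (a1 * a2 * a3)) (mul_ne_zero hD (mul_ne_zero (mul_ne_zero hs1 hs2) hs3)) (by
    have e1 : (lam * (γ1 * γ2 * γ3)) ^ 3 * (((n ^ 3 + AA p e * mm ^ 3) * (s1 * s2 * s3) : ℤ) : Eis)
        = ((n ^ 3 + AA p e * mm ^ 3 : ℤ) : Eis) * ((s1 * (lam * γ1 ^ 3)) *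
          (s2 * (lam * γ2 ^ 3)) * (s3 * (lam * γ3 ^ 3))) := by
      push_cast
      ring
    rw [e1, ← he1, ← he2, ← he3]
    push_cast at hcoll ⊢
    linear_combination (t1 * t2 * t3 : Eis) * hcoll)
  refine ⟨k, fun i => ?_⟩
  have e1 := sym_ratio (H.hp i) (p3 H i) (hX i).1 (hY i).1 hk
  rw [(hX i).2, (hY i).2] at e1
  refine mul_right_cancel₀ (sym_w_ne (H.hp i) (p3 H i) (H.h9 i)) ?_
  linear_combination e1

end

end KapAddAux

open KapAddAux in
/-- (M5b) the class is additive -/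
theorem kapAdd (h1 : BasicsStmt) (h2 : CollStmt) (h3 : KapExStmt) : KapAddStmt := by
  intro m p e hm H P Q v v' hv hv'
  obtain ⟨v'', hv''⟩ := h3 m p e hm H (-(P + Q))
  obtain ⟨c, hc⟩ := kap_sum H h1 h2 hm hv hv' hv'' (by abel)
  have h4 := kap_neg H h1 hv''
  rw [neg_neg] at h4
  have h5 := kap_shift H h4 c
  have e1 : (fun i => - v'' i + c) = v + v' := by
    funext i
    rw [Pi.add_apply, ← hc i]
    ring
  rwa [e1] at h5

end Pool.Agent.CubeRank
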