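import Pool.Agent.CubeRank.GDefs
import Pool.Agent.CubeRank.KapAdd

/-!
# The class of a point is additive, general version (G5b)
-/

set_option autoImplicit false

namespace Pool.Agent.CubeRank

open Pool.Agent.Lib_helper18 Pool.Agent.Lib_helper18.Eis Pool.Agent.Lib_helper84.Cub

namespace GKapAdd

open KapAddAux

/-! ### powers of `w` indexed by `ZMod 3` -/

/-- `w ^ v` -/
def W (v : ZMod 3) : Eis := w ^ v.val

theorem W_zero : W 0 = 1 := by simp [W]

theorem W_cube (v : ZMod 3) : W v ^ 3 = 1 := by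
  rw [W, ← pow_mul, mul_comm, pow_mul, w_cube, one_pow]

theorem wpow_eq (k : ℕ) : w ^ k = W (k : ZMod 3) := by
  rw [W, ZMod.val_natCast]
  conv_lhs => rw [← Nat.div_add_mod k 3, pow_add, pow_mul, w_cube, one_pow, one_mul]

theorem W_add (u v : ZMod 3) : W (u + v) = W u * W v := by
  have h : W u * W v = w ^ (u.val + v.val) := by rw [W, W, pow_add]
  rw [h, wpow_eq]
  congr 1

theorem W_neg (v : ZMod 3) : W (-v) = conj (W v) := by
  have h1 : conj (W v) = w ^ (2 * v.val) := by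
    rw [W, map_pow, conj_w, ← pow_mul]
  rw [h1, wpow_eq]
  congr 1
  push_cast
  rw [ZMod.natCast_val, ZMod.cast_id']
  have : (3 : ZMod 3) = 0 := rfl
  simp only [id]
  linear_combination (-v) * this

theorem W_mul_neg (v : ZMod 3) : W v * W (-v) = 1 := by
  rw [← W_add, add_neg_cancel, W_zero]

/-- uniqueness of the exponent -/
theorem uniq {q : ℕ} {M N : ℤ} {u v : ZMod 3} (hN : ¬ (q : ℤ) ∣ N)
    (h : (q : Eis) ∣ M * W u - N * W v) : u = v := by
  have h1 : (q : Eis) ∣ M - N * W (v - u) := by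
    have h2 := Dvd.dvd.mul_right h (W (-u))
    have e : (M * W u - N * W v) * W (-u) = (M : Eis) - N * W (v - u) := by
      rw [sub_eq_add_neg v u, W_add]
      linear_combination (M : Eis) * W_mul_neg u
    rwa [e] at h2
  rw [natCast_dvd_iff] at h1
  obtain ⟨_, h3⟩ := h1
  have hd : v - u = 0 ∨ v - u = 1 ∨ v - u = 2 := by
    generalize v - u = d
    revert d
    decide
  rcases hd with hd | hd | hd
  · exact (sub_eq_zero.1 hd).symm
  · exfalso
    rw [hd] at h3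
    have e : W 1 = w := by rw [W]; exact pow_one w
    rw [e] at h3
    simp at h3
    exact hN h3
  · exfalso
    rw [hd] at h3
    have e : W 2 = w ^ 2 := rfl
    rw [e, w_sq] at h3
    simp at h3
    exact hN h3

/-- `γ` is an integer prime to `q` times `w ^ v`, modulo `q` -/
def Cl (q : ℕ) (γ : Eis) (v : ZMod 3) : Prop :=
  ∃ n : ℤ, ¬ (q : ℤ) ∣ n ∧ (q : Eis) ∣ γ - n * W v

theorem Cl.mul {q : ℕ} (hq : q.Prime) {γ γ' : Eis} {v v' : ZMod 3} (h : Cl q γ v)
    (h' : Cl q γ' v') : Cl q (γ * γ') (v + v') := by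
  obtain ⟨n, hn, hd⟩ := h
  obtain ⟨n', hn', hd'⟩ := h'
  have hZ := Nat.prime_iff_prime_int.mp hq
  refine ⟨n * n', fun hh => (hZ.dvd_or_dvd hh).elim hn hn', ?_⟩
  have e : γ * γ' - ((n * n' : ℤ) : Eis) * W (v + v') =
      (γ - n * W v) * γ' + (n * W v) * (γ' - n' * W v') := by
    rw [W_add]
    push_cast
    ring
  rw [e]
  exact dvd_add (Dvd.dvd.mul_right hd _) (Dvd.dvd.mul_left hd' _)

theorem Cl.conj {q : ℕ} {γ : Eis} {v : ZMod 3} (h : Cl q γ v) : Cl q (conj γ) (-v) := by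
  obtain ⟨n, hn, hd⟩ := h
  refine ⟨n, hn, ?_⟩
  have := conj_dvd hd
  rw [conj_natCast, map_sub, map_mul, conj_intCast] at this
  rw [W_neg]
  exact this

theorem Cl.W {q : ℕ} (hq : q.Prime) (v : ZMod 3) : Cl q (W v) v := by
  refine ⟨1, fun h => hq.one_lt.ne' ?_, ?_⟩
  · have := Int.natAbs_dvd_natAbs.2 h
    simpa using this
  · simp

/-- two elements with the same cube up to rational factors -/
theorem Cl.ratio {q : ℕ} (hq : q.Prime) {X Y : Eis} {u v : ZMod 3} {k : ℕ} {M : ℤ}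
    (hX : Cl q X u) (hY : Cl q Y v) (h : X * Eis.conj Y = M * w ^ k) : u - v = k := by
  obtain ⟨n, hn, hd⟩ := hX.mul hq hY.conj
  rw [h, wpow_eq, ← sub_eq_add_neg] at hd
  exact (uniq hn hd).symm

section

variable {m : ℕ} {p e : Fin m → ℕ} (H : HypG p e)
include H

theorem AA_ne : AA p e ≠ 0 := by
  unfold AA
  refine Finset.prod_ne_zero_iff.2 fun i _ => pow_ne_zero _ ?_
  exact_mod_cast (H.hp i).ne_zero

theorem dvd_AA (i : Fin m) : (p i : ℤ) ∣ AA p e := by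
  unfold AA
  refine (dvd_pow_self (p i : ℤ) ?_).trans (Finset.dvd_prod_of_mem _ (Finset.mem_univ i))
  rcases H.he i with h | h <;> omega

theorem cube_ndvd (i : Fin m) : ¬ (p i : ℤ) ^ 3 ∣ AA p e := by
  intro h
  unfold AA at h
  rw [← Finset.mul_prod_erase Finset.univ _ (Finset.mem_univ i)] at h
  have hZ := Nat.prime_iff_prime_int.mp (H.hp i)
  have h0 : (p i : ℤ) ^ e i ≠ 0 := pow_ne_zero _ hZ.ne_zero
  have h1 : (p i : ℤ) ^ (e i + 1) ∣ (p i : ℤ) ^ 3 := pow_dvd_pow _ (by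
    rcases H.he i with h | h <;> omega)
  have h2 := h1.trans h
  rw [pow_succ] at h2
  have h4 := (mul_dvd_mul_iff_left h0).1 h2
  obtain ⟨j, hj, h5⟩ := (Prime.dvd_finsetProd_iff hZ _).1 h4
  have h6 := hZ.dvd_of_dvd_pow h5
  have h7 : p i ∣ p j := by exact_mod_cast h6
  have h8 := (Nat.prime_dvd_prime_iff_eq (H.hp i) (H.hp j)).1 h7
  exact (Finset.ne_of_mem_erase hj) (H.inj h8).symm

theorem not_cube : ¬ ∃ n : ℤ, n ^ 3 = AA p e := by
  rintro ⟨n, hn⟩
  obtain ⟨i, _⟩ := H.ex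
  have hZ := Nat.prime_iff_prime_int.mp (H.hp i)
  have h1 : (p i : ℤ) ∣ n ^ 3 := by rw [hn]; exact dvd_AA H _
  have h2 := hZ.dvd_of_dvd_pow h1
  exact cube_ndvd H i (by rw [← hn]; exact pow_dvd_pow_of_dvd h2 3)

omit H in
theorem kapG_iff {P : GA (AA p e)} {v : Fin m → ZMod 3} : KapG p e P v ↔
    ((P = 0 ∧ ∃ c, ∀ i, v i = c) ∨
    ∃ (a b c : ℤ) (γ : Eis) (t1 t2 : ℤ), Crd (AA p e) P a b c ∧ t1 ≠ 0 ∧ t2 ≠ 0 ∧
      (t1 : Eis) * ((a : Eis) + w * b) = t2 * (lam * γ ^ 3) ∧ ∀ i, Cl (p i) γ (v i)) := Iff.rfl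

/-- adding a constant to the class -/
theorem kap_shift {P : GA (AA p e)} {v : Fin m → ZMod 3} (h : KapG p e P v) (c : ZMod 3) :
    KapG p e P (fun i => v i + c) := by
  rw [kapG_iff] at h ⊢
  rcases h with ⟨h0, d, hd⟩ | ⟨a, b, z, γ, t1, t2, hC, ht1, ht2, he, hs⟩
  · exact Or.inl ⟨h0, d + c, fun i => by simp only [hd]⟩
  · refine Or.inr ⟨a, b, z, γ * W c, t1, t2, hC, ht1, ht2, ?_, fun i => ?_⟩
    · rw [he, mul_pow, W_cube, mul_one]
    · exact (hs i).mul (H.hp i) (Cl.W (H.hp i) c)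

/-- the class of the negative -/
theorem kap_neg (h1 : BasicsStmt) {P : GA (AA p e)} {v : Fin m → ZMod 3} (h : KapG p e P v) :
    KapG p e (-P) (fun i => - v i) := by
  rw [kapG_iff] at h ⊢
  rcases h with ⟨h0, d, hd⟩ | ⟨a, b, z, γ, t1, t2, hC, ht1, ht2, he, hs⟩
  · exact Or.inl ⟨by rw [h0, neg_zero], -d, fun i => by simp only [hd]⟩
  · refine Or.inr ⟨b, a, z, conj γ, t1, -t2, ((h1 _ (AA_ne H)).2.2.2.2 P a b z hC).1, ht1,
      neg_ne_zero.2 ht2, ?_, fun i => (hs i).conj⟩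
    have e1 := congrArg conj he
    simp only [map_mul, map_add, map_pow, conj_intCast, conj_w, lam_eq, map_sub, map_one] at e1
    have hc := w_cube
    have hr := w_rel
    rw [lam_eq]
    push_cast
    linear_combination w * e1 + (-(t1 : Eis) * b - t2 * conj γ ^ 3) * hc +
      (0 : Eis) * hr

/-- the class of a point is unique up to constants -/
theorem kap_unique (h1 : BasicsStmt) {P : GA (AA p e)} {v v' : Fin m → ZMod 3}
    (h : KapG p e P v) (h' : KapG p e P v') : ∃ c, ∀ i, v i = v' i + c := by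
  rw [kapG_iff] at h h'
  rcases h with ⟨h0, d, hd⟩ | ⟨a, b, z, γ, t1, t2, hC, ht1, ht2, he, hs⟩
  · rcases h' with ⟨h0', d', hd'⟩ | ⟨a', b', z', γ', t1', t2', hC', _⟩
    · exact ⟨d - d', fun i => by rw [hd, hd']; ring⟩
    · exact absurd h0 (crd_ne hC')
  · rcases h' with ⟨h0', d', hd'⟩ | ⟨a', b', z', γ', t1', t2', hC', ht1', ht2', he', hs'⟩
    · exact absurd h0' (crd_ne hC)
    · have hcong : ∃ (k : ℕ) (M : ℤ), γ * conj γ' = M * w ^ k := by
        have hl := prime_lam.ne_zero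
        rcases (h1 _ (AA_ne H)).2.2.2.1 P a b z a' b' z' hC hC' with ⟨ea, eb, _⟩ | ⟨ea, eb, _⟩
        · refine ratio (n := t2 * t1') (n' := t2' * t1) (mul_ne_zero ht2 ht1') ?_
          refine mul_left_cancel₀ hl ?_
          rw [ea, eb] at he'
          push_cast
          linear_combination (-(t1' : Eis)) * he + (t1 : Eis) * he'
        · refine ratio (n := -(t2 * t1')) (n' := t2' * t1) (neg_ne_zero.2
            (mul_ne_zero ht2 ht1')) ?_
          refine mul_left_cancel₀ hl ?_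
          rw [ea, eb] at he'
          push_cast at he' ⊢
          linear_combination (t1' : Eis) * he + (t1 : Eis) * he'
      obtain ⟨k, M, hk⟩ := hcong
      refine ⟨k, fun i => ?_⟩
      have e1 := Cl.ratio (H.hp i) (hs i) (hs' i) hk
      linear_combination e1

/-- the coordinates of a point at an inert prime -/
theorem crd_q (i : Fin m) (h3 : p i % 3 = 2) {P : GA (AA p e)} {a b c : ℤ}
    (h : Crd (AA p e) P a b c) :
    ¬ (p i : ℤ) ∣ a ∧ ¬ (p i : ℤ) ∣ b ∧ (p i : ℤ) ∣ a + b ∧ ¬ (p i : Eis) ∣ (a : Eis) + w * b := by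
  obtain ⟨_, hc, he, _⟩ := h
  have hZ := Nat.prime_iff_prime_int.mp (H.hp i)
  have h1 : (p i : ℤ) ∣ a ^ 3 + b ^ 3 := by
    rw [he]
    exact Dvd.dvd.mul_right (dvd_AA H i) _
  have hb : ¬ (p i : ℤ) ∣ b := by
    intro hb
    have h2 : (p i : ℤ) ∣ a ^ 3 := (dvd_add_left (hb.trans (dvd_pow_self b (by norm_num)))).1 h1
    exact hZ.not_isUnit (hc.isUnit_of_dvd' (hZ.dvd_of_dvd_pow h2) hb)
  have ha : ¬ (p i : ℤ) ∣ a := by
    intro ha
    have h2 : (p i : ℤ) ∣ b ^ 3 := (dvd_add_right (ha.trans (dvd_pow_self a (by norm_num)))).1 h1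
    exact hb (hZ.dvd_of_dvd_pow h2)
  refine ⟨ha, hb, cube_inj' (H.hp i) h3 h1 hb, ?_⟩
  intro h
  rw [natCast_dvd_iff] at h
  obtain ⟨h4, h5⟩ := h
  simp at h4 h5
  exact ha h4

/-- the case that one of three points with sum zero is zero -/
theorem kap_sum_zero (h1 : BasicsStmt) {P Q R : GA (AA p e)} {v v' v'' : Fin m → ZMod 3}
    (h : KapG p e P v) (h' : KapG p e Q v') (h'' : KapG p e R v'') (h0 : P + Q + R = 0)
    (hP : P = 0) : ∃ c, ∀ i, v i + v' i + v'' i = c := by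
  obtain ⟨d, hd⟩ : ∃ d, ∀ i, v i = d := by
    rcases h with ⟨_, d, hd⟩ | ⟨a, b, z, γ, t1, t2, hC, _⟩
    · exact ⟨d, hd⟩
    · exact absurd hP (crd_ne hC)
  have hQ : Q = -R := by
    rw [hP, zero_add] at h0
    exact eq_neg_of_add_eq_zero_left h0
  obtain ⟨c, hc⟩ := kap_unique H h1 h' (hQ ▸ kap_neg H h1 h'')
  exact ⟨d + c, fun i => by rw [hd, hc]; ring⟩

end

/-! ### the prime 3 -/

theorem three_dvd_cube_sub (a : ℤ) : (3 : ℤ) ∣ a ^ 3 - a := by
  have h : a % 3 = 0 ∨ a % 3 = 1 ∨ a % 3 = 2 := by omega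
  rcases h with h | h | h
  · obtain ⟨k, hk⟩ : ∃ k, a = 3 * k := ⟨a / 3, by omega⟩
    exact ⟨9 * k ^ 3 - k, by rw [hk]; ring⟩
  · obtain ⟨k, hk⟩ : ∃ k, a = 3 * k + 1 := ⟨a / 3, by omega⟩
    exact ⟨9 * k ^ 3 + 9 * k ^ 2 + 2 * k, by rw [hk]; ring⟩
  · obtain ⟨k, hk⟩ : ∃ k, a = 3 * k + 2 := ⟨a / 3, by omega⟩
    exact ⟨9 * k ^ 3 + 18 * k ^ 2 + 11 * k + 2, by rw [hk]; ring⟩

theorem prime3 : Prime (3 : ℤ) := Nat.prime_iff_prime_int.mp Nat.prime_three

/-- coordinates of a point with a class at 3 -/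
theorem crd_three {A : ℤ} (h3 : (3 : ℤ) ∣ A) (h27 : ¬ (3 : ℤ) ^ 3 ∣ A) {P : GA A} {a b c : ℤ}
    (h : Crd A P a b c) {γ : Eis} {t1 t2 : ℤ} (ht1 : t1 ≠ 0) (ht2 : t2 ≠ 0)
    (he : (t1 : Eis) * ((a : Eis) + w * b) = t2 * (lam * γ ^ 3)) {v : ZMod 3} (hv : Cl 3 γ v) :
    ¬ (3 : ℤ) ∣ a ∧ ¬ (3 : ℤ) ∣ b ∧ (3 : ℤ) ∣ c ∧
      ∃ s : ℤ, a + b = 27 * s ∧ (a : Eis) + w * b = lam * (-b + 9 * s * (2 + w)) := by
  obtain ⟨_, hco, heq, _⟩ := h
  have h1 : (3 : ℤ) ∣ a + b := by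
    have h2 : (3 : ℤ) ∣ a ^ 3 + b ^ 3 := by rw [heq]; exact Dvd.dvd.mul_right h3 _
    have h4 := dvd_sub h2 (dvd_add (three_dvd_cube_sub a) (three_dvd_cube_sub b))
    have e : a ^ 3 + b ^ 3 - (a ^ 3 - a + (b ^ 3 - b)) = a + b := by ring
    rwa [e] at h4
  have ha : ¬ (3 : ℤ) ∣ a := by
    intro ha
    have hb : (3 : ℤ) ∣ b := (dvd_add_right ha).1 h1
    exact prime3.not_isUnit (hco.isUnit_of_dvd' ha hb)
  have hb : ¬ (3 : ℤ) ∣ b := by
    intro hb
    have ha' : (3 : ℤ) ∣ a := (dvd_add_left hb).1 h1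
    exact ha ha'
  obtain ⟨s, hs⟩ := h1
  have hfac : (a : Eis) + w * b = lam * ((2 * s - b : ℤ) + s * w) := by
    have e : a = 3 * s - b := by linarith
    rw [e, lam_eq]
    push_cast
    have hr := w_rel
    linear_combination (s : Eis) * hr
  obtain ⟨n, hn, β, hβ⟩ := hv
  have hγ : γ = n * W v + 3 * β := by
    have : ((3 : ℕ) : Eis) = 3 := by norm_num
    rw [this] at hβ
    linear_combination hβ
  obtain ⟨β', hβ'⟩ : ∃ β' : Eis, γ ^ 3 = (n : Eis) ^ 3 + 9 * β' := by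
    refine ⟨(n : Eis) ^ 2 * W v ^ 2 * β + 3 * n * W v * β ^ 2 + 3 * β ^ 3, ?_⟩
    rw [hγ]
    linear_combination (n : Eis) ^ 3 * W_cube v
  have hE : (t1 : Eis) * (((2 * s - b : ℤ) : Eis) + (s : Eis) * w) =
      (t2 : Eis) * (((n ^ 3 : ℤ) : Eis) + ((9 : ℤ) : Eis) * β') := by
    refine mul_left_cancel₀ prime_lam.ne_zero ?_
    rw [hfac, hβ'] at he
    push_cast at he ⊢
    linear_combination he
  have hre := congrArg Eis.re hE
  have him := congrArg Eis.im hE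
  simp only [mul_re, mul_im, add_re, add_im, intCast_re, intCast_im, w_re, w_im] at hre him
  -- 9 ∣ s
  have hkey : (n ^ 3 + 9 * β'.re) * s = 9 * β'.im * (2 * s - b) := by
    refine mul_left_cancel₀ (mul_ne_zero ht1 ht2) ?_
    linear_combination (-(t1 * s)) * hre + (t1 * (2 * s - b)) * him
  have hcop : IsCoprime (9 : ℤ) (n ^ 3) := by
    have h5 : IsCoprime (3 : ℤ) n := (prime3.coprime_iff_not_dvd).2 (by exact_mod_cast hn)
    have h6 : IsCoprime ((3 : ℤ) ^ 2) (n ^ 3) := h5.pow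
    have e : (3 : ℤ) ^ 2 = 9 := by norm_num
    rwa [e] at h6
  have h9 : (9 : ℤ) ∣ s := by
    have h7 : (9 : ℤ) ∣ n ^ 3 * s := ⟨β'.im * (2 * s - b) - β'.re * s, by linear_combination hkey⟩
    exact hcop.dvd_of_dvd_mul_left h7
  obtain ⟨s', hs'⟩ := h9
  refine ⟨ha, hb, ?_, s', by rw [hs, hs']; ring, ?_⟩
  · by_contra hc
    apply h27
    have h8 : (3 : ℤ) ^ 3 ∣ A * c ^ 3 := by
      rw [← heq]
      refine ⟨s' * (a ^ 2 - a * b + b ^ 2), ?_⟩
      have e : a ^ 3 + b ^ 3 = (a + b) * (a ^ 2 - a * b + b ^ 2) := by ring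
      rw [e, hs, hs']; ring
    have h9 : IsCoprime (3 : ℤ) c := (prime3.coprime_iff_not_dvd).2 hc
    have h10 : IsCoprime ((3 : ℤ) ^ 3) (c ^ 3) := h9.pow
    exact h10.dvd_of_dvd_mul_right h8
  · rw [hfac, hs']
    push_cast
    ring

section

variable {m : ℕ} {p e : Fin m → ℕ} (H : HypG p e)
include H

/-- three points with sum zero -/
theorem kap_sum (h1 : BasicsStmt) (h2 : CollStmt) {P Q R : GA (AA p e)}
    {v v' v'' : Fin m → ZMod 3}
    (h : KapG p e P v) (h' : KapG p e Q v') (h'' : KapG p e R v'') (h0 : P + Q + R = 0) :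
    ∃ c, ∀ i, v i + v' i + v'' i = c := by
  by_cases hP : P = 0
  · exact kap_sum_zero H h1 h h' h'' h0 hP
  by_cases hQ : Q = 0
  · obtain ⟨c, hc⟩ := kap_sum_zero H h1 h' h h'' (by rw [← h0]; abel) hQ
    exact ⟨c, fun i => by rw [← hc i]; ring⟩
  by_cases hR : R = 0
  · obtain ⟨c, hc⟩ := kap_sum_zero H h1 h'' h h' (by rw [← h0]; abel) hR
    exact ⟨c, fun i => by rw [← hc i]; ring⟩
  rw [kapG_iff] at h h' h''
  obtain ⟨a1, b1, c1, γ1, t1, s1, hC1, ht1, hs1, he1, hq1⟩ := h.resolve_left fun h => hP h.1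
  obtain ⟨a2, b2, c2, γ2, t2, s2, hC2, ht2, hs2, he2, hq2⟩ := h'.resolve_left fun h => hQ h.1
  obtain ⟨a3, b3, c3, γ3, t3, s3, hC3, ht3, hs3, he3, hq3⟩ := h''.resolve_left fun h => hR h.1
  obtain ⟨l, mm, n, ⟨u, z, t, hpr⟩, hl1, _, _, hcoll⟩ := h2 (AA p e) (AA_ne H) (not_cube H)
    P Q R a1 b1 c1 a2 b2 c2 a3 b3 c3 h0 hC1 hC2 hC3
  -- the linear form at an inert prime
  have hY : ∀ i, p i % 3 = 2 → ¬ (p i : ℤ) ∣ l ∧ (p i : ℤ) ∣ mm - l := by
    intro i hi3
    have hZ := Nat.prime_iff_prime_int.mp (H.hp i)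
    have hE := prime_inert (H.hp i) hi3
    obtain ⟨x1, x2, x3, x4⟩ := crd_q H i hi3 hC1
    have y4 := (crd_q H i hi3 hC2).2.2.2
    have z4 := (crd_q H i hi3 hC3).2.2.2
    have k1 : (p i : Eis) ∣ ((n ^ 3 + AA p e * mm ^ 3 : ℤ) : Eis) *
        (((a1 : Eis) + w * b1) * ((a2 : Eis) + w * b2) * ((a3 : Eis) + w * b3)) := by
      rw [hcoll]
      exact Dvd.dvd.mul_right (Dvd.dvd.mul_right (cast_dvd.2 (dvd_AA H i)) _) _
    have k2 : (p i : Eis) ∣ ((n ^ 3 + AA p e * mm ^ 3 : ℤ) : Eis) := by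
      rcases hE.dvd_or_dvd k1 with k | k
      · exact k
      · exfalso
        rcases hE.dvd_or_dvd k with k | k
        · rcases hE.dvd_or_dvd k with k | k
          · exact x4 k
          · exact y4 k
        · exact z4 k
    have k3 : (p i : ℤ) ∣ n := by
      have k4 := cast_dvd.1 k2
      have k5 : (p i : ℤ) ∣ n ^ 3 := (dvd_add_left (Dvd.dvd.mul_right (dvd_AA H i) _)).1 k4
      exact hZ.dvd_of_dvd_pow k5
    have k4 : (p i : ℤ) ∣ mm - l := by
      have k5 : (p i : ℤ) ∣ (mm - l) * a1 := by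
        have e : (mm - l) * a1 = mm * (a1 + b1) + n * c1 := by linear_combination -hl1
        rw [e]
        exact dvd_add (Dvd.dvd.mul_left x3 _) (Dvd.dvd.mul_right k3 _)
      exact (hZ.dvd_or_dvd k5).resolve_right x1
    refine ⟨?_, k4⟩
    intro hl
    have hmm : (p i : ℤ) ∣ mm := by
      have := dvd_add k4 hl
      rwa [sub_add_cancel] at this
    apply hZ.not_dvd_one
    rw [← hpr]
    exact dvd_add (dvd_add (Dvd.dvd.mul_left hl _) (Dvd.dvd.mul_left hmm _))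
      (Dvd.dvd.mul_left k3 _)
  have hlc : lam * conj lam = 3 := by
    rw [lam_eq, map_sub, map_one, conj_w]
    have hr := w_rel
    have hc := w_cube
    linear_combination hc - hr
  have hD : n ^ 3 + AA p e * mm ^ 3 ≠ 0 := by
    intro hD
    rw [hD, Int.cast_zero, zero_mul] at hcoll
    obtain ⟨i, hi⟩ := H.ex
    have hi3 : p i % 3 = 2 := by rcases hi with h | h <;> omega
    have a0 : ∀ {a : ℤ}, ¬ (p i : ℤ) ∣ a → a ≠ 0 := fun h h0 => h (h0 ▸ dvd_zero _)
    have hA : ((AA p e : ℤ) : Eis) ≠ 0 := by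
      intro h
      have := congrArg Eis.re h
      simp at this
      exact AA_ne H this
    have hYn : (mm : Eis) - w * l ≠ 0 := by
      intro h
      have h4 := congrArg Eis.im h
      simp at h4
      exact a0 (hY i hi3).1 h4
    have haa : ((a1 * a2 * a3 : ℤ) : Eis) ≠ 0 := by
      intro h
      have h4 := congrArg Eis.re h
      rw [intCast_re] at h4
      exact mul_ne_zero (mul_ne_zero (a0 (crd_q H i hi3 hC1).1) (a0 (crd_q H i hi3 hC2).1))
        (a0 (crd_q H i hi3 hC3).1) h4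
    exact mul_ne_zero (mul_ne_zero hA (pow_ne_zero 3 hYn)) haa hcoll.symm
  obtain ⟨k, M, hk⟩ := ratio (X := lam * (γ1 * γ2 * γ3)) (Y := (mm : Eis) - w * l)
    (n := (n ^ 3 + AA p e * mm ^ 3) * (s1 * s2 * s3)) (n' := AA p e * (t1 * t2 * t3) *
      (a1 * a2 * a3)) (mul_ne_zero hD (mul_ne_zero (mul_ne_zero hs1 hs2) hs3)) (by
    have e1 : (lam * (γ1 * γ2 * γ3)) ^ 3 * (((n ^ 3 + AA p e * mm ^ 3) * (s1 * s2 * s3) : ℤ) : Eis)
        = ((n ^ 3 + AA p e * mm ^ 3 : ℤ) : Eis) * ((s1 * (lam * γ1 ^ 3)) *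
          (s2 * (lam * γ2 ^ 3)) * (s3 * (lam * γ3 ^ 3))) := by
      push_cast
      ring
    rw [e1, ← he1, ← he2, ← he3]
    push_cast at hcoll ⊢
    linear_combination (t1 * t2 * t3 : Eis) * hcoll)
  rw [wpow_eq] at hk
  refine ⟨k, fun i => ?_⟩
  obtain ⟨N, hN, hd⟩ := ((hq1 i).mul (H.hp i) (hq2 i)).mul (H.hp i) (hq3 i)
  rcases H.h3 i with h3 | h3
  · -- inert primes
    obtain ⟨k5, k4⟩ := hY i h3
    have hZ := Nat.prime_iff_prime_int.mp (H.hp i)
    refine (uniq (q := p i) (M := M) (N := 3 * l * N) (u := k) ?_ ?_).symm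
    · intro hh
      rcases hZ.dvd_or_dvd hh with hh | hh
      · rcases hZ.dvd_or_dvd hh with hh | hh
        · have h5 : p i ∣ 3 := by exact_mod_cast hh
          have h6 := (Nat.prime_dvd_prime_iff_eq (H.hp i) Nat.prime_three).1 h5
          omega
        · exact k5 hh
      · exact hN hh
    · have e : (M : Eis) * W k - ((3 * l * N : ℤ) : Eis) * W (v i + v' i + v'' i) =
          lam * conj ((mm : Eis) - w * l) * (γ1 * γ2 * γ3 - N * W (v i + v' i + v'' i)) +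
          ((mm - l : ℤ) : Eis) * (lam * (N * W (v i + v' i + v'' i))) := by
        rw [← hk, map_sub, map_mul, conj_w, conj_intCast, conj_intCast, lam_eq]
        push_cast
        have hr := w_rel
        have hc := w_cube
        linear_combination (l * N * W (v i + v' i + v'' i) : Eis) * (hc - hr)
      rw [e]
      exact dvd_add (Dvd.dvd.mul_left hd _) (Dvd.dvd.mul_right (cast_dvd.2 k4) _)
  · -- the prime 3
    have h3A : (3 : ℤ) ∣ AA p e := by
      have := dvd_AA H i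
      rw [h3] at this
      exact_mod_cast this
    have h27 : ¬ (3 : ℤ) ^ 3 ∣ AA p e := by
      have := cube_ndvd H i
      rw [h3] at this
      exact_mod_cast this
    have q1 := hq1 i
    have q2 := hq2 i
    have q3 := hq3 i
    rw [h3] at q1 q2 q3 hd hN
    obtain ⟨_, y1, z1, r1, f1, g1⟩ := crd_three h3A h27 hC1 ht1 hs1 he1 q1
    obtain ⟨_, y2, z2, r2, f2, g2⟩ := crd_three h3A h27 hC2 ht2 hs2 he2 q2
    obtain ⟨_, y3, z3, r3, f3, g3⟩ := crd_three h3A h27 hC3 ht3 hs3 he3 q3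
    have hN' : ¬ (3 : ℤ) ∣ N := by exact_mod_cast hN
    have hd' : (3 : Eis) ∣ γ1 * γ2 * γ3 - N * W (v i + v' i + v'' i) := by
      have e3 : ((3 : ℕ) : Eis) = 3 := by norm_num
      rwa [e3] at hd
    obtain ⟨c1', hc1'⟩ := z1
    have hbb : (mm - l) * b1 = -27 * l * r1 - n * c1 := by
      linear_combination hl1 - l * f1
    obtain ⟨g, hg⟩ : (3 : ℤ) ∣ mm - l := by
      have h4 : (3 : ℤ) ∣ (mm - l) * b1 := ⟨-9 * l * r1 - n * c1', by rw [hbb, hc1']; ring⟩
      exact (prime3.dvd_or_dvd h4).resolve_right y1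
    have hgE : (mm : Eis) - l = 3 * g := by
      have := congrArg (Int.cast : ℤ → Eis) hg
      push_cast at this
      exact this
    have eY : (mm : Eis) - w * l = lam * (l + g * conj lam) := by
      have : lam * ((l : Eis) + g * conj lam) = lam * l + g * (lam * conj lam) := by ring
      rw [this, hlc, lam_eq]
      linear_combination hgE
    obtain ⟨A', hA'⟩ := h3A
    have hAE : ((AA p e : ℤ) : Eis) = 3 * A' := by rw [hA']; push_cast; ring
    have hc2 : ((n ^ 3 + AA p e * mm ^ 3 : ℤ) : Eis) * ((-b1 + 9 * r1 * (2 + w)) *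
        (-b2 + 9 * r2 * (2 + w)) * (-b3 + 9 * r3 * (2 + w))) =
        (AA p e : Eis) * (l + g * conj lam) ^ 3 * ((a1 * a2 * a3 : ℤ) : Eis) := by
      refine mul_left_cancel₀ (pow_ne_zero 3 prime_lam.ne_zero) ?_
      rw [g1, g2, g3, eY] at hcoll
      linear_combination hcoll
    have hn3 : (3 : ℤ) ∣ n := by
      have h4 : ((3 : ℕ) : Eis) ∣ (((n ^ 3 + AA p e * mm ^ 3) * (b1 * b2 * b3) : ℤ) : Eis) := by
        refine ⟨-((A' : Eis) * (l + g * conj lam) ^ 3 * ((a1 * a2 * a3 : ℤ) : Eis)) +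
          3 * ((n ^ 3 + AA p e * mm ^ 3 : ℤ) : Eis) *
          ((r1 * (2 + w)) * (b2 * b3) + (r2 * (2 + w)) * (b1 * b3) + (r3 * (2 + w)) * (b1 * b2) -
            9 * ((r1 * (2 + w)) * (r2 * (2 + w)) * b3 + (r1 * (2 + w)) * (r3 * (2 + w)) * b2 +
              (r2 * (2 + w)) * (r3 * (2 + w)) * b1) +
            81 * ((r1 * (2 + w)) * (r2 * (2 + w)) * (r3 * (2 + w)))), ?_⟩
        have e3 : ((3 : ℕ) : Eis) = 3 := by norm_num
        rw [e3, Int.cast_mul (n ^ 3 + AA p e * mm ^ 3)]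
        generalize ((n ^ 3 + AA p e * mm ^ 3 : ℤ) : Eis) = D at hc2 ⊢
        rw [hAE] at hc2
        push_cast at hc2 ⊢
        linear_combination (-1 : Eis) * hc2
      have h5 : (3 : ℤ) ∣ (n ^ 3 + AA p e * mm ^ 3) * (b1 * b2 * b3) := by
        have := cast_dvd.1 h4
        exact_mod_cast this
      have h6 : (3 : ℤ) ∣ n ^ 3 + AA p e * mm ^ 3 := by
        rcases prime3.dvd_or_dvd h5 with h6 | h6
        · exact h6
        · exfalso
          rcases prime3.dvd_or_dvd h6 with h6 | h6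
          · rcases prime3.dvd_or_dvd h6 with h6 | h6
            · exact y1 h6
            · exact y2 h6
          · exact y3 h6
      have h7 : (3 : ℤ) ∣ n ^ 3 :=
        (dvd_add_left (Dvd.dvd.mul_right (⟨A', hA'⟩ : (3 : ℤ) ∣ AA p e) _)).1 h6
      exact prime3.dvd_of_dvd_pow h7
    obtain ⟨n', hn'⟩ := hn3
    have hg3 : (3 : ℤ) ∣ g := by
      have h4 : (3 : ℤ) ∣ g * b1 := by
        refine ⟨-3 * l * r1 - n' * c1', ?_⟩
        have h5 : (3 : ℤ) * (g * b1) = 3 * (3 * (-3 * l * r1 - n' * c1')) := by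
          rw [hg, hc1', hn'] at hbb
          linear_combination hbb
        exact mul_left_cancel₀ (by norm_num) h5
      exact (prime3.dvd_or_dvd h4).resolve_right y1
    have hl3 : ¬ (3 : ℤ) ∣ l := by
      intro hl
      have hmm : (3 : ℤ) ∣ mm := by
        have := dvd_add (⟨g, hg⟩ : (3 : ℤ) ∣ mm - l) hl
        rwa [sub_add_cancel] at this
      apply prime3.not_dvd_one
      rw [← hpr]
      exact dvd_add (dvd_add (Dvd.dvd.mul_left hl _) (Dvd.dvd.mul_left hmm _))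
        (Dvd.dvd.mul_left ⟨n', hn'⟩ _)
    -- the product
    have hk2 : (3 : Eis) * ((γ1 * γ2 * γ3) * (l + g * lam)) = M * W k := by
      rw [← hk, eY, map_mul, map_add, map_mul, conj_conj, conj_intCast, conj_intCast, ← hlc]
      ring
    obtain ⟨M', hM'⟩ : (3 : ℤ) ∣ M := by
      have h4 : ((3 : ℕ) : Eis) ∣ (M : Eis) := by
        refine ⟨(γ1 * γ2 * γ3) * (l + g * lam) * W (-(k : ZMod 3)), ?_⟩
        have e3 : ((3 : ℕ) : Eis) = 3 := by norm_num
        rw [e3]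
        linear_combination (-W (-(k : ZMod 3))) * hk2 - (M : Eis) * W_mul_neg (k : ZMod 3)
      have := cast_dvd.1 h4
      exact_mod_cast this
    have h3ne : (3 : Eis) ≠ 0 := by
      intro h
      have := congrArg Eis.re h
      rw [← hlc] at h
      exact mul_ne_zero prime_lam.ne_zero (fun h5 => prime_lam.ne_zero (by
        have := congrArg conj h5
        rwa [conj_conj, map_zero] at this)) h
    have hk3 : (γ1 * γ2 * γ3) * (l + g * lam) = M' * W k := by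
      refine mul_left_cancel₀ h3ne ?_
      rw [hk2, hM']
      push_cast
      ring
    refine (uniq (q := 3) (M := M') (N := N * l) (u := k) ?_ ?_).symm
    · intro hh
      have hh' : (3 : ℤ) ∣ N * l := by exact_mod_cast hh
      exact (prime3.dvd_or_dvd hh').elim hN' hl3
    · obtain ⟨g', hg'⟩ := hg3
      obtain ⟨δ, hδ⟩ := hd'
      refine ⟨δ * l + γ1 * γ2 * γ3 * g' * lam, ?_⟩
      have e3 : ((3 : ℕ) : Eis) = 3 := by norm_num
      have hgE' : (g : Eis) = 3 * g' := by rw [hg']; push_cast; ring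
      rw [e3, ← hk3, hgE']
      push_cast
      linear_combination (l : Eis) * hδ

end

end GKapAdd

open GKapAdd in
/-- (G5b) the class is additive -/
theorem kapAddG (h1 : BasicsStmt) (h2 : CollStmt) (h3 : KapExStmtG) : KapAddStmtG := by
  intro m p e H P Q v v' hv hv'
  obtain ⟨v'', hv''⟩ := h3 m p e H (-(P + Q))
  obtain ⟨c, hc⟩ := kap_sum H h1 h2 hv hv' hv'' (by abel)
  have h4 := kap_neg H h1 hv''
  rw [neg_neg] at h4
  have h5 := kap_shift H h4 c
  have e1 : (fun i => - v'' i + c) = v + v' := by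
    funext i
    rw [Pi.add_apply, ← hc i]
    ring
  rwa [e1] at h5

end Pool.Agent.CubeRank
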