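import Pool.Agent.CubeRank.Defs
import Pool.Agent.Lib_helper84.Cub.Glue
import Pool.Agent.Lib_helper18.CubStep0

/-!
# CubeRank M5c: points of class zero are multiples of 3, other classes are represented
(MP_8e0b0b_nt; helper55)
-/

set_option autoImplicit false

namespace Pool.Agent.CubeRank

open Finset Pool.Agent.Lib_helper18 Pool.Agent.Lib_helper18.Eis Pool.Agent.Lib_helper84.Cub
  Pool.Agent.Lib_helper18.CubStep0

namespace KapRepAux

/-! ## Cubes whose ratio is rational -/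

lemma cube_rat {γ γ' : Eis} {M N : ℤ} (hM : M ≠ 0) (h : (M : Eis) * γ ^ 3 = N * γ' ^ 3) :
    ∃ (n : ℤ) (j : ℕ), (γ'.norm : Eis) * γ = n * w ^ j * γ' := by
  have h1 : (M : Eis) * (γ * conj γ') ^ 3 = ((N * γ'.norm ^ 3 : ℤ) : Eis) := by
    rw [mul_pow, ← mul_assoc, h, mul_assoc, ← mul_pow, mul_conj]
    push_cast
    ring
  obtain ⟨r, i, hz⟩ : ∃ r i : ℤ, γ * conj γ' = ⟨r, i⟩ := ⟨_, _, rfl⟩
  have h2 : r * i * (r - i) = 0 := by
    rw [hz] at h1
    have h3 := congrArg Eis.im h1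
    simp only [pow_succ, pow_zero, one_mul, mul_im, mul_re, intCast_im, intCast_re] at h3
    have h4 : M * (3 * (r * i * (r - i))) = 0 := by linear_combination h3
    have h5 := (mul_eq_zero.mp h4).resolve_left hM
    exact (mul_eq_zero.mp h5).resolve_left (by norm_num)
  have key : ∀ (n : ℤ) (j : ℕ), γ * conj γ' = (n : Eis) * w ^ j →
      (γ'.norm : Eis) * γ = n * w ^ j * γ' := by
    intro n j hn
    rw [← hn, ← mul_conj]
    ring
  rcases mul_eq_zero.mp h2 with h3 | h3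
  · rcases mul_eq_zero.mp h3 with h4 | h4
    · refine ⟨i, 1, key _ _ ?_⟩
      rw [hz, h4]
      ext <;> simp
    · refine ⟨r, 0, key _ _ ?_⟩
      rw [hz, h4]
      ext <;> simp
  · refine ⟨-r, 2, key _ _ ?_⟩
    have h4 : i = r := by linarith
    rw [hz, h4, w_sq]
    ext <;> simp

lemma sym_of_eq {q : ℕ} (hq : q.Prime) (h3 : q % 3 = 2) {γ γ' : Eis} {n : ℤ} {j : ℕ}
    (hγ : ¬ (q : Eis) ∣ γ) (hγ' : ¬ (q : Eis) ∣ γ')
    (h : (γ'.norm : Eis) * γ = n * w ^ j * γ') :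
    sym (q : Eis) γ = (j : ZMod 3) * sym (q : Eis) w + sym (q : Eis) γ' := by
  have hP := prime_inert hq h3
  have hn3 := n3 hq h3
  have hcq : ¬ (q : Eis) ∣ conj γ' := by
    intro hd
    apply hγ'
    have := conj_dvd hd
    rwa [conj_conj, conj_natCast] at this
  have hN : ¬ (q : Eis) ∣ (γ'.norm : Eis) := by
    rw [← mul_conj]
    exact fun hd => (hP.dvd_or_dvd hd).elim hγ' hcq
  have hN' : ¬ (q : ℤ) ∣ γ'.norm := by
    intro hd
    apply hN
    have := intCast_dvd_intCast.mpr hd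
    rwa [Int.cast_natCast] at this
  have hn : ¬ (q : Eis) ∣ (n : Eis) := by
    intro hd
    have h4 : (q : Eis) ∣ (γ'.norm : Eis) * γ := by
      rw [h, mul_assoc]
      exact Dvd.dvd.mul_right hd _
    exact (hP.dvd_or_dvd h4).elim hN hγ
  have hn' : ¬ (q : ℤ) ∣ n := by
    intro hd
    apply hn
    have := intCast_dvd_intCast.mpr hd
    rwa [Int.cast_natCast] at this
  have hw : ¬ (q : Eis) ∣ w ^ j := fun hd => not_dvd_w hP (hP.dvd_of_dvd_pow hd)
  have hnw : ¬ (q : Eis) ∣ (n : Eis) * w ^ j := fun hd => (hP.dvd_or_dvd hd).elim hn hw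
  have h5 := congrArg (sym (q : Eis)) h
  rw [sym_mul hP hn3 hN hγ, sym_mul hP hn3 hnw hγ', sym_mul hP hn3 hn hw, sym_int hq h3 hN',
    sym_int hq h3 hn', sym_pow hP hn3 (not_dvd_w hP), zero_add, zero_add] at h5
  exact h5

lemma sym_w_ne {q : ℕ} (hq : q.Prime) (h9 : q % 9 = 2 ∨ q % 9 = 5) :
    sym (q : Eis) w ≠ 0 := by
  rw [FData.sym_w_r hq (by omega)]
  apply neg_ne_zero.mpr
  unfold wq
  have : (q : ℤ) % 9 = 2 ∨ (q : ℤ) % 9 = 5 := by omega
  rcases this with h | h <;> rw [h] <;> decide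

/-- the symbol of `α + δ ω` -/
lemma sym_pos {q : ℕ} (hq : q.Prime) (h3 : q % 3 = 2) {α δ : ℤ} (hco : IsCoprime α δ) :
    ((q : ℤ) ∣ α → sym (q : Eis) ((α : Eis) + δ * w) = 1 * sym (q : Eis) w) ∧
    ((q : ℤ) ∣ -δ → sym (q : Eis) ((α : Eis) + δ * w) = 0 * sym (q : Eis) w) ∧
    ((q : ℤ) ∣ δ - α → sym (q : Eis) ((α : Eis) + δ * w) = 2 * sym (q : Eis) w) := by
  have hP := prime_inert hq h3
  have hn3 := n3 hq h3
  have hqZ := Nat.prime_iff_prime_int.mp hq
  have hno : ¬ ((q : ℤ) ∣ α ∧ (q : ℤ) ∣ δ) := fun h =>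
    hqZ.not_isUnit (hco.isUnit_of_dvd' h.1 h.2)
  have cast : ∀ n : ℤ, ¬ (q : ℤ) ∣ n → ¬ (q : Eis) ∣ (n : Eis) := by
    intro n hn hd
    apply hn
    have h : ((q : ℤ) : Eis) ∣ (n : Eis) := by rwa [Int.cast_natCast]
    exact intCast_dvd_intCast.mp h
  have cast' : ∀ n : ℤ, (q : ℤ) ∣ n → (q : Eis) ∣ (n : Eis) := by
    intro n hd
    have := intCast_dvd_intCast.mpr hd
    rwa [Int.cast_natCast] at this
  refine ⟨?_, ?_, ?_⟩
  · intro h
    have hδ : ¬ (q : ℤ) ∣ δ := fun h' => hno ⟨h, h'⟩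
    have h1 : sym (q : Eis) ((α : Eis) + δ * w) = sym (q : Eis) ((δ : Eis) * w) := by
      apply sym_congr
      rw [add_sub_cancel_right]
      exact cast' _ h
    rw [h1, sym_mul hP hn3 (cast _ hδ) (not_dvd_w hP), sym_int hq h3 hδ]
    ring
  · intro h
    have hδ : (q : ℤ) ∣ δ := (dvd_neg).mp h
    have hα : ¬ (q : ℤ) ∣ α := fun h' => hno ⟨h', hδ⟩
    have h1 : sym (q : Eis) ((α : Eis) + δ * w) = sym (q : Eis) (α : Eis) := by
      apply sym_congr
      rw [add_sub_cancel_left]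
      exact Dvd.dvd.mul_right (cast' _ hδ) _
    rw [h1, sym_int hq h3 hα]
    ring
  · intro h
    have hα : ¬ (q : ℤ) ∣ α := by
      intro h'
      exact hno ⟨h', by simpa using dvd_add h h'⟩
    have h1 : sym (q : Eis) ((α : Eis) + δ * w) = sym (q : Eis) (((-α : ℤ) : Eis) * w ^ 2) := by
      apply sym_congr
      have e : (α : Eis) + δ * w - ((-α : ℤ) : Eis) * w ^ 2 = ((δ - α : ℤ) : Eis) * w := by
        rw [w_sq]
        push_cast
        ring
      rw [e]
      exact Dvd.dvd.mul_right (cast' _ h) _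
    have hα' : ¬ (q : ℤ) ∣ -α := fun h' => hα ((dvd_neg).mp h')
    have hw2 : ¬ (q : Eis) ∣ w ^ 2 := fun hd => not_dvd_w hP (hP.dvd_of_dvd_pow hd)
    rw [h1, sym_mul hP hn3 (cast _ hα') hw2, sym_int hq h3 hα',
      sym_pow hP hn3 (not_dvd_w hP)]
    push_cast
    ring

/-! ## Splitting -/

lemma split3 {m : ℕ} {p e : Fin m → ℕ} (hp : ∀ i, (p i).Prime) (he0 : ∀ i, e i ≠ 0)
    {u v t s : ℤ} (huv : IsCoprime u v) (hut : IsCoprime u t) (hvt : IsCoprime v t)
    (hprod : u * v * t = AA p e * s ^ 3) :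
    ∃ (pos : Fin m → Fin 3) (x : Fin 3 → ℤ), u = cell p e pos 0 * x 0 ^ 3 ∧
      v = cell p e pos 1 * x 1 ^ 3 ∧ t = cell p e pos 2 * x 2 ^ 3 ∧ s = x 0 * x 1 * x 2 := by
  obtain ⟨J, -, a, w, hu, hw, hs1⟩ := split_two p e hp he0 univ u (v * t) s (huv.mul_right hut)
    (by rw [← mul_assoc]; exact hprod)
  obtain ⟨J', hJ', b, c, hv, ht, hs2⟩ := split_two p e hp he0 (univ \ J) v t w hvt hw
  change u = PP p e J * a ^ 3 at hu
  change v = PP p e J' * b ^ 3 at hv
  change t = PP p e ((univ \ J) \ J') * c ^ 3 at ht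
  have c0 : cell p e (posOf J J') 0 = PP p e J := by rw [cell_eq, filter_pos_zero]
  have c1 : cell p e (posOf J J') 1 = PP p e J' := by rw [cell_eq, filter_pos_one hJ']
  have c2 : cell p e (posOf J J') 2 = PP p e ((univ \ J) \ J') := by
    rw [cell_eq, filter_pos_two]
  refine ⟨posOf J J', ![a, b, c], ?_, ?_, ?_, ?_⟩
  · rw [c0]; exact hu
  · rw [c1]; exact hv
  · rw [c2]; exact ht
  · rw [hs1, hs2, ← mul_assoc]; rfl

lemma dvd_cell {m : ℕ} (p e : Fin m → ℕ) (he0 : ∀ i, e i ≠ 0) (pos : Fin m → Fin 3)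
    (i : Fin m) (k : Fin 3) (h : pos i = k) : (p i : ℤ) ∣ cell p e pos k := by
  unfold cell
  refine Dvd.dvd.trans ?_ (dvd_prod_of_mem _ (mem_univ i))
  rw [if_pos h]
  exact dvd_pow_self _ (he0 i)

lemma cell_all {m : ℕ} (p e : Fin m → ℕ) (pos : Fin m → Fin 3) (k : Fin 3)
    (h : ∀ i, pos i = k) : cell p e pos k = AA p e ∧ ∀ k', k' ≠ k → cell p e pos k' = 1 := by
  constructor
  · unfold cell AA
    exact prod_congr rfl fun i _ => if_pos (h i)
  · intro k' hk
    unfold cell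
    refine prod_eq_one fun i _ => if_neg ?_
    rw [h i]
    exact hk.symm

lemma isPt_of {m : ℕ} {p e : Fin m → ℕ} {pos : Fin m → Fin 3} {x : Fin 3 → ℤ} {u v t s : ℤ}
    (hu : u = cell p e pos 0 * x 0 ^ 3) (hv : v = cell p e pos 1 * x 1 ^ 3)
    (ht : t = cell p e pos 2 * x 2 ^ 3) (hs : s = x 0 * x 1 * x 2) (hs0 : s ≠ 0)
    (huv : IsCoprime u v) (hut : IsCoprime u t) (hvt : IsCoprime v t) (hsum : u + v + t = 0) :
    IsPt p e pos x := by
  refine ⟨?_, ?_, ?_⟩
  · intro k hk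
    apply hs0
    rw [hs]
    fin_cases k
    · have h : x 0 = 0 := hk
      rw [h]; ring
    · have h : x 1 = 0 := hk
      rw [h]; ring
    · have h : x 2 = 0 := hk
      rw [h]; ring
  · rw [Fin.sum_univ_three, ← hu, ← hv, ← ht]; exact hsum
  · have d0 : cell p e pos 0 * x 0 ∣ u := ⟨x 0 ^ 2, by rw [hu]; ring⟩
    have d1 : cell p e pos 1 * x 1 ∣ v := ⟨x 1 ^ 2, by rw [hv]; ring⟩
    have d2 : cell p e pos 2 * x 2 ∣ t := ⟨x 2 ^ 2, by rw [ht]; ring⟩
    have h01 := huv.of_isCoprime_of_dvd_left d0 |>.of_isCoprime_of_dvd_right d1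
    have h02 := hut.of_isCoprime_of_dvd_left d0 |>.of_isCoprime_of_dvd_right d2
    have h12 := hvt.of_isCoprime_of_dvd_left d1 |>.of_isCoprime_of_dvd_right d2
    intro i j hij
    fin_cases i <;> fin_cases j
    · exact absurd rfl hij
    · exact h01
    · exact h02
    · exact h01.symm
    · exact absurd rfl hij
    · exact h12
    · exact h02.symm
    · exact h12.symm
    · exact absurd rfl hij

/-! ## Multiples of 3 -/

lemma core (h1 : BasicsStmt) (h3 : TripleStmt) (A : ℤ) (hA : A ≠ 0)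
    (hnc : ¬ ∃ n : ℤ, n ^ 3 = A) (P : GA A) (a b c : ℤ) (hP : Crd A P a b c)
    (t1 t2 α δ x y z : ℤ) (ht1 : t1 ≠ 0) (ht2 : t2 ≠ 0)
    (hg : (t1 : Eis) * ((a : Eis) + w * b) = t2 * (lam * ((α : Eis) + δ * w) ^ 3))
    (hz : z ≠ 0) (hxy : IsCoprime x y) (hxyz : x ^ 3 + y ^ 3 = A * z ^ 3)
    (e1 : α ^ 3 + 3 * α ^ 2 * δ - 6 * α * δ ^ 2 + δ ^ 3 = -TX x y)
    (e2 : -α ^ 3 + 6 * α ^ 2 * δ - 3 * α * δ ^ 2 - δ ^ 3 = -TY x y) : P ∈ threeMul A := by
  obtain ⟨Q, hQ⟩ := (h1 A hA).2.1 x y z hz hxy hxyz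
  obtain ⟨X, Y, h, h3Q, hX, hY⟩ := h3 A hA hnc Q x y z hQ
  obtain ⟨hc, -, habc, x', y', h', hP', hx', hy'⟩ := hP
  have ha : t1 * a = -t2 * TX x y := by
    have h5 := congrArg Eis.re hg
    simp only [pow_succ, pow_zero, one_mul, mul_im, mul_re, add_re, add_im, intCast_im,
      intCast_re, w_re, w_im, lam_re, lam_im] at h5
    linear_combination h5 + t2 * e1
  have hb : t1 * b = -t2 * TY x y := by
    have h5 := congrArg Eis.im hg
    simp only [pow_succ, pow_zero, one_mul, mul_im, mul_re, add_re, add_im, intCast_im,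
      intCast_re, w_re, w_im, lam_re, lam_im] at h5
    linear_combination h5 + t2 * e2
  have hab : a + b ≠ 0 := by
    intro h0
    have h5 : A * c ^ 3 = 0 := by
      rw [← habc]
      have : b = -a := by linarith
      rw [this]; ring
    rcases mul_eq_zero.mp h5 with h6 | h6
    · exact hA h6
    · exact hc (pow_eq_zero_iff (by norm_num) |>.mp h6)
  have hT : TX x y + TY x y ≠ 0 := by
    intro h0
    apply hab
    have h5 : t1 * (a + b) = 0 := by linear_combination ha + hb - t2 * h0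
    exact (mul_eq_zero.mp h5).resolve_left ht1
  have hTT : TX x y ^ 3 + TY x y ^ 3 = A * TZ x y z ^ 3 := by
    unfold TX TY TZ
    linear_combination 27 * x ^ 3 * y ^ 3 * (x ^ 6 + x ^ 3 * y ^ 3 + y ^ 6) ^ 3 * hxyz
  have hcc : t1 * c = -t2 * TZ x y z := by
    have h5 : A * (t1 * c) ^ 3 = A * (-t2 * TZ x y z) ^ 3 := by
      have h6 : (t1 * a) ^ 3 + (t1 * b) ^ 3 = A * (t1 * c) ^ 3 := by
        linear_combination t1 ^ 3 * habc
      rw [ha, hb] at h6
      linear_combination (-t2 ^ 3) * hTT - h6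
    have h7 := mul_left_cancel₀ hA h5
    exact (Odd.strictMono_pow (by decide : Odd 3)).injective h7
  have haQ : (t1 : ℚ) * a = -t2 * (TX x y : ℤ) := by exact_mod_cast ha
  have hbQ : (t1 : ℚ) * b = -t2 * (TY x y : ℤ) := by exact_mod_cast hb
  have hcQ : (t1 : ℚ) * c = -t2 * (TZ x y z : ℤ) := by exact_mod_cast hcc
  have ht2Q : (t2 : ℚ) ≠ 0 := by exact_mod_cast ht2
  have hTQ : ((TX x y : ℤ) : ℚ) + (TY x y : ℤ) ≠ 0 := by exact_mod_cast hT
  have ex : x' = X := by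
    have h5 : (t2 : ℚ) * (((TX x y : ℤ) : ℚ) + (TY x y : ℤ)) * (x' - X) = 0 := by
      linear_combination (-t1 : ℚ) * hx' - t2 * hX + x' * haQ + x' * hbQ - 12 * A * hcQ
    have h6 := (mul_eq_zero.mp h5).resolve_left (mul_ne_zero ht2Q hTQ)
    linarith
  have ey : y' = Y := by
    have h5 : (t2 : ℚ) * (((TX x y : ℤ) : ℚ) + (TY x y : ℤ)) * (y' - Y) = 0 := by
      linear_combination (-t1 : ℚ) * hy' - t2 * hY + y' * haQ + y' * hbQ -
        36 * A * haQ + 36 * A * hbQ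
    have h6 := (mul_eq_zero.mp h5).resolve_left (mul_ne_zero ht2Q hTQ)
    linarith
  subst ex
  subst ey
  refine ⟨Q, ?_⟩
  show (3 : ℕ) • Q = P
  rw [h3Q, hP']

/-! ## Permutations -/

/-- the value attached to a cell -/
def fv (c : ZMod 3) (k : Fin 3) : ZMod 3 := c + (1 - (k.val : ZMod 3))

lemma fv_inj : ∀ c : ZMod 3, ∀ k k' : Fin 3, fv c k = fv c k' → k = k' := by decide

lemma zf_fv_inj : ∀ c : ZMod 3, ∀ k k' : Fin 3, zf (fv c k) = zf (fv c k') → k = k' := by decide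

end KapRepAux

open KapRepAux in
/-- module `CR_KAPREP` -/
theorem kapRep (h1 : BasicsStmt) (h2 : LiftStmt) (h3 : TripleStmt) : KapRepStmt := by
  intro m p e hm hH P v hK
  rcases hK with ⟨hP0, c, hc⟩ | ⟨a, b, c, γ, t1, t2, hCrd, ht1, ht2, hg, hsym⟩
  · refine ⟨fun _ => ?_, fun hn => absurd ⟨c, hc⟩ hn⟩
    rw [hP0]
    exact (threeMul (AA p e)).zero_mem
  have he0 : ∀ i, e i ≠ 0 := fun i => by have := hH.he i; omega
  have hp3 : ∀ i, p i % 3 = 2 := fun i => by have := hH.h9 i; omega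
  obtain ⟨hc0, hab, habc, -⟩ := id hCrd
  obtain ⟨α, δ, s, r1, r2, hco, hs0, hr1, hr2, hprod, hg'⟩ := h2 m p e hm hH a b c hc0 hab habc
  -- comparison of the two lifts
  have hcmp : ((r1 * t2 : ℤ) : Eis) * γ ^ 3 = ((t1 * r2 : ℤ) : Eis) * ((α : Eis) + δ * w) ^ 3 := by
    have h5 : lam * (((r1 * t2 : ℤ) : Eis) * γ ^ 3) =
        lam * (((t1 * r2 : ℤ) : Eis) * ((α : Eis) + δ * w) ^ 3) := by
      push_cast
      linear_combination (t1 : Eis) * hg' - (r1 : Eis) * hg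
    exact mul_left_cancel₀ prime_lam.ne_zero h5
  obtain ⟨n, j, hnj⟩ := cube_rat (mul_ne_zero hr1 ht2) hcmp
  -- splitting
  have huv : IsCoprime α (-δ) := hco.neg_right
  have hut : IsCoprime α (δ - α) := by
    obtain ⟨u, v, huv⟩ := hco
    exact ⟨u + v, v, by linear_combination huv⟩
  have hvt : IsCoprime (-δ) (δ - α) := by
    obtain ⟨u, v, huv⟩ := hco
    exact ⟨-(u + v), -u, by linear_combination huv⟩
  obtain ⟨pos, x, hu, hv, ht, hs⟩ := split3 hH.hp he0 huv hut hvt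
    (s := s) (by rw [← hprod]; ring)
  have hpt : IsPt p e pos x := isPt_of hu hv ht hs hs0 huv hut hvt (by ring)
  have hval : ∀ i, v i = fv (j : ZMod 3) (pos i) := by
    intro i
    obtain ⟨hγd, hγs⟩ := hsym i
    have hqZ := Nat.prime_iff_prime_int.mp (hH.hp i)
    have hγ' : ¬ (p i : Eis) ∣ ((α : Eis) + δ * w) := by
      intro hd
      rw [natCast_dvd_iff] at hd
      simp only [add_re, add_im, mul_re, mul_im, intCast_re, intCast_im, w_re, w_im] at hd
      exact hqZ.not_isUnit (hco.isUnit_of_dvd' (by simpa using hd.1) (by simpa using hd.2))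
    have h5 := sym_of_eq (hH.hp i) (hp3 i) hγd hγ' hnj
    obtain ⟨s0, s1, s2⟩ := sym_pos (hH.hp i) (hp3 i) hco
    have h6 : sym (p i : Eis) ((α : Eis) + δ * w) =
        (1 - ((pos i).val : ZMod 3)) * sym (p i : Eis) w := by
      have hk : pos i = 0 ∨ pos i = 1 ∨ pos i = 2 := by
        generalize pos i = k
        fin_cases k <;> simp
      rcases hk with hk | hk | hk
      · rw [s0 (by rw [hu]; exact Dvd.dvd.mul_right (dvd_cell p e he0 pos i 0 hk) _), hk]
        simp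
      · rw [s1 (by rw [hv]; exact Dvd.dvd.mul_right (dvd_cell p e he0 pos i 1 hk) _), hk]
        simp
      · rw [s2 (by rw [ht]; exact Dvd.dvd.mul_right (dvd_cell p e he0 pos i 2 hk) _), hk]
        have : (1 - (((2 : Fin 3).val : ℕ) : ZMod 3)) = 2 := by decide
        rw [this]
    have h7 : (v i - fv (j : ZMod 3) (pos i)) * sym (p i : Eis) w = 0 := by
      unfold fv
      linear_combination h5 + h6 - hγs
    have h8 := (mul_eq_zero.mp h7).resolve_right (sym_w_ne (hH.hp i) (hH.h9 i))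
    exact sub_eq_zero.mp h8
  refine ⟨?_, ?_⟩
  · rintro ⟨c', hc'⟩
    -- constant class
    have hprime : ∀ i, Prime (p i : ℤ) := fun i => Nat.prime_iff_prime_int.mp (hH.hp i)
    have hA0 : AA p e ≠ 0 :=
      prod_ne_zero_iff.mpr (fun j _ => pow_ne_zero _ (hprime j).ne_zero)
    have hcf := cube_not_dvd_prod p e hH.hp hH.inj (fun i => by have := hH.he i; omega) univ
    have hnc : ¬ ∃ n : ℤ, n ^ 3 = AA p e := by
      rintro ⟨n, hn⟩
      let i0 : Fin m := ⟨0, by omega⟩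
      have hd : (p i0 : ℤ) ∣ AA p e := by
        unfold AA
        exact (dvd_pow_self _ (he0 i0)).trans (dvd_prod_of_mem _ (mem_univ i0))
      rw [← hn] at hd
      have hd2 := (hprime i0).dvd_of_dvd_pow hd
      have hd3 : (p i0 : ℤ) ^ 3 ∣ AA p e := by
        rw [← hn]
        exact pow_dvd_pow_of_dvd hd2 3
      exact hcf _ (hprime i0) hd3
    have hpos : ∀ i, pos i = pos ⟨0, by omega⟩ := by
      intro i
      apply fv_inj (j : ZMod 3)
      rw [← hval, ← hval, hc', hc']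
    generalize hk0 : pos ⟨0, by omega⟩ = k0 at hpos
    obtain ⟨hcA, hc1⟩ := cell_all p e pos k0 hpos
    have hx := hpt.ne
    have hk : k0 = 0 ∨ k0 = 1 ∨ k0 = 2 := by
      clear hk0 hpos hcA hc1
      fin_cases k0 <;> simp
    have hab' : ∀ y z : ℤ, IsCoprime (y ^ 3) (z ^ 3) → IsCoprime y z := fun y z h =>
      (IsCoprime.pow_iff (by norm_num) (by norm_num)).mp h
    rcases hk with hk | hk | hk
    · subst hk
      rw [hcA] at hu
      rw [hc1 1 (by decide), one_mul] at hv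
      rw [hc1 2 (by decide), one_mul] at ht
      have hδ : δ = -x 1 ^ 3 := by linarith
      have hα : α = -x 1 ^ 3 - x 2 ^ 3 := by linarith
      refine core h1 h3 (AA p e) hA0 hnc P a b c hCrd r1 r2 α δ (x 2) (x 1) (-x 0) hr1 hr2 hg'
        (neg_ne_zero.mpr (hx 0)) (hab' _ _ (by rw [← hv, ← ht]; exact hvt.symm)) ?_ ?_ ?_
      · linear_combination hα - hu
      · rw [hα, hδ]; unfold TX; ring
      · rw [hα, hδ]; unfold TY; ring
    · subst hk
      rw [hcA] at hv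
      rw [hc1 0 (by decide), one_mul] at hu
      rw [hc1 2 (by decide), one_mul] at ht
      have hδ : δ = x 0 ^ 3 + x 2 ^ 3 := by linarith
      refine core h1 h3 (AA p e) hA0 hnc P a b c hCrd r1 r2 α δ (x 0) (x 2) (-x 1) hr1 hr2 hg'
        (neg_ne_zero.mpr (hx 1)) (hab' _ _ (by rw [← hu, ← ht]; exact hut)) ?_ ?_ ?_
      · linear_combination -hv - hδ
      · rw [hu, hδ]; unfold TX; ring
      · rw [hu, hδ]; unfold TY; ring
    · subst hk
      rw [hcA] at ht
      rw [hc1 0 (by decide), one_mul] at hu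
      rw [hc1 1 (by decide), one_mul] at hv
      have hδ : δ = -x 1 ^ 3 := by linarith
      refine core h1 h3 (AA p e) hA0 hnc P a b c hCrd r1 r2 α δ (x 1) (x 0) (-x 2) hr1 hr2 hg'
        (neg_ne_zero.mpr (hx 2)) (hab' _ _ (by rw [← hu, ← hv]; exact huv.symm)) ?_ ?_ ?_
      · linear_combination hδ - ht - hu
      · rw [hu, hδ]; unfold TX; ring
      · rw [hu, hδ]; unfold TY; ring
  · intro _
    -- representation
    have hinj : Function.Injective (fun k : Fin 3 => zf (fv (j : ZMod 3) k)) := by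
      intro k k' hkk
      exact zf_fv_inj _ _ _ hkk
    let σ : Equiv.Perm (Fin 3) := Equiv.ofBijective _ (Finite.injective_iff_bijective.mp hinj)
    have h5 := hpt.perm σ
    refine ⟨x ∘ σ.symm, ?_⟩
    have h6 : (fun i => zf (v i)) = σ ∘ pos := by
      funext i
      rw [hval i]
      rfl
    rw [h6]
    exact h5

end Pool.Agent.CubeRank
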