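import Pool.Agent.CubeRank.GDefs
import Pool.Agent.CubeRank.KapRep

/-!
# CubeRank G5c: points of class zero are multiples of 3, other classes are represented,
general version (MP_8e0b0b_nt; helper7, after helper55)
-/

set_option autoImplicit false

namespace Pool.Agent.CubeRank

open Finset Pool.Agent.Lib_helper18 Pool.Agent.Lib_helper18.Eis Pool.Agent.Lib_helper84.Cub
  Pool.Agent.Lib_helper18.CubStep0

namespace GKapRepAux

open KapRepAux

lemma w_cube : (w : Eis) ^ 3 = 1 := by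
  have h : (w : Eis) ^ 3 = w ^ 2 * w := by ring
  rw [h, w_sq]
  ext <;> simp

lemma w_pow_mod (u : ℕ) : (w : Eis) ^ u = w ^ (u % 3) := by
  conv_lhs => rw [← Nat.div_add_mod u 3]
  rw [pow_add, pow_mul, w_cube, one_pow, one_mul]

lemma cong_unique {q : ℕ} {M N : ℤ} {u v : ℕ} (hM : ¬ (q : ℤ) ∣ M)
    (h : (q : Eis) ∣ (M : Eis) * w ^ u - (N : Eis) * w ^ v) : (u : ZMod 3) = (v : ZMod 3) := by
  rw [w_pow_mod u, w_pow_mod v, natCast_dvd_iff] at h
  have hu : u % 3 < 3 := Nat.mod_lt _ (by norm_num)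
  have hv : v % 3 < 3 := Nat.mod_lt _ (by norm_num)
  rw [ZMod.natCast_eq_natCast_iff, Nat.ModEq]
  by_contra hne
  apply hM
  obtain ⟨hr, hi⟩ := h
  generalize u % 3 = a at *
  generalize v % 3 = b at *
  have e2 : (w : Eis) ^ 2 = ⟨-1, -1⟩ := by
    rw [w_sq]
    ext <;> simp
  interval_cases a <;> interval_cases b <;>
    simp only [pow_zero, pow_one, e2, mul_one, sub_re, sub_im, mul_re, mul_im, intCast_re,
      intCast_im, w_re, w_im, mul_zero, sub_zero, zero_sub, add_zero, zero_add,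
      mul_neg, neg_zero, sub_neg_eq_add, not_true_eq_false] at hr hi hne
  · exact hr
  · have := dvd_sub hr hi
    ring_nf at this
    exact this
  · exact hi
  · have := dvd_sub hi hr
    ring_nf at this
    exact this
  · have := (dvd_neg).mpr hi
    ring_nf at this
    exact this
  · have := (dvd_neg).mpr hr
    ring_nf at this
    exact this

/-- congruence of the norm -/
lemma norm_not_dvd {q : ℕ} (hq : q.Prime) {γ' : Eis} {n : ℤ} {k : ℕ} (hn : ¬ (q : ℤ) ∣ n)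
    (h : (q : Eis) ∣ γ' - n * w ^ k) : ¬ (q : ℤ) ∣ γ'.norm := by
  intro hd
  have hqZ := Nat.prime_iff_prime_int.mp hq
  apply hn
  have h1 : (q : Eis) ∣ ((γ'.norm : ℤ) : Eis) := by
    have := intCast_dvd_intCast.mpr hd
    rwa [Int.cast_natCast] at this
  have h2 : (q : Eis) ∣ conj (γ' - n * w ^ k) := by
    have := conj_dvd h
    rwa [conj_natCast] at this
  have h3 : ((n ^ 2 : ℤ) : Eis) = (n * w ^ k : Eis) * conj ((n : Eis) * w ^ k) := by
    rw [mul_conj, norm_mul, norm_pow, norm_w, one_pow, mul_one, norm_intCast]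
  have h4 : ((n ^ 2 : ℤ) : Eis) = ((γ'.norm : ℤ) : Eis) - γ' * conj (γ' - n * w ^ k) -
      (γ' - n * w ^ k) * conj ((n : Eis) * w ^ k) := by
    rw [h3, ← mul_conj, map_sub]
    ring
  have h5 : (q : Eis) ∣ ((n ^ 2 : ℤ) : Eis) := by
    rw [h4]
    exact dvd_sub (dvd_sub h1 (Dvd.dvd.mul_left h2 _)) (Dvd.dvd.mul_right h _)
  have h6 : ((q : ℤ) : Eis) ∣ ((n ^ 2 : ℤ) : Eis) := by rwa [Int.cast_natCast]
  exact hqZ.dvd_of_dvd_pow (intCast_dvd_intCast.mp h6)

/-- the class of `α + δ ω` -/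
lemma pos_cong {q : ℕ} (hq : q.Prime) {α δ : ℤ} (hco : IsCoprime α δ) :
    ((q : ℤ) ∣ α → ∃ n : ℤ, ¬ (q : ℤ) ∣ n ∧ (q : Eis) ∣ ((α : Eis) + δ * w) - n * w ^ 1) ∧
    ((q : ℤ) ∣ -δ → ∃ n : ℤ, ¬ (q : ℤ) ∣ n ∧ (q : Eis) ∣ ((α : Eis) + δ * w) - n * w ^ 0) ∧
    ((q : ℤ) ∣ δ - α → ∃ n : ℤ, ¬ (q : ℤ) ∣ n ∧
      (q : Eis) ∣ ((α : Eis) + δ * w) - n * w ^ 2) := by
  have hqZ := Nat.prime_iff_prime_int.mp hq
  have hno : ¬ ((q : ℤ) ∣ α ∧ (q : ℤ) ∣ δ) := fun h =>
    hqZ.not_isUnit (hco.isUnit_of_dvd' h.1 h.2)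
  have cast' : ∀ n : ℤ, (q : ℤ) ∣ n → (q : Eis) ∣ (n : Eis) := by
    intro n hd
    have := intCast_dvd_intCast.mpr hd
    rwa [Int.cast_natCast] at this
  refine ⟨?_, ?_, ?_⟩
  · intro h
    refine ⟨δ, fun h' => hno ⟨h, h'⟩, ?_⟩
    rw [pow_one, add_sub_cancel_right]
    exact cast' _ h
  · intro h
    have hδ : (q : ℤ) ∣ δ := (dvd_neg).mp h
    refine ⟨α, fun h' => hno ⟨h', hδ⟩, ?_⟩
    rw [pow_zero, mul_one, add_sub_cancel_left]
    exact Dvd.dvd.mul_right (cast' _ hδ) _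
  · intro h
    have hα : ¬ (q : ℤ) ∣ α := by
      intro h'
      exact hno ⟨h', by simpa using dvd_add h h'⟩
    refine ⟨-α, fun h' => hα ((dvd_neg).mp h'), ?_⟩
    have e : (α : Eis) + δ * w - ((-α : ℤ) : Eis) * w ^ 2 = ((δ - α : ℤ) : Eis) * w := by
      rw [w_sq]
      push_cast
      ring
    rw [e]
    exact Dvd.dvd.mul_right (cast' _ h) _

/-- comparison of the classes -/
lemma class_eq {q : ℕ} (hq : q.Prime) {γ γ' : Eis} {n n1 n2 : ℤ} {j k u : ℕ}
    (h : (γ'.norm : Eis) * γ = n * w ^ j * γ') (hn1 : ¬ (q : ℤ) ∣ n1)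
    (h1 : (q : Eis) ∣ γ - n1 * w ^ u) (hn2 : ¬ (q : ℤ) ∣ n2)
    (h2 : (q : Eis) ∣ γ' - n2 * w ^ k) : (u : ZMod 3) = (j : ZMod 3) + (k : ZMod 3) := by
  have hqZ := Nat.prime_iff_prime_int.mp hq
  have hN := norm_not_dvd hq hn2 h2
  have h3 : ¬ (q : ℤ) ∣ γ'.norm * n1 := fun hd => (hqZ.dvd_or_dvd hd).elim hN hn1
  have h4 : (q : Eis) ∣ ((γ'.norm * n1 : ℤ) : Eis) * w ^ u -
      ((n * n2 : ℤ) : Eis) * w ^ (j + k) := by
    have e : ((γ'.norm * n1 : ℤ) : Eis) * w ^ u - ((n * n2 : ℤ) : Eis) * w ^ (j + k) =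
        (n * w ^ j) * (γ' - n2 * w ^ k) - (γ'.norm : Eis) * (γ - n1 * w ^ u) := by
      push_cast
      rw [pow_add]
      linear_combination h
    rw [e]
    exact dvd_sub (Dvd.dvd.mul_left h2 _) (Dvd.dvd.mul_left h1 _)
  have h5 := cong_unique h3 h4
  rw [h5]
  push_cast
  ring

end GKapRepAux

open KapRepAux GKapRepAux in
/-- module `G_KAPREP` -/
theorem kapRepG (h1 : BasicsStmt) (h2 : LiftStmtG) (h3 : TripleStmt) : KapRepStmtG := by
  intro m p e hH P v hK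
  rcases hK with ⟨hP0, c, hc⟩ | ⟨a, b, c, γ, t1, t2, hCrd, ht1, ht2, hg, hcl⟩
  · refine ⟨fun _ => ?_, fun hn => absurd ⟨c, hc⟩ hn⟩
    rw [hP0]
    exact (threeMul (AA p e)).zero_mem
  have he0 : ∀ i, e i ≠ 0 := fun i => by have := hH.he i; omega
  obtain ⟨i0, -⟩ := hH.ex
  obtain ⟨hc0, hab, habc, -⟩ := id hCrd
  obtain ⟨α, δ, s, r1, r2, hco, hs0, hr1, hr2, hprod, hg'⟩ := h2 m p e hH a b c hc0 hab habc
  -- comparison of the two lifts
  have hcmp : ((r1 * t2 : ℤ) : Eis) * γ ^ 3 = ((t1 * r2 : ℤ) : Eis) * ((α : Eis) + δ * w) ^ 3 := by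
    have h5 : lam * (((r1 * t2 : ℤ) : Eis) * γ ^ 3) =
        lam * (((t1 * r2 : ℤ) : Eis) * ((α : Eis) + δ * w) ^ 3) := by
      push_cast
      linear_combination (t1 : Eis) * hg' - (r1 : Eis) * hg
    exact mul_left_cancel₀ prime_lam.ne_zero h5
  obtain ⟨n, j, hnj⟩ := cube_rat (mul_ne_zero hr1 ht2) hcmp
  -- splitting
  have huv : IsCoprime α (-δ) := hco.neg_right
  have hut : IsCoprime α (δ - α) := by
    obtain ⟨u, v, huv⟩ := hco
    exact ⟨u + v, v, by linear_combination huv⟩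
  have hvt : IsCoprime (-δ) (δ - α) := by
    obtain ⟨u, v, huv⟩ := hco
    exact ⟨-(u + v), -u, by linear_combination huv⟩
  obtain ⟨pos, x, hu, hv, ht, hs⟩ := split3 hH.hp he0 huv hut hvt
    (s := s) (by rw [← hprod]; ring)
  have hpt : IsPt p e pos x := isPt_of hu hv ht hs hs0 huv hut hvt (by ring)
  have hval : ∀ i, v i = fv (j : ZMod 3) (pos i) := by
    intro i
    obtain ⟨n1, hn1, hγ⟩ := hcl i
    obtain ⟨s0, s1, s2⟩ := pos_cong (hH.hp i) hco
    have hk : pos i = 0 ∨ pos i = 1 ∨ pos i = 2 := by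
      generalize pos i = k
      fin_cases k <;> simp
    have hvv : (((v i).val : ℕ) : ZMod 3) = v i := ZMod.natCast_zmod_val _
    unfold fv
    rcases hk with hk | hk | hk
    · obtain ⟨n2, hn2, hγ'⟩ := s0 (by
        rw [hu]; exact Dvd.dvd.mul_right (dvd_cell p e he0 pos i 0 hk) _)
      have h5 := class_eq (hH.hp i) hnj hn1 hγ hn2 hγ'
      rw [hvv] at h5
      rw [hk, h5]
      simp
    · obtain ⟨n2, hn2, hγ'⟩ := s1 (by
        rw [hv]; exact Dvd.dvd.mul_right (dvd_cell p e he0 pos i 1 hk) _)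
      have h5 := class_eq (hH.hp i) hnj hn1 hγ hn2 hγ'
      rw [hvv] at h5
      rw [hk, h5]
      simp
    · obtain ⟨n2, hn2, hγ'⟩ := s2 (by
        rw [ht]; exact Dvd.dvd.mul_right (dvd_cell p e he0 pos i 2 hk) _)
      have h5 := class_eq (hH.hp i) hnj hn1 hγ hn2 hγ'
      rw [hvv] at h5
      rw [hk, h5]
      have : (1 - (((2 : Fin 3).val : ℕ) : ZMod 3)) = ((2 : ℕ) : ZMod 3) := by decide
      rw [this]
  refine ⟨?_, ?_⟩
  · rintro ⟨c', hc'⟩
    -- constant class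
    have hprime : ∀ i, Prime (p i : ℤ) := fun i => Nat.prime_iff_prime_int.mp (hH.hp i)
    have hA0 : AA p e ≠ 0 :=
      prod_ne_zero_iff.mpr (fun j _ => pow_ne_zero _ (hprime j).ne_zero)
    have hcf := cube_not_dvd_prod p e hH.hp hH.inj (fun i => by have := hH.he i; omega) univ
    have hnc : ¬ ∃ n : ℤ, n ^ 3 = AA p e := by
      rintro ⟨n, hn⟩
      have hd : (p i0 : ℤ) ∣ AA p e := by
        unfold AA
        exact (dvd_pow_self _ (he0 i0)).trans (dvd_prod_of_mem _ (mem_univ i0))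
      rw [← hn] at hd
      have hd2 := (hprime i0).dvd_of_dvd_pow hd
      have hd3 : (p i0 : ℤ) ^ 3 ∣ AA p e := by
        rw [← hn]
        exact pow_dvd_pow_of_dvd hd2 3
      exact hcf _ (hprime i0) hd3
    have hpos : ∀ i, pos i = pos i0 := by
      intro i
      apply fv_inj (j : ZMod 3)
      rw [← hval, ← hval, hc', hc']
    generalize hk0 : pos i0 = k0 at hpos
    obtain ⟨hcA, hc1⟩ := cell_all p e pos k0 hpos
    have hx := hpt.ne
    have hk : k0 = 0 ∨ k0 = 1 ∨ k0 = 2 := by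
      clear hk0 hpos hcA hc1
      fin_cases k0 <;> simp
    have hab' : ∀ y z : ℤ, IsCoprime (y ^ 3) (z ^ 3) → IsCoprime y z := fun y z h =>
      (IsCoprime.pow_iff (by norm_num) (by norm_num)).mp h
    rcases hk with hk | hk | hk
    · subst hk
      rw [hcA] at hu
      rw [hc1 1 (by decide), one_mul] at hv
      rw [hc1 2 (by decide), one_mul] at ht
      have hδ : δ = -x 1 ^ 3 := by linarith
      have hα : α = -x 1 ^ 3 - x 2 ^ 3 := by linarith
      refine core h1 h3 (AA p e) hA0 hnc P a b c hCrd r1 r2 α δ (x 2) (x 1) (-x 0) hr1 hr2 hg'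
        (neg_ne_zero.mpr (hx 0)) (hab' _ _ (by rw [← hv, ← ht]; exact hvt.symm)) ?_ ?_ ?_
      · linear_combination hα - hu
      · rw [hα, hδ]; unfold TX; ring
      · rw [hα, hδ]; unfold TY; ring
    · subst hk
      rw [hcA] at hv
      rw [hc1 0 (by decide), one_mul] at hu
      rw [hc1 2 (by decide), one_mul] at ht
      have hδ : δ = x 0 ^ 3 + x 2 ^ 3 := by linarith
      refine core h1 h3 (AA p e) hA0 hnc P a b c hCrd r1 r2 α δ (x 0) (x 2) (-x 1) hr1 hr2 hg'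
        (neg_ne_zero.mpr (hx 1)) (hab' _ _ (by rw [← hu, ← ht]; exact hut)) ?_ ?_ ?_
      · linear_combination -hv - hδ
      · rw [hu, hδ]; unfold TX; ring
      · rw [hu, hδ]; unfold TY; ring
    · subst hk
      rw [hcA] at ht
      rw [hc1 0 (by decide), one_mul] at hu
      rw [hc1 1 (by decide), one_mul] at hv
      have hδ : δ = -x 1 ^ 3 := by linarith
      refine core h1 h3 (AA p e) hA0 hnc P a b c hCrd r1 r2 α δ (x 1) (x 0) (-x 2) hr1 hr2 hg'
        (neg_ne_zero.mpr (hx 2)) (hab' _ _ (by rw [← hu, ← hv]; exact huv.symm)) ?_ ?_ ?_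
      · linear_combination hδ - ht - hu
      · rw [hu, hδ]; unfold TX; ring
      · rw [hu, hδ]; unfold TY; ring
  · intro _
    -- representation
    have hinj : Function.Injective (fun k : Fin 3 => zf (fv (j : ZMod 3) k)) := by
      intro k k' hkk
      exact zf_fv_inj _ _ _ hkk
    let σ : Equiv.Perm (Fin 3) := Equiv.ofBijective _ (Finite.injective_iff_bijective.mp hinj)
    have h5 := hpt.perm σ
    refine ⟨x ∘ σ.symm, ?_⟩
    have h6 : (fun i => zf (v i)) = σ ∘ pos := by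
      funext i
      rw [hval i]
      rfl
    rw [h6]
    exact h5

end Pool.Agent.CubeRank
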