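import Pool.Agent.CubeRank.LawC

/-!
# The reciprocity law (M7)
-/

set_option autoImplicit false

namespace Pool.Agent.CubeRank

open Pool.Agent.Lib_helper18 Pool.Agent.Lib_helper18.Eis Pool.Agent.Lib_helper84.Cub

variable {m : ℕ} {p e e' : Fin m → ℕ} {S : Finset (Fin m)}

theorem zf_cast : ∀ z : ZMod 3, ((zf z : ℕ) : ZMod 3) = z := by decide

theorem zf_tau : ∀ z : ZMod 3, zf (1 - z) = tau (zf z) := by decide

theorem zf_fpos : ∀ z : ZMod 3, fpos (zf z) = 1 - z := by decide

/-- cyclic shifts of the cells -/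
def shp (a : ZMod 3) : Equiv.Perm (Fin 3) := Equiv.addRight (zf a)

theorem shp_zf : ∀ a z : ZMod 3, shp a (zf z) = zf (z + a) := by decide

/-- change of sign on the cells -/
def ngp : Equiv.Perm (Fin 3) := Equiv.neg (Fin 3)

theorem ngp_zf : ∀ z : ZMod 3, ngp (zf z) = zf (-z) := by decide

theorem rep_shift {v : Fin m → ZMod 3} (h : Rep p e v) (a : ZMod 3) :
    Rep p e (fun i => v i + a) := by
  obtain ⟨x, hx⟩ := h
  have h1 := hx.perm (shp a)
  have h2 : (shp a) ∘ (fun i => zf (v i)) = fun i => zf (v i + a) := by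
    funext i; exact shp_zf a (v i)
  rw [h2] at h1
  exact ⟨_, h1⟩

theorem rep_neg {v : Fin m → ZMod 3} (h : Rep p e v) : Rep p e (fun i => - v i) := by
  obtain ⟨x, hx⟩ := h
  have h1 := hx.perm ngp
  have h2 : ngp ∘ (fun i => zf (v i)) = fun i => zf (-v i) := by
    funext i; exact ngp_zf (v i)
  rw [h2] at h1
  exact ⟨_, h1⟩

theorem rep_std (h : Rep p e (ind S)) : ∃ y, IsPt p e (stdS S) y := by
  obtain ⟨x, hx⟩ := rep_shift h 1
  have h2 : (fun i => zf (ind S i + 1)) = stdS S := by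
    funext i
    unfold ind stdS
    split_ifs <;> decide
  rw [h2] at hx
  exact ⟨x, hx⟩

theorem base_of (h : Hyp p e) (h' : Hyp p e') (hS : ∀ i, i ∈ S ↔ e i ≠ e' i) :
    BaseS p e e' S where
  hp := h.hp
  h3 := fun i => by have := h.h9 i; omega
  inj := h.inj
  he := h.he
  he' := h'.he
  hw := fun i => by
    rw [FData.sym_w_r (h.hp i) (by have := h.h9 i; omega)]
    exact neg_ne_zero.mpr (wq_ne (h.h9 i))
  rel := fun j => by
    have h1 := h.he j
    have h2 := h'.he j
    have h3 := hS j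
    split_ifs with h4
    · have := h3.mp h4; omega
    · by_contra h5
      exact h4 (h3.mpr h5)

/-- the weights of `e'` -/
theorem sw_in (b : BaseS p e e' S) {i : Fin m} (hi : i ∈ S) : sw p e' i = - sw p e i := by
  have h := b.rel i
  rw [if_pos hi] at h
  have := congrArg (fun n : ℕ => (n : ZMod 3)) h
  push_cast at this
  unfold sw
  linear_combination wq (p i : ℤ) * this + wq (p i : ℤ) * three_zmod

theorem sw_out (b : BaseS p e e' S) {i : Fin m} (hi : i ∉ S) : sw p e' i = sw p e i := by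
  have h := b.rel i
  rw [if_neg hi] at h
  unfold sw
  rw [h]

theorem sum_split (f : Fin m → ZMod 3) (S : Finset (Fin m)) :
    ∑ i, f i = ∑ i ∈ S, f i + ∑ i ∈ Sᶜ, f i := (Finset.sum_add_sum_compl S f).symm

/-- the total weight of `e'` -/
theorem tw_eq (b : BaseS p e e' S) : tw p e' = tw p e + ∑ i ∈ S, sw p e i := by
  unfold tw
  rw [sum_split _ S, sum_split (sw p e) S]
  have h1 : ∑ i ∈ S, sw p e' i = - ∑ i ∈ S, sw p e i := by
    rw [← Finset.sum_neg_distrib]
    exact Finset.sum_congr rfl (fun i hi => sw_in b hi)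
  have h2 : ∑ i ∈ Sᶜ, sw p e' i = ∑ i ∈ Sᶜ, sw p e i :=
    Finset.sum_congr rfl (fun i hi => sw_out b (Finset.mem_compl.mp hi))
  rw [h1, h2]
  linear_combination (-(∑ i ∈ S, sw p e i)) * three_zmod

/-- the product formula with the weights -/
theorem formula (h : Hyp p e) {f : Fin m → ZMod 3} {c : ZMod 3}
    (h1 : ∑ i ∈ S, (e i : ZMod 3) * (f i * sym (p i : Eis) w) =
      c * ∑ i ∈ S, (e i : ZMod 3) * sym (p i : Eis) w) :
    ∑ i ∈ S, sw p e i * f i = c * ∑ i ∈ S, sw p e i := by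
  have hw : ∀ i, sym (p i : Eis) w = - wq (p i : ℤ) := fun i =>
    FData.sym_w_r (h.hp i) (by have := h.h9 i; omega)
  have e1 : ∑ i ∈ S, (e i : ZMod 3) * (f i * sym (p i : Eis) w) = - ∑ i ∈ S, sw p e i * f i := by
    rw [← Finset.sum_neg_distrib]
    refine Finset.sum_congr rfl (fun i _ => ?_)
    rw [hw, sw]; ring
  have e2 : ∑ i ∈ S, (e i : ZMod 3) * sym (p i : Eis) w = - ∑ i ∈ S, sw p e i := by
    rw [← Finset.sum_neg_distrib]
    refine Finset.sum_congr rfl (fun i _ => ?_)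
    rw [hw, sw]; ring
  rw [e1, e2] at h1
  linear_combination -h1

theorem z3_facts : ∀ W s : ZMod 3, W ≠ 0 → W + s ≠ 0 → s ≠ 0 → s = W ∧ (W = 1 ∨ W + s = 1) ∧
    W * W = 1 := by decide

/-- the linear form when the exchanged weights sum to zero -/
theorem Lam_zero {v : Fin m → ZMod 3} (hs : ∑ i ∈ S, sw p e i = 0) :
    Lam p e S v = ∑ i ∈ S, sw p e i * v i := by
  unfold Lam; rw [hs]; ring

theorem fin_of_mul {o : Fin 3} {W : ZMod 3} {k : Fin 3} (hW : W ≠ 0)
    (h : ((o : ℕ) : ZMod 3) * W = ((k : ℕ) : ZMod 3) * W) : o = k := by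
  have h1 := mul_right_cancel₀ hW h
  revert h1; clear * -; revert o k; decide

/-- case I -/
theorem law_I (h : Hyp p e) (h' : Hyp p e') (hS : ∀ i, i ∈ S ↔ e i ≠ e' i) (hne : S.Nonempty)
    (htw : (tw p e ≠ 0 ∧ tw p e' ≠ 0) ∨ (tw p e = 0 ∧ tw p e' = 0))
    (hr : Rep p e' (ind S)) {v : Fin m → ZMod 3} (hv : Rep p e v) : Lam p e S v = 0 := by
  have b := base_of h h' hS
  obtain ⟨y, hy⟩ := rep_std hr
  obtain ⟨x, hx⟩ := hv
  obtain ⟨ht, hf⟩ := caseI_S b hne hx hy
  have htw' := tw_eq b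
  have hform : ∀ c, Cls (tI p e S (fun i => zf (v i)) x y) c →
      ∑ i ∈ S, sw p e i * v i = c * ∑ i ∈ S, sw p e i := by
    intro c hc
    have := formula h (hf c hc)
    simpa only [zf_cast] using this
  by_cases hs : ∑ i ∈ S, sw p e i = 0
  · obtain ⟨c, hc⟩ := exists_cls ht
    rw [Lam_zero hs, hform c hc, hs, mul_zero]
  · have hW : tw p e ≠ 0 ∧ tw p e' ≠ 0 := by
      rcases htw with h1 | ⟨h1, h2⟩
      · exact h1
      · exfalso; rw [h1, h2, zero_add] at htw'; exact hs htw'.symm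
    obtain ⟨f1, f2, f3⟩ := z3_facts _ _ hW.1 (htw' ▸ hW.2) hs
    rw [← htw'] at f2
    obtain ⟨o, hI, ho, hd⟩ := info h.h9 hx
    obtain ⟨o', hI', ho', hd'⟩ := info h'.h9 hy
    have ho2 : o' = 2 := by
      apply fin_of_mul hW.2
      rw [← ho', sum_split _ S]
      have e1 : ∑ i ∈ S, sw p e' i * ((stdS S i : ℕ) : ZMod 3) = -2 * ∑ i ∈ S, sw p e i := by
        rw [Finset.mul_sum]
        refine Finset.sum_congr rfl (fun i hi => ?_)
        rw [sw_in b hi, stdS, if_pos hi]
        have : (((2 : Fin 3) : ℕ) : ZMod 3) = 2 := by decide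
        rw [this]; ring
      have e2 : ∑ i ∈ Sᶜ, sw p e' i * ((stdS S i : ℕ) : ZMod 3) = ∑ i ∈ Sᶜ, sw p e i := by
        refine Finset.sum_congr rfl (fun i hi => ?_)
        rw [sw_out b (Finset.mem_compl.mp hi), stdS, if_neg (Finset.mem_compl.mp hi)]
        have : (((1 : Fin 3) : ℕ) : ZMod 3) = 1 := by decide
        rw [this]; ring
      have e3 : ∑ i ∈ Sᶜ, sw p e i = tw p e - ∑ i ∈ S, sw p e i := by
        unfold tw; rw [sum_split (sw p e) S]; ring
      rw [e1, e2, e3, htw', f1]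
      have : (((2 : Fin 3) : ℕ) : ZMod 3) = 2 := by decide
      rw [this]
      linear_combination (-2 * tw p e) * three_zmod
    subst ho2
    have hy1 : ¬ (3 : ℤ) ∣ y 1 := hI'.unit 1 (by decide)
    have hT : (3 : ℤ) ∣ x 0 * x 1 * x 2 ∨ (3 : ℤ) ∣ y 2 := by
      rcases f2 with f2 | f2
      · left
        have := hd f2
        have h3 : o = 0 ∨ o = 1 ∨ o = 2 := by clear * -; revert o; decide
        rcases h3 with rfl | rfl | rfl
        · exact Dvd.dvd.mul_right (Dvd.dvd.mul_right this _) _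
        · exact Dvd.dvd.mul_right (Dvd.dvd.mul_left this _) _
        · exact Dvd.dvd.mul_left this _
      · exact Or.inr (hd' f2)
    have hc := hform _ (cls_tIS (cell_three' h.h9 _) hx hI hT hy1)
    simp only [zf_cast] at ho
    unfold Lam
    rw [hc, ho, f1]
    linear_combination (-(((o : ℕ) : ZMod 3) * tw p e)) * f3

/-- case II, normalised -/
theorem law_II (h : Hyp p e) (h' : Hyp p e') (hS : ∀ i, i ∈ S ↔ e i ≠ e' i) (hne : S.Nonempty)
    (htw : (tw p e ≠ 0 ∧ tw p e' ≠ 0) ∨ (tw p e = 0 ∧ tw p e' = 0))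
    {v v' : Fin m → ZMod 3} (hv : Rep p e v) (hv' : Rep p e' v')
    (hvv : ∀ i, v' i = if i ∈ S then 1 - v i else v i) : Lam p e S v = 0 := by
  have b := base_of h h' hS
  obtain ⟨x, hx⟩ := hv
  obtain ⟨y, hy⟩ := hv'
  have hpos : Exch S (fun i => zf (v i)) (fun i => zf (v' i)) := by
    intro i
    have := hvv i
    split_ifs at this ⊢ with hi
    · simp only [this]; exact zf_tau _
    · simp only [this]
  obtain ⟨ht, hf⟩ := caseII_S b hne hx hy hpos
  have htw' := tw_eq b
  have hform : ∀ c, Cls (tII p S (fun i => zf (v i)) x y) c →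
      ∑ i ∈ S, sw p e i * v i = (1 - c) * ∑ i ∈ S, sw p e i := by
    intro c hc
    have := formula h (hf c hc)
    simp only [zf_fpos, mul_sub, mul_one, Finset.sum_sub_distrib] at this
    linear_combination -this
  by_cases hs : ∑ i ∈ S, sw p e i = 0
  · obtain ⟨c, hc⟩ := exists_cls ht
    rw [Lam_zero hs, hform c hc, hs, mul_zero]
  · have hW : tw p e ≠ 0 ∧ tw p e' ≠ 0 := by
      rcases htw with h1 | ⟨h1, h2⟩
      · exact h1
      · exfalso; rw [h1, h2, zero_add] at htw'; exact hs htw'.symm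
    obtain ⟨f1, f2, f3⟩ := z3_facts _ _ hW.1 (htw' ▸ hW.2) hs
    rw [← htw'] at f2
    obtain ⟨o, hI, ho, hd⟩ := info h.h9 hx
    obtain ⟨o', hI', ho', hd'⟩ := info h'.h9 hy
    simp only [zf_cast] at ho ho'
    -- o' = 1 - o
    have hoo : ((o' : ℕ) : ZMod 3) = 1 - ((o : ℕ) : ZMod 3) := by
      apply mul_right_cancel₀ hW.2
      rw [← ho', sum_split _ S]
      have e1 : ∑ i ∈ S, sw p e' i * v' i =
          ∑ i ∈ S, sw p e i * v i - ∑ i ∈ S, sw p e i := by
        rw [← Finset.sum_sub_distrib]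
        refine Finset.sum_congr rfl (fun i hi => ?_)
        rw [sw_in b hi, hvv i, if_pos hi]; ring
      have e2 : ∑ i ∈ Sᶜ, sw p e' i * v' i = ∑ i ∈ Sᶜ, sw p e i * v i := by
        refine Finset.sum_congr rfl (fun i hi => ?_)
        rw [sw_out b (Finset.mem_compl.mp hi), hvv i, if_neg (Finset.mem_compl.mp hi)]
      rw [e1, e2, htw', f1]
      rw [sum_split _ S] at ho
      linear_combination ho + (((o : ℕ) : ZMod 3) * tw p e - tw p e) * three_zmod
    have hcase : (o = 0 ∧ o' = 1) ∨ (o = 1 ∧ o' = 0) ∨ (o = 2 ∧ o' = 2) := by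
      revert hoo; clear * -; revert o o'; decide
    have u1 := hI.unit
    have u2 := hI'.unit
    have hcls : Cls (tII p S (fun i => zf (v i)) x y) (1 - ((o : ℕ) : ZMod 3)) := by
      rcases hcase with ⟨rfl, rfl⟩ | ⟨rfl, rfl⟩ | ⟨rfl, rfl⟩
      · have : (1 : ZMod 3) - (((0 : Fin 3) : ℕ) : ZMod 3) = 1 := by decide
        rw [this]
        exact cls_tII_oneS b (f2.imp hd hd') (u1 1 (by decide)) (u2 0 (by decide))
      · have : (1 : ZMod 3) - (((1 : Fin 3) : ℕ) : ZMod 3) = 0 := by decide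
        rw [this]
        exact cls_tII_zeroS b (f2.imp hd hd') (u1 0 (by decide)) (u2 1 (by decide))
      · have : (1 : ZMod 3) - (((2 : Fin 3) : ℕ) : ZMod 3) = 2 := by decide
        rw [this]
        exact cls_tII_twoS b hpos hx hy (cell_three' h.h9 _) (cell_three' h'.h9 _)
          (u1 0 (by decide)) (u1 1 (by decide)) (u2 0 (by decide)) (u2 1 (by decide))
          (f2.imp hd hd')
    have hc := hform _ hcls
    unfold Lam
    rw [hc, ho, f1]
    linear_combination (-(((o : ℕ) : ZMod 3) * tw p e)) * f3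

/-- the linear form does not see constants -/
theorem Lam_shift (h : Hyp p e) (h' : Hyp p e') (hS : ∀ i, i ∈ S ↔ e i ≠ e' i)
    (htw : (tw p e ≠ 0 ∧ tw p e' ≠ 0) ∨ (tw p e = 0 ∧ tw p e' = 0)) (v : Fin m → ZMod 3)
    (a : ZMod 3) : Lam p e S (fun i => v i + a) = Lam p e S v := by
  have b := base_of h h' hS
  have htw' := tw_eq b
  unfold Lam
  have e1 : ∑ i ∈ S, sw p e i * (v i + a) = ∑ i ∈ S, sw p e i * v i + a * ∑ i ∈ S, sw p e i := by
    rw [Finset.mul_sum, ← Finset.sum_add_distrib]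
    exact Finset.sum_congr rfl (fun i _ => by ring)
  have e2 : ∑ i, sw p e i * (v i + a) = ∑ i, sw p e i * v i + a * tw p e := by
    rw [tw, Finset.mul_sum, ← Finset.sum_add_distrib]
    exact Finset.sum_congr rfl (fun i _ => by ring)
  rw [e1, e2]
  rcases htw with ⟨h1, h2⟩ | ⟨h1, h2⟩
  · have h3 : tw p e * tw p e = 1 := by revert h1; generalize tw p e = W; revert W; decide
    linear_combination (-(a * ∑ i ∈ S, sw p e i)) * h3
  · rw [h1, h2, zero_add] at htw'
    rw [← htw']; ring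

/-- **the reciprocity law** -/
theorem law : LawStmt := by
  intro m p e e' S h h' hS hne huniv htw
  have b := base_of h h' hS
  refine ⟨?_, ?_, ?_⟩
  · rintro ⟨h1, h2⟩
    obtain ⟨x, hx⟩ := rep_std h1
    obtain ⟨y, hy⟩ := rep_std h2
    obtain ⟨i0, hi0⟩ := hne
    obtain ⟨i2, hi2⟩ : ∃ i, i ∉ S := by
      by_contra hcon
      push Not at hcon
      exact huniv (Finset.eq_univ_iff_forall.mpr hcon)
    exact caseIII_S b hi0 hi2 hx hy
  · intro hr v hv
    exact law_I h h' hS hne htw hr hv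
  · intro v v' c d hv hv' hvv
    have k1 := rep_shift hv (2 * (1 - c + d))
    have k2 := rep_shift hv' (2 * (1 - c + d) - d)
    have k3 := law_II h h' hS hne htw k1 k2 (by
      intro i
      simp only [hvv i]
      split_ifs
      · linear_combination (1 - c + d) * three_zmod
      · ring)
    rwa [Lam_shift h h' hS htw] at k3

end Pool.Agent.CubeRank
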