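import Pool.Agent.CubeRank.GLawE
import Pool.Agent.CubeRank.Law

/-!
# The reciprocity law, general version
-/

set_option autoImplicit false

namespace Pool.Agent.CubeRank

open Pool.Agent.Lib_helper18 Pool.Agent.Lib_helper18.Eis Pool.Agent.Lib_helper84.Cub

variable {m : ℕ} {p e e' : Fin m → ℕ} {S : Finset (Fin m)}

/-- the value at the prime 3 (0 if there is none) -/
def bas {m : ℕ} (p : Fin m → ℕ) (v : Fin m → ZMod 3) : ZMod 3 := ∑ i, if p i = 3 then v i else 0

open Classical in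
/-- the linear form of the law -/
noncomputable def LamG {m : ℕ} (p e : Fin m → ℕ) (S : Finset (Fin m)) (v : Fin m → ZMod 3) :
    ZMod 3 :=
  if ∑ i ∈ S, sg p e i = 0 then ∑ i ∈ S, sg p e i * v i
  else ∑ i ∈ Sᶜ, sg p e i * (v i - bas p v)

theorem bas_of {i3 : Fin m} (hinj : Function.Injective p) (h3 : p i3 = 3) (v : Fin m → ZMod 3) :
    bas p v = v i3 := by
  unfold bas
  rw [Finset.sum_eq_single i3]
  · rw [if_pos h3]
  · intro j _ hj
    rw [if_neg]
    intro h
    exact hj (hinj (h.trans h3.symm))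
  · intro h; exact absurd (Finset.mem_univ _) h

theorem bas_no (h3 : ∀ i, p i ≠ 3) (v : Fin m → ZMod 3) : bas p v = 0 := by
  unfold bas
  exact Finset.sum_eq_zero (fun i _ => if_neg (h3 i))

/-- the standing hypotheses on the pair -/
structure PairG {m : ℕ} (p e e' : Fin m → ℕ) (S : Finset (Fin m)) : Prop where
  h : HypG p e
  h' : HypG p e'
  hS : ∀ i, i ∈ S ↔ e i ≠ e' i
  nS : ∀ i ∈ S, p i ≠ 3
  inT : ∃ i ∈ S, sg p e i ≠ 0
  typ : ((∀ i, p i ≠ 3) ∧ ((tg p e ≠ 0 ∧ tg p e' ≠ 0) ∨ (tg p e = 0 ∧ tg p e' = 0))) ∨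
    (∃ i3, p i3 = 3 ∧ e i3 = 1) ∨ ((∃ i3, p i3 = 3) ∧ ∑ i ∈ S, sg p e i = 0)
  outT : (∃ i, i ∉ S ∧ sg p e i ≠ 0) ∨
    ((∃ i3, p i3 = 3 ∧ e i3 = 1) ∧ ∑ i ∈ S, sg p e i = 0)

namespace PairG

variable (b : PairG p e e' S)

include b

theorem base : BaseT p e e' S where
  hp := b.h.hp
  h3 := b.h.h3
  inj := b.h.inj
  he := b.h.he
  he' := b.h'.he
  nS := b.nS
  rel := fun j => by
    have h1 := b.h.he j
    have h2 := b.h'.he j
    have h3 := b.hS j
    split_ifs with h4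
    · have := h3.mp h4; omega
    · by_contra h5
      exact h4 (h3.mpr h5)

theorem e_out {i : Fin m} (hi : i ∉ S) : e' i = e i := by
  by_contra h
  exact hi ((b.hS i).mpr (Ne.symm h))

theorem i3_out {i3 : Fin m} (h3 : p i3 = 3) : i3 ∉ S := fun h => b.nS i3 h h3

theorem sumS : ∑ j ∈ S, sg p e' j = - ∑ j ∈ S, sg p e j := sum_sg' b.base

theorem ne : S.Nonempty := by
  obtain ⟨i, hi, -⟩ := b.inT
  exact ⟨i, hi⟩

/-- the symmetric pair -/
theorem symm : PairG p e' e S where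
  h := b.h'
  h' := b.h
  hS := fun i => by rw [b.hS i]; exact ne_comm
  nS := b.nS
  inT := by
    obtain ⟨i, hi, h⟩ := b.inT
    exact ⟨i, hi, by rw [b.base.wt.ins i hi]; exact neg_ne_zero.mpr h⟩
  typ := by
    rcases b.typ with ⟨h1, h2⟩ | ⟨i3, h3, h4⟩ | ⟨h1, h2⟩
    · exact Or.inl ⟨h1, h2.imp And.symm And.symm⟩
    · exact Or.inr (Or.inl ⟨i3, h3, by rw [b.e_out (b.i3_out h3)]; exact h4⟩)
    · exact Or.inr (Or.inr ⟨h1, by rw [b.sumS, h2, neg_zero]⟩)
  outT := by
    rcases b.outT with ⟨i, hi, h⟩ | ⟨⟨i3, h3, h4⟩, h2⟩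
    · exact Or.inl ⟨i, hi, by rw [b.base.wt.out i hi]; exact h⟩
    · exact Or.inr ⟨⟨i3, h3, by rw [b.e_out (b.i3_out h3)]; exact h4⟩, by
        rw [b.sumS, h2, neg_zero]⟩

/-- total weights -/
theorem tg_eq : tg p e' = tg p e + ∑ i ∈ S, sg p e i := by
  unfold tg
  rw [sum_split _ S, sum_split (sg p e) S, b.sumS]
  have h2 : ∑ i ∈ Sᶜ, sg p e' i = ∑ i ∈ Sᶜ, sg p e i :=
    Finset.sum_congr rfl (fun i hi => b.base.wt.out i (Finset.mem_compl.mp hi))
  rw [h2]
  linear_combination (-(∑ i ∈ S, sg p e i)) * three_zmod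

/-- without the prime 3, nonzero exchanged weight -/
theorem noThree (hno : ∀ i, p i ≠ 3) (hs : ∑ i ∈ S, sg p e i ≠ 0) :
    tg p e ≠ 0 ∧ tg p e' ≠ 0 ∧ ∑ i ∈ S, sg p e i = tg p e ∧ (tg p e = 1 ∨ tg p e' = 1) ∧
      tg p e * tg p e = 1 := by
  have hW : tg p e ≠ 0 ∧ tg p e' ≠ 0 := by
    rcases b.typ with ⟨-, h2⟩ | ⟨i3, h3, -⟩ | ⟨⟨i3, h3⟩, -⟩
    · rcases h2 with h2 | ⟨h1, h2⟩
      · exact h2
      · exfalso
        have := b.tg_eq
        rw [h1, h2, zero_add] at this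
        exact hs this.symm
    · exact absurd h3 (hno i3)
    · exact absurd h3 (hno i3)
  obtain ⟨f1, f2, f3⟩ := z3_facts _ _ hW.1 (by rw [← b.tg_eq]; exact hW.2) hs
  rw [← b.tg_eq] at f2
  exact ⟨hW.1, hW.2, f1, f2, f3⟩

/-- with the prime 3 and nonzero exchanged weight, 3 divides `A` once -/
theorem three {i3 : Fin m} (h3 : p i3 = 3) (hs : ∑ i ∈ S, sg p e i ≠ 0) :
    Th p e i3 ∧ Th p e' i3 := by
  have he3 : e i3 = 1 := by
    rcases b.typ with ⟨h1, -⟩ | ⟨i, h4, h5⟩ | ⟨-, h2⟩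
    · exact absurd h3 (h1 i3)
    · have : i = i3 := b.h.inj (h4.trans h3.symm)
      rw [← this]; exact h5
    · exact absurd h2 hs
  exact ⟨⟨b.h.h3, b.h.inj, h3, he3⟩, ⟨b.h.h3, b.h.inj, h3, by
    rw [b.e_out (b.i3_out h3)]; exact he3⟩⟩

/-- the product formula with the weights -/
theorem formula {f : Fin m → ZMod 3} {c : ZMod 3}
    (h1 : ∑ i ∈ S, (e i : ZMod 3) * (f i * sym (p i : Eis) w) =
      c * ∑ i ∈ S, (e i : ZMod 3) * sym (p i : Eis) w) :
    ∑ i ∈ S, sg p e i * f i = c * ∑ i ∈ S, sg p e i := by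
  have hw : ∀ i ∈ S, (e i : ZMod 3) * sym (p i : Eis) w = - sg p e i := fun i hi => by
    rw [FData.sym_w_r (b.h.hp i) (b.base.sp3 hi), sg, if_neg (b.nS i hi)]; ring
  have e1 : ∑ i ∈ S, (e i : ZMod 3) * (f i * sym (p i : Eis) w) = - ∑ i ∈ S, sg p e i * f i := by
    rw [← Finset.sum_neg_distrib]
    refine Finset.sum_congr rfl (fun i hi => ?_)
    linear_combination f i * hw i hi
  have e2 : ∑ i ∈ S, (e i : ZMod 3) * sym (p i : Eis) w = - ∑ i ∈ S, sg p e i := by
    rw [← Finset.sum_neg_distrib]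
    exact Finset.sum_congr rfl hw
  rw [e1, e2] at h1
  linear_combination -h1

/-- nonzero weight gives a nontrivial symbol -/
theorem sym_ne {i : Fin m} (h : sg p e i ≠ 0) : p i % 3 = 2 ∧ sym (p i : Eis) w ≠ 0 := by
  have h3 : p i ≠ 3 := by
    intro h3
    apply h
    unfold sg; rw [if_pos h3]
  have h2 := (b.h.h3 i).resolve_right h3
  refine ⟨h2, ?_⟩
  rw [FData.sym_w_r (b.h.hp i) h2]
  apply neg_ne_zero.mpr
  intro h4
  apply h
  unfold sg; rw [if_neg h3, h4, mul_zero]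

/-- (1) -/
theorem law_one : ¬ (Rep p e (ind S) ∧ Rep p e' (ind S)) := by
  rintro ⟨h1, h2⟩
  obtain ⟨x, hx⟩ := rep_std h1
  obtain ⟨y, hy⟩ := rep_std h2
  obtain ⟨i0, hi0, hw0⟩ := b.inT
  obtain ⟨-, k0⟩ := b.sym_ne hw0
  rcases b.outT with ⟨i2, hi2, hw2⟩ | ⟨⟨i3, h3, h4⟩, hs⟩
  · obtain ⟨k1, k2⟩ := b.sym_ne hw2
    exact caseIII_G b.base hi0 hi2 k1 k0 k2 hx hy
  · exact caseIII_Th b.base ⟨b.h.h3, b.h.inj, h3, h4⟩ (b.i3_out h3) hs hi0 k0 hx hy

/-- the final step: from the relation on `S` to the relation outside `S` -/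
theorem to_compl {v : Fin m → ZMod 3} {c : ZMod 3}
    (h1 : ∑ i ∈ S, sg p e i * v i = c * ∑ i ∈ S, sg p e i)
    (h2 : c * ∑ i ∈ S, sg p e i = bas p v * ∑ i ∈ S, sg p e i +
      ∑ i, sg p e i * (v i - bas p v)) :
    ∑ i ∈ Sᶜ, sg p e i * (v i - bas p v) = 0 := by
  rw [sum_split (fun i => sg p e i * (v i - bas p v)) S] at h2
  have h3 : ∑ i ∈ S, sg p e i * (v i - bas p v) =
      ∑ i ∈ S, sg p e i * v i - bas p v * ∑ i ∈ S, sg p e i := by
    rw [Finset.mul_sum, ← Finset.sum_sub_distrib]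
    exact Finset.sum_congr rfl (fun i _ => by ring)
  rw [h3, h1] at h2
  linear_combination -h2

theorem law_two (hr : Rep p e' (ind S)) {v : Fin m → ZMod 3} (hv : Rep p e v) :
    LamG p e S v = 0 := by
  classical
  obtain ⟨y, hy⟩ := rep_std hr
  obtain ⟨x, hx⟩ := hv
  obtain ⟨ht, hf⟩ := caseI_G b.base b.ne hx hy
  have hform : ∀ c, Cls (tI p e S (fun i => zf (v i)) x y) c →
      ∑ i ∈ S, sg p e i * v i = c * ∑ i ∈ S, sg p e i := by
    intro c hc
    have := b.formula (hf c hc)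
    simpa only [zf_cast] using this
  unfold LamG
  by_cases hs : ∑ i ∈ S, sg p e i = 0
  · rw [if_pos hs]
    obtain ⟨c, hc⟩ := exists_cls ht
    rw [hform c hc, hs, mul_zero]
  rw [if_neg hs]
  by_cases h3 : ∃ i3, p i3 = 3
  · -- 3 divides `A` once
    obtain ⟨i3, h3⟩ := h3
    obtain ⟨t, t'⟩ := b.three h3 hs
    have hc := hform _ (cls_tIg b.base t t' (b.i3_out h3) rfl hs hx hy)
    refine b.to_compl hc ?_
    rw [bas_of b.h.inj h3]
    have h5 := eps_eq (sg p e) (fun i => zf (v i)) (zf (v i3))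
    simp only [zf_cast] at h5 ⊢
    rw [h5]
    have h6 := z3_sq1 _ hs
    unfold cwt
    linear_combination ((∑ j, if zf (v j) = zf (v i3) + 1 then sg p e j else 0) -
      ∑ j, if zf (v j) = zf (v i3) + 2 then sg p e j else 0) * h6
  · -- 3 does not divide `A`
    push Not at h3
    obtain ⟨hW, hW', f1, f2, f3⟩ := b.noThree h3 hs
    obtain ⟨o, hI, ho, hd⟩ := infoG b.h.h3 h3 hx
    obtain ⟨o', hI', ho', hd'⟩ := infoG b.h.h3 h3 hy
    have htw' := b.tg_eq
    have hc3 : ∀ (n : Fin m → ℕ) (pos : Fin m → Fin 3) k, ¬ (3 : ℤ) ∣ cell p n pos k :=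
      fun n pos k => by rw [cell_dcl h3]; exact dcl_ndvd b.h.h3 pos k
    have ho2 : o' = 2 := by
      apply fin_of_mul hW'
      rw [← ho', sum_split _ S]
      have e1 : ∑ i ∈ S, sg p e' i * ((stdS S i : ℕ) : ZMod 3) = -2 * ∑ i ∈ S, sg p e i := by
        rw [Finset.mul_sum]
        refine Finset.sum_congr rfl (fun i hi => ?_)
        rw [b.base.wt.ins i hi, stdS, if_pos hi]
        have : (((2 : Fin 3) : ℕ) : ZMod 3) = 2 := by decide
        rw [this]; ring
      have e2 : ∑ i ∈ Sᶜ, sg p e' i * ((stdS S i : ℕ) : ZMod 3) = ∑ i ∈ Sᶜ, sg p e i := by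
        refine Finset.sum_congr rfl (fun i hi => ?_)
        rw [b.base.wt.out i (Finset.mem_compl.mp hi), stdS, if_neg (Finset.mem_compl.mp hi)]
        have : (((1 : Fin 3) : ℕ) : ZMod 3) = 1 := by decide
        rw [this]; ring
      have e3 : ∑ i ∈ Sᶜ, sg p e i = tg p e - ∑ i ∈ S, sg p e i := by
        unfold tg; rw [sum_split (sg p e) S]; ring
      rw [e1, e2, e3, htw', f1]
      have : (((2 : Fin 3) : ℕ) : ZMod 3) = 2 := by decide
      rw [this]
      linear_combination (-2 * tg p e) * three_zmod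
    subst ho2
    have hy1 : ¬ (3 : ℤ) ∣ y 1 := hI'.unit 1 (by decide)
    have hT : (3 : ℤ) ∣ x 0 * x 1 * x 2 ∨ (3 : ℤ) ∣ y 2 := by
      rcases f2 with f2 | f2
      · left
        have := hd f2
        have h3 : o = 0 ∨ o = 1 ∨ o = 2 := by clear * -; revert o; decide
        rcases h3 with rfl | rfl | rfl
        · exact Dvd.dvd.mul_right (Dvd.dvd.mul_right this _) _
        · exact Dvd.dvd.mul_right (Dvd.dvd.mul_left this _) _
        · exact Dvd.dvd.mul_left this _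
      · exact Or.inr (hd' f2)
    have hc := hform _ (cls_tIS (hc3 _ _) hx hI hT hy1)
    simp only [zf_cast] at ho
    refine b.to_compl hc ?_
    rw [bas_no h3]
    simp only [sub_zero, zero_mul, zero_add]
    rw [ho, f1]

theorem law_three {v v' : Fin m → ZMod 3} (hv : Rep p e v) (hv' : Rep p e' v')
    (hvv : ∀ i, v' i = if i ∈ S then 1 - v i else v i) : LamG p e S v = 0 := by
  classical
  obtain ⟨x, hx⟩ := hv
  obtain ⟨y, hy⟩ := hv'
  have hpos : Exch S (fun i => zf (v i)) (fun i => zf (v' i)) := by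
    intro i
    have := hvv i
    split_ifs at this ⊢ with hi
    · simp only [this]; exact zf_tau _
    · simp only [this]
  obtain ⟨ht, hf⟩ := caseII_G b.base b.ne hx hy hpos
  have hform : ∀ c, Cls (tII p S (fun i => zf (v i)) x y) c →
      ∑ i ∈ S, sg p e i * v i = (1 - c) * ∑ i ∈ S, sg p e i := by
    intro c hc
    have := b.formula (hf c hc)
    simp only [zf_fpos, mul_sub, mul_one, Finset.sum_sub_distrib] at this
    linear_combination -this
  unfold LamG
  by_cases hs : ∑ i ∈ S, sg p e i = 0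
  · rw [if_pos hs]
    obtain ⟨c, hc⟩ := exists_cls ht
    rw [hform c hc, hs, mul_zero]
  rw [if_neg hs]
  by_cases h3 : ∃ i3, p i3 = 3
  · -- 3 divides `A` once
    obtain ⟨i3, h3⟩ := h3
    obtain ⟨t, t'⟩ := b.three h3 hs
    have hc := hform _ (cls_tIIg b.base t t' (b.i3_out h3) rfl hs hpos hx hy)
    refine b.to_compl hc ?_
    rw [bas_of b.h.inj h3]
    have h5 := eps_eq (sg p e) (fun i => zf (v i)) (zf (v i3))
    simp only [zf_cast] at h5 ⊢
    rw [h5]
    have h6 := z3_sq1 _ hs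
    unfold cwt
    linear_combination ((∑ j, if zf (v j) = zf (v i3) + 1 then sg p e j else 0) -
      ∑ j, if zf (v j) = zf (v i3) + 2 then sg p e j else 0) * h6
  · -- 3 does not divide `A`
    push Not at h3
    obtain ⟨hW, hW', f1, f2, f3⟩ := b.noThree h3 hs
    obtain ⟨o, hI, ho, hd⟩ := infoG b.h.h3 h3 hx
    obtain ⟨o', hI', ho', hd'⟩ := infoG b.h.h3 h3 hy
    have htw' := b.tg_eq
    simp only [zf_cast] at ho ho'
    have hc3 : ∀ (n : Fin m → ℕ) (pos : Fin m → Fin 3) k, ¬ (3 : ℤ) ∣ cell p n pos k :=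
      fun n pos k => by rw [cell_dcl h3]; exact dcl_ndvd b.h.h3 pos k
    have hoo : ((o' : ℕ) : ZMod 3) = 1 - ((o : ℕ) : ZMod 3) := by
      apply mul_right_cancel₀ hW'
      rw [← ho', sum_split _ S]
      have e1 : ∑ i ∈ S, sg p e' i * v' i =
          ∑ i ∈ S, sg p e i * v i - ∑ i ∈ S, sg p e i := by
        rw [← Finset.sum_sub_distrib]
        refine Finset.sum_congr rfl (fun i hi => ?_)
        rw [b.base.wt.ins i hi, hvv i, if_pos hi]; ring
      have e2 : ∑ i ∈ Sᶜ, sg p e' i * v' i = ∑ i ∈ Sᶜ, sg p e i * v i := by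
        refine Finset.sum_congr rfl (fun i hi => ?_)
        rw [b.base.wt.out i (Finset.mem_compl.mp hi), hvv i, if_neg (Finset.mem_compl.mp hi)]
      rw [e1, e2, htw', f1]
      rw [sum_split _ S] at ho
      linear_combination ho + (((o : ℕ) : ZMod 3) * tg p e - tg p e) * three_zmod
    have hcase : (o = 0 ∧ o' = 1) ∨ (o = 1 ∧ o' = 0) ∨ (o = 2 ∧ o' = 2) := by
      revert hoo; clear * -; revert o o'; decide
    have u1 := hI.unit
    have u2 := hI'.unit
    have hcls : Cls (tII p S (fun i => zf (v i)) x y) (1 - ((o : ℕ) : ZMod 3)) := by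
      rcases hcase with ⟨rfl, rfl⟩ | ⟨rfl, rfl⟩ | ⟨rfl, rfl⟩
      · have : (1 : ZMod 3) - (((0 : Fin 3) : ℕ) : ZMod 3) = 1 := by decide
        rw [this]
        exact cls_tII_oneG b.base (f2.imp hd hd') (u1 1 (by decide)) (u2 0 (by decide))
      · have : (1 : ZMod 3) - (((1 : Fin 3) : ℕ) : ZMod 3) = 0 := by decide
        rw [this]
        exact cls_tII_zeroG b.base (f2.imp hd hd') (u1 0 (by decide)) (u2 1 (by decide))
      · have : (1 : ZMod 3) - (((2 : Fin 3) : ℕ) : ZMod 3) = 2 := by decide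
        rw [this]
        exact cls_tII_twoG b.base hpos hx hy (hc3 _ _) (hc3 _ _)
          (u1 0 (by decide)) (u1 1 (by decide)) (u2 0 (by decide)) (u2 1 (by decide))
          (f2.imp hd hd')
    have hc := hform _ hcls
    refine b.to_compl hc ?_
    rw [bas_no h3]
    simp only [sub_zero, zero_mul, zero_add]
    rw [ho, f1]; ring

/-! ### the linear form -/

theorem bas_add (v v' : Fin m → ZMod 3) (c : ZMod 3) :
    bas p (fun i => v i + c * v' i) = bas p v + c * bas p v' := by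
  unfold bas
  rw [Finset.mul_sum, ← Finset.sum_add_distrib]
  exact Finset.sum_congr rfl (fun i _ => by split_ifs <;> ring)

theorem Lam_add (v v' : Fin m → ZMod 3) (c : ZMod 3) :
    LamG p e S (fun i => v i + c * v' i) = LamG p e S v + c * LamG p e S v' := by
  classical
  unfold LamG
  rw [b.bas_add]
  by_cases hs : ∑ i ∈ S, sg p e i = 0
  · rw [if_pos hs, if_pos hs, if_pos hs, Finset.mul_sum, ← Finset.sum_add_distrib]
    exact Finset.sum_congr rfl (fun i _ => by ring)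
  · rw [if_neg hs, if_neg hs, if_neg hs, Finset.mul_sum, ← Finset.sum_add_distrib]
    exact Finset.sum_congr rfl (fun i _ => by ring)

theorem Lam_const {v : Fin m → ZMod 3} (hv : ∃ c, ∀ i, v i = c) : LamG p e S v = 0 := by
  classical
  obtain ⟨c, hc⟩ := hv
  unfold LamG
  by_cases hs : ∑ i ∈ S, sg p e i = 0
  · rw [if_pos hs]
    have : ∑ i ∈ S, sg p e i * v i = c * ∑ i ∈ S, sg p e i := by
      rw [Finset.mul_sum]
      exact Finset.sum_congr rfl (fun i _ => by rw [hc i]; ring)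
    rw [this, hs, mul_zero]
  · rw [if_neg hs]
    by_cases h3 : ∃ i3, p i3 = 3
    · obtain ⟨i3, h3⟩ := h3
      rw [bas_of b.h.inj h3]
      exact Finset.sum_eq_zero (fun i _ => by rw [hc i, hc i3]; ring)
    · push Not at h3
      obtain ⟨hW, hW', f1, f2, f3⟩ := b.noThree h3 hs
      rw [bas_no h3]
      have e3 : ∑ i ∈ Sᶜ, sg p e i = 0 := by
        have := sum_split (sg p e) S
        rw [f1] at this
        unfold tg at this
        linear_combination -this
      have : ∑ i ∈ Sᶜ, sg p e i * (v i - 0) = c * ∑ i ∈ Sᶜ, sg p e i := by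
        rw [Finset.mul_sum]
        exact Finset.sum_congr rfl (fun i _ => by rw [hc i]; ring)
      rw [this, e3, mul_zero]

theorem bas_ind : bas p (ind S) = 0 := by
  unfold bas ind
  refine Finset.sum_eq_zero (fun i _ => ?_)
  by_cases h : p i = 3
  · rw [if_pos h, if_neg (b.i3_out h)]
  · rw [if_neg h]

theorem Lam_ind : LamG p e S (ind S) = 0 := by
  classical
  unfold LamG
  rw [b.bas_ind]
  by_cases hs : ∑ i ∈ S, sg p e i = 0
  · rw [if_pos hs]
    rw [← hs]
    refine Finset.sum_congr rfl (fun i hi => ?_)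
    unfold ind; rw [if_pos hi, mul_one]
  · rw [if_neg hs]
    refine Finset.sum_eq_zero (fun i hi => ?_)
    unfold ind; rw [if_neg (Finset.mem_compl.mp hi)]; ring

/-- (3), general form -/
theorem law_three' {v v' : Fin m → ZMod 3} {c d : ZMod 3} (hv : Rep p e v) (hv' : Rep p e' v')
    (hvv : ∀ i, v' i = if i ∈ S then c - v i else v i + d) : LamG p e S v = 0 := by
  have k1 := rep_shift hv (2 * (1 - c + d))
  have k2 := rep_shift hv' (2 * (1 - c + d) - d)
  have k3 := b.law_three k1 k2 (by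
    intro i
    simp only [hvv i]
    split_ifs
    · linear_combination (1 - c + d) * three_zmod
    · ring)
  have k4 := b.Lam_add v (fun _ => 2 * (1 - c + d)) 1
  rw [b.Lam_const ⟨_, fun _ => rfl⟩, mul_zero, add_zero] at k4
  rw [← k4]
  simpa only [one_mul] using k3

end PairG

end Pool.Agent.CubeRank
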