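import Pool.Agent.CubeRank.GLawB
import Pool.Agent.Lib_helper84.Cub.AdicB

/-!
# Weights; classes at the prime above 3 when 3 divides `A` once
-/

set_option autoImplicit false

namespace Pool.Agent.CubeRank

open Pool.Agent.Lib_helper18 Pool.Agent.Lib_helper18.Eis Pool.Agent.Lib_helper84.Cub

variable {m : ℕ} {p e e' : Fin m → ℕ} {pos pos' : Fin m → Fin 3} {x y : Fin 3 → ℤ}
  {S : Finset (Fin m)}

/-! ### weights -/

/-- signed weights; the prime 3 has weight 0 -/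
def sg {m : ℕ} (p e : Fin m → ℕ) (i : Fin m) : ZMod 3 :=
  if p i = 3 then 0 else (e i : ZMod 3) * wq (p i : ℤ)

/-- the weight of a cell -/
def cwt {m : ℕ} (p e : Fin m → ℕ) (pos : Fin m → Fin 3) (k : Fin 3) : ZMod 3 :=
  ∑ j, if pos j = k then sg p e j else 0

/-- the part of a cell prime to 3 -/
def dcl {m : ℕ} (p e : Fin m → ℕ) (pos : Fin m → Fin 3) (k : Fin 3) : ℤ :=
  ∏ j, if pos j = k ∧ p j ≠ 3 then (p j : ℤ) ^ e j else 1

theorem ndvd_of_mod {q : ℕ} (h : q % 3 = 2) : ¬ (3 : ℤ) ∣ (q : ℤ) := by omega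

theorem ndvd_pw {a : ℤ} (h : ¬ (3 : ℤ) ∣ a) (n : ℕ) : ¬ (3 : ℤ) ∣ a ^ n :=
  fun h' => h (Int.prime_three.dvd_of_dvd_pow h')

theorem prod_ndvd (h3 : ∀ i, p i % 3 = 2 ∨ p i = 3) (c : Fin m → Prop) [DecidablePred c]
    (hc : ∀ i, c i → p i ≠ 3) (n : Fin m → ℕ) :
    ¬ (3 : ℤ) ∣ ∏ j, if c j then (p j : ℤ) ^ n j else 1 := by
  intro h
  rw [Prime.dvd_finsetProd_iff Int.prime_three] at h
  obtain ⟨j, -, hj⟩ := h
  split_ifs at hj with hcj
  · exact ndvd_pw (ndvd_of_mod ((h3 j).resolve_right (hc j hcj))) _ hj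
  · omega

theorem wq_prod_if (h3 : ∀ i, p i % 3 = 2 ∨ p i = 3) (c : Fin m → Prop) [DecidablePred c]
    (hc : ∀ i, c i → p i ≠ 3) (n : Fin m → ℕ) :
    wq (∏ j, if c j then (p j : ℤ) ^ n j else 1) = ∑ j, if c j then sg p n j else 0 := by
  rw [wq_prod]
  · refine Finset.sum_congr rfl (fun j _ => ?_)
    split_ifs with hcj
    · rw [wq_pow (ndvd_of_mod ((h3 j).resolve_right (hc j hcj))), sg, if_neg (hc j hcj)]
    · exact wq_one
  · intro j
    split_ifs with hcj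
    · exact ndvd_pw (ndvd_of_mod ((h3 j).resolve_right (hc j hcj))) _
    · norm_num

theorem dcl_ndvd (h3 : ∀ i, p i % 3 = 2 ∨ p i = 3) (pos : Fin m → Fin 3) (k : Fin 3) :
    ¬ (3 : ℤ) ∣ dcl p e pos k :=
  prod_ndvd h3 (fun j => pos j = k ∧ p j ≠ 3) (fun _ h => h.2) e

theorem wq_dcl (h3 : ∀ i, p i % 3 = 2 ∨ p i = 3) (pos : Fin m → Fin 3) (k : Fin 3) :
    wq (dcl p e pos k) = cwt p e pos k := by
  unfold dcl cwt
  rw [wq_prod_if h3 (fun j => pos j = k ∧ p j ≠ 3) (fun _ h => h.2) e]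
  refine Finset.sum_congr rfl (fun j _ => ?_)
  by_cases h : pos j = k
  · by_cases h' : p j = 3
    · simp [h, h', sg]
    · simp [h, h']
  · simp [h]

/-- the linear form of the cell weights -/
theorem eps_eq (f : Fin m → ZMod 3) (pos : Fin m → Fin 3) (c : Fin 3) :
    ∑ j, f j * (((pos j : ℕ) : ZMod 3) - ((c : ℕ) : ZMod 3)) =
      (∑ j, if pos j = c + 1 then f j else 0) - ∑ j, if pos j = c + 2 then f j else 0 := by
  rw [← Finset.sum_sub_distrib]
  refine Finset.sum_congr rfl (fun j _ => ?_)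
  have key : ∀ (z : ZMod 3) (a c : Fin 3), z * (((a : ℕ) : ZMod 3) - ((c : ℕ) : ZMod 3)) =
      (if a = c + 1 then z else 0) - (if a = c + 2 then z else 0) := by decide
  exact key _ _ _

/-- the data for a prime 3 dividing `A` exactly once -/
structure Th (p e : Fin m → ℕ) (i3 : Fin m) : Prop where
  h3 : ∀ i, p i % 3 = 2 ∨ p i = 3
  inj : Function.Injective p
  p3 : p i3 = 3
  e3 : e i3 = 1

/-- the reduced terms -/
def ntg (p e : Fin m → ℕ) (pos : Fin m → Fin 3) (x : Fin 3 → ℤ) (k : Fin 3) : ℤ :=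
  dcl p e pos k * x k ^ 3

theorem three_sumZ' {i j k : Fin 3} (h01 : i ≠ j) (h02 : i ≠ k) (h12 : j ≠ k) (f : Fin 3 → ℤ) :
    ∑ j, f j = f i + f j + f k := by
  rw [Fin.sum_univ_three]
  have key : ∀ i j k : Fin 3, i ≠ j → i ≠ k → j ≠ k → (i = 0 ∧ j = 1 ∧ k = 2) ∨
    (i = 0 ∧ j = 2 ∧ k = 1) ∨ (i = 1 ∧ j = 0 ∧ k = 2) ∨ (i = 1 ∧ j = 2 ∧ k = 0) ∨
    (i = 2 ∧ j = 0 ∧ k = 1) ∨ (i = 2 ∧ j = 1 ∧ k = 0) := by decide
  rcases key i j k h01 h02 h12 with ⟨rfl, rfl, rfl⟩ | ⟨rfl, rfl, rfl⟩ | ⟨rfl, rfl, rfl⟩ |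
    ⟨rfl, rfl, rfl⟩ | ⟨rfl, rfl, rfl⟩ | ⟨rfl, rfl, rfl⟩ <;> ring

namespace Th

variable {i3 : Fin m} (t : Th p e i3)

include t

theorem ne3 {j : Fin m} (h : j ≠ i3) : p j ≠ 3 := fun h' => h (t.inj (h'.trans t.p3.symm))

theorem sg3 : sg p e i3 = 0 := by unfold sg; rw [if_pos t.p3]

theorem cell_eq (k : Fin 3) : cell p e pos k = dcl p e pos k * (if pos i3 = k then 3 else 1) := by
  unfold cell dcl
  have h1 : (if pos i3 = k then (3 : ℤ) else 1) = ∏ j, if j = i3 then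
      (if pos i3 = k then (3 : ℤ) else 1) else 1 := by
    rw [Finset.prod_ite_eq' Finset.univ i3, if_pos (Finset.mem_univ _)]
  rw [h1, ← Finset.prod_mul_distrib]
  refine Finset.prod_congr rfl (fun j _ => ?_)
  by_cases hj : j = i3
  · subst hj
    rw [if_pos (rfl : j = j), t.p3, t.e3]
    by_cases hk : pos j = k
    · simp [hk]
    · simp [hk]
  · rw [if_neg hj, mul_one]
    by_cases hk : pos j = k
    · rw [if_pos hk, if_pos ⟨hk, t.ne3 hj⟩]
    · rw [if_neg hk, if_neg (fun h => hk h.1)]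

theorem term_eq (k : Fin 3) : term p e pos x k =
    (if pos i3 = k then 3 else 1) * ntg p e pos x k := by
  unfold term ntg
  rw [t.cell_eq]; ring

theorem unit (hP : IsPt p e pos x) {k : Fin 3} (hk : k ≠ pos i3) : ¬ (3 : ℤ) ∣ x k := by
  intro h
  have h1 := hP.cop k (pos i3) hk
  refine Int.prime_three.not_isUnit (h1.isUnit_of_dvd' (Dvd.dvd.mul_left h _)
    (Dvd.dvd.mul_right ?_ _))
  rw [t.cell_eq, if_pos rfl]
  exact dvd_mul_left _ _

theorem nt_ndvd (hP : IsPt p e pos x) {k : Fin 3} (hk : k ≠ pos i3) :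
    ¬ (3 : ℤ) ∣ ntg p e pos x k :=
  ndvd_mul (dcl_ndvd t.h3 pos k) (ndvd_pw (t.unit hP hk) 3)

theorem wq_nt (hP : IsPt p e pos x) {k : Fin 3} (hk : k ≠ pos i3) :
    wq (ntg p e pos x k) = cwt p e pos k := by
  unfold ntg
  rw [wq_mul_cube (dcl_ndvd t.h3 pos k) (t.unit hP hk), wq_dcl t.h3]

theorem nt_sum (hP : IsPt p e pos x) {i j : Fin 3} (hi : i ≠ pos i3) (hj : j ≠ pos i3)
    (hij : i ≠ j) : ntg p e pos x i + ntg p e pos x j + 3 * ntg p e pos x (pos i3) = 0 := by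
  have h := hP.sum
  rw [three_sumZ' hij hi hj] at h
  have h1 := t.term_eq (pos := pos) (x := x) i
  have h2 := t.term_eq (pos := pos) (x := x) j
  have h3 := t.term_eq (pos := pos) (x := x) (pos i3)
  rw [if_neg (Ne.symm hi)] at h1
  rw [if_neg (Ne.symm hj)] at h2
  rw [if_pos rfl] at h3
  unfold term at h1 h2 h3
  linear_combination h - h1 - h2 - h3

theorem nt_mod (hP : IsPt p e pos x) {i j : Fin 3} (hi : i ≠ pos i3) (hj : j ≠ pos i3)
    (hij : i ≠ j) : (ntg p e pos x (pos i3) : ZMod 3) = (ntg p e pos x i : ZMod 3) *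
      (cwt p e pos j - cwt p e pos i) := by
  rw [← t.wq_nt hP hi, ← t.wq_nt hP hj]
  exact wq_diff (t.nt_ndvd hP hi) (t.nt_ndvd hP hj) (t.nt_sum hP hi hj hij)

theorem nt_dvd {k : Fin 3} (h : (3 : ℤ) ∣ ntg p e pos x k) : (3 : ℤ) ∣ x k :=
  Int.prime_three.dvd_of_dvd_pow ((Int.prime_three.dvd_or_dvd h).resolve_left
    (dcl_ndvd t.h3 pos k))

theorem dvd_iff (hP : IsPt p e pos x) {i j : Fin 3} (hi : i ≠ pos i3) (hj : j ≠ pos i3)
    (hij : i ≠ j) : (3 : ℤ) ∣ x (pos i3) ↔ cwt p e pos i = cwt p e pos j := by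
  have h := t.nt_mod hP hi hj hij
  have hn := z3_ne.mpr (t.nt_ndvd hP hi)
  constructor
  · intro hd
    have h1 : (3 : ℤ) ∣ ntg p e pos x (pos i3) :=
      Dvd.dvd.mul_left (Dvd.dvd.pow hd (by norm_num)) _
    rw [← z3_eq, h] at h1
    have := (mul_eq_zero.mp h1).resolve_left hn
    exact (sub_eq_zero.mp this).symm
  · intro he
    apply t.nt_dvd
    rw [← z3_eq, h, he, sub_self, mul_zero]

end Th

theorem ntg9 {k : Fin 3} (h : (3 : ℤ) ∣ x k) : (9 : ℤ) ∣ ntg p e pos x k := by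
  obtain ⟨v, hv⟩ := h
  unfold ntg
  rw [hv]
  exact ⟨dcl p e pos k * (3 * v ^ 3), by ring⟩

/-! ### weights after the exchange -/

/-- the relation between the weights -/
structure Wt (p e e' : Fin m → ℕ) (S : Finset (Fin m)) : Prop where
  ins : ∀ i ∈ S, sg p e' i = - sg p e i
  out : ∀ i ∉ S, sg p e' i = sg p e i

theorem BaseT.wt (b : BaseT p e e' S) : Wt p e e' S where
  ins := fun i hi => by
    have h := b.rel i
    rw [if_pos hi] at h
    have := congrArg (fun n : ℕ => (n : ZMod 3)) h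
    push_cast at this
    unfold sg
    rw [if_neg (b.nS i hi), if_neg (b.nS i hi)]
    linear_combination wq (p i : ℤ) * this + wq (p i : ℤ) * three_zmod
  out := fun i hi => by
    have h := b.rel i
    rw [if_neg hi] at h
    unfold sg
    rw [h]

/-- sums over the exchanged positions, checked term by term -/
theorem Wt.sum_eq (W : Wt p e e' S) (hpos : Exch S pos pos') (f f' g : Fin 3 → ZMod 3)
    (hin : ∀ a : Fin 3, - f' (tau a) - f a = g 0) (hout : ∀ a : Fin 3, f' a = f a) :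
    ∑ j, sg p e' j * f' (pos' j) = ∑ j, sg p e j * f (pos j) + g 0 * ∑ j ∈ S, sg p e j := by
  classical
  have h1 : ∑ j ∈ S, sg p e j = ∑ j, if j ∈ S then sg p e j else 0 := by
    rw [Finset.sum_ite_mem, Finset.univ_inter]
  rw [h1, Finset.mul_sum, ← Finset.sum_add_distrib]
  refine Finset.sum_congr rfl (fun j _ => ?_)
  have h := hpos j
  by_cases hj : j ∈ S
  · rw [if_pos hj] at h ⊢
    rw [h, W.ins j hj, ← hin (pos j)]; ring
  · rw [if_neg hj] at h ⊢
    rw [h, W.out j hj, hout]; ring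

theorem cwt_as (p e : Fin m → ℕ) (pos : Fin m → Fin 3) (k : Fin 3) :
    cwt p e pos k = ∑ j, sg p e j * (if pos j = k then 1 else 0) := by
  unfold cwt
  exact Finset.sum_congr rfl (fun j _ => by split_ifs <;> ring)

theorem cwt_sub (p e : Fin m → ℕ) (pos : Fin m → Fin 3) (k l : Fin 3) :
    cwt p e pos k - cwt p e pos l =
      ∑ j, sg p e j * ((if pos j = k then 1 else 0) - (if pos j = l then 1 else 0)) := by
  rw [cwt_as, cwt_as, ← Finset.sum_sub_distrib]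
  exact Finset.sum_congr rfl (fun j _ => by ring)

theorem Wt.c0 (W : Wt p e e' S) (hpos : Exch S pos pos') :
    cwt p e' pos' 1 - cwt p e' pos' 2 =
      cwt p e pos 1 - cwt p e pos 2 - ∑ j ∈ S, sg p e j := by
  rw [cwt_sub, cwt_sub, W.sum_eq hpos (fun a => (if a = 1 then 1 else 0) - (if a = 2 then 1 else 0))
    (fun a => (if a = 1 then 1 else 0) - (if a = 2 then 1 else 0)) (fun _ => -1) (by decide)
    (by decide)]
  ring

theorem Wt.c1 (W : Wt p e e' S) (hpos : Exch S pos pos') :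
    cwt p e' pos' 2 - cwt p e' pos' 0 =
      cwt p e pos 2 - cwt p e pos 0 + ∑ j ∈ S, sg p e j := by
  rw [cwt_sub, cwt_sub, W.sum_eq hpos (fun a => (if a = 2 then 1 else 0) - (if a = 0 then 1 else 0))
    (fun a => (if a = 2 then 1 else 0) - (if a = 0 then 1 else 0)) (fun _ => 1) (by decide)
    (by decide)]
  ring

theorem Wt.c2 (W : Wt p e e' S) (hpos : Exch S pos pos') :
    cwt p e' pos' 0 - cwt p e' pos' 1 = cwt p e pos 0 - cwt p e pos 1 := by
  rw [cwt_sub, cwt_sub, W.sum_eq hpos (fun a => (if a = 0 then 1 else 0) - (if a = 1 then 1 else 0))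
    (fun a => (if a = 0 then 1 else 0) - (if a = 1 then 1 else 0)) (fun _ => 0) (by decide)
    (by decide)]
  ring

theorem Wt.c3 (W : Wt p e e' S) (hpos : Exch S pos pos') :
    cwt p e pos 2 - cwt p e' pos' 2 + cwt p e' pos' 0 - cwt p e pos 0 =
      - ∑ j ∈ S, sg p e j := by
  have h1 : cwt p e' pos' 0 - cwt p e' pos' 2 =
      ∑ j, sg p e j * ((if pos j = 0 then 1 else 0) - (if pos j = 2 then 1 else 0)) +
        (-1) * ∑ j ∈ S, sg p e j := by
    rw [cwt_sub]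
    exact W.sum_eq hpos (fun a => (if a = 0 then 1 else 0) - (if a = 2 then 1 else 0))
      (fun a => (if a = 0 then 1 else 0) - (if a = 2 then 1 else 0)) (fun _ => -1) (by decide)
      (by decide)
  have h2 := cwt_sub p e pos 0 2
  linear_combination h1 - h2

end Pool.Agent.CubeRank
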