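import Pool.Agent.CubeRank.GLawC

/-!
# The classes of the main elements when 3 divides `A` once
-/

set_option autoImplicit false

namespace Pool.Agent.CubeRank

open Pool.Agent.Lib_helper18 Pool.Agent.Lib_helper18.Eis Pool.Agent.Lib_helper84.Cub

variable {m : ℕ} {p e e' : Fin m → ℕ} {pos pos' : Fin m → Fin 3} {x y : Fin 3 → ℤ}
  {S : Finset (Fin m)}

theorem BaseT.rd3 (b : BaseT p e e' S) (pos : Fin m → Fin 3) (k : Fin 3) :
    ¬ (3 : ℤ) ∣ rdP p S pos k := by
  unfold rdP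
  intro h
  rw [Prime.dvd_finsetProd_iff Int.prime_three] at h
  obtain ⟨j, -, hj⟩ := h
  split_ifs at hj with hc
  · have h1 := b.sp3 hc.1
    rw [pow_one] at hj
    omega
  · omega

theorem exch_i3 (hpos : Exch S pos pos') {i3 : Fin m} (hi : i3 ∉ S) : pos' i3 = pos i3 := by
  have h := hpos i3
  rwa [if_neg hi] at h

/-- the relation between the reduced terms -/
theorem relg (b : BaseT p e e' S) {i3 : Fin m} (t : Th p e i3) (t' : Th p e' i3) (hi : i3 ∉ S)
    (hpos : Exch S pos pos') :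
    (rdP p S pos 1 * x 1 * y 0) ^ 3 * (ntg p e pos x 0 * ntg p e' pos' y 1) =
      (rdP p S pos 0 * x 0 * y 1) ^ 3 * (ntg p e pos x 1 * ntg p e' pos' y 0) := by
  have h2 := exch_i3 hpos hi
  have h := exch_h1G b hpos
  rw [t.cell_eq, t.cell_eq, t'.cell_eq, t'.cell_eq, h2] at h
  set a0 : ℤ := if pos i3 = 0 then 3 else 1 with ha0
  set a1 : ℤ := if pos i3 = 1 then 3 else 1 with ha1
  have n0 : a0 ≠ 0 := by rw [ha0]; split_ifs <;> norm_num
  have n1 : a1 ≠ 0 := by rw [ha1]; split_ifs <;> norm_num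
  apply mul_left_cancel₀ (mul_ne_zero n0 n1)
  unfold ntg
  linear_combination (x 0 * x 1 * y 0 * y 1) ^ 3 * h

theorem z3_three : ∀ d s : ZMod 3, s ≠ 0 → d ≠ 0 → d - s ≠ 0 → d - s = -d ∧ -(d * s) = 1 := by
  decide

theorem z3_three' : ∀ d s : ZMod 3, s ≠ 0 → d ≠ 0 → d + s ≠ 0 → d + s = -d ∧ d * s = 1 := by
  decide

theorem z3_sq1 : ∀ s : ZMod 3, s ≠ 0 → s * s = 1 := by decide

/-- the class of the main element of case II -/
theorem cls_tIIg (b : BaseT p e e' S) {i3 : Fin m} (t : Th p e i3) (t' : Th p e' i3)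
    (hi : i3 ∉ S) {s : ZMod 3} (hs : ∑ j ∈ S, sg p e j = s) (hs0 : s ≠ 0)
    (hpos : Exch S pos pos') (hP : IsPt p e pos x) (hP' : IsPt p e' pos' y) :
    Cls (tII p S pos x y) (1 - ((pos i3 : ℕ) : ZMod 3) -
      (cwt p e pos (pos i3 + 1) - cwt p e pos (pos i3 + 2)) * s) := by
  have g2 := exch_i3 hpos hi
  have rel := relg (x := x) (y := y) b t t' hi hpos
  have W := b.wt
  rw [tII_eqS]
  have hc : pos i3 = 0 ∨ pos i3 = 1 ∨ pos i3 = 2 := by
    generalize pos i3 = k; revert k; decide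
  rcases hc with hc | hc | hc
  · -- 3 in the first cell
    rw [hc] at g2
    have u1 := t.unit hP (k := 1) (by rw [hc]; decide)
    have u1' := t'.unit hP' (k := 1) (by rw [g2]; decide)
    have d := t.dvd_iff hP (i := 1) (j := 2) (by rw [hc]; decide) (by rw [hc]; decide) (by decide)
    have d' := t'.dvd_iff hP' (i := 1) (j := 2) (by rw [g2]; decide) (by rw [g2]; decide)
      (by decide)
    have hw := W.c0 hpos
    rw [hs] at hw
    rw [hc] at d ⊢
    rw [g2] at d'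
    have e1 : (0 : Fin 3) + 1 = 1 := by decide
    have e2 : (0 : Fin 3) + 2 = 2 := by decide
    have e3 : (((0 : Fin 3) : ℕ) : ZMod 3) = 0 := by decide
    rw [e1, e2, e3]
    by_cases h1 : cwt p e pos 1 = cwt p e pos 2
    · -- 3 | x 0
      have d1 := d.mpr h1
      have d2 : ¬ (3 : ℤ) ∣ y 0 := fun h => by
        have h4 := d'.mp h
        apply hs0
        linear_combination hw - h4 + h1
      have := clsTwo_one (Dvd.dvd.mul_right (Dvd.dvd.mul_left d1 (rdP p S pos 0)) (y 1))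
        (ndvd_mul (ndvd_mul (b.rd3 pos 1) u1) d2)
      rw [h1]
      simpa using this
    by_cases h2 : cwt p e' pos' 1 = cwt p e' pos' 2
    · have d2 := d'.mpr h2
      have d1 : ¬ (3 : ℤ) ∣ x 0 := fun h => h1 (d.mp h)
      have := clsTwo_zero (Dvd.dvd.mul_left d2 (rdP p S pos 1 * x 1))
        (ndvd_mul (ndvd_mul (b.rd3 pos 0) d1) u1')
      have e4 : cwt p e pos 1 - cwt p e pos 2 = s := by linear_combination h2 - hw
      rw [e4, z3_sq1 s hs0]
      simpa using this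
    · have d1 : ¬ (3 : ℤ) ∣ x 0 := fun h => h1 (d.mp h)
      have d2 : ¬ (3 : ℤ) ∣ y 0 := fun h => h2 (d'.mp h)
      have hsum := t.nt_sum hP (i := 1) (j := 2) (by rw [hc]; decide) (by rw [hc]; decide)
        (by decide)
      have hsum' := t'.nt_sum hP' (i := 1) (j := 2) (by rw [g2]; decide) (by rw [g2]; decide)
        (by decide)
      rw [hc] at hsum
      rw [g2] at hsum'
      have w1 := t.wq_nt hP (k := 1) (by rw [hc]; decide)
      have w2 := t.wq_nt hP (k := 2) (by rw [hc]; decide)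
      have w1' := t'.wq_nt hP' (k := 1) (by rw [g2]; decide)
      have w2' := t'.wq_nt hP' (k := 2) (by rw [g2]; decide)
      obtain ⟨k1, k2⟩ := z3_three (cwt p e pos 1 - cwt p e pos 2) s hs0 (sub_ne_zero.mpr h1)
        (by rw [← hw]; exact sub_ne_zero.mpr h2)
      have := clsII_0 (t.nt_ndvd hP (by rw [hc]; decide))
        (t.nt_ndvd hP (k := 2) (by rw [hc]; decide))
        (t'.nt_ndvd hP' (by rw [g2]; decide)) (t'.nt_ndvd hP' (k := 2) (by rw [g2]; decide))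
        (by linear_combination hsum) (by linear_combination hsum') rel
        (ndvd_mul (ndvd_mul (b.rd3 pos 1) u1) d2)
        (by rw [w1, w2]; exact sub_ne_zero.mpr h1)
        (by rw [w1, w2, w1', w2', hw, k1])
      have e4 : (1 : ZMod 3) - 0 - (cwt p e pos 1 - cwt p e pos 2) * s = 2 := by
        linear_combination k2
      rw [e4]; exact this
  · -- 3 in the middle cell
    rw [hc] at g2
    have u0 := t.unit hP (k := 0) (by rw [hc]; decide)
    have u0' := t'.unit hP' (k := 0) (by rw [g2]; decide)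
    have d := t.dvd_iff hP (i := 0) (j := 2) (by rw [hc]; decide) (by rw [hc]; decide) (by decide)
    have d' := t'.dvd_iff hP' (i := 0) (j := 2) (by rw [g2]; decide) (by rw [g2]; decide)
      (by decide)
    have hw := W.c1 hpos
    rw [hs] at hw
    rw [hc] at d ⊢
    rw [g2] at d'
    have e1 : (1 : Fin 3) + 1 = 2 := by decide
    have e2 : (1 : Fin 3) + 2 = 0 := by decide
    have e3 : (((1 : Fin 3) : ℕ) : ZMod 3) = 1 := by decide
    rw [e1, e2, e3]
    by_cases h1 : cwt p e pos 0 = cwt p e pos 2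
    · -- 3 | x 1
      have d1 := d.mpr h1
      have d2 : ¬ (3 : ℤ) ∣ y 1 := fun h => by
        have h4 := d'.mp h
        apply hs0
        linear_combination -hw - h4 + h1
      have := clsTwo_zero (Dvd.dvd.mul_right (Dvd.dvd.mul_left d1 (rdP p S pos 1)) (y 0))
        (ndvd_mul (ndvd_mul (b.rd3 pos 0) u0) d2)
      rw [h1]
      simpa using this
    by_cases h2 : cwt p e' pos' 0 = cwt p e' pos' 2
    · have d2 := d'.mpr h2
      have d1 : ¬ (3 : ℤ) ∣ x 1 := fun h => h1 (d.mp h)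
      have := clsTwo_one (Dvd.dvd.mul_left d2 (rdP p S pos 0 * x 0))
        (ndvd_mul (ndvd_mul (b.rd3 pos 1) d1) u0')
      have e4 : cwt p e pos 2 - cwt p e pos 0 = -s := by linear_combination -hw - h2
      have e5 : (1 : ZMod 3) - 1 - (cwt p e pos 2 - cwt p e pos 0) * s = 1 := by
        rw [e4]; linear_combination z3_sq1 s hs0
      rw [e5]; exact this
    · have d1 : ¬ (3 : ℤ) ∣ x 1 := fun h => h1 (d.mp h)
      have d2 : ¬ (3 : ℤ) ∣ y 1 := fun h => h2 (d'.mp h)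
      have hsum := t.nt_sum hP (i := 0) (j := 2) (by rw [hc]; decide) (by rw [hc]; decide)
        (by decide)
      have hsum' := t'.nt_sum hP' (i := 0) (j := 2) (by rw [g2]; decide) (by rw [g2]; decide)
        (by decide)
      rw [hc] at hsum
      rw [g2] at hsum'
      have w1 := t.wq_nt hP (k := 0) (by rw [hc]; decide)
      have w2 := t.wq_nt hP (k := 2) (by rw [hc]; decide)
      have w1' := t'.wq_nt hP' (k := 0) (by rw [g2]; decide)
      have w2' := t'.wq_nt hP' (k := 2) (by rw [g2]; decide)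
      obtain ⟨k1, k2⟩ := z3_three' (cwt p e pos 2 - cwt p e pos 0) s hs0
        (sub_ne_zero.mpr (Ne.symm h1)) (by rw [← hw]; exact sub_ne_zero.mpr (Ne.symm h2))
      have := clsII_1 (t.nt_ndvd hP (by rw [hc]; decide))
        (t.nt_ndvd hP (k := 2) (by rw [hc]; decide))
        (t'.nt_ndvd hP' (by rw [g2]; decide)) (t'.nt_ndvd hP' (k := 2) (by rw [g2]; decide))
        (by linear_combination hsum) (by linear_combination hsum') rel
        (ndvd_mul (ndvd_mul (b.rd3 pos 1) d1) u0')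
        (by rw [w1, w2]; exact sub_ne_zero.mpr h1)
        (by rw [w1, w2, w1', w2']; linear_combination -hw - k1)
      have e4 : (1 : ZMod 3) - 1 - (cwt p e pos 2 - cwt p e pos 0) * s = 2 := by
        linear_combination -k2 - three_zmod
      rw [e4]; exact this
  · -- 3 in the last cell
    rw [hc] at g2
    have u0' := t'.unit hP' (k := 0) (by rw [g2]; decide)
    have u1 := t.unit hP (k := 1) (by rw [hc]; decide)
    have hsum := t.nt_sum hP (i := 0) (j := 1) (by rw [hc]; decide) (by rw [hc]; decide)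
      (by decide)
    have hsum' := t'.nt_sum hP' (i := 0) (j := 1) (by rw [g2]; decide) (by rw [g2]; decide)
      (by decide)
    rw [hc] at hsum
    rw [g2] at hsum'
    have w0 := t.wq_nt hP (k := 0) (by rw [hc]; decide)
    have w1 := t.wq_nt hP (k := 1) (by rw [hc]; decide)
    have w0' := t'.wq_nt hP' (k := 0) (by rw [g2]; decide)
    have w1' := t'.wq_nt hP' (k := 1) (by rw [g2]; decide)
    have d := t.dvd_iff hP (i := 0) (j := 1) (by rw [hc]; decide) (by rw [hc]; decide) (by decide)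
    have d' := t'.dvd_iff hP' (i := 0) (j := 1) (by rw [g2]; decide) (by rw [g2]; decide)
      (by decide)
    have hw2 := W.c2 hpos
    have hw3 := W.c3 hpos
    rw [hs] at hw3
    rw [hc] at d ⊢
    rw [g2] at d'
    have e1 : (2 : Fin 3) + 1 = 0 := by decide
    have e2 : (2 : Fin 3) + 2 = 1 := by decide
    have e3 : (((2 : Fin 3) : ℕ) : ZMod 3) = 2 := by decide
    rw [e1, e2, e3]
    obtain ⟨v, hv⟩ := ZMod.intCast_surjective (n := 3) ((cwt p e pos 0 - cwt p e pos 1) * s)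
    have hcls := clsII_2 (t.nt_ndvd hP (k := 0) (by rw [hc]; decide))
      (t.nt_ndvd hP (k := 1) (by rw [hc]; decide)) (t'.nt_ndvd hP' (k := 0) (by rw [g2]; decide))
      (t'.nt_ndvd hP' (k := 1) (by rw [g2]; decide))
      (ndvd_mul (ndvd_mul (b.rd3 pos 1) u1) u0')
      (fun h => ntg9 (t.nt_dvd (k := 2) h)) (fun h => ntg9 (t'.nt_dvd (k := 2) h)) hsum hsum'
      (by rw [w0, w1, w0', w1']; exact hw2.symm) rel (s := v) (by
        rw [w0, w1, w0', hv]
        by_cases h : cwt p e pos 0 = cwt p e pos 1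
        · rw [h, sub_self, neg_zero, zero_mul, zero_mul]
        · have h' : cwt p e' pos' 0 ≠ cwt p e' pos' 1 := by
            intro h'
            rw [h', sub_self] at hw2
            exact h (sub_eq_zero.mp hw2.symm)
          have n2 : ¬ (3 : ℤ) ∣ x 2 := fun h3 => h (d.mp h3)
          have n2' : ¬ (3 : ℤ) ∣ y 2 := fun h3 => h' (d'.mp h3)
          have w2 : wq (ntg p e pos x 2) = cwt p e pos 2 := by
            unfold ntg
            rw [wq_mul_cube (dcl_ndvd t.h3 pos 2) n2, wq_dcl t.h3]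
          have w2' : wq (ntg p e' pos' y 2) = cwt p e' pos' 2 := by
            unfold ntg
            rw [wq_mul_cube (dcl_ndvd t'.h3 pos' 2) n2', wq_dcl t'.h3]
          rw [w2, w2', hw3]; ring)
    have e : -1 - (v : ZMod 3) = 1 - 2 - (cwt p e pos 0 - cwt p e pos 1) * s := by
      rw [hv]; ring
    rw [e] at hcls
    exact hcls

/-! ### case I -/

theorem key_w0' : ∀ X d Q R w0 : ZMod 3, X ≠ 0 → Q ≠ 0 → R ≠ 0 →
    X * (-d) * X * (-X) = Q * R * w0 → w0 = Q * R * X * d := by decide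

theorem caseI_keyg {X X' D w0 Q Q' R y0 y1 y2 d s qb : ZMod 3} (hX : X ≠ 0) (hs : s ≠ 0)
    (hQ : Q ≠ 0) (hR : R ≠ 0) (h1 : R * y1 = -s * y0) (h2 : y0 + Q' * y2 = 0)
    (hQQ : Q * Q' = qb) (h4 : D = X * (-d)) (h5 : X + X' = 0) (h3 : D * X * X' = Q * R * w0) :
    w0 * (qb * y2) = (d * s) * (X * y1) := by
  have hQ2 := z3_sq1 Q hQ
  have hR2 := z3_sq1 R hR
  have hs2 := z3_sq1 s hs
  have e1 : Q' = qb * Q := by linear_combination Q * hQQ - Q' * hQ2
  have e2 : y0 = -(qb * Q * y2) := by linear_combination h2 - y2 * e1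
  have e3 : y1 = R * s * (qb * Q * y2) := by
    linear_combination R * h1 - y1 * hR2 - R * s * e2
  have e5 : X' = -X := by linear_combination h5
  rw [h4, e5] at h3
  have e4 := key_w0' X d Q R w0 hX hQ hR h3
  rw [e3, e4]
  linear_combination (-(X * d * R * Q * qb * y2)) * hs2

theorem dcl_prod (p e : Fin m → ℕ) (pos : Fin m → Fin 3) :
    dcl p e pos 0 * dcl p e pos 1 * dcl p e pos 2 =
      ∏ j, if p j ≠ 3 then (p j : ℤ) ^ e j else 1 := by
  simp only [dcl, ← Finset.prod_mul_distrib]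
  refine Finset.prod_congr rfl (fun j _ => ?_)
  have h3 : pos j = 0 ∨ pos j = 1 ∨ pos j = 2 := by
    generalize pos j = k; revert k; decide
  rcases h3 with h3 | h3 | h3 <;> by_cases h : p j = 3 <;> simp [h3, h]

theorem dcl_std0 (p e : Fin m → ℕ) (S : Finset (Fin m)) : dcl p e (stdS S) 0 = 1 := by
  unfold dcl stdS
  refine Finset.prod_eq_one (fun j _ => ?_)
  rw [if_neg]
  rintro ⟨h, -⟩
  split_ifs at h <;> exact absurd h (by decide)

theorem dcl_std2 (b : BaseT p e e' S) (n : Fin m → ℕ) : dcl p n (stdS S) 2 = bS p n S := by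
  unfold dcl stdS bS
  refine Finset.prod_congr rfl (fun j _ => ?_)
  by_cases h : j ∈ S
  · rw [if_pos ⟨by rw [if_pos h], b.nS j h⟩, if_pos h]
  · rw [if_neg, if_neg h]
    rintro ⟨h', -⟩
    rw [if_neg h] at h'
    exact absurd h' (by decide)

theorem dcl_std1_eq (b : BaseT p e e' S) : dcl p e' (stdS S) 1 = dcl p e (stdS S) 1 := by
  unfold dcl stdS
  refine Finset.prod_congr rfl (fun j _ => ?_)
  have := b.rel j
  by_cases h : j ∈ S
  · rw [if_neg, if_neg]
    · rintro ⟨h', -⟩; rw [if_pos h] at h'; exact absurd h' (by decide)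
    · rintro ⟨h', -⟩; rw [if_pos h] at h'; exact absurd h' (by decide)
  · rw [if_neg h] at this
    rw [this]

theorem cwt_std0 (p e : Fin m → ℕ) (S : Finset (Fin m)) : cwt p e (stdS S) 0 = 0 := by
  unfold cwt stdS
  refine Finset.sum_eq_zero (fun j _ => ?_)
  rw [if_neg]
  split_ifs <;> decide

theorem cwt_std2 (p e : Fin m → ℕ) (S : Finset (Fin m)) :
    cwt p e (stdS S) 2 = ∑ j ∈ S, sg p e j := by
  classical
  have h1 : ∑ j ∈ S, sg p e j = ∑ j, if j ∈ S then sg p e j else 0 := by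
    rw [Finset.sum_ite_mem, Finset.univ_inter]
  rw [h1]
  unfold cwt stdS
  refine Finset.sum_congr rfl (fun j _ => ?_)
  by_cases h : j ∈ S
  · rw [if_pos h, if_pos rfl, if_pos h]
  · rw [if_neg h, if_neg (by decide), if_neg h]

theorem std_i3 {i3 : Fin m} (hi : i3 ∉ S) : stdS S i3 = 1 := by
  unfold stdS; rw [if_neg hi]

theorem sum_sg' (b : BaseT p e e' S) : ∑ j ∈ S, sg p e' j = - ∑ j ∈ S, sg p e j := by
  rw [← Finset.sum_neg_distrib]
  exact Finset.sum_congr rfl (fun j hj => b.wt.ins j hj)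

theorem three_prodZ' {i j k : Fin 3} (h01 : i ≠ j) (h02 : i ≠ k) (h12 : j ≠ k) (f : Fin 3 → ℤ) :
    ∏ j, f j = f i * f j * f k := by
  rw [Fin.prod_univ_three]
  have key : ∀ i j k : Fin 3, i ≠ j → i ≠ k → j ≠ k → (i = 0 ∧ j = 1 ∧ k = 2) ∨
    (i = 0 ∧ j = 2 ∧ k = 1) ∨ (i = 1 ∧ j = 0 ∧ k = 2) ∨ (i = 1 ∧ j = 2 ∧ k = 0) ∨
    (i = 2 ∧ j = 0 ∧ k = 1) ∨ (i = 2 ∧ j = 1 ∧ k = 0) := by decide
  rcases key i j k h01 h02 h12 with ⟨rfl, rfl, rfl⟩ | ⟨rfl, rfl, rfl⟩ | ⟨rfl, rfl, rfl⟩ |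
    ⟨rfl, rfl, rfl⟩ | ⟨rfl, rfl, rfl⟩ | ⟨rfl, rfl, rfl⟩ <;> ring

/-- the arithmetic of case I -/
theorem caseI_modg (b : BaseT p e e' S) {i3 : Fin m} (t : Th p e i3) (t' : Th p e' i3)
    (hi3 : i3 ∉ S) {s : ZMod 3} (hs : ∑ j ∈ S, sg p e j = s) (hs0 : s ≠ 0)
    (hP : IsPt p e pos x) (hP' : IsPt p e' (stdS S) y) {i j : Fin 3} (hi : i ≠ pos i3)
    (hj : j ≠ pos i3) (hij : i ≠ j) :
    ((x 0 * x 1 * x 2 * (qS p S * y 2) : ℤ) : ZMod 3) =
      ((cwt p e pos i - cwt p e pos j) * s) *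
        ((ntg p e pos x i * y 1 : ℤ) : ZMod 3) := by
  have st := std_i3 hi3
  have hsum' := t'.nt_sum hP' (i := 0) (j := 2) (by rw [st]; decide) (by rw [st]; decide)
    (by decide)
  have hmod' := t'.nt_mod hP' (i := 0) (j := 2) (by rw [st]; decide) (by rw [st]; decide)
    (by decide)
  rw [st, cwt_std0, cwt_std2, sum_sg' b, hs] at hmod'
  rw [st] at hsum'
  have m0 : ntg p e' (stdS S) y 0 = y 0 ^ 3 := by unfold ntg; rw [dcl_std0]; ring
  have m1 : ntg p e' (stdS S) y 1 = dcl p e (stdS S) 1 * y 1 ^ 3 := by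
    unfold ntg; rw [dcl_std1_eq b]
  have m2 : ntg p e' (stdS S) y 2 = bS p e' S * y 2 ^ 3 := by unfold ntg; rw [dcl_std2 b]
  rw [m0, m1] at hmod'
  rw [m0, m1, m2] at hsum'
  have hsumZ := congrArg (fun n : ℤ => (n : ZMod 3)) hsum'
  push_cast at hsumZ hmod'
  simp only [z3_cube, three_zmod, zero_mul, add_zero] at hsumZ hmod'
  -- the point `P`
  have hsum := t.nt_sum hP hi hj hij
  have hmod := t.nt_mod hP hi hj hij
  have hsZ := congrArg (fun n : ℤ => (n : ZMod 3)) hsum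
  push_cast at hsZ
  rw [three_zmod, zero_mul, add_zero] at hsZ
  have hprodd : ∏ k, ntg p e pos x k = ntg p e pos x (pos i3) * ntg p e pos x i *
      ntg p e pos x j := by
    exact three_prodZ' (Ne.symm hi) (Ne.symm hj) hij _
  have hBC : bS p e S * dcl p e (stdS S) 1 = dcl p e pos 0 * dcl p e pos 1 * dcl p e pos 2 := by
    rw [dcl_prod, ← dcl_prod p e (stdS S), dcl_std0, dcl_std2 b]; ring
  have hprod : ntg p e pos x (pos i3) * ntg p e pos x i * ntg p e pos x j =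
      bS p e S * dcl p e (stdS S) 1 * (x 0 * x 1 * x 2) ^ 3 := by
    rw [← hprodd, Fin.prod_univ_three, hBC]
    unfold ntg
    ring
  have hpZ := congrArg (fun n : ℤ => (n : ZMod 3)) hprod
  push_cast at hpZ
  simp only [z3_cube] at hpZ
  have hq : (qS p S : ZMod 3) ^ 3 = (bS p e S : ZMod 3) * (bS p e' S : ZMod 3) := by
    have := congrArg (fun n : ℤ => (n : ZMod 3)) b.bb
    push_cast at this
    exact this.symm
  rw [z3_cube] at hq
  have hB3 : ∀ n : Fin m → ℕ, ¬ (3 : ℤ) ∣ bS p n S := fun n =>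
    prod_ndvd t.h3 (fun j => j ∈ S) (fun j hj => b.nS j hj) n
  push_cast
  refine caseI_keyg (X := (ntg p e pos x i : ZMod 3)) (X' := (ntg p e pos x j : ZMod 3))
    (D := (ntg p e pos x (pos i3) : ZMod 3)) (Q := (bS p e S : ZMod 3))
    (Q' := (bS p e' S : ZMod 3))
    (R := (dcl p e (stdS S) 1 : ZMod 3)) (y0 := (y 0 : ZMod 3))
    (z3_ne.mpr (t.nt_ndvd hP hi)) hs0 (z3_ne.mpr (hB3 e))
    (z3_ne.mpr (dcl_ndvd t.h3 _ _))
    ?_ ?_ hq.symm ?_ hsZ ?_
  · linear_combination hmod'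
  · linear_combination hsumZ
  · rw [hmod]; ring
  · linear_combination hpZ

/-- the class in case I -/
theorem cls_tIg (b : BaseT p e e' S) {i3 : Fin m} (t : Th p e i3) (t' : Th p e' i3)
    (hi3 : i3 ∉ S) {s : ZMod 3} (hs : ∑ j ∈ S, sg p e j = s) (hs0 : s ≠ 0)
    (hP : IsPt p e pos x) (hP' : IsPt p e' (stdS S) y) :
    Cls (tI p e S pos x y) (((pos i3 : ℕ) : ZMod 3) +
      (cwt p e pos (pos i3 + 1) - cwt p e pos (pos i3 + 2)) * s) := by
  have st := std_i3 hi3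
  have hy : ¬ (3 : ℤ) ∣ y 1 := by
    have h := t'.dvd_iff hP' (i := 0) (j := 2) (by rw [st]; decide) (by rw [st]; decide)
      (by decide)
    rw [st, cwt_std0, cwt_std2, sum_sg' b, hs] at h
    intro h3
    have h4 := h.mp h3
    exact hs0 (by linear_combination h4)
  have hsum : term p e pos x 0 + term p e pos x 1 + term p e pos x 2 = 0 := sum3 hP.sum
  have e3 : ∀ z : ℤ, ((3 * (x 0 * x 1 * x 2) * z : ℤ) : Eis) =
      ((3 * (x 0 * x 1 * x 2 * z) : ℤ) : Eis) := by intro z; push_cast; ring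
  have hc : pos i3 = 0 ∨ pos i3 = 1 ∨ pos i3 = 2 := by
    generalize pos i3 = k; revert k; decide
  unfold tI tOne
  rw [e3]
  rcases hc with hc | hc | hc
  · have hm := caseI_modg b t t' hi3 hs hs0 hP hP' (i := 1) (j := 2) (by rw [hc]; decide)
      (by rw [hc]; decide) (by decide)
    have t0 := t.term_eq (pos := pos) (x := x) 0
    have t1 := t.term_eq (pos := pos) (x := x) 1
    rw [if_pos hc] at t0
    rw [if_neg (by rw [hc]; decide), one_mul] at t1
    rw [← t1] at hm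
    have h := clsI_0 t0 (by rw [t1]; exact t.nt_ndvd hP (by rw [hc]; decide)) hy hsum hm
    rw [hc]
    exact h
  · have hm := caseI_modg b t t' hi3 hs hs0 hP hP' (i := 2) (j := 0) (by rw [hc]; decide)
      (by rw [hc]; decide) (by decide)
    have t0 := t.term_eq (pos := pos) (x := x) 1
    have t1 := t.term_eq (pos := pos) (x := x) 2
    rw [if_pos hc] at t0
    rw [if_neg (by rw [hc]; decide), one_mul] at t1
    rw [← t1] at hm
    have h := clsI_1 t0 (by rw [t1]; exact t.nt_ndvd hP (by rw [hc]; decide)) hy hsum hm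
    rw [hc]
    have e : ((((1 : Fin 3) : ℕ)) : ZMod 3) = 1 := by decide
    rw [e]
    exact h
  · have hm := caseI_modg b t t' hi3 hs hs0 hP hP' (i := 0) (j := 1) (by rw [hc]; decide)
      (by rw [hc]; decide) (by decide)
    have t0 := t.term_eq (pos := pos) (x := x) 2
    have t1 := t.term_eq (pos := pos) (x := x) 0
    rw [if_pos hc] at t0
    rw [if_neg (by rw [hc]; decide), one_mul] at t1
    rw [← t1] at hm
    have h := clsI_2 t0 (by rw [t1]; exact t.nt_ndvd hP (by rw [hc]; decide)) hy hsum hm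
    rw [hc]
    have e : ((((2 : Fin 3) : ℕ)) : ZMod 3) = 2 := by decide
    rw [e]
    exact h

/-! ### case III -/

theorem y_divg {B C1 x y z : ℤ} (hx : ¬ (3 : ℤ) ∣ x) (hB : ¬ (3 : ℤ) ∣ B) (hz : ¬ (3 : ℤ) ∣ z)
    (hC : ¬ (3 : ℤ) ∣ C1) (hw : wq B = 0) (h : x ^ 3 + 3 * C1 * y ^ 3 + B * z ^ 3 = 0) :
    (3 : ℤ) ∣ y := by
  have h1 := wq_diff (U := x ^ 3) (V := B * z ^ 3) (D := C1 * y ^ 3) (ndvd_pw hx 3)
    (ndvd_mul hB (ndvd_pw hz 3)) (by linarith)
  rw [wq_mul_cube hB hz, wq_cube hx, hw, sub_zero, mul_zero, z3_eq] at h1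
  exact Int.prime_three.dvd_of_dvd_pow ((Int.prime_three.dvd_or_dvd h1).resolve_left hC)

theorem cube_congr81' {X Y : ℤ} (hX : ¬ (3 : ℤ) ∣ X) (h : (81 : ℤ) ∣ X ^ 3 - Y ^ 3) :
    (27 : ℤ) ∣ X - Y := by
  obtain ⟨k, hk⟩ := cube_congr hX ((by norm_num : (27 : ℤ) ∣ 81).trans h)
  obtain ⟨c, hc⟩ := h
  have hY : Y = X - 9 * k := by linarith
  have h9 : (3 : ℤ) ∣ k * X ^ 2 := by
    refine ⟨c + 3 * k ^ 2 * X - 9 * k ^ 3, ?_⟩
    rw [hY] at hc
    have : (27 : ℤ) * (k * X ^ 2) = 27 * (3 * (c + 3 * k ^ 2 * X - 9 * k ^ 3)) := by linarith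
    linarith
  have hk3 : (3 : ℤ) ∣ k := (Int.prime_three.dvd_or_dvd h9).resolve_right
    (fun h => hX (Int.prime_three.dvd_of_dvd_pow h))
  obtain ⟨u, hu⟩ := hk3
  exact ⟨u, by rw [hk, hu]; ring⟩

/-- the class of the main element of case III when 3 divides `C` and `y`, `y'` -/
theorem cls_Xig {B B' C1 Q x y z x' y' z' : ℤ} (hBB : B * B' = Q ^ 3)
    (h : x ^ 3 + 3 * C1 * y ^ 3 + B * z ^ 3 = 0) (h' : x' ^ 3 + 3 * C1 * y' ^ 3 + B' * z' ^ 3 = 0)
    (hx : ¬ (3 : ℤ) ∣ x) (hx' : ¬ (3 : ℤ) ∣ x') (hy : (3 : ℤ) ∣ y) (hy' : (3 : ℤ) ∣ y') :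
    Cls (XiZ (3 * C1) Q x y z x' y' z') 0 := by
  obtain ⟨v, rfl⟩ := hy
  obtain ⟨v', rfl⟩ := hy'
  have h81 : (81 : ℤ) ∣ (x * x') ^ 3 - (Q * z * z') ^ 3 := by
    refine ⟨C1 * (-(v ^ 3 * x' ^ 3) + B * z ^ 3 * v' ^ 3), ?_⟩
    linear_combination x' ^ 3 * h - B * z ^ 3 * h' + (z * z') ^ 3 * hBB
  obtain ⟨k, hk⟩ := cube_congr81' (ndvd_mul hx hx') h81
  have hn : (Q : Eis) * z * z' = x * x' - 27 * k := by
    have e : Q * z * z' = x * x' - 27 * k := by linarith
    exact_mod_cast congrArg (fun n : ℤ => (n : Eis)) e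
  have h9 : (9 : Eis) = lam ^ 4 * w := by decide
  have := cls_mk (t := XiZ (3 * C1) Q x (3 * v) z x' (3 * v') z') (n := (x * x') ^ 3)
    (r := 3 * (-(5 * (x * x') ^ 2 * k) + 81 * (x * x') * k ^ 2 - 486 * k ^ 3 +
      w ^ 2 * C1 * (x * v' + x' * v) ^ 3 + w * 81 * C1 ^ 2 * (v * v') ^ 3 -
        3 * C1 * (x * v' + x' * v) * (v * v') * (x * x' - 27 * k))) 4 1
    (by
      rw [XiZ, Xi, hn, pow_one, ← mul_assoc (lam ^ 4) w, ← h9]
      push_cast
      ring) (ndvd_pw (ndvd_mul hx hx') 3)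
  have e : ((1 : ℕ) : ZMod 3) - ((4 : ℕ) : ZMod 3) = 0 := by decide
  rwa [e] at this

/-- **Case III**, 3 divides `C` once and `wq B = 0` -/
theorem caseIII_C3g {q : ℕ} (hq : q.Prime) (hq3 : q % 3 = 2)
    {B B' C1 Q x y z x' y' z' : ℤ} (hBB : B * B' = Q ^ 3)
    (hqQ : (q : ℤ) ∣ Q) (hqB : (q : ℤ) ∣ B) (hqB' : (q : ℤ) ∣ B') (hCi : InertD (3 * C1))
    (hQi : InertD Q) (hC1 : ¬ (3 : ℤ) ∣ C1)
    (h : x ^ 3 + 3 * C1 * y ^ 3 + B * z ^ 3 = 0)
    (h' : x' ^ 3 + 3 * C1 * y' ^ 3 + B' * z' ^ 3 = 0)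
    (cxy : IsCoprime x (3 * C1 * y)) (cyz : IsCoprime (3 * C1 * y) (B * z))
    (cxy' : IsCoprime x' (3 * C1 * y')) (cyz' : IsCoprime (3 * C1 * y') (B' * z'))
    (hz : z ≠ 0) (hz' : z' ≠ 0) (hwB : wq B = 0) (hwB' : wq B' = 0)
    (hwq : sym (q : Eis) w ≠ 0) : False := by
  have hQ := prime_inert hq hq3
  obtain ⟨qnd, symq⟩ := caseIII_q hq hq3 hqQ hqB hqB' h h' cyz cyz'
  have hΞ0 : XiZ (3 * C1) Q x y z x' y' z' ≠ 0 := by
    intro h0; rw [h0] at qnd; exact qnd (dvd_zero _)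
  have nd : ∀ {a c : ℤ}, IsCoprime a (3 * C1 * c) → ¬ (3 : ℤ) ∣ a := by
    intro a c hc ha
    exact Int.prime_three.not_isUnit (hc.isUnit_of_dvd' ha
      (Dvd.dvd.mul_right (dvd_mul_right _ _) _))
  have hBz := nd cyz.symm
  have hBz' := nd cyz'.symm
  have hB : ¬ (3 : ℤ) ∣ B := fun h => hBz (Dvd.dvd.mul_right h _)
  have hB' : ¬ (3 : ℤ) ∣ B' := fun h => hBz' (Dvd.dvd.mul_right h _)
  have hz3 : ¬ (3 : ℤ) ∣ z := fun h => hBz (Dvd.dvd.mul_left h _)
  have hz3' : ¬ (3 : ℤ) ∣ z' := fun h => hBz' (Dvd.dvd.mul_left h _)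
  have h1 := lemmaB1 hq hq3 qnd (cls_Xig hBB h h' (nd cxy) (nd cxy')
    (y_divg (nd cxy) hB hz3 hC1 hwB h) (y_divg (nd cxy') hB' hz3' hC1 hwB' h'))
    (fun l hl hl3 hlΞ =>
    caseIII_loc hq hq3 hBB hCi hQi h h' cxy cxy' hz hz' hΞ0 hl hl3
      (fun h => qnd ((hl.associated_of_dvd hQ h).symm.dvd.trans hlΞ)))
  rw [symq] at h1
  have key : ∀ u : ZMod 3, 2 * u = 0 * u → u ≠ 0 → False := by decide
  exact key _ h1 hwq

theorem wq_bSg (b : BaseT p e e' S) (n : Fin m → ℕ) : wq (bS p n S) = ∑ j ∈ S, sg p n j := by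
  classical
  have h1 : ∑ j ∈ S, sg p n j = ∑ j, if j ∈ S then sg p n j else 0 := by
    rw [Finset.sum_ite_mem, Finset.univ_inter]
  rw [h1]
  exact wq_prod_if b.h3 (fun j => j ∈ S) (fun j hj => b.nS j hj) n

/-- case III when 3 divides `A` once and the exchanged weights sum to zero -/
theorem caseIII_Th (b : BaseT p e e' S) {i3 : Fin m} (t : Th p e i3)
    (hi3 : i3 ∉ S) (hs : ∑ j ∈ S, sg p e j = 0) {i0 : Fin m} (hi0 : i0 ∈ S)
    (hw0 : sym (p i0 : Eis) w ≠ 0)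
    (hP : IsPt p e (stdS S) x) (hP' : IsPt p e' (stdS S) y) : False := by
  have hx := sum3 hP.sum
  have hy := sum3 hP'.sum
  have he0 : e i0 ≠ 0 := by have := b.he i0; omega
  have he0' : e' i0 ≠ 0 := by have := b.he' i0; omega
  have c0 := cellS0 p e S
  have c0' := cellS0 p e' S
  have c1 : cell p e (stdS S) 1 = 3 * dcl p e (stdS S) 1 := by
    rw [t.cell_eq, if_pos (std_i3 hi3)]; ring
  have c1' : cell p e' (stdS S) 1 = 3 * dcl p e (stdS S) 1 := by
    rw [← cellS1_eqG b, c1]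
  have k01 := hP.cop 0 1 (by decide)
  have k12 := hP.cop 1 2 (by decide)
  have k01' := hP'.cop 0 1 (by decide)
  have k12' := hP'.cop 1 2 (by decide)
  rw [c0, c1, cellS2] at hx
  rw [c0', c1', cellS2] at hy
  rw [c0, c1, one_mul] at k01
  rw [c1, cellS2] at k12
  rw [c0', c1', one_mul] at k01'
  rw [c1', cellS2] at k12'
  refine caseIII_C3g (b.hp i0) (b.sp3 hi0) b.bb
    (dvd_prod_if (fun j => j ∈ S) hi0 one_ne_zero)
    (dvd_prod_if (fun j => j ∈ S) hi0 he0)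
    (dvd_prod_if (fun j => j ∈ S) hi0 he0') ?_
    (inertD_prodG b (fun j => j ∈ S) (fun _ => 1)) (dcl_ndvd t.h3 _ _)
    (by linear_combination hx) (by linear_combination hy) k01 k12 k01' k12' (hP.ne 2)
    (hP'.ne 2) (by rw [wq_bSg b]; exact hs) (by rw [wq_bSg b, sum_sg' b, hs, neg_zero])
    hw0
  rw [← c1, cellS1]
  exact inertD_prodG b (fun j => ¬ j ∈ S) e

end Pool.Agent.CubeRank
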