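import Pool.Agent.CubeRank.GLawD

/-!
# Classes when 3 does not divide `A`; 3-adic information in all cases
-/

set_option autoImplicit false

namespace Pool.Agent.CubeRank

open Pool.Agent.Lib_helper18 Pool.Agent.Lib_helper18.Eis Pool.Agent.Lib_helper84.Cub

variable {m : ℕ} {p e e' : Fin m → ℕ} {pos pos' : Fin m → Fin 3} {x y : Fin 3 → ℤ}
  {S : Finset (Fin m)}

theorem cls_tII_zeroG (b : BaseT p e e' S) (h : (3 : ℤ) ∣ x 1 ∨ (3 : ℤ) ∣ y 0)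
    (h0 : ¬ (3 : ℤ) ∣ x 0) (h1 : ¬ (3 : ℤ) ∣ y 1) : Cls (tII p S pos x y) 0 := by
  rw [tII_eqS]
  refine clsTwo_zero ?_ (ndvd_mul (ndvd_mul (b.rd3 pos 0) h0) h1)
  rcases h with h | h
  · exact Dvd.dvd.mul_right (Dvd.dvd.mul_left h _) _
  · exact Dvd.dvd.mul_left h _

theorem cls_tII_oneG (b : BaseT p e e' S) (h : (3 : ℤ) ∣ x 0 ∨ (3 : ℤ) ∣ y 1)
    (h0 : ¬ (3 : ℤ) ∣ x 1) (h1 : ¬ (3 : ℤ) ∣ y 0) : Cls (tII p S pos x y) 1 := by
  rw [tII_eqS]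
  refine clsTwo_one ?_ (ndvd_mul (ndvd_mul (b.rd3 pos 1) h0) h1)
  rcases h with h | h
  · exact Dvd.dvd.mul_right (Dvd.dvd.mul_left h _) _
  · exact Dvd.dvd.mul_left h _

theorem cls_tII_twoG (b : BaseT p e e' S) (hpos : Exch S pos pos')
    (hP : IsPt p e pos x) (hP' : IsPt p e' pos' y)
    (h3 : ∀ k, ¬ (3 : ℤ) ∣ cell p e pos k) (h3' : ∀ k, ¬ (3 : ℤ) ∣ cell p e' pos' k)
    (hx0 : ¬ (3 : ℤ) ∣ x 0) (hx1 : ¬ (3 : ℤ) ∣ x 1) (hy0 : ¬ (3 : ℤ) ∣ y 0)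
    (hy1 : ¬ (3 : ℤ) ∣ y 1) (hxy : (3 : ℤ) ∣ x 2 ∨ (3 : ℤ) ∣ y 2) :
    Cls (tII p S pos x y) 2 := by
  have hx := sum3 hP.sum
  have hy := sum3 hP'.sum
  have h1 := exch_h1G b hpos
  set X := rdP p S pos 1 * x 1 * y 0 with hX
  set Y := rdP p S pos 0 * x 0 * y 1 with hY
  have hXn : ¬ (3 : ℤ) ∣ X := ndvd_mul (ndvd_mul (b.rd3 pos 1) hx1) hy0
  have hYn : ¬ (3 : ℤ) ∣ Y := ndvd_mul (ndvd_mul (b.rd3 pos 0) hx0) hy1
  have hid : cell p e' pos' 0 * cell p e pos 1 * (X ^ 3 - Y ^ 3) =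
      rdP p S pos 1 ^ 3 * (cell p e pos 0 * cell p e' pos' 2 * (x 0 * y 2) ^ 3 -
        cell p e' pos' 0 * cell p e pos 2 * (x 2 * y 0) ^ 3) := by
    rw [hX, hY]
    linear_combination (x 0 * y 1) ^ 3 * h1 +
      rdP p S pos 1 ^ 3 * cell p e' pos' 0 * y 0 ^ 3 * hx -
      rdP p S pos 1 ^ 3 * cell p e pos 0 * x 0 ^ 3 * hy
  have c3 : ∀ {z : ℤ}, ¬ (3 : ℤ) ∣ z → ¬ (3 : ℤ) ∣ z ^ 3 := fun hz h =>
    hz (Int.prime_three.dvd_of_dvd_pow h)
  have key : (3 : ℤ) ∣ X - Y → (3 : ℤ) ∣ x 2 ∧ (3 : ℤ) ∣ y 2 := by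
    intro h
    have h4 : (3 : ℤ) ∣ cell p e' pos' 0 * cell p e pos 1 * (X ^ 3 - Y ^ 3) := by
      apply Dvd.dvd.mul_left
      exact h.trans (sub_dvd_pow_sub_pow X Y 3)
    rw [hid] at h4
    have h5 := (Int.prime_three.dvd_or_dvd h4).resolve_left
      (fun h => b.rd3 pos 1 (Int.prime_three.dvd_of_dvd_pow h))
    rcases hxy with hd | hd
    · refine ⟨hd, ?_⟩
      by_contra hy2
      have h6 : (3 : ℤ) ∣ cell p e' pos' 0 * cell p e pos 2 * (x 2 * y 0) ^ 3 :=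
        Dvd.dvd.mul_left (Dvd.dvd.pow (Dvd.dvd.mul_right hd _) (by norm_num)) _
      have h7 := dvd_add h5 h6
      rw [sub_add_cancel] at h7
      exact ndvd_mul (ndvd_mul (h3 0) (h3' 2)) (c3 (ndvd_mul hx0 hy2)) h7
    · refine ⟨?_, hd⟩
      by_contra hx2
      have h6 : (3 : ℤ) ∣ cell p e pos 0 * cell p e' pos' 2 * (x 0 * y 2) ^ 3 :=
        Dvd.dvd.mul_left (Dvd.dvd.pow (Dvd.dvd.mul_left hd _) (by norm_num)) _
      have h7 := dvd_sub h6 h5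
      rw [sub_sub_cancel] at h7
      exact ndvd_mul (ndvd_mul (h3' 0) (h3 2)) (c3 (ndvd_mul hx2 hy0)) h7
  rw [tII_eqS]
  by_cases hXY : (3 : ℤ) ∣ X - Y
  · obtain ⟨⟨v, hv⟩, ⟨u, hu⟩⟩ := key hXY
    refine clsTwo_two' hXn ?_
    apply cube_congr hXn
    have h27 : (3 : ℤ) ^ 3 ∣ (cell p e' pos' 0 * cell p e pos 1) * (X ^ 3 - Y ^ 3) := by
      rw [hid, hu, hv]
      exact ⟨rdP p S pos 1 ^ 3 * (cell p e pos 0 * cell p e' pos' 2 * (x 0 * u) ^ 3 -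
        cell p e' pos' 0 * cell p e pos 2 * (v * y 0) ^ 3), by ring⟩
    have := Int.prime_three.pow_dvd_of_dvd_mul_left 3 (ndvd_mul (h3' 0) (h3 1)) h27
    norm_num at this
    exact this
  · exact clsTwo_two hXn (dvd_add_of hXn hYn hXY)

/-! ### 3-adic information when 3 does not divide `A` -/

theorem cell_dcl (hno : ∀ i, p i ≠ 3) (pos : Fin m → Fin 3) (k : Fin 3) :
    cell p e pos k = dcl p e pos k := by
  unfold cell dcl
  exact Finset.prod_congr rfl (fun j _ => by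
    by_cases h : pos j = k
    · rw [if_pos h, if_pos ⟨h, hno j⟩]
    · rw [if_neg h, if_neg (fun h' => h h'.1)])

/-- total weight -/
def tg {m : ℕ} (p e : Fin m → ℕ) : ZMod 3 := ∑ i, sg p e i

theorem infoG (h3 : ∀ i, p i % 3 = 2 ∨ p i = 3) (hno : ∀ i, p i ≠ 3) (hP : IsPt p e pos x) :
    ∃ o, PInfo p e pos x o ∧
      ∑ i, sg p e i * ((pos i : ℕ) : ZMod 3) = ((o : ℕ) : ZMod 3) * tg p e ∧
      (tg p e = 1 → (3 : ℤ) ∣ x o) := by
  have hc : ∀ k, ¬ (3 : ℤ) ∣ cell p e pos k := fun k => by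
    rw [cell_dcl hno]; exact dcl_ndvd h3 pos k
  obtain ⟨o, ho⟩ := pt_info hc hP
  refine ⟨o, ho, ?_, fun h => ho.div ?_⟩
  · have h := ho.out
    have e1 : (fun k => wq (cell p e pos k)) =
        ![∑ i, (if pos i = 0 then sg p e i else 0), ∑ i, (if pos i = 1 then sg p e i else 0),
          ∑ i, (if pos i = 2 then sg p e i else 0)] := by
      ext k
      rw [cell_dcl hno, wq_dcl h3]
      fin_cases k <;> rfl
    rw [e1] at h
    rw [sum_cells, tg, sum_cells' (sg p e) pos]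
    exact exc_aux _ _ _ _ h
  · have e1 : (∏ j, (p j : ℤ) ^ e j) = ∏ j, if p j ≠ 3 then (p j : ℤ) ^ e j else 1 :=
      Finset.prod_congr rfl (fun j _ => by rw [if_pos (hno j)])
    rw [e1, wq_prod_if h3 (fun j => p j ≠ 3) (fun _ h => h) e, ← h, tg]
    exact Finset.sum_congr rfl (fun j _ => by rw [if_pos (hno j)])

/-! ### 9 divides `A` -/

theorem eps_nine (h3 : ∀ i, p i % 3 = 2 ∨ p i = 3) (hinj : Function.Injective p) {i3 : Fin m}
    (hp3 : p i3 = 3) (he3 : e i3 = 2) (hP : IsPt p e pos x) {i j : Fin 3} (hi : i ≠ pos i3)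
    (hj : j ≠ pos i3) (hij : i ≠ j) : cwt p e pos i = cwt p e pos j := by
  have hne3 : ∀ {j : Fin m}, j ≠ i3 → p j ≠ 3 := fun h h' => h (hinj (h'.trans hp3.symm))
  have hcell : ∀ k, cell p e pos k = dcl p e pos k * (if pos i3 = k then 9 else 1) := by
    intro k
    unfold cell dcl
    have h1 : (if pos i3 = k then (9 : ℤ) else 1) = ∏ j, if j = i3 then
        (if pos i3 = k then (9 : ℤ) else 1) else 1 := by
      rw [Finset.prod_ite_eq' Finset.univ i3, if_pos (Finset.mem_univ _)]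
    rw [h1, ← Finset.prod_mul_distrib]
    refine Finset.prod_congr rfl (fun j _ => ?_)
    by_cases hj : j = i3
    · subst hj
      rw [if_pos (rfl : j = j), hp3, he3]
      by_cases hk : pos j = k
      · simp [hk]
      · simp [hk]
    · rw [if_neg hj, mul_one]
      by_cases hk : pos j = k
      · rw [if_pos hk, if_pos ⟨hk, hne3 hj⟩]
      · rw [if_neg hk, if_neg (fun h => hk h.1)]
  have hunit : ∀ {k : Fin 3}, k ≠ pos i3 → ¬ (3 : ℤ) ∣ x k := by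
    intro k hk h
    have h1 := hP.cop k (pos i3) hk
    refine Int.prime_three.not_isUnit (h1.isUnit_of_dvd' (Dvd.dvd.mul_left h _)
      (Dvd.dvd.mul_right ?_ _))
    rw [hcell, if_pos rfl]
    exact Dvd.dvd.mul_left (by norm_num) _
  have h := hP.sum
  rw [three_sumZ' hij hi hj] at h
  rw [hcell i, hcell j, hcell (pos i3), if_pos rfl, if_neg (Ne.symm hi), if_neg (Ne.symm hj)] at h
  have h9 : (9 : ℤ) ∣ dcl p e pos i * x i ^ 3 + dcl p e pos j * x j ^ 3 :=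
    ⟨-(dcl p e pos (pos i3) * x (pos i3) ^ 3), by linear_combination h⟩
  have h4 := wq_of_add h9
  rwa [wq_mul_cube (dcl_ndvd h3 pos i) (hunit hi), wq_mul_cube (dcl_ndvd h3 pos j) (hunit hj),
    wq_dcl h3, wq_dcl h3] at h4

end Pool.Agent.CubeRank
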