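import Pool.Agent.CubeRank.Defs
import Pool.Agent.Lib_helper18.CubStep0

/-!
# (M4) every rational point of `X³ + Y³ = A` comes from the 3-isogenous curve
(MP_8e0b0b_nt; mathematics: helper84; cf. `Lib_helper18/CubStep0.lean`, `FD4.lean`)
-/

set_option autoImplicit false
set_option linter.unusedSectionVars false

namespace Pool.Agent.CubeRank

open Finset Pool.Agent.Lib_helper18 Pool.Agent.Lib_helper18.Eis Pool.Agent.Lib_helper84.Cub
  Pool.Agent.Lib_helper18.CubStep0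

section cases

variable {A x y z : ℤ}

/-- `caseA_data` with the additional information `x + w y = λ η` -/
theorem lift_caseA (hco : IsCoprime x y) (h3z : (3 : ℤ) ∣ z) (hxyz : x ^ 3 + y ^ 3 = A * z ^ 3) :
    ∃ (z1 S' : ℤ) (η : Eis), z = 3 * z1 ∧ Prim η ∧ IsCoprime η (conj η) ∧ η.im = 3 * S' ∧
      (⟨x, y⟩ : Eis) = lam * η ∧ IsCoprime S' η.norm ∧ S' * η.norm = A * z1 ^ 3 := by
  have hcoxy := coprime_sum hco
  have hST : (x + y) * (⟨x, y⟩ : Eis).norm = A * z ^ 3 := by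
    rw [← hxyz, norm_def]; ring
  have hno3 : ¬ ((3 : ℤ) ∣ x ∧ (3 : ℤ) ∣ y) := by
    rintro ⟨h1, h2⟩
    exact Int.prime_three.not_isUnit (hco.isUnit_of_dvd' h1 h2)
  obtain ⟨z1, hz1⟩ := h3z
  have h3S : (3 : ℤ) ∣ x + y := by
    have h1 : (3 : ℤ) ∣ x ^ 3 + y ^ 3 := by
      rw [hxyz, hz1]; exact ⟨A * (9 * z1 ^ 3), by ring⟩
    have h2 : (3 : ℤ) ∣ (x ^ 3 + y ^ 3) - (x + y) := by
      have h4 : ∀ a : ℤ, (3 : ℤ) ∣ a ^ 3 - a := by
        intro a
        have : a % 3 = 0 ∨ a % 3 = 1 ∨ a % 3 = 2 := by omega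
        apply Int.dvd_of_emod_eq_zero
        rcases this with h | h | h <;>
          simp [pow_succ, Int.sub_emod, Int.mul_emod, h]
      have := dvd_add (h4 x) (h4 y)
      have e5 : x ^ 3 - x + (y ^ 3 - y) = (x ^ 3 + y ^ 3) - (x + y) := by ring
      rwa [e5] at this
    have := dvd_sub h1 h2
    simpa using this
  have h3y : ¬ (3 : ℤ) ∣ y := by
    intro h; exact hno3 ⟨by omega, h⟩
  have h3x : ¬ (3 : ℤ) ∣ x := by
    intro h; exact hno3 ⟨h, by omega⟩
  obtain ⟨S0, hS0⟩ := h3S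
  have hT : (⟨x, y⟩ : Eis).norm = 3 * (3 * S0 ^ 2 - x * y) := by
    rw [norm_def]; simp only; linear_combination (x + y + 3 * S0) * hS0
  have h3T' : ¬ (3 : ℤ) ∣ 3 * S0 ^ 2 - x * y := by
    intro h
    have : (3 : ℤ) ∣ x * y := by
      have h4 := dvd_sub (dvd_mul_right (3 : ℤ) (S0 ^ 2)) h
      have e5 : 3 * S0 ^ 2 - (3 * S0 ^ 2 - x * y) = x * y := by ring
      rwa [e5] at h4
    rcases Int.prime_three.dvd_or_dvd this with h | h
    · exact h3x h
    · exact h3y h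
  have hST' : S0 * (3 * S0 ^ 2 - x * y) = 3 * (A * z1 ^ 3) := by
    rw [hT, hS0, hz1] at hST
    have h9 : (9 : ℤ) ≠ 0 := by norm_num
    apply mul_left_cancel₀ h9
    linear_combination hST
  have h3S0 : (3 : ℤ) ∣ S0 := by
    have h4 : (3 : ℤ) ∣ S0 * (3 * S0 ^ 2 - x * y) := ⟨_, hST'⟩
    exact (Int.prime_three.dvd_or_dvd h4).resolve_right h3T'
  obtain ⟨S', hS'⟩ := h3S0
  have hS9 : x + y = 9 * S' := by rw [hS0, hS']; ring
  set η : Eis := ⟨-y + 6 * S', 3 * S'⟩ with hη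
  have hηlam : (⟨x, y⟩ : Eis) = lam * η := by
    ext
    · simp only [hη, mul_re, lam_re, lam_im]; linarith
    · simp only [hη, mul_im, lam_re, lam_im]; ring
  have hηnorm : η.norm = 3 * S0 ^ 2 - x * y := by
    have h4 := congrArg Eis.norm hηlam
    rw [norm_mul, norm_lam, hT] at h4
    linarith
  have hηS : S' * η.norm = A * z1 ^ 3 := by
    rw [hηnorm]
    have h9 : (3 : ℤ) ≠ 0 := by norm_num
    apply mul_left_cancel₀ h9
    rw [← hST', hS']; ring
  have hηprim : Prim η := by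
    refine ⟨⟨S', rfl⟩, ?_⟩
    simp only [hη]; omega
  have hηcop : IsCoprime η (conj η) := by
    apply isCoprime_of_prime_dvd
    · rintro ⟨h, -⟩
      exact hηprim.not_lam_dvd (by rw [h]; exact dvd_zero _)
    · intro l hl h1 h2
      have h4 : l ∣ (⟨x, y⟩ : Eis) := by rw [hηlam]; exact Dvd.dvd.mul_left h1 _
      have h5 : l ∣ conj (⟨x, y⟩ : Eis) := by
        rw [hηlam, map_mul]; exact Dvd.dvd.mul_left h2 _
      have h6 := coprime_xi hco hl h4 h5
      exact hηprim.not_lam_dvd (h6.symm.dvd.trans h1)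
  have hcoS : IsCoprime S' η.norm := by
    have h4 : IsCoprime S' (x * y) := hcoxy.of_isCoprime_of_dvd_left ⟨9, by rw [hS9]; ring⟩
    have h5 : η.norm = S' * (27 * S') + -(x * y) := by rw [hηnorm, hS']; ring
    rw [h5]
    exact (IsCoprime.mul_add_left_right h4.neg_right (27 * S'))
  exact ⟨z1, S', η, hz1, hηprim, hηcop, rfl, hηlam, hcoS, hηS⟩

/-- `caseB_data` with the additional information `η = w (x + w y)` -/
theorem lift_caseB (hco : IsCoprime x y) (h3z : ¬ (3 : ℤ) ∣ z) (hA3 : ¬ (3 : ℤ) ∣ A)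
    (hA1 : A % 9 ≠ 1) (hA8 : A % 9 ≠ 8) (hxyz : x ^ 3 + y ^ 3 = A * z ^ 3) :
    ∃ η : Eis, Prim η ∧ IsCoprime η (conj η) ∧ η + conj η = -((x + y : ℤ) : Eis) ∧
      η = w * (⟨x, y⟩ : Eis) ∧
      IsCoprime (x + y) η.norm ∧ (x + y) * η.norm = A * z ^ 3 := by
  have hcoxy := coprime_sum hco
  have hno3 : ¬ ((3 : ℤ) ∣ x ∧ (3 : ℤ) ∣ y) := by
    rintro ⟨h1, h2⟩
    exact Int.prime_three.not_isUnit (hco.isUnit_of_dvd' h1 h2)
  have h9 : (x ^ 3 % 9 + y ^ 3 % 9) % 9 = (A % 9) * (z ^ 3 % 9) % 9 := by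
    rw [← Int.add_emod, ← Int.mul_emod, hxyz]
  have hz := cube_mod_nine_int h3z
  have hA : A % 9 = 2 ∨ A % 9 = 4 ∨ A % 9 = 5 ∨ A % 9 = 7 := by omega
  have h3x : ¬ (3 : ℤ) ∣ x := by
    intro h
    have h1 := cube_mod_nine_int' h
    have h2 := cube_mod_nine_int (a := y) (fun h' => hno3 ⟨h, h'⟩)
    rw [h1] at h9
    rcases h2 with h2 | h2 <;> rcases hz with hz | hz <;> rcases hA with hA | hA | hA | hA <;>
      rw [h2, hz, hA] at h9 <;> norm_num at h9
  have h3y : ¬ (3 : ℤ) ∣ y := by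
    intro h
    have h1 := cube_mod_nine_int' h
    have h2 := cube_mod_nine_int (a := x) (fun h' => hno3 ⟨h', h⟩)
    rw [h1] at h9
    rcases h2 with h2 | h2 <;> rcases hz with hz | hz <;> rcases hA with hA | hA | hA | hA <;>
      rw [h2, hz, hA] at h9 <;> norm_num at h9
  have h3xy : (3 : ℤ) ∣ x - y := by
    by_contra hne
    have hx' : x % 3 = 1 ∨ x % 3 = 2 := by omega
    have hy' : y % 3 = 1 ∨ y % 3 = 2 := by omega
    have h4 : (3 : ℤ) ∣ x + y := by omega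
    obtain ⟨k, hk⟩ := h4
    have h5 : x ^ 3 + y ^ 3 = 9 * (k * (3 * k ^ 2 - x * y)) := by
      have : x = 3 * k - y := by linarith
      rw [this]; ring
    have h6 : (x ^ 3 + y ^ 3) % 9 = 0 := by rw [h5]; omega
    rw [hxyz, Int.mul_emod] at h6
    rcases hz with hz | hz <;> rcases hA with hA | hA | hA | hA <;>
      rw [hz, hA] at h6 <;> norm_num at h6
  set η : Eis := ⟨-y, x - y⟩ with hη
  have hηw : η = w * (⟨x, y⟩ : Eis) := by
    ext
    · simp only [hη, mul_re, w_re, w_im]; ring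
    · simp only [hη, mul_im, w_re, w_im]; ring
  have hnorm : η.norm = (x + y) * (x + y) + -(3 * (x * y)) := by
    rw [norm_def]; simp only [hη]; ring
  have hprim : Prim η := by
    refine ⟨h3xy, ?_⟩
    simp only [hη]; omega
  refine ⟨η, hprim, ?_, ?_, hηw, ?_, ?_⟩
  · apply isCoprime_of_prime_dvd
    · rintro ⟨h, -⟩
      exact hprim.not_lam_dvd (by rw [h]; exact dvd_zero _)
    · intro l hl h1 h2
      have hlw : ¬ l ∣ w := not_dvd_of_isUnit hl isUnit_w
      have h4 : l ∣ (⟨x, y⟩ : Eis) := by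
        rw [hηw] at h1
        exact (hl.dvd_or_dvd h1).resolve_left hlw
      have h5 : l ∣ conj (⟨x, y⟩ : Eis) := by
        rw [hηw, map_mul, conj_w] at h2
        exact (hl.dvd_or_dvd h2).resolve_left (fun h => hlw (hl.dvd_of_dvd_pow h))
      have h6 := coprime_xi hco hl h4 h5
      exact hprim.not_lam_dvd (h6.symm.dvd.trans h1)
  · ext
    · simp only [hη, add_re, conj_re, neg_re, intCast_re]; ring
    · simp only [hη, add_im, conj_im, neg_im, intCast_im]; ring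
  · have hS3 : IsCoprime (x + y) 3 := by
      rw [isCoprime_comm, Int.prime_three.irreducible.coprime_iff_not_dvd]
      omega
    have h4 : IsCoprime (x + y) (3 * (x * y)) := hS3.mul_right hcoxy
    rw [hnorm]
    exact (IsCoprime.mul_add_left_right h4.neg_right (x + y))
  · rw [← hxyz, hnorm]; ring

end cases

/-- the case `3 ∤ z`, `A = ±1 mod 9` is impossible -/
theorem lift_caseB1 {m : ℕ} {p e : Fin m → ℕ} (hm : 1 ≤ m) (hp : ∀ i, (p i).Prime)
    (hp9 : ∀ i, p i % 9 = 2 ∨ p i % 9 = 5) (he : ∀ i, e i = 1 ∨ e i = 2) {x y z : ℤ}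
    (hco : IsCoprime x y) (h3z : ¬ (3 : ℤ) ∣ z)
    (hA9 : PP p e univ % 9 = 1 ∨ PP p e univ % 9 = 8)
    (hxyz : x ^ 3 + y ^ 3 = PP p e univ * z ^ 3) : False := by
  obtain ⟨η, hηprim, hηcop, hηrel, hcoS, hηS⟩ := caseB1_data hco h3z hA9 hxyz
  obtain ⟨γ, s, t, hγ, hγ3, hS, hzt⟩ := side hp hp9 he hηprim hηcop hcoS hηS
  let i0 : Fin m := ⟨0, by omega⟩
  have hr := hp i0
  have hr3 : p i0 % 3 = 2 := by have := hp9 i0; omega
  have hP := prime_inert hr hr3
  have hrn3 := FData.inert_n3 hr hr3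
  have hdvd : (p i0 : Eis) ∣ w * η + w ^ 2 * conj η := by
    rw [hηrel, dvd_neg]
    have h1 : (p i0 : ℤ) ∣ x + y := by
      rw [hS]
      apply Dvd.dvd.mul_right
      have he0 : e i0 ≠ 0 := by have := he i0; omega
      exact (dvd_pow_self _ he0).trans (dvd_prod_of_mem _ (mem_univ i0))
    have h2 := intCast_dvd_intCast.mpr h1
    rwa [Int.cast_natCast] at h2
  have hnη : ¬ (p i0 : Eis) ∣ η ∧ ¬ (p i0 : Eis) ∣ conj η := by
    have h0 := inert_not_dvd_norm hr hr3 hηcop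
    have h1 : ∀ ξ : Eis, ξ.norm = η.norm → ¬ (p i0 : Eis) ∣ ξ := by
      intro ξ hξ hd
      apply h0
      obtain ⟨c, hc⟩ := hd
      rw [← hξ, hc, norm_mul, norm_natCast]
      exact ⟨p i0 * c.norm, by ring⟩
    exact ⟨h1 _ rfl, h1 _ (norm_conj η)⟩
  have hw1 : ¬ (p i0 : Eis) ∣ w := not_dvd_of_isUnit hP isUnit_w
  have hw2 : ¬ (p i0 : Eis) ∣ w ^ 2 := not_dvd_of_isUnit hP (isUnit_w.pow 2)
  have hγd : ¬ (p i0 : Eis) ∣ γ := fun h => hnη.1 (by
    rw [hγ]; exact Dvd.dvd.pow h (by norm_num))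
  have hγd' : ¬ (p i0 : Eis) ∣ conj γ := fun h => hnη.2 (by
    rw [hγ, map_pow]; exact Dvd.dvd.pow h (by norm_num))
  have hm2 : ¬ (p i0 : Eis) ∣ w ^ 2 * conj η := fun h =>
    (hP.dvd_or_dvd h).elim hw2 hnη.2
  have hc : sym (p i0 : Eis) (w * η) = sym (p i0 : Eis) (w ^ 2 * conj η) := by
    rw [← sym_neg hP hrn3 hm2]
    apply sym_congr
    rw [sub_neg_eq_add]; exact hdvd
  rw [sym_mul hP hrn3 hw1 hnη.1, sym_mul hP hrn3 hw2 hnη.2, hγ, sym_cube hP hrn3 hγd,
    map_pow, sym_cube hP hrn3 hγd', FData.sym_w_pow hP hrn3, FData.sym_w_r hr hr3] at hc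
  have hwq : wq (p i0) = 0 := by
    have h3 : (3 : ZMod 3) = 0 := by decide
    push_cast at hc
    linear_combination hc
  have h9 := hp9 i0
  have h9' : (p i0 : ℤ) % 9 = 2 ∨ (p i0 : ℤ) % 9 = 5 := by omega
  unfold wq at hwq
  rcases h9' with h | h <;> rw [h] at hwq <;> exact absurd hwq (by decide)

/-- **(M4)** -/
theorem lift : LiftStmt := by
  intro m p e hm hyp x y z hz hco hxyz
  have hp := hyp.hp
  have hp9 := hyp.h9
  have he := hyp.he
  have hAA : AA p e = PP p e univ := rfl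
  rw [hAA] at hxyz ⊢
  have hn3 := three_not_dvd_PP (e := e) hp9
  have hxy : ((x : Eis) + w * y) = (⟨x, y⟩ : Eis) := by
    ext
    · simp
    · simp
  rw [hxy]
  by_cases h3z : (3 : ℤ) ∣ z
  · obtain ⟨z1, S, η, hz1, hηprim, hηcop, hηim, hηlam, hcoS, hηS⟩ := lift_caseA hco h3z hxyz
    obtain ⟨γ, s, t, hγ, hγ3, hS, hzt⟩ := side hp hp9 he hηprim hηcop hcoS hηS
    obtain ⟨α, δ⟩ := γ
    have hcoad : IsCoprime α δ := coprime_coords rfl hγ3 (by rw [← hγ]; exact hηcop)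
    have hprod : α * δ * (α - δ) = PP p e univ * s ^ 3 := by
      have h6 := congrArg Eis.im hγ
      simp only [pow_succ, pow_zero, one_mul, mul_im, mul_re] at h6
      rw [hηim] at h6
      rw [← hS]
      linarith
    have hs0 : s ≠ 0 := by
      rintro rfl
      apply hz
      rw [hz1, hzt]; ring
    refine ⟨α, δ, s, 1, 1, hcoad, hs0, one_ne_zero, one_ne_zero, hprod, ?_⟩
    have hαδ : ((α : Eis) + δ * w) = (⟨α, δ⟩ : Eis) := (eq_re_add_im ⟨α, δ⟩).symm
    rw [hαδ, hηlam, hγ]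
  · by_cases hA9 : PP p e univ % 9 = 1 ∨ PP p e univ % 9 = 8
    · exact absurd hxyz (fun h => lift_caseB1 hm hp hp9 he hco h3z hA9 h)
    · have hA1 : PP p e univ % 9 ≠ 1 := fun h => hA9 (Or.inl h)
      have hA8 : PP p e univ % 9 ≠ 8 := fun h => hA9 (Or.inr h)
      obtain ⟨η, hηprim, hηcop, hηsum, hηw, hcoS, hηS⟩ :=
        lift_caseB hco h3z (hn3 _) hA1 hA8 hxyz
      obtain ⟨γ, s, t, hγ, hγ3, hS, hzt⟩ := side hp hp9 he hηprim hηcop hcoS hηS
      have hs0 : s ≠ 0 := by rintro rfl; simp at hzt; exact hz hzt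
      obtain ⟨α, δ⟩ := γ
      have hcoad : IsCoprime α δ := coprime_coords rfl hγ3 (by rw [← hγ]; exact hηcop)
      have hl : ¬ (3 : ℤ) ∣ α + δ := by rw [lam_dvd_iff] at hγ3; exact hγ3
      have hprod : (2 * α - δ) * (-α - δ) * (2 * δ - α) = PP p e univ * (-s) ^ 3 := by
        have h6 := trace_identity α δ
        rw [← map_pow, ← hγ, hηsum, hS] at h6
        have h7 := congrArg Eis.re h6
        simp only [neg_re, intCast_re] at h7
        rw [← h7]; ring
      obtain ⟨c1, -, -⟩ := coord_coprime hcoad hl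
      refine ⟨2 * α - δ, α + δ, -s, -9, 1, ?_, neg_ne_zero.mpr hs0, by norm_num, one_ne_zero,
        ?_, ?_⟩
      · have := c1.neg_right
        rwa [show -(-α - δ) = α + δ by ring] at this
      · rw [← hprod]; ring
      · have e1 : (((2 * α - δ : ℤ) : Eis) + ((α + δ : ℤ) : Eis) * w) =
            (⟨α, δ⟩ : Eis) * (1 - w ^ 2) := by
          rw [w_sq]
          ext
          · simp only [add_re, mul_re, sub_re, neg_re, intCast_re, intCast_im, one_re, w_re, w_im,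
              sub_im, neg_im, one_im]; ring
          · simp only [add_im, mul_im, sub_re, neg_re, intCast_re, intCast_im, one_re, w_re, w_im,
              sub_im, neg_im, one_im]; ring
        have e2 : (lam : Eis) * (1 - w ^ 2) ^ 3 * w = -9 := by
          decide
        have e3 : lam * ((⟨α, δ⟩ : Eis) * (1 - w ^ 2)) ^ 3 =
            lam * (1 - w ^ 2) ^ 3 * (⟨α, δ⟩ : Eis) ^ 3 := by ring
        rw [e1, e3, ← hγ, hηw]
        push_cast
        linear_combination (-(⟨x, y⟩ : Eis)) * e2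

end Pool.Agent.CubeRank
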