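import Pool.Agent.CubeRank.GDefs
import Pool.Agent.CubeRank.Lift
import Pool.Agent.Lib_helper84.Cub.StepThree

/-!
# (G4) every rational point of `X³ + Y³ = A` comes from the 3-isogenous curve, general version:
the prime factors of `A` are 3 or congruent to 2 modulo 3
(MP_8e0b0b_nt; mathematics: helper84; cf. `CubeRank/Lift.lean`, `Lib_helper84/Cub/StepThree.lean`)
-/

set_option autoImplicit false
set_option linter.unusedSectionVars false

namespace Pool.Agent.CubeRank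

open Finset Pool.Agent.Lib_helper18 Pool.Agent.Lib_helper18.Eis Pool.Agent.Lib_helper84.Cub
  Pool.Agent.Lib_helper18.CubStep0

section gcases

variable {m : ℕ} {p e : Fin m → ℕ} {x y z : ℤ}

/-- a prime congruent to 2 or 5 modulo 9 does not divide the norm -/
theorem not_dvd_of_norm {η : Eis} (hηcop : IsCoprime η (conj η)) {q : ℕ} (hr : q.Prime)
    (hr3 : q % 3 = 2) : ∀ ξ : Eis, ξ.norm = η.norm → ¬ (q : Eis) ∣ ξ := by
  have h0 := inert_not_dvd_norm hr hr3 hηcop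
  intro ξ hξ hd
  apply h0
  obtain ⟨c, hc⟩ := hd
  rw [← hξ, hc, norm_mul, norm_natCast]
  exact ⟨q * c.norm, by ring⟩

/-- the case `3 ∤ z`, `A = ±1 mod 9` is impossible -/
theorem glift_caseB1 (hp : ∀ i, (p i).Prime) (h3 : ∀ i, p i % 3 = 2 ∨ p i = 3)
    (he : ∀ i, e i = 1 ∨ e i = 2) {i0 : Fin m} (h9 : p i0 % 9 = 2 ∨ p i0 % 9 = 5)
    (hco : IsCoprime x y) (h3z : ¬ (3 : ℤ) ∣ z)
    (hA9 : PP p e univ % 9 = 1 ∨ PP p e univ % 9 = 8)
    (hxyz : x ^ 3 + y ^ 3 = PP p e univ * z ^ 3) : False := by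
  obtain ⟨η, hηprim, hηcop, hηrel, hcoS, hηS⟩ := caseB1_data hco h3z hA9 hxyz
  obtain ⟨γ, s, t, hγ, hγ3, hS, hzt⟩ := side3 hp h3 he hηprim hηcop hcoS hηS
  have hr := hp i0
  have hr3 : p i0 % 3 = 2 := by omega
  have hP := prime_inert hr hr3
  have hrn3 := FData.inert_n3 hr hr3
  have hdvd : (p i0 : Eis) ∣ w * η + w ^ 2 * conj η := by
    rw [hηrel, dvd_neg]
    have h1 : (p i0 : ℤ) ∣ x + y := by
      rw [hS]
      apply Dvd.dvd.mul_right
      have he0 : e i0 ≠ 0 := by have := he i0; omega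
      exact (dvd_pow_self _ he0).trans (dvd_prod_of_mem (fun j => (p j : ℤ) ^ e j) (mem_univ i0))
    have h2 := intCast_dvd_intCast.mpr h1
    rwa [Int.cast_natCast] at h2
  have hn := not_dvd_of_norm hηcop hr hr3
  have n1 : ¬ (p i0 : Eis) ∣ η := hn _ rfl
  have n2 : ¬ (p i0 : Eis) ∣ conj η := hn _ (norm_conj η)
  have hw1 : ¬ (p i0 : Eis) ∣ w := not_dvd_of_isUnit hP isUnit_w
  have hw2 : ¬ (p i0 : Eis) ∣ w ^ 2 := not_dvd_of_isUnit hP (isUnit_w.pow 2)
  have hγd : ¬ (p i0 : Eis) ∣ γ := fun h => n1 (by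
    rw [hγ]; exact Dvd.dvd.pow h (by norm_num))
  have hγd' : ¬ (p i0 : Eis) ∣ conj γ := fun h => n2 (by
    rw [hγ, map_pow]; exact Dvd.dvd.pow h (by norm_num))
  have hm2 : ¬ (p i0 : Eis) ∣ w ^ 2 * conj η := fun h => (hP.dvd_or_dvd h).elim hw2 n2
  have hc : sym (p i0 : Eis) (w * η) = sym (p i0 : Eis) (w ^ 2 * conj η) := by
    rw [← sym_neg hP hrn3 hm2]
    apply sym_congr
    rw [sub_neg_eq_add]; exact hdvd
  rw [sym_mul hP hrn3 hw1 n1, sym_mul hP hrn3 hw2 n2, hγ, sym_cube hP hrn3 hγd,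
    map_pow, sym_cube hP hrn3 hγd', FData.sym_w_pow hP hrn3, FData.sym_w_r hr hr3] at hc
  have hwq : wq (p i0) = 0 := by
    have h3 : (3 : ZMod 3) = 0 := by decide
    push_cast at hc
    linear_combination hc
  exact wq_ne' h9 hwq

/-- the case `3 ∤ z`, `3 ∣ A` is impossible -/
theorem glift_caseC (hp : ∀ i, (p i).Prime) (h3 : ∀ i, p i % 3 = 2 ∨ p i = 3)
    (hinj : Function.Injective p)
    (he : ∀ i, e i = 1 ∨ e i = 2) {i0 : Fin m} (h9 : p i0 % 9 = 2 ∨ p i0 % 9 = 5)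
    (hco : IsCoprime x y) (h3z : ¬ (3 : ℤ) ∣ z) (h3A : (3 : ℤ) ∣ PP p e univ)
    (hxyz : x ^ 3 + y ^ 3 = PP p e univ * z ^ 3) : False := by
  have hprime : ∀ i, Prime (p i : ℤ) := fun i => Nat.prime_iff_prime_int.mp (hp i)
  have hcf := cube_not_dvd_prod p e hp hinj (fun i => by have := he i; omega) univ
  -- 9 divides A
  have h9A : (9 : ℤ) ∣ PP p e univ := by
    have h3s : (3 : ℤ) ∣ x ^ 3 + y ^ 3 := by rw [hxyz]; exact Dvd.dvd.mul_right h3A _
    have h3xy : (3 : ℤ) ∣ x + y := by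
      have e1 : x ^ 3 + y ^ 3 = (x + y) ^ 3 - 3 * (x * y * (x + y)) := by ring
      rw [e1] at h3s
      have h4 := dvd_add h3s (dvd_mul_right (3 : ℤ) (x * y * (x + y)))
      rw [sub_add_cancel] at h4
      exact Int.prime_three.dvd_of_dvd_pow h4
    obtain ⟨k, hk⟩ := h3xy
    have h9s : (9 : ℤ) ∣ PP p e univ * z ^ 3 := by
      rw [← hxyz]
      exact ⟨k * (3 * k ^ 2 - x * y), by
        have : x = 3 * k - y := by linarith
        rw [this]; ring⟩
    have h5 : (3 : ℤ) ^ 2 ∣ PP p e univ * z ^ 3 := by norm_num; exact h9s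
    have h6 := Int.prime_three.pow_dvd_of_dvd_mul_right 2
      (fun h => h3z (Int.prime_three.dvd_of_dvd_pow h)) h5
    norm_num at h6
    exact h6
  obtain ⟨B, hB⟩ := h9A
  have h3B : ¬ (3 : ℤ) ∣ B := by
    rintro ⟨B', hB'⟩
    apply hcf 3 Int.prime_three
    refine ⟨B', ?_⟩
    change PP p e univ = _
    rw [hB, hB']; ring
  obtain ⟨S0, η, hnl, hηcop, hηim, hηdiff, hcoS, hηS⟩ := caseC_data hco (B := B)
    (by rw [← hB]; exact hxyz)
  have hS3 : ¬ (3 : ℤ) ∣ S0 := by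
    intro h
    have h1 : (3 : ℤ) ∣ B * z ^ 3 := by rw [← hηS]; exact Dvd.dvd.mul_right h _
    rcases Int.prime_three.dvd_or_dvd h1 with h | h
    · exact h3B h
    · exact h3z (Int.prime_three.dvd_of_dvd_pow h)
  have hr := hp i0
  have hr3 : p i0 % 3 = 2 := by omega
  have hP := prime_inert hr hr3
  have hrn3 := FData.inert_n3 hr hr3
  have he0 : e i0 ≠ 0 := by have := he i0; omega
  obtain ⟨i, hi⟩ := exists_prim hnl
  -- all primes divide `S0`
  have hηη : IsCoprime (η * w ^ i) (conj (η * w ^ i)) := by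
    have hu1 : IsUnit (w ^ i) := isUnit_w.pow i
    have hu2 : IsUnit (conj (w ^ i)) := by
      rw [map_pow, conj_w]; exact (isUnit_w.pow 2).pow i
    rw [map_mul]
    rw [isCoprime_mul_unit_right_left hu1, isCoprime_mul_unit_right_right hu2]
    exact hηcop
  have hnorm : (η * w ^ i).norm = η.norm := by
    rw [norm_mul, Eis.norm_pow]
    have : w.norm = 1 := by decide
    rw [this, one_pow, mul_one]
  have hcoS' : IsCoprime (9 * S0) (η * w ^ i).norm := by rw [hnorm]; exact hcoS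
  obtain ⟨γ, s, t, hγ, hγ3, hS, -⟩ := side3 hp h3 he hi hηη hcoS' (z := z) (by
    rw [hnorm, hB]; linear_combination 9 * hηS)
  have hdS : (p i0 : ℤ) ∣ S0 := by
    have h1 : (p i0 : ℤ) ∣ 9 * S0 := by
      rw [hS]
      apply Dvd.dvd.mul_right
      exact (dvd_pow_self _ he0).trans (dvd_prod_of_mem (fun j => (p j : ℤ) ^ e j) (mem_univ i0))
    exact ((hprime i0).dvd_or_dvd h1).resolve_left (ndvd9' hr hr3)
  have hdvd : (p i0 : Eis) ∣ η - conj η := by
    rw [hηdiff]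
    apply Dvd.dvd.mul_left
    have h2 := intCast_dvd_intCast.mpr hdS
    rwa [Int.cast_natCast] at h2
  have hnη := not_dvd_of_norm hηcop hr hr3
  have n1 := hnη η rfl
  have n2 := hnη (conj η) (norm_conj η)
  have hwi : ¬ (p i0 : Eis) ∣ w ^ i := fun h => not_dvd_w hP (hP.dvd_of_dvd_pow h)
  have hγd : ¬ (p i0 : Eis) ∣ γ := fun h => by
    have h1 : (p i0 : Eis) ∣ η * w ^ i := by rw [hγ]; exact Dvd.dvd.pow h (by norm_num)
    exact (hP.dvd_or_dvd h1).elim n1 hwi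
  have hs1 : sym (p i0 : Eis) η + (i : ZMod 3) * sym (p i0 : Eis) w = 0 := by
    have h1 : sym (p i0 : Eis) (η * w ^ i) = 0 := by rw [hγ]; exact sym_cube hP hrn3 hγd
    rwa [sym_mul hP hrn3 n1 hwi, FData.sym_w_pow hP hrn3] at h1
  have hs2 := sym_congr hdvd
  have hs3 := sym_conj hP hrn3 n1
  rw [conj_natCast] at hs3
  have hwne : sym (p i0 : Eis) w ≠ 0 := by
    rw [FData.sym_w_r hr hr3]
    exact neg_ne_zero.mpr (wq_ne' h9)
  have hi3 : (i : ZMod 3) = 0 := by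
    have key : ∀ a b c d : ZMod 3, a + d * b = 0 → a = c → c = -a → b ≠ 0 → d = 0 := by decide
    exact key _ _ _ _ hs1 hs2 hs3 hwne
  have hi3' : 3 ∣ i := (ZMod.natCast_eq_zero_iff i 3).mp hi3
  obtain ⟨k, rfl⟩ := hi3'
  rw [pow_mul, w_cube, one_pow, mul_one] at hi
  exact hS3 (by rw [← hηim]; exact hi.1)

end gcases

/-- **(G4)** -/
theorem liftG : LiftStmtG := by
  intro m p e hyp x y z hz hco hxyz
  have hp := hyp.hp
  have h3 := hyp.h3
  have he := hyp.he
  obtain ⟨i0, h9⟩ := hyp.ex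
  have hAA : AA p e = PP p e univ := rfl
  rw [hAA] at hxyz ⊢
  have hxy : ((x : Eis) + w * y) = (⟨x, y⟩ : Eis) := by
    ext
    · simp
    · simp
  rw [hxy]
  by_cases h3z : (3 : ℤ) ∣ z
  · obtain ⟨z1, S, η, hz1, hηprim, hηcop, hηim, hηlam, hcoS, hηS⟩ := lift_caseA hco h3z hxyz
    obtain ⟨γ, s, t, hγ, hγ3, hS, hzt⟩ := side3 hp h3 he hηprim hηcop hcoS hηS
    obtain ⟨α, δ⟩ := γ
    have hcoad : IsCoprime α δ := coprime_coords rfl hγ3 (by rw [← hγ]; exact hηcop)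
    have hprod : α * δ * (α - δ) = PP p e univ * s ^ 3 := by
      have h6 := congrArg Eis.im hγ
      simp only [pow_succ, pow_zero, one_mul, mul_im, mul_re] at h6
      rw [hηim] at h6
      rw [← hS]
      linarith
    have hs0 : s ≠ 0 := by
      rintro rfl
      apply hz
      rw [hz1, hzt]; ring
    refine ⟨α, δ, s, 1, 1, hcoad, hs0, one_ne_zero, one_ne_zero, hprod, ?_⟩
    have hαδ : ((α : Eis) + δ * w) = (⟨α, δ⟩ : Eis) := (eq_re_add_im ⟨α, δ⟩).symm
    rw [hαδ, hηlam, hγ]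
  · by_cases h3A : (3 : ℤ) ∣ PP p e univ
    · exact absurd hxyz (fun h => glift_caseC hp h3 hyp.inj he h9 hco h3z h3A h)
    by_cases hA9 : PP p e univ % 9 = 1 ∨ PP p e univ % 9 = 8
    · exact absurd hxyz (fun h => glift_caseB1 hp h3 he h9 hco h3z hA9 h)
    · have hA1 : PP p e univ % 9 ≠ 1 := fun h => hA9 (Or.inl h)
      have hA8 : PP p e univ % 9 ≠ 8 := fun h => hA9 (Or.inr h)
      obtain ⟨η, hηprim, hηcop, hηsum, hηw, hcoS, hηS⟩ :=
        lift_caseB hco h3z h3A hA1 hA8 hxyz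
      obtain ⟨γ, s, t, hγ, hγ3, hS, hzt⟩ := side3 hp h3 he hηprim hηcop hcoS hηS
      have hs0 : s ≠ 0 := by rintro rfl; simp at hzt; exact hz hzt
      obtain ⟨α, δ⟩ := γ
      have hcoad : IsCoprime α δ := coprime_coords rfl hγ3 (by rw [← hγ]; exact hηcop)
      have hl : ¬ (3 : ℤ) ∣ α + δ := by rw [lam_dvd_iff] at hγ3; exact hγ3
      have hprod : (2 * α - δ) * (-α - δ) * (2 * δ - α) = PP p e univ * (-s) ^ 3 := by
        have h6 := trace_identity α δ
        rw [← map_pow, ← hγ, hηsum, hS] at h6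
        have h7 := congrArg Eis.re h6
        simp only [neg_re, intCast_re] at h7
        rw [← h7]; ring
      obtain ⟨c1, -, -⟩ := coord_coprime hcoad hl
      refine ⟨2 * α - δ, α + δ, -s, -9, 1, ?_, neg_ne_zero.mpr hs0, by norm_num, one_ne_zero,
        ?_, ?_⟩
      · have := c1.neg_right
        rwa [show -(-α - δ) = α + δ by ring] at this
      · rw [← hprod]; ring
      · have e1 : (((2 * α - δ : ℤ) : Eis) + ((α + δ : ℤ) : Eis) * w) =
            (⟨α, δ⟩ : Eis) * (1 - w ^ 2) := by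
          rw [w_sq]
          ext
          · simp only [add_re, mul_re, sub_re, neg_re, intCast_re, intCast_im, one_re, w_re, w_im,
              sub_im, neg_im, one_im]; ring
          · simp only [add_im, mul_im, sub_re, neg_re, intCast_re, intCast_im, one_re, w_re, w_im,
              sub_im, neg_im, one_im]; ring
        have e2 : (lam : Eis) * (1 - w ^ 2) ^ 3 * w = -9 := by
          decide
        have e3 : lam * ((⟨α, δ⟩ : Eis) * (1 - w ^ 2)) ^ 3 =
            lam * (1 - w ^ 2) ^ 3 * (⟨α, δ⟩ : Eis) ^ 3 := by ring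
        rw [e1, e3, ← hγ, hηw]
        push_cast
        linear_combination (-(⟨x, y⟩ : Eis)) * e2

end Pool.Agent.CubeRank
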