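import Pool.Agent.CubeRank.Defs

/-!
# Growth of the coordinates under tripling (M3b)
(MP_8e0b0b_nt; mathematics: helper84; formalisation: helper65)
-/

set_option autoImplicit false

namespace Pool.Agent.CubeRank

/-- the greatest common divisor of the tripling polynomials divides 9 -/
theorem dvd_nine {a b g : ℤ} (hab : IsCoprime a b) (h1 : g ∣ TX a b) (h2 : g ∣ TY a b) :
    g ∣ 9 := by
  have e1 : 9 * a ^ 15 = 9 * (a ^ 6 + 2 * a ^ 3 * b ^ 3) * TX a b -
      (8 * a ^ 6 + 7 * a ^ 3 * b ^ 3 - 2 * b ^ 6) * (TX a b + TY a b) := by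
    unfold TX TY; ring
  have e2 : 9 * b ^ 15 = 9 * (b ^ 6 + 2 * a ^ 3 * b ^ 3) * TY a b -
      (8 * b ^ 6 + 7 * a ^ 3 * b ^ 3 - 2 * a ^ 6) * (TX a b + TY a b) := by
    unfold TX TY; ring
  have d1 : g ∣ 9 * a ^ 15 := by
    rw [e1]
    exact dvd_sub (Dvd.dvd.mul_left h1 _) (Dvd.dvd.mul_left (dvd_add h1 h2) _)
  have d2 : g ∣ 9 * b ^ 15 := by
    rw [e2]
    exact dvd_sub (Dvd.dvd.mul_left h2 _) (Dvd.dvd.mul_left (dvd_add h1 h2) _)
  obtain ⟨u, v, huv⟩ : IsCoprime (a ^ 15) (b ^ 15) := hab.pow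
  have e3 : (9 : ℤ) = u * (9 * a ^ 15) + v * (9 * b ^ 15) := by
    linear_combination (-9 : ℤ) * huv
  rw [e3]
  exact dvd_add (Dvd.dvd.mul_left d1 _) (Dvd.dvd.mul_left d2 _)

/-- (M3b) growth of the coordinates under tripling -/
theorem growth (h : TripleStmt) : GrowthStmt := by
  intro A hA hcube P a b c a' b' c' hP hP3
  obtain ⟨x, y, hns, h3, hx, hy⟩ := h A hA hcube P a b c hP
  obtain ⟨hc0', hcop', heq', x', y', hns', h3', hx', hy'⟩ := hP3
  obtain ⟨-, hcop, -, -⟩ := hP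
  have hxy : x' = x ∧ y' = y := by
    rw [h3] at h3'
    injection h3' with e1 e2
    exact ⟨e1.symm, e2.symm⟩
  obtain ⟨rfl, rfl⟩ := hxy
  have hAq : (A : ℚ) ≠ 0 := by exact_mod_cast hA
  have hs' : a' + b' ≠ 0 := by
    intro h0
    have h1 : a' ^ 3 + b' ^ 3 = 0 := by
      have : a' ^ 3 + b' ^ 3 = (a' + b') * (a' ^ 2 - a' * b' + b' ^ 2) := by ring
      rw [this, h0, zero_mul]
    rw [h1] at heq'
    exact (mul_ne_zero hA (pow_ne_zero 3 hc0')) heq'.symm
  have k1 : TX a b * b' = TY a b * a' := by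
    have : (36 * (A : ℚ)) * (2 * (TX a b * b' - TY a b * a')) = 0 := by
      linear_combination ((a' : ℚ) + b') * (-hy) + ((TX a b : ℚ) + TY a b) * hy'
    have h2 : (2 : ℚ) * (TX a b * b' - TY a b * a') = 0 :=
      (mul_eq_zero.1 this).resolve_left (mul_ne_zero (by norm_num) hAq)
    have h3 : (TX a b : ℚ) * b' = TY a b * a' := by linarith
    exact_mod_cast h3
  have k2 : TZ a b c * (a' + b') = c' * (TX a b + TY a b) := by
    have : (12 * (A : ℚ)) * (TZ a b c * (a' + b') - c' * (TX a b + TY a b)) = 0 := by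
      linear_combination ((a' : ℚ) + b') * (-hx) + ((TX a b : ℚ) + TY a b) * hx'
    have h2 := (mul_eq_zero.1 this).resolve_left (mul_ne_zero (by norm_num) hAq)
    have h3 : (TZ a b c : ℚ) * (a' + b') = c' * (TX a b + TY a b) := by linarith
    exact_mod_cast h3
  obtain ⟨u, v, huv⟩ := hcop'
  set g : ℤ := u * TX a b + v * TY a b with hg
  have g1 : TX a b = g * a' := by
    rw [hg]
    linear_combination (-TX a b) * huv + v * k1
  have g2 : TY a b = g * b' := by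
    rw [hg]
    linear_combination (-TY a b) * huv - u * k1
  have g3 : TZ a b c = g * c' := by
    have : (TZ a b c - g * c') * (a' + b') = 0 := by
      rw [g1, g2] at k2
      linear_combination k2
    have := (mul_eq_zero.1 this).resolve_right hs'
    linarith
  have g9 : g ∣ 9 := dvd_nine hcop ⟨a', g1⟩ ⟨b', g2⟩
  have hg9 : |g| ≤ 9 := by
    have := Int.le_of_dvd (by norm_num) ((abs_dvd g 9).2 g9)
    exact this
  have hq : 0 ≤ a ^ 6 + a ^ 3 * b ^ 3 + b ^ 6 := by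
    nlinarith [sq_nonneg (a ^ 3 + b ^ 3), sq_nonneg (a ^ 3), sq_nonneg (b ^ 3)]
  have hTZ : |TZ a b c| = 3 * (|a * b * c| * (a ^ 6 + a ^ 3 * b ^ 3 + b ^ 6)) := by
    have : TZ a b c = 3 * ((a * b * c) * (a ^ 6 + a ^ 3 * b ^ 3 + b ^ 6)) := by
      unfold TZ; ring
    rw [this, abs_mul, abs_mul, abs_of_nonneg hq]
    norm_num
  have h9 : |TZ a b c| ≤ 9 * |c'| := by
    rw [g3, abs_mul]
    exact mul_le_mul_of_nonneg_right hg9 (abs_nonneg _)
  linarith

end Pool.Agent.CubeRank
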