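import Pool.Agent.CubeRank.Defs

/-!
# Every point has a class (module KAPEX, by helper56)
-/

set_option autoImplicit false

namespace Pool.Agent.CubeRank

open Pool.Agent.Lib_helper18 Pool.Agent.Lib_helper18.Eis Pool.Agent.Lib_helper84.Cub

theorem AA_ne_zero {m : ℕ} {p e : Fin m → ℕ} (h : Hyp p e) : AA p e ≠ 0 := by
  refine Finset.prod_ne_zero_iff.mpr fun i _ => pow_ne_zero _ ?_
  exact_mod_cast (h.hp i).ne_zero

theorem Hyp.mod3 {m : ℕ} {p e : Fin m → ℕ} (h : Hyp p e) (i : Fin m) : p i % 3 = 2 := by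
  have := h.h9 i; omega

theorem Hyp.dvd_AA {m : ℕ} {p e : Fin m → ℕ} (h : Hyp p e) (i : Fin m) : (p i : ℤ) ∣ AA p e := by
  have h1 : (p i : ℤ) ^ e i ∣ AA p e := Finset.dvd_prod_of_mem _ (Finset.mem_univ i)
  refine (dvd_pow_self _ ?_).trans h1
  have := h.he i; omega

/-- a product of primes with exponents at most 2 is cube free -/
theorem cubeFree_AA {m : ℕ} {p e : Fin m → ℕ} (h : Hyp p e) : CubeFree (AA p e) := by
  intro q hq hdvd
  have hqA : q ∣ AA p e := (dvd_pow_self q (by norm_num)).trans hdvd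
  obtain ⟨i, -, hi⟩ := (Prime.dvd_finsetProd_iff hq _).mp hqA
  have hi' : q ∣ (p i : ℤ) := hq.dvd_of_dvd_pow hi
  have hass : Associated q (p i : ℤ) :=
    (Prime.dvd_prime_iff_associated hq (Nat.prime_iff_prime_int.mp (h.hp i))).mp hi'
  have hdvd' : (p i : ℤ) ^ 3 ∣ AA p e := (hass.pow_pow (n := 3)).symm.dvd.trans hdvd
  have hsplit : AA p e = (p i : ℤ) ^ e i * ∏ j ∈ Finset.univ.erase i, (p j : ℤ) ^ e j :=
    (Finset.mul_prod_erase _ _ (Finset.mem_univ i)).symm
  rw [hsplit] at hdvd'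
  have hcop : IsCoprime ((p i : ℤ) ^ 3) (∏ j ∈ Finset.univ.erase i, (p j : ℤ) ^ e j) := by
    refine IsCoprime.prod_right fun j hj => ?_
    refine IsCoprime.pow ?_
    rw [Nat.isCoprime_iff_coprime, Nat.coprime_primes (h.hp i) (h.hp j)]
    intro hpp
    exact (Finset.ne_of_mem_erase hj) (h.inj hpp).symm
  have h3 : (p i : ℤ) ^ 3 ∣ (p i : ℤ) ^ e i := hcop.dvd_of_dvd_mul_right hdvd'
  have h4 : (p i) ^ 3 ∣ (p i) ^ e i := by exact_mod_cast h3
  have h5 := (Nat.pow_dvd_pow_iff_le_right (h.hp i).one_lt).mp h4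
  have := h.he i
  omega

theorem kapEx (h1 : BasicsStmt) (h2 : LiftStmt) : KapExStmt := by
  intro m p e hm h P
  by_cases hP : P = 0
  · exact ⟨0, Or.inl ⟨hP, 0, fun _ => rfl⟩⟩
  obtain ⟨a, b, c, hcrd⟩ := (h1 (AA p e) (AA_ne_zero h)).1 (cubeFree_AA h) P hP
  obtain ⟨al, de, s, t1, t2, hcop, hs, ht1, ht2, hprod, heq⟩ :=
    h2 m p e hm h a b c hcrd.1 hcrd.2.1 hcrd.2.2.1
  have key : ∀ i, ∃ v : ZMod 3, ¬ (p i : Eis) ∣ ((al : Eis) + de * w) ∧
      sym (p i : Eis) ((al : Eis) + de * w) = v * sym (p i : Eis) w := by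
    intro i
    have hm3 := h.mod3 i
    have hPi := prime_inert (h.hp i) hm3
    have hn3 := n3 (h.hp i) hm3
    have hpz : Prime (p i : ℤ) := Nat.prime_iff_prime_int.mp (h.hp i)
    have hnd : ¬ (p i : Eis) ∣ ((al : Eis) + de * w) := by
      rw [natCast_dvd_iff]
      simp only [add_re, intCast_re, mul_re, w_re, intCast_im, w_im, add_im, mul_im]
      rintro ⟨ha, hb⟩
      have ha' : (p i : ℤ) ∣ al := by simpa using ha
      have hb' : (p i : ℤ) ∣ de := by simpa using hb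
      exact hpz.not_isUnit (hcop.isUnit_of_dvd' ha' hb')
    have hdv : (p i : ℤ) ∣ al * de * (al - de) := by
      rw [hprod]; exact (h.dvd_AA i).mul_right _
    have hw := not_dvd_w hPi
    have castdvd : ∀ n : ℤ, (p i : ℤ) ∣ n → (p i : Eis) ∣ (n : Eis) := by
      intro n hn
      have : ((p i : ℤ) : Eis) ∣ (n : Eis) := intCast_dvd_intCast.mpr hn
      simpa using this
    have castnd : ∀ n : ℤ, ¬ (p i : ℤ) ∣ n → ¬ (p i : Eis) ∣ (n : Eis) := by
      intro n hn h'
      have : ((p i : ℤ) : Eis) ∣ (n : Eis) := by simpa using h'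
      exact hn (intCast_dvd_intCast.mp this)
    by_cases hde : (p i : ℤ) ∣ de
    · -- `γ ≡ al`
      have hal : ¬ (p i : ℤ) ∣ al := fun h' => hpz.not_isUnit (hcop.isUnit_of_dvd' h' hde)
      refine ⟨0, hnd, ?_⟩
      have hc : (p i : Eis) ∣ ((al : Eis) + de * w) - (al : Eis) := by
        have : ((al : Eis) + de * w) - (al : Eis) = de * w := by ring
        rw [this]; exact (castdvd de hde).mul_right _
      rw [sym_congr hc, sym_int (h.hp i) hm3 hal, zero_mul]
    by_cases hal : (p i : ℤ) ∣ al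
    · refine ⟨1, hnd, ?_⟩
      have hc : (p i : Eis) ∣ ((al : Eis) + de * w) - (de : Eis) * w := by
        have : ((al : Eis) + de * w) - (de : Eis) * w = al := by ring
        rw [this]; exact castdvd al hal
      rw [sym_congr hc, sym_mul hPi hn3 (castnd de hde) hw, sym_int (h.hp i) hm3 hde, zero_add,
        one_mul]
    · have hsub : (p i : ℤ) ∣ al - de := by
        rcases hpz.dvd_or_dvd hdv with h' | h'
        · rcases hpz.dvd_or_dvd h' with h'' | h''
          · exact absurd h'' hal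
          · exact absurd h'' hde
        · exact h'
      refine ⟨2, hnd, ?_⟩
      have hc : (p i : Eis) ∣ ((al : Eis) + de * w) - ((-al : ℤ) : Eis) * w ^ 2 := by
        have : ((al : Eis) + de * w) - ((-al : ℤ) : Eis) * w ^ 2 = -((al - de : ℤ) : Eis) * w := by
          rw [w_sq]; push_cast; ring
        rw [this]; exact ((dvd_neg.mpr (castdvd _ hsub))).mul_right _
      have hal' : ¬ (p i : ℤ) ∣ -al := by rwa [dvd_neg]
      have hw2 : ¬ (p i : Eis) ∣ w ^ 2 := fun h' => hw (hPi.dvd_of_dvd_pow h')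
      rw [sym_congr hc, sym_mul hPi hn3 (castnd _ hal') hw2, sym_int (h.hp i) hm3 hal', zero_add,
        sym_pow hPi hn3 hw]
      push_cast; ring
  choose v hv using key
  exact ⟨v, Or.inr ⟨a, b, c, (al : Eis) + de * w, t1, t2, hcrd, ht1, ht2, heq, hv⟩⟩

end Pool.Agent.CubeRank
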