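import Pool.Agent.CubeRank.Defs

/-!
# Tripling on `X³ + Y³ = A Z³` (module M3 of CubeRank, MP_8e0b0b_nt)
-/

set_option autoImplicit false

namespace Pool.Agent.CubeRank.Triple

open Pool.Agent.CubeRank

open WeierstrassCurve.Affine

variable {A : ℤ}

lemma EA_negY (x y : ℚ) : (EA A).toAffine.negY x y = -y := by
  simp [WeierstrassCurve.Affine.negY, EA]

lemma EA_addX (x₁ x₂ l : ℚ) : (EA A).toAffine.addX x₁ x₂ l = l ^ 2 - x₁ - x₂ := by
  simp [WeierstrassCurve.Affine.addX, EA]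

lemma EA_addY (x₁ x₂ y l : ℚ) : (EA A).toAffine.addY x₁ x₂ y l =
    -(l * (l ^ 2 - x₁ - x₂ - x₁) + y) := by
  simp [WeierstrassCurve.Affine.addY, WeierstrassCurve.Affine.negAddY,
    WeierstrassCurve.Affine.addX, WeierstrassCurve.Affine.negY, EA]

lemma EA_slope_self {x y : ℚ} (hy : y ≠ -y) :
    (EA A).toAffine.slope x x y y = 3 * x ^ 2 / (2 * y) := by
  rw [WeierstrassCurve.Affine.slope_of_Y_ne rfl (by rw [EA_negY]; exact hy), EA_negY]
  simp only [EA]
  ring

/-- doubling -/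
lemma double {x y : ℚ} (h : (EA A).toAffine.Nonsingular x y) (hy : y ≠ 0) (l x2 y2 : ℚ)
    (hl : l * (2 * y) = 3 * x ^ 2) (hx2 : x2 = l ^ 2 - x - x) (hy2 : y2 = -(l * (x2 - x) + y)) :
    ∃ h2 : (EA A).toAffine.Nonsingular x2 y2,
      Point.some x y h + Point.some x y h = Point.some x2 y2 h2 := by
  have hyy : y ≠ -y := fun e => hy (by linarith)
  have hne : y ≠ (EA A).toAffine.negY x y := by rw [EA_negY]; exact hyy
  have hsl : (EA A).toAffine.slope x x y y = l := by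
    rw [EA_slope_self hyy, div_eq_iff (by simpa using hy), hl]
  have h1 := Point.add_self_of_Y_ne (h₁ := h) hne
  have hX : (EA A).toAffine.addX x x ((EA A).toAffine.slope x x y y) = x2 := by
    rw [hsl, EA_addX, hx2]
  have hY : (EA A).toAffine.addY x x y ((EA A).toAffine.slope x x y y) = y2 := by
    rw [hsl, EA_addY, hy2, hx2]
  refine ⟨hX ▸ hY ▸ nonsingular_add h h (fun hxy => hne hxy.2), ?_⟩
  rw [h1]
  congr 1

/-- chord -/
lemma chord {x y x' y' : ℚ} (h : (EA A).toAffine.Nonsingular x y)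
    (h' : (EA A).toAffine.Nonsingular x' y') (hx : x ≠ x') (l x2 y2 : ℚ)
    (hl : l * (x - x') = y - y') (hx2 : x2 = l ^ 2 - x - x') (hy2 : y2 = -(l * (x2 - x) + y)) :
    ∃ h2 : (EA A).toAffine.Nonsingular x2 y2,
      Point.some x y h + Point.some x' y' h' = Point.some x2 y2 h2 := by
  have hsl : (EA A).toAffine.slope x x' y y' = l := by
    rw [WeierstrassCurve.Affine.slope_of_X_ne hx, div_eq_iff (sub_ne_zero.2 hx), hl]
  have h1 := Point.add_of_X_ne (h₁ := h) (h₂ := h') hx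
  have hX : (EA A).toAffine.addX x x' ((EA A).toAffine.slope x x' y y') = x2 := by
    rw [hsl, EA_addX, hx2]
  have hY : (EA A).toAffine.addY x x' y ((EA A).toAffine.slope x x' y y') = y2 := by
    rw [hsl, EA_addY, hy2, hx2]
  refine ⟨hX ▸ hY ▸ nonsingular_add h h' (fun hxy => hx hxy.1), ?_⟩
  rw [h1]
  congr 1

end Pool.Agent.CubeRank.Triple

namespace Pool.Agent.CubeRank

open Pool.Agent.CubeRank.Triple WeierstrassCurve.Affine

theorem triple : TripleStmt := by
  intro A hA hcube P a b c hP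
  obtain ⟨hc, hab, hE, x, y, h, rfl, hx, hy⟩ := hP
  have ha : a ≠ 0 := by
    rintro rfl
    have hb : IsUnit b := isCoprime_zero_left.1 hab
    rcases Int.isUnit_iff.1 hb with rfl | rfl
    · have : IsUnit (c ^ 3) := isUnit_of_dvd_one ⟨A, by linarith⟩
      have hcu : IsUnit c := (isUnit_pow_iff (by norm_num)).1 this
      rcases Int.isUnit_iff.1 hcu with rfl | rfl
      · exact hcube ⟨1, by linarith⟩
      · exact hcube ⟨-1, by linarith⟩
    · have : IsUnit (c ^ 3) := isUnit_of_dvd_one ⟨-A, by linarith⟩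
      have hcu : IsUnit c := (isUnit_pow_iff (by norm_num)).1 this
      rcases Int.isUnit_iff.1 hcu with rfl | rfl
      · exact hcube ⟨-1, by linarith⟩
      · exact hcube ⟨1, by linarith⟩
  have hb : b ≠ 0 := by
    rintro rfl
    have ha : IsUnit a := isCoprime_zero_right.1 hab
    rcases Int.isUnit_iff.1 ha with rfl | rfl
    · have : IsUnit (c ^ 3) := isUnit_of_dvd_one ⟨A, by linarith⟩
      have hcu : IsUnit c := (isUnit_pow_iff (by norm_num)).1 this
      rcases Int.isUnit_iff.1 hcu with rfl | rfl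
      · exact hcube ⟨1, by linarith⟩
      · exact hcube ⟨-1, by linarith⟩
    · have : IsUnit (c ^ 3) := isUnit_of_dvd_one ⟨-A, by linarith⟩
      have hcu : IsUnit c := (isUnit_pow_iff (by norm_num)).1 this
      rcases Int.isUnit_iff.1 hcu with rfl | rfl
      · exact hcube ⟨-1, by linarith⟩
      · exact hcube ⟨1, by linarith⟩
  have hsum : a + b ≠ 0 := by
    intro e
    have h0 : a ^ 3 + b ^ 3 = 0 := by
      have : a = -b := by linarith
      rw [this]; ring
    rw [h0] at hE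
    rcases mul_eq_zero.1 hE.symm with h1 | h1
    · exact hA h1
    · exact hc (pow_eq_zero_iff (by norm_num) |>.1 h1)
  -- pass to the rationals
  have hcQ : (c : ℚ) ≠ 0 := by exact_mod_cast hc
  have haQ : (a : ℚ) ≠ 0 := by exact_mod_cast ha
  have hbQ : (b : ℚ) ≠ 0 := by exact_mod_cast hb
  have hsQ : (a : ℚ) + b ≠ 0 := by exact_mod_cast hsum
  have hEQ : (a : ℚ) ^ 3 + (b : ℚ) ^ 3 = A * (c : ℚ) ^ 3 := by exact_mod_cast hE
  have hAQ : (A : ℚ) = ((a : ℚ) + b) * ((a : ℚ) ^ 2 - a * b + b ^ 2) / (c : ℚ) ^ 3 := by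
    rw [eq_div_iff (pow_ne_zero _ hcQ), ← hEQ]; ring
  have hn : (a : ℚ) ^ 2 - a * b + b ^ 2 ≠ 0 := by
    intro e
    have : (A : ℚ) = 0 := by rw [hAQ, e]; simp
    exact hA (by exact_mod_cast this)
  set a' : ℚ := (a : ℚ) with ha'
  set b' : ℚ := (b : ℚ) with hb'
  set c' : ℚ := (c : ℚ) with hc'
  have hxv : x = 12 * (a' ^ 2 - a' * b' + b' ^ 2) / c' ^ 2 := by
    rw [eq_div_iff (pow_ne_zero _ hcQ)]
    apply mul_right_cancel₀ hsQ
    have : x * c' ^ 2 * (a' + b') = (x * (a' + b')) * c' ^ 2 := by ring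
    rw [this, hx, hAQ]
    field_simp
  have hyv : y = 36 * (a' ^ 2 - a' * b' + b' ^ 2) * (a' - b') / c' ^ 3 := by
    rw [eq_div_iff (pow_ne_zero _ hcQ)]
    apply mul_right_cancel₀ hsQ
    have : y * c' ^ 3 * (a' + b') = (y * (a' + b')) * c' ^ 3 := by ring
    rw [this, hy, hAQ]
    field_simp
  have hTX : ((TX a b : ℤ) : ℚ) = a' ^ 9 + 6 * a' ^ 6 * b' ^ 3 + 3 * a' ^ 3 * b' ^ 6 - b' ^ 9 := by
    simp only [TX]; push_cast; ring
  have hTY : ((TY a b : ℤ) : ℚ) = -a' ^ 9 + 3 * a' ^ 6 * b' ^ 3 + 6 * a' ^ 3 * b' ^ 6 + b' ^ 9 := by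
    simp only [TY]; push_cast; ring
  have hTZ : ((TZ a b c : ℤ) : ℚ) =
      3 * a' * b' * c' * (a' ^ 6 + a' ^ 3 * b' ^ 3 + b' ^ 6) := by
    simp only [TZ]; push_cast; ring
  rw [hTX, hTY, hTZ]
  have h3 : (3 : ℕ) • (Point.some x y h : GA A) =
      (Point.some x y h + Point.some x y h) + Point.some x y h := by
    rw [show (3 : ℕ) = 2 + 1 from rfl, succ_nsmul, two_nsmul]
  by_cases hab' : a' = b'
  · -- two-torsion
    have hy0 : y = 0 := by rw [hyv, hab']; simp
    have hP2 : (Point.some x y h : GA A) + Point.some x y h = 0 :=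
      Point.add_self_of_Y_eq (by rw [EA_negY, hy0]; simp)
    refine ⟨x, y, h, ?_, ?_, ?_⟩
    · rw [h3, hP2, zero_add]
    · rw [hxv, hAQ, ← hab']
      field_simp
      ring
    · rw [hy0, ← hab']; ring
  · have hd : a' - b' ≠ 0 := sub_ne_zero.2 hab'
    have hy0 : y ≠ 0 := by
      rw [hyv]
      exact div_ne_zero (mul_ne_zero (mul_ne_zero (by norm_num) hn) hd) (pow_ne_zero _ hcQ)
    set n : ℚ := a' ^ 2 - a' * b' + b' ^ 2 with hnn
    obtain ⟨h2, hP2⟩ := double h hy0 (6 * n / (c' * (a' - b')))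
      (12 * n * (a' ^ 2 + a' * b' + b' ^ 2) / (c' ^ 2 * (a' - b') ^ 2))
      (-(36 * n * ((a' - b') ^ 4 + 6 * n * (a' * b'))) / (c' ^ 3 * (a' - b') ^ 3))
      (by rw [hxv, hyv]; field_simp; ring)
      (by rw [hxv]; field_simp; rw [hnn]; ring)
      (by rw [hxv, hyv]; field_simp; rw [hnn]; ring)
    have hxne : (12 * n * (a' ^ 2 + a' * b' + b' ^ 2) / (c' ^ 2 * (a' - b') ^ 2)) ≠ x := by
      rw [hxv]
      intro e
      rw [div_eq_div_iff (mul_ne_zero (pow_ne_zero _ hcQ) (pow_ne_zero _ hd))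
        (pow_ne_zero _ hcQ)] at e
      have : 36 * n * (a' * b') * c' ^ 2 = 0 := by linear_combination e
      have h0 : 36 * n * (a' * b') * c' ^ 2 ≠ 0 :=
        mul_ne_zero (mul_ne_zero (mul_ne_zero (by norm_num) hn) (mul_ne_zero haQ hbQ))
          (pow_ne_zero _ hcQ)
      exact h0 this
    obtain ⟨h3', hP3⟩ := chord h2 h hxne
      (-(2 * ((a' - b') ^ 4 + 3 * (a' * b') * n)) / (c' * (a' - b') * (a' * b')))
      _ _ (by rw [hxv, hyv]; field_simp; ring) rfl rfl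
    refine ⟨_, _, h3', ?_, ?_, ?_⟩
    · rw [h3, hP2, hP3]
    · rw [hxv, hAQ]
      field_simp
      rw [hnn]
      ring
    · rw [hxv, hAQ]
      field_simp
      rw [hnn]
      ring

end Pool.Agent.CubeRank
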