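import Pool.Agent.CubeRank.Law
import Pool.Agent.CubeRank.Basics
import Pool.Agent.CubeRank.Coll
import Pool.Agent.CubeRank.Chord
import Pool.Agent.CubeRank.Triple
import Pool.Agent.CubeRank.Growth
import Pool.Agent.CubeRank.Lift
import Pool.Agent.CubeRank.Gen
import Pool.Agent.CubeRank.KapEx
import Pool.Agent.CubeRank.KapAdd
import Pool.Agent.CubeRank.KapRep

/-!
# The bound for the number of generators (M8)
-/

set_option autoImplicit false

namespace Pool.Agent.CubeRank

open Pool.Agent.Lib_helper18 Pool.Agent.Lib_helper18.Eis Pool.Agent.Lib_helper84.Cub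

variable {m : ℕ} {p e e' : Fin m → ℕ} {S : Finset (Fin m)}

theorem kapEx' : KapExStmt := kapEx basics lift

theorem kapAdd' : KapAddStmt := kapAdd basics coll kapEx'

theorem kapRep' : KapRepStmt := kapRep basics lift triple

theorem gen' : GenStmt := gen basics chord triple (growth triple)

/-- the classes of the points -/
def UU {m : ℕ} (p e : Fin m → ℕ) (v : Fin m → ZMod 3) : Prop := ∃ P : GA (AA p e), Kap p e P v

theorem U_const (p e : Fin m → ℕ) (c : ZMod 3) : UU p e (fun _ => c) :=
  ⟨0, Or.inl ⟨rfl, c, fun _ => rfl⟩⟩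

theorem U_add (hm : 1 ≤ m) (h : Hyp p e) {v v' : Fin m → ZMod 3} (hv : UU p e v)
    (hv' : UU p e v') : UU p e (v + v') := by
  obtain ⟨P, hP⟩ := hv
  obtain ⟨Q, hQ⟩ := hv'
  exact ⟨P + Q, kapAdd' m p e hm h P Q v v' hP hQ⟩

theorem U_smul (hm : 1 ≤ m) (h : Hyp p e) {v : Fin m → ZMod 3} (hv : UU p e v) (c : ZMod 3) :
    UU p e (fun i => c * v i) := by
  have h3 : c = 0 ∨ c = 1 ∨ c = 2 := by revert c; decide
  rcases h3 with rfl | rfl | rfl
  · have := U_const p e 0
    simpa using this
  · simpa using hv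
  · have := U_add hm h hv hv
    have e1 : v + v = fun i => 2 * v i := by funext i; simp only [Pi.add_apply]; ring
    rwa [e1] at this

theorem kap_zero {v : Fin m → ZMod 3} (h : Kap p e 0 v) : ∃ c, ∀ i, v i = c := by
  rcases h with ⟨-, h⟩ | ⟨a, b, c, γ, t1, t2, hC, -⟩
  · exact h
  · obtain ⟨-, -, -, x, y, hn, h0, -⟩ := hC
    exact absurd h0 (by simp)

theorem kap_diff (hm : 1 ≤ m) (h : Hyp p e) {P Q : GA (AA p e)} {v v' : Fin m → ZMod 3}
    (hP : Kap p e P v) (hQ : Kap p e Q v') (hc : ∃ c, ∀ i, v i = v' i + c) :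
    P - Q ∈ threeMul (AA p e) := by
  obtain ⟨v'', h''⟩ := kapEx' m p e hm h (-Q)
  have h1 := kapAdd' m p e hm h Q (-Q) v' v'' hQ h''
  rw [add_neg_cancel] at h1
  obtain ⟨d, hd⟩ := kap_zero h1
  obtain ⟨c, hc⟩ := hc
  have h2 := kapAdd' m p e hm h P (-Q) v v'' hP h''
  have h3 := (kapRep' m p e hm h _ _ h2).1 ⟨c + d, fun i => by
    have := hd i
    simp only [Pi.add_apply] at this ⊢
    rw [hc i]; linear_combination this⟩
  rwa [sub_eq_add_neg]

theorem AA_big (hm : 3 ≤ m) (h : Hyp p e) : 3 ≤ (AA p e).natAbs := by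
  have h1 : (8 : ℤ) ≤ AA p e := by
    have h2 : ∀ i, (2 : ℤ) ≤ (p i : ℤ) ^ e i := by
      intro i
      have h3 : (2 : ℤ) ≤ p i := by exact_mod_cast (h.hp i).two_le
      have h4 := h.he i
      rcases h4 with h4 | h4 <;> rw [h4] <;> nlinarith
    have h5 : (∏ _i : Fin m, (2 : ℤ)) ≤ ∏ i, (p i : ℤ) ^ e i :=
      Finset.prod_le_prod (fun _ _ => by norm_num) (fun i _ => h2 i)
    rw [Finset.prod_const, Finset.card_univ, Fintype.card_fin] at h5
    calc (8 : ℤ) = 2 ^ 3 := by norm_num
      _ ≤ 2 ^ m := pow_le_pow_right₀ (by norm_num) hm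
      _ ≤ _ := h5
  omega

/-- few classes give few generators -/
theorem gen_of_card (hm : 3 ≤ m) (h : Hyp p e) (d : ℕ)
    (hc : Nat.card {v // UU p e v} ≤ 3 ^ (d + 1)) : GenBy (AA p e) d := by
  classical
  have hm1 : 1 ≤ m := by omega
  have i0 : Fin m := ⟨0, by omega⟩
  choose vv hvv using kapEx' m p e hm1 h
  set T := threeMul (AA p e) with hT
  let F : (GA (AA p e) ⧸ T) × ZMod 3 → {v // UU p e v} := fun x =>
    ⟨vv (Quotient.out x.1) + fun _ => x.2, U_add hm1 h ⟨_, hvv _⟩ (U_const p e x.2)⟩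
  have hF : Function.Injective F := by
    rintro ⟨g, c⟩ ⟨g', c'⟩ hgg
    have h1 : ∀ i, vv (Quotient.out g) i + c = vv (Quotient.out g') i + c' := by
      intro i
      exact congrFun (congrArg Subtype.val hgg) i
    have h2 := kap_diff hm1 h (hvv (Quotient.out g)) (hvv (Quotient.out g'))
      ⟨c' - c, fun i => by linear_combination h1 i⟩
    have h3 : g = g' := by
      have e1 : (QuotientAddGroup.mk (Quotient.out g') : GA (AA p e) ⧸ T) =
          QuotientAddGroup.mk (Quotient.out g) := by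
        rw [QuotientAddGroup.eq]
        rw [neg_add_eq_sub]
        exact h2
      have e2 : (QuotientAddGroup.mk (Quotient.out g) : GA (AA p e) ⧸ T) = g := Quotient.out_eq g
      have e3 : (QuotientAddGroup.mk (Quotient.out g') : GA (AA p e) ⧸ T) = g' := Quotient.out_eq g'
      rw [← e2, ← e3, e1]
    subst h3
    have h4 := h1 i0
    exact Prod.ext rfl (add_left_cancel h4)
  have hfin : Finite ((GA (AA p e) ⧸ T) × ZMod 3) := Finite.of_injective F hF
  have hfinq : Finite (GA (AA p e) ⧸ T) :=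
    Finite.of_injective (fun g => ((g, 0) : (GA (AA p e) ⧸ T) × ZMod 3))
      (fun a b hab => congrArg Prod.fst hab)
  have hcard := Nat.card_le_card_of_injective F hF
  rw [Nat.card_prod, Nat.card_zmod] at hcard
  have hidx : T.index ≤ 3 ^ d := by
    have : T.index * 3 ≤ 3 ^ d * 3 := by
      rw [← pow_succ]
      exact hcard.trans hc
    exact Nat.le_of_mul_le_mul_right this (by norm_num)
  have hfi : T.FiniteIndex := AddSubgroup.finiteIndex_of_finite_quotient
  exact gen' (AA p e) (cubeFree_AA h) (AA_big hm h) d hfi hidx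

/-! ### linear algebra -/

/-- the space of possible classes -/
def EE {m : ℕ} (p e : Fin m → ℕ) (v : Fin m → ZMod 3) : Prop :=
  tw p e = 0 → ∑ i, sw p e i * v i = 0

theorem U_rep (hm : 1 ≤ m) (h : Hyp p e) {v : Fin m → ZMod 3} (hv : UU p e v)
    (hc : ¬ ∃ c, ∀ i, v i = c) : Rep p e v := by
  obtain ⟨P, hP⟩ := hv
  exact (kapRep' m p e hm h P v hP).2 hc

theorem U_sub_E (hm : 1 ≤ m) (h : Hyp p e) {v : Fin m → ZMod 3} (hv : UU p e v) : EE p e v := by
  intro hW
  by_cases hc : ∃ c, ∀ i, v i = c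
  · obtain ⟨c, hc⟩ := hc
    have : ∑ i, sw p e i * v i = c * tw p e := by
      rw [tw, Finset.mul_sum]
      exact Finset.sum_congr rfl (fun i _ => by rw [hc i]; ring)
    rw [this, hW, mul_zero]
  · obtain ⟨x, hx⟩ := U_rep hm h hv hc
    obtain ⟨o, -, ho, -⟩ := info h.h9 hx
    simp only [zf_cast] at ho
    rw [ho, hW, mul_zero]

theorem sw_ne (h : Hyp p e) (i : Fin m) : sw p e i ≠ 0 :=
  mul_ne_zero (zmod_ne (h.he i)) (wq_ne (h.h9 i))

/-- many classes: every element is a class up to a multiple of `D` -/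
theorem exists_class (hm : 1 ≤ m) (h : Hyp p e) {D : Fin m → ZMod 3} (hDE : EE p e D)
    (hD : ¬ UU p e D) (hcard : Nat.card {v // EE p e v} < 9 * Nat.card {v // UU p e v})
    {v : Fin m → ZMod 3} (hv : EE p e v) : ∃ c : ZMod 3, UU p e (fun i => v i + c * D i) := by
  classical
  by_contra hcon
  push Not at hcon
  let F : {v // UU p e v} × ZMod 3 × ZMod 3 → {v // EE p e v} := fun x =>
    ⟨fun i => x.1.1 i + x.2.1 * v i + x.2.2 * D i, fun hW => by
      have e1 : ∑ i, sw p e i * (x.1.1 i + x.2.1 * v i + x.2.2 * D i) =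
          ∑ i, sw p e i * x.1.1 i + x.2.1 * ∑ i, sw p e i * v i +
            x.2.2 * ∑ i, sw p e i * D i := by
        rw [Finset.mul_sum, Finset.mul_sum, ← Finset.sum_add_distrib, ← Finset.sum_add_distrib]
        exact Finset.sum_congr rfl (fun i _ => by ring)
      rw [e1, U_sub_E hm h x.1.2 hW, hv hW, hDE hW]
      ring⟩
  have hF : Function.Injective F := by
    rintro ⟨⟨u, hu⟩, a, b⟩ ⟨⟨u', hu'⟩, a', b'⟩ hh
    have h1 : ∀ i, u i + a * v i + b * D i = u' i + a' * v i + b' * D i := by
      intro i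
      exact congrFun (congrArg Subtype.val hh) i
    have hdiff : UU p e (fun i => u' i + 2 * u i) := by
      have := U_add hm h hu' (U_smul hm h hu 2)
      exact this
    have hinv : ∀ z : ZMod 3, z ≠ 0 → z * z = 1 := by decide
    have ha : a = a' := by
      by_contra hne
      have hz : a - a' ≠ 0 := sub_ne_zero.mpr hne
      have h5 := U_smul hm h hdiff (a - a')
      apply hcon ((a - a') * (b - b'))
      have e2 : (fun i => (a - a') * (u' i + 2 * u i)) =
          fun i => v i + (a - a') * (b - b') * D i := by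
        funext i
        have h6 := hinv _ hz
        linear_combination (-(a - a')) * h1 i + (v i) * h6 +
          ((a - a') * u i) * three_zmod
      rwa [e2] at h5
    subst ha
    have hb : b = b' := by
      by_contra hne
      have hz : b - b' ≠ 0 := sub_ne_zero.mpr hne
      have h5 := U_smul hm h hdiff (b - b')
      apply hD
      have e2 : (fun i => (b - b') * (u' i + 2 * u i)) = D := by
        funext i
        have h6 := hinv _ hz
        linear_combination (-(b - b')) * h1 i + (D i) * h6 +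
          ((b - b') * u i) * three_zmod
      rwa [e2] at h5
    subst hb
    have hu : u = u' := by
      funext i
      linear_combination h1 i
    subst hu
    rfl
  have := Nat.card_le_card_of_injective F hF
  rw [Nat.card_prod, Nat.card_prod, Nat.card_zmod] at this
  omega

theorem card_all (m : ℕ) : Nat.card (Fin m → ZMod 3) = 3 ^ m := by
  rw [Nat.card_fun, Nat.card_zmod, Nat.card_eq_fintype_card, Fintype.card_fin]

theorem card_E (p e : Fin m → ℕ) : Nat.card {v // EE p e v} ≤ 3 ^ m := by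
  rw [← card_all m]
  exact Nat.card_le_card_of_injective (fun v : {v // EE p e v} => v.1) Subtype.val_injective

theorem card_E_zero (hm : 1 ≤ m) (h : Hyp p e) (hW : tw p e = 0) :
    3 * Nat.card {v // EE p e v} ≤ 3 ^ m := by
  classical
  have i0 : Fin m := ⟨0, by omega⟩
  let F : ZMod 3 × {v // EE p e v} → (Fin m → ZMod 3) := fun x i =>
    x.2.1 i + if i = i0 then x.1 * sw p e i0 else 0
  have hF : Function.Injective F := by
    rintro ⟨a, ⟨u, hu⟩⟩ ⟨a', ⟨u', hu'⟩⟩ hh
    have h1 : ∀ i, u i + (if i = i0 then a * sw p e i0 else 0) =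
        u' i + (if i = i0 then a' * sw p e i0 else 0) := fun i => congrFun hh i
    have key : ∀ (a : ZMod 3) (u : Fin m → ZMod 3), EE p e u →
        ∑ i, sw p e i * (u i + (if i = i0 then a * sw p e i0 else 0)) = a := by
      intro a u hu
      have e1 : ∀ i, sw p e i * (u i + (if i = i0 then a * sw p e i0 else 0)) =
          sw p e i * u i + if i = i0 then a * (sw p e i0 * sw p e i0) else 0 := by
        intro i
        split_ifs with hi
        · subst hi; ring
        · ring
      have hinv : ∀ z : ZMod 3, z ≠ 0 → z * z = 1 := by decide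
      rw [Finset.sum_congr rfl (fun i _ => e1 i), Finset.sum_add_distrib, hu hW, zero_add,
        Finset.sum_ite_eq' Finset.univ i0, if_pos (Finset.mem_univ _), hinv _ (sw_ne h i0),
        mul_one]
    have ha : a = a' := by
      rw [← key a u hu, ← key a' u' hu']
      exact Finset.sum_congr rfl (fun i _ => by rw [h1 i])
    subst ha
    have : u = u' := by
      funext i
      exact add_right_cancel (h1 i)
    subst this
    rfl
  have := Nat.card_le_card_of_injective F hF
  rwa [Nat.card_prod, Nat.card_zmod, card_all] at this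

/-! ### the contradiction -/

theorem Lam_add (v v' : Fin m → ZMod 3) (c : ZMod 3) :
    Lam p e S (fun i => v i + c * v' i) = Lam p e S v + c * Lam p e S v' := by
  unfold Lam
  have e1 : ∀ T : Finset (Fin m), ∑ i ∈ T, sw p e i * (v i + c * v' i) =
      ∑ i ∈ T, sw p e i * v i + c * ∑ i ∈ T, sw p e i * v' i := by
    intro T
    rw [Finset.mul_sum, ← Finset.sum_add_distrib]
    exact Finset.sum_congr rfl (fun i _ => by ring)
  rw [e1, e1]; ring

/-- the standing hypotheses on the pair -/
structure Pair {m : ℕ} (p e e' : Fin m → ℕ) (S : Finset (Fin m)) : Prop where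
  h : Hyp p e
  h' : Hyp p e'
  hS : ∀ i, i ∈ S ↔ e i ≠ e' i
  ne : S.Nonempty
  nu : S ≠ Finset.univ
  tww : (tw p e ≠ 0 ∧ tw p e' ≠ 0) ∨ (tw p e = 0 ∧ tw p e' = 0)

theorem Pair.symm (b : Pair p e e' S) : Pair p e' e S where
  h := b.h'
  h' := b.h
  hS := fun i => by rw [b.hS i]; exact ne_comm
  ne := b.ne
  nu := b.nu
  tww := b.tww.imp And.symm And.symm

theorem Pair.base (b : Pair p e e' S) : BaseS p e e' S := base_of b.h b.h' b.hS

theorem sum_ind (f : Fin m → ZMod 3) (T : Finset (Fin m)) :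
    ∑ i ∈ T, f i * ind S i = ∑ i ∈ T ∩ S, f i := by
  classical
  unfold ind
  simp only [mul_ite, mul_one, mul_zero]
  rw [← Finset.sum_filter, Finset.filter_mem_eq_inter]

theorem Pair.EE_ind (b : Pair p e e' S) : EE p e (ind S) := by
  intro hW
  rw [sum_ind, Finset.univ_inter]
  have := tw_eq b.base
  rcases b.tww with ⟨h1, -⟩ | ⟨-, h2⟩
  · exact absurd hW h1
  · rw [h2, hW, zero_add] at this; exact this.symm

theorem Pair.Lam_ind (b : Pair p e e' S) : Lam p e S (ind S) = 0 := by
  unfold Lam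
  rw [sum_ind, sum_ind, Finset.inter_self, Finset.univ_inter]
  have h3 := tw_eq b.base
  rcases b.tww with ⟨h1, h2⟩ | ⟨h1, h2⟩
  · by_cases hs : ∑ i ∈ S, sw p e i = 0
    · rw [hs]; ring
    · obtain ⟨f1, -, f3⟩ := z3_facts _ _ h1 (h3 ▸ h2) hs
      rw [f1]; linear_combination (-(tw p e)) * f3
  · rw [h1, h2, zero_add] at h3
    rw [← h3]; ring

theorem Pair.Lam_const (b : Pair p e e' S) {v : Fin m → ZMod 3} (hv : ∃ c, ∀ i, v i = c) :
    Lam p e S v = 0 := by
  obtain ⟨c, hc⟩ := hv
  have h1 := Lam_shift b.h b.h' b.hS b.tww (fun _ => 0) c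
  have e1 : v = fun _ => (0 : ZMod 3) + c := by funext i; rw [hc i, zero_add]
  rw [e1, h1]
  unfold Lam
  simp

/-- the indicator is not constant -/
theorem Pair.ind_nc (b : Pair p e e' S) : ¬ ∃ c, ∀ i, ind S i = c := by
  rintro ⟨c, hc⟩
  obtain ⟨i0, hi0⟩ := b.ne
  obtain ⟨i2, hi2⟩ : ∃ i, i ∉ S := by
    by_contra hcon
    push Not at hcon
    exact b.nu (Finset.eq_univ_iff_forall.mpr hcon)
  have h1 := hc i0
  have h2 := hc i2
  unfold ind at h1 h2
  rw [if_pos hi0] at h1
  rw [if_neg hi2] at h2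
  rw [← h2] at h1
  exact absurd h1 (by decide)


theorem Pair.one (b : Pair p e e' S) (hm : 1 ≤ m) (h1 : UU p e (ind S)) (h2 : UU p e' (ind S)) :
    False :=
  (law m p e e' S b.h b.h' b.hS b.ne b.nu b.tww).1 ⟨U_rep hm b.h h1 b.ind_nc, U_rep hm b.h' h2 b.ind_nc⟩

theorem Pair.two (b : Pair p e e' S) (hm : 1 ≤ m) (h2 : UU p e' (ind S)) {v : Fin m → ZMod 3}
    (hv : UU p e v) : Lam p e S v = 0 := by
  by_cases hc : ∃ c, ∀ i, v i = c
  · exact b.Lam_const hc
  · exact (law m p e e' S b.h b.h' b.hS b.ne b.nu b.tww).2.1 (U_rep hm b.h' h2 b.ind_nc) v (U_rep hm b.h hv hc)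

theorem Pair.three (b : Pair p e e' S) (hm : 1 ≤ m) {v v' : Fin m → ZMod 3} {c d : ZMod 3}
    (hv : UU p e v) (hv' : UU p e' v') (hvv : ∀ i, v' i = if i ∈ S then c - v i else v i + d) :
    Lam p e S v = 0 := by
  by_cases hc : ∃ c, ∀ i, v i = c
  · exact b.Lam_const hc
  · by_cases hc' : ∃ c, ∀ i, v' i = c
    · obtain ⟨f, hf⟩ := hc'
      -- v = const + multiple of the indicator
      have e1 : v = fun i => (f - d) + (c - f - (f - d)) * ind S i := by
        funext i
        have h1 := hvv i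
        rw [hf i] at h1
        unfold ind
        split_ifs at h1 ⊢
        · linear_combination h1
        · linear_combination -h1
      rw [e1, Lam_add, b.Lam_const ⟨f - d, fun _ => rfl⟩, b.Lam_ind]
      ring
    · exact (law m p e e' S b.h b.h' b.hS b.ne b.nu b.tww).2.2 v v' c d (U_rep hm b.h hv hc) (U_rep hm b.h' hv' hc') hvv

/-- `Lam` is nonzero on the space of possible classes -/
theorem Pair.nonzero (b : Pair p e e' S) : ∃ v, EE p e v ∧ Lam p e S v ≠ 0 := by
  classical
  obtain ⟨i0, hi0⟩ := b.ne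
  obtain ⟨i2, hi2⟩ : ∃ i, i ∉ S := by
    by_contra hcon
    push Not at hcon
    exact b.nu (Finset.eq_univ_iff_forall.mpr hcon)
  have hinv : ∀ z : ZMod 3, z ≠ 0 → z * z = 1 := by decide
  have h02 : i0 ≠ i2 := fun h => hi2 (h ▸ hi0)
  let v : Fin m → ZMod 3 := fun i =>
    if i = i0 then sw p e i0 else if i = i2 then - sw p e i2 else 0
  have key : ∀ T : Finset (Fin m), ∑ i ∈ T, sw p e i * v i =
      (if i0 ∈ T then 1 else 0) - (if i2 ∈ T then 1 else 0) := by
    intro T
    have e1 : ∀ i, sw p e i * v i = (if i = i0 then 1 else 0) - (if i = i2 then 1 else 0) := by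
      intro i
      simp only [v]
      by_cases h1 : i = i0
      · subst h1
        rw [if_pos rfl, if_pos rfl, if_neg h02, hinv _ (sw_ne b.h _)]; ring
      · rw [if_neg h1, if_neg h1]
        by_cases h2 : i = i2
        · subst h2
          rw [if_pos rfl, if_pos rfl]
          linear_combination -(hinv _ (sw_ne b.h i))
        · rw [if_neg h2, if_neg h2]; ring
    rw [Finset.sum_congr rfl (fun i _ => e1 i), Finset.sum_sub_distrib, Finset.sum_ite_eq',
      Finset.sum_ite_eq']
  refine ⟨v, fun _ => ?_, ?_⟩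
  · rw [key]; simp
  · unfold Lam
    rw [key, key, if_pos hi0, if_neg hi2]
    simp

/-- **both groups cannot be large** -/
theorem Pair.main (b : Pair p e e' S) (hm : 1 ≤ m)
    (h1 : Nat.card {v // EE p e v} < 9 * Nat.card {v // UU p e v})
    (h2 : Nat.card {v // EE p e' v} < 9 * Nat.card {v // UU p e' v}) : False := by
  -- it suffices that `Lam` vanishes on the classes of `e` and `D` is not one of them
  have fin : ∀ {e e' : Fin m → ℕ}, Pair p e e' S →
      Nat.card {v // EE p e v} < 9 * Nat.card {v // UU p e v} →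
      ¬ UU p e (ind S) → (∀ v, UU p e v → Lam p e S v = 0) → False := by
    intro e e' b h1 hD hL
    obtain ⟨v, hv, hne⟩ := b.nonzero
    obtain ⟨c, hc⟩ := exists_class hm b.h b.EE_ind hD h1 hv
    have h3 := hL _ hc
    rw [Lam_add, b.Lam_ind, mul_zero, add_zero] at h3
    exact hne h3
  by_cases hD' : UU p e' (ind S)
  · exact fin b h1 (fun hD => b.one hm hD hD') (fun v hv => b.two hm hD' hv)
  by_cases hD : UU p e (ind S)
  · exact fin b.symm h2 hD' (fun v hv => b.symm.two hm hD hv)
  refine fin b h1 hD (fun v hv => ?_)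
  -- the reflected vector
  have hE : EE p e' (fun i => if i ∈ S then - v i else v i) := by
    intro hW'
    have hW : tw p e = 0 := by
      rcases b.tww with ⟨-, h⟩ | ⟨h, -⟩
      · exact absurd hW' h
      · exact h
    have h3 := U_sub_E hm b.h hv hW
    rw [← h3]
    refine Finset.sum_congr rfl (fun i _ => ?_)
    beta_reduce
    split_ifs with hi
    · rw [sw_in b.base hi]; ring
    · rw [sw_out b.base hi]
  obtain ⟨c, hc⟩ := exists_class hm b.h' b.symm.EE_ind hD' h2 hE
  refine b.three hm (c := c) (d := 0) hv hc (fun i => ?_)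
  unfold ind
  by_cases hi : i ∈ S
  · rw [if_pos hi, if_pos hi, if_pos hi]; ring
  · rw [if_neg hi, if_neg hi, if_neg hi]; ring

/-- **the main theorem** -/
theorem main : MainStmt := by
  intro m p e e' hm h h' hne heq
  classical
  have hm1 : 1 ≤ m := by omega
  let S : Finset (Fin m) := Finset.univ.filter (fun i => e i ≠ e' i)
  have hS : ∀ i, i ∈ S ↔ e i ≠ e' i := fun i => by simp [S]
  have hSne : S.Nonempty := by
    obtain ⟨i, hi⟩ := Function.ne_iff.mp hne
    exact ⟨i, (hS i).mpr hi⟩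
  have hSnu : S ≠ Finset.univ := by
    obtain ⟨i, hi⟩ := heq
    intro h
    have := Finset.mem_univ i
    rw [← h] at this
    exact (hS i).mp this hi
  constructor
  · intro hW hW'
    have b : Pair p e e' S := ⟨h, h', hS, hSne, hSnu, Or.inl ⟨hW, hW'⟩⟩
    by_contra hcon
    push Not at hcon
    obtain ⟨c1, c2⟩ := hcon
    have hpow : 3 ^ m = 9 * 3 ^ (m - 3 + 1) := by
      obtain ⟨k, rfl⟩ := Nat.exists_eq_add_of_le hm
      have : 3 + k - 3 + 1 = k + 1 := by omega
      rw [this]; ring
    have g : ∀ {e : Fin m → ℕ}, Hyp p e → ¬ GenBy (AA p e) (m - 3) →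
        Nat.card {v // EE p e v} < 9 * Nat.card {v // UU p e v} := by
      intro e h hc
      have h1 : ¬ Nat.card {v // UU p e v} ≤ 3 ^ (m - 3 + 1) := fun h1 =>
        hc (gen_of_card hm h _ h1)
      have h2 := card_E p e
      rw [hpow] at h2
      omega
    exact b.main hm1 (g h c1) (g h' c2)
  · intro hW hW'
    have b : Pair p e e' S := ⟨h, h', hS, hSne, hSnu, Or.inr ⟨hW, hW'⟩⟩
    by_contra hcon
    push Not at hcon
    obtain ⟨c1, c2⟩ := hcon
    have hpow : 3 ^ m ≤ 27 * 3 ^ (m - 4 + 1) := by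
      have h1 : m ≤ 3 + (m - 4 + 1) := by omega
      calc 3 ^ m ≤ 3 ^ (3 + (m - 4 + 1)) := Nat.pow_le_pow_right (by norm_num) h1
        _ = 27 * 3 ^ (m - 4 + 1) := by rw [pow_add]; norm_num
    have g : ∀ {e : Fin m → ℕ}, Hyp p e → tw p e = 0 → ¬ GenBy (AA p e) (m - 4) →
        Nat.card {v // EE p e v} < 9 * Nat.card {v // UU p e v} := by
      intro e h hW hc
      have h1 : ¬ Nat.card {v // UU p e v} ≤ 3 ^ (m - 4 + 1) := fun h1 =>
        hc (gen_of_card hm h _ h1)
      have h2 := card_E_zero hm1 h hW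
      omega
    exact b.main hm1 (g h hW c1) (g h' hW' c2)

end Pool.Agent.CubeRank
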