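import Pool.Agent.CubeRank.GLaw
import Pool.Agent.CubeRank.Main
import Pool.Agent.CubeRank.GLift
import Pool.Agent.CubeRank.GKapEx
import Pool.Agent.CubeRank.GKapAdd
import Pool.Agent.CubeRank.GKapRep

/-!
# The bound for the number of generators, general version
-/

set_option autoImplicit false

namespace Pool.Agent.CubeRank

open Pool.Agent.Lib_helper18 Pool.Agent.Lib_helper18.Eis Pool.Agent.Lib_helper84.Cub

variable {m : ℕ} {p e e' : Fin m → ℕ} {S : Finset (Fin m)}

theorem kapExG' : KapExStmtG := kapExG basics liftG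

theorem kapAddG' : KapAddStmtG := kapAddG basics coll kapExG'

theorem kapRepG' : KapRepStmtG := kapRepG basics liftG triple

/-- the classes of the points -/
def UG {m : ℕ} (p e : Fin m → ℕ) (v : Fin m → ZMod 3) : Prop := ∃ P : GA (AA p e), KapG p e P v

theorem UG_const (p e : Fin m → ℕ) (c : ZMod 3) : UG p e (fun _ => c) :=
  ⟨0, Or.inl ⟨rfl, c, fun _ => rfl⟩⟩

theorem UG_add (h : HypG p e) {v v' : Fin m → ZMod 3} (hv : UG p e v)
    (hv' : UG p e v') : UG p e (v + v') := by
  obtain ⟨P, hP⟩ := hv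
  obtain ⟨Q, hQ⟩ := hv'
  exact ⟨P + Q, kapAddG' m p e h P Q v v' hP hQ⟩

theorem UG_smul (h : HypG p e) {v : Fin m → ZMod 3} (hv : UG p e v) (c : ZMod 3) :
    UG p e (fun i => c * v i) := by
  have h3 : c = 0 ∨ c = 1 ∨ c = 2 := by revert c; decide
  rcases h3 with rfl | rfl | rfl
  · have := UG_const p e 0
    simpa using this
  · simpa using hv
  · have := UG_add h hv hv
    have e1 : v + v = fun i => 2 * v i := by funext i; simp only [Pi.add_apply]; ring
    rwa [e1] at this

theorem kapG_zero {v : Fin m → ZMod 3} (h : KapG p e 0 v) : ∃ c, ∀ i, v i = c := by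
  rcases h with ⟨-, h⟩ | ⟨a, b, c, γ, t1, t2, hC, -⟩
  · exact h
  · obtain ⟨-, -, -, x, y, hn, h0, -⟩ := hC
    exact absurd h0 (by simp)

theorem kapG_diff (h : HypG p e) {P Q : GA (AA p e)} {v v' : Fin m → ZMod 3}
    (hP : KapG p e P v) (hQ : KapG p e Q v') (hc : ∃ c, ∀ i, v i = v' i + c) :
    P - Q ∈ threeMul (AA p e) := by
  obtain ⟨v'', h''⟩ := kapExG' m p e h (-Q)
  have h1 := kapAddG' m p e h Q (-Q) v' v'' hQ h''
  rw [add_neg_cancel] at h1
  obtain ⟨d, hd⟩ := kapG_zero h1
  obtain ⟨c, hc⟩ := hc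
  have h2 := kapAddG' m p e h P (-Q) v v'' hP h''
  have h3 := (kapRepG' m p e h _ _ h2).1 ⟨c + d, fun i => by
    have := hd i
    simp only [Pi.add_apply] at this ⊢
    rw [hc i]; linear_combination this⟩
  rwa [sub_eq_add_neg]

theorem AA_bigG (hm : 2 ≤ m) (h : HypG p e) : 3 ≤ (AA p e).natAbs := by
  have h1 : (4 : ℤ) ≤ AA p e := by
    have h2 : ∀ i, (2 : ℤ) ≤ (p i : ℤ) ^ e i := by
      intro i
      have h3 : (2 : ℤ) ≤ p i := by exact_mod_cast (h.hp i).two_le
      have h4 := h.he i
      rcases h4 with h4 | h4 <;> rw [h4] <;> nlinarith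
    have h5 : (∏ _i : Fin m, (2 : ℤ)) ≤ ∏ i, (p i : ℤ) ^ e i :=
      Finset.prod_le_prod (fun _ _ => by norm_num) (fun i _ => h2 i)
    rw [Finset.prod_const, Finset.card_univ, Fintype.card_fin] at h5
    calc (4 : ℤ) = 2 ^ 2 := by norm_num
      _ ≤ 2 ^ m := pow_le_pow_right₀ (by norm_num) hm
      _ ≤ _ := h5
  omega

/-- few classes give few generators -/
theorem gen_of_cardG (hm : 2 ≤ m) (h : HypG p e) (d : ℕ)
    (hc : Nat.card {v // UG p e v} ≤ 3 ^ (d + 1)) : GenBy (AA p e) d := by
  classical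
  have i0 : Fin m := ⟨0, by omega⟩
  choose vv hvv using kapExG' m p e h
  set T := threeMul (AA p e) with hT
  let F : (GA (AA p e) ⧸ T) × ZMod 3 → {v // UG p e v} := fun x =>
    ⟨vv (Quotient.out x.1) + fun _ => x.2, UG_add h ⟨_, hvv _⟩ (UG_const p e x.2)⟩
  have hF : Function.Injective F := by
    rintro ⟨g, c⟩ ⟨g', c'⟩ hgg
    have h1 : ∀ i, vv (Quotient.out g) i + c = vv (Quotient.out g') i + c' := by
      intro i
      exact congrFun (congrArg Subtype.val hgg) i
    have h2 := kapG_diff h (hvv (Quotient.out g)) (hvv (Quotient.out g'))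
      ⟨c' - c, fun i => by linear_combination h1 i⟩
    have h3 : g = g' := by
      have e1 : (QuotientAddGroup.mk (Quotient.out g') : GA (AA p e) ⧸ T) =
          QuotientAddGroup.mk (Quotient.out g) := by
        rw [QuotientAddGroup.eq]
        rw [neg_add_eq_sub]
        exact h2
      have e2 : (QuotientAddGroup.mk (Quotient.out g) : GA (AA p e) ⧸ T) = g := Quotient.out_eq g
      have e3 : (QuotientAddGroup.mk (Quotient.out g') : GA (AA p e) ⧸ T) = g' := Quotient.out_eq g'
      rw [← e2, ← e3, e1]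
    subst h3
    have h4 := h1 i0
    exact Prod.ext rfl (add_left_cancel h4)
  have hfin : Finite ((GA (AA p e) ⧸ T) × ZMod 3) := Finite.of_injective F hF
  have hfinq : Finite (GA (AA p e) ⧸ T) :=
    Finite.of_injective (fun g => ((g, 0) : (GA (AA p e) ⧸ T) × ZMod 3))
      (fun a b hab => congrArg Prod.fst hab)
  have hcard := Nat.card_le_card_of_injective F hF
  rw [Nat.card_prod, Nat.card_zmod] at hcard
  have hidx : T.index ≤ 3 ^ d := by
    have : T.index * 3 ≤ 3 ^ d * 3 := by
      rw [← pow_succ]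
      exact hcard.trans hc
    exact Nat.le_of_mul_le_mul_right this (by norm_num)
  have hfi : T.FiniteIndex := AddSubgroup.finiteIndex_of_finite_quotient
  exact gen' (AA p e) (cubeFree_AAG h) (AA_bigG hm h) d hfi hidx

/-! ### linear algebra -/

/-- the condition at 3 is not empty -/
def CondG {m : ℕ} (p e : Fin m → ℕ) : Prop :=
  ((∀ i, p i ≠ 3) ∧ tg p e = 0) ∨ ∃ i, p i = 3 ∧ e i = 2

/-- the linear form of the condition at 3 -/
def psi {m : ℕ} (p e : Fin m → ℕ) (v : Fin m → ZMod 3) : ZMod 3 :=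
  ∑ i, sg p e i * (v i - bas p v)

/-- the space of possible classes -/
def EEG {m : ℕ} (p e : Fin m → ℕ) (v : Fin m → ZMod 3) : Prop := CondG p e → psi p e v = 0

theorem bas_add' (p : Fin m → ℕ) (v v' : Fin m → ZMod 3) (c : ZMod 3) :
    bas p (fun i => v i + c * v' i) = bas p v + c * bas p v' := by
  unfold bas
  rw [Finset.mul_sum, ← Finset.sum_add_distrib]
  exact Finset.sum_congr rfl (fun i _ => by split_ifs <;> ring)

theorem psi_add (p e : Fin m → ℕ) (v v' : Fin m → ZMod 3) (c : ZMod 3) :
    psi p e (fun i => v i + c * v' i) = psi p e v + c * psi p e v' := by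
  unfold psi
  rw [bas_add', Finset.mul_sum, ← Finset.sum_add_distrib]
  exact Finset.sum_congr rfl (fun i _ => by ring)

theorem UG_rep (h : HypG p e) {v : Fin m → ZMod 3} (hv : UG p e v)
    (hc : ¬ ∃ c, ∀ i, v i = c) : Rep p e v := by
  obtain ⟨P, hP⟩ := hv
  exact (kapRepG' m p e h P v hP).2 hc

theorem UG_sub_E (h : HypG p e) {v : Fin m → ZMod 3} (hv : UG p e v) : EEG p e v := by
  intro hW
  by_cases hc : ∃ c, ∀ i, v i = c
  · obtain ⟨c, hc⟩ := hc
    unfold psi
    rcases hW with ⟨h3, hW⟩ | ⟨i3, h3, -⟩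
    · rw [bas_no h3]
      have : ∑ i, sg p e i * (v i - 0) = c * tg p e := by
        rw [tg, Finset.mul_sum]
        exact Finset.sum_congr rfl (fun i _ => by rw [hc i]; ring)
      rw [this, hW, mul_zero]
    · rw [bas_of h.inj h3]
      exact Finset.sum_eq_zero (fun i _ => by rw [hc i, hc i3]; ring)
  · obtain ⟨x, hx⟩ := UG_rep h hv hc
    unfold psi
    rcases hW with ⟨h3, hW⟩ | ⟨i3, h3, he3⟩
    · obtain ⟨o, -, ho, -⟩ := infoG h.h3 h3 hx
      simp only [zf_cast] at ho
      rw [bas_no h3]
      simp only [sub_zero]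
      rw [ho, hW, mul_zero]
    · rw [bas_of h.inj h3]
      have h5 := eps_eq (sg p e) (fun i => zf (v i)) (zf (v i3))
      simp only [zf_cast] at h5
      rw [h5]
      have key : ∀ z : Fin 3, z + 1 ≠ z ∧ z + 2 ≠ z ∧ z + 1 ≠ z + 2 := by decide
      obtain ⟨k1, k2, k3⟩ := key (zf (v i3))
      have := eps_nine h.h3 h.inj h3 he3 hx k1 k2 k3
      unfold cwt at this
      rw [this, sub_self]

/-- many classes: every element is a class up to a multiple of `D` -/
theorem exists_classG (h : HypG p e) {D : Fin m → ZMod 3} (hDE : EEG p e D)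
    (hD : ¬ UG p e D) (hcard : Nat.card {v // EEG p e v} < 9 * Nat.card {v // UG p e v})
    {v : Fin m → ZMod 3} (hv : EEG p e v) : ∃ c : ZMod 3, UG p e (fun i => v i + c * D i) := by
  classical
  by_contra hcon
  push Not at hcon
  let F : {v // UG p e v} × ZMod 3 × ZMod 3 → {v // EEG p e v} := fun x =>
    ⟨fun i => (x.1.1 i + x.2.1 * v i) + x.2.2 * D i, fun hW => by
      rw [psi_add, psi_add, UG_sub_E h x.1.2 hW, hv hW, hDE hW]
      ring⟩
  have hF : Function.Injective F := by
    rintro ⟨⟨u, hu⟩, a, b⟩ ⟨⟨u', hu'⟩, a', b'⟩ hh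
    have h1 : ∀ i, u i + a * v i + b * D i = u' i + a' * v i + b' * D i := by
      intro i
      exact congrFun (congrArg Subtype.val hh) i
    have hdiff : UG p e (fun i => u' i + 2 * u i) := by
      have := UG_add h hu' (UG_smul h hu 2)
      exact this
    have hinv : ∀ z : ZMod 3, z ≠ 0 → z * z = 1 := by decide
    have ha : a = a' := by
      by_contra hne
      have hz : a - a' ≠ 0 := sub_ne_zero.mpr hne
      have h5 := UG_smul h hdiff (a - a')
      apply hcon ((a - a') * (b - b'))
      have e2 : (fun i => (a - a') * (u' i + 2 * u i)) =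
          fun i => v i + (a - a') * (b - b') * D i := by
        funext i
        have h6 := hinv _ hz
        linear_combination (-(a - a')) * h1 i + (v i) * h6 +
          ((a - a') * u i) * three_zmod
      rwa [e2] at h5
    subst ha
    have hb : b = b' := by
      by_contra hne
      have hz : b - b' ≠ 0 := sub_ne_zero.mpr hne
      have h5 := UG_smul h hdiff (b - b')
      apply hD
      have e2 : (fun i => (b - b') * (u' i + 2 * u i)) = D := by
        funext i
        have h6 := hinv _ hz
        linear_combination (-(b - b')) * h1 i + (D i) * h6 +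
          ((b - b') * u i) * three_zmod
      rwa [e2] at h5
    subst hb
    have hu : u = u' := by
      funext i
      linear_combination h1 i
    subst hu
    rfl
  have := Nat.card_le_card_of_injective F hF
  rw [Nat.card_prod, Nat.card_prod, Nat.card_zmod] at this
  omega

theorem card_EG (p e : Fin m → ℕ) : Nat.card {v // EEG p e v} ≤ 3 ^ m := by
  rw [← card_all m]
  exact Nat.card_le_card_of_injective (fun v : {v // EEG p e v} => v.1) Subtype.val_injective

theorem ex_sg (h : HypG p e) : ∃ i, p i ≠ 3 ∧ sg p e i ≠ 0 := by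
  obtain ⟨i, hi⟩ := h.ex
  have h3 : p i ≠ 3 := by omega
  refine ⟨i, h3, ?_⟩
  unfold sg
  rw [if_neg h3]
  exact mul_ne_zero (zmod_ne (h.he i)) (wq_ne hi)

theorem card_EG_zero (h : HypG p e) (hW : CondG p e) :
    3 * Nat.card {v // EEG p e v} ≤ 3 ^ m := by
  classical
  obtain ⟨i0, hi3, hi0⟩ := ex_sg h
  let D : Fin m → ZMod 3 := fun i => if i = i0 then sg p e i0 else 0
  have hD : psi p e D = 1 := by
    unfold psi
    have hb : bas p D = 0 := by
      unfold bas
      refine Finset.sum_eq_zero (fun i _ => ?_)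
      split_ifs with h3
      · simp only [D]
        rw [if_neg]
        rintro rfl
        exact hi3 h3
      · rfl
    rw [hb]
    have e1 : ∀ i, sg p e i * (D i - 0) = if i = i0 then sg p e i0 * sg p e i0 else 0 := by
      intro i
      simp only [D]
      split_ifs with hi
      · subst hi; ring
      · ring
    rw [Finset.sum_congr rfl (fun i _ => e1 i), Finset.sum_ite_eq' Finset.univ i0,
      if_pos (Finset.mem_univ _)]
    exact z3_sq1 _ hi0
  let F : ZMod 3 × {v // EEG p e v} → (Fin m → ZMod 3) := fun x i => x.2.1 i + x.1 * D i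
  have hF : Function.Injective F := by
    rintro ⟨a, ⟨u, hu⟩⟩ ⟨a', ⟨u', hu'⟩⟩ hh
    have h1 : (fun i => u i + a * D i) = fun i => u' i + a' * D i := hh
    have ha : a = a' := by
      have h2 := congrArg (psi p e) h1
      rw [psi_add, psi_add, hu hW, hu' hW, hD] at h2
      linear_combination h2
    subst ha
    have : u = u' := by
      funext i
      exact add_right_cancel (congrFun h1 i)
    subst this
    rfl
  have := Nat.card_le_card_of_injective F hF
  rwa [Nat.card_prod, Nat.card_zmod, card_all] at this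

/-! ### the contradiction -/

namespace PairG

variable (b : PairG p e e' S)

include b

theorem EE_ind : EEG p e (ind S) := by
  intro hW
  have hs : ∑ i ∈ S, sg p e i = 0 := by
    rcases hW with ⟨h3, hW⟩ | ⟨i3, h3, he3⟩
    · by_contra hs
      exact (b.noThree h3 hs).1 hW
    · by_contra hs
      have := (b.three h3 hs).1.e3
      omega
  unfold psi
  rw [b.bas_ind]
  simp only [sub_zero]
  rw [sum_ind, Finset.univ_inter]
  exact hs

theorem ind_nc : ¬ ∃ c, ∀ i, ind S i = c := by
  rintro ⟨c, hc⟩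
  obtain ⟨i0, hi0, -⟩ := b.inT
  obtain ⟨i2, hi2⟩ : ∃ i, i ∉ S := by
    rcases b.outT with ⟨i, hi, -⟩ | ⟨⟨i3, h3, -⟩, -⟩
    · exact ⟨i, hi⟩
    · exact ⟨i3, b.i3_out h3⟩
  have h1 := hc i0
  have h2 := hc i2
  unfold ind at h1 h2
  rw [if_pos hi0] at h1
  rw [if_neg hi2] at h2
  rw [← h2] at h1
  exact absurd h1 (by decide)

theorem one (h1 : UG p e (ind S)) (h2 : UG p e' (ind S)) : False :=
  b.law_one ⟨UG_rep b.h h1 b.ind_nc, UG_rep b.h' h2 b.ind_nc⟩

theorem two (h2 : UG p e' (ind S)) {v : Fin m → ZMod 3} (hv : UG p e v) : LamG p e S v = 0 := by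
  by_cases hc : ∃ c, ∀ i, v i = c
  · exact b.Lam_const hc
  · exact b.law_two (UG_rep b.h' h2 b.ind_nc) (UG_rep b.h hv hc)

theorem thr {v v' : Fin m → ZMod 3} {c d : ZMod 3}
    (hv : UG p e v) (hv' : UG p e' v') (hvv : ∀ i, v' i = if i ∈ S then c - v i else v i + d) :
    LamG p e S v = 0 := by
  by_cases hc : ∃ c, ∀ i, v i = c
  · exact b.Lam_const hc
  · by_cases hc' : ∃ c, ∀ i, v' i = c
    · obtain ⟨f, hf⟩ := hc'
      have e1 : v = fun i => (f - d) + (c - f - (f - d)) * ind S i := by
        funext i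
        have h1 := hvv i
        rw [hf i] at h1
        unfold ind
        split_ifs at h1 ⊢
        · linear_combination h1
        · linear_combination -h1
      rw [e1, b.Lam_add, b.Lam_const ⟨f - d, fun _ => rfl⟩, b.Lam_ind]
      ring
    · exact b.law_three' (UG_rep b.h hv hc) (UG_rep b.h' hv' hc') hvv

/-- `LamG` is nonzero on the space of possible classes -/
theorem nonzero : ∃ v, EEG p e v ∧ LamG p e S v ≠ 0 := by
  classical
  obtain ⟨i0, hi0, hw0⟩ := b.inT
  have h30 : p i0 ≠ 3 := b.nS i0 hi0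
  by_cases hex : ∃ i, i ∉ S ∧ sg p e i ≠ 0
  · obtain ⟨i2, hi2, hw2⟩ := hex
    have h32 : p i2 ≠ 3 := by
      intro h3
      apply hw2
      unfold sg; rw [if_pos h3]
    have h02 : i0 ≠ i2 := fun h => hi2 (h ▸ hi0)
    let v : Fin m → ZMod 3 := fun i =>
      if i = i0 then sg p e i0 else if i = i2 then - sg p e i2 else 0
    have hb : bas p v = 0 := by
      unfold bas
      refine Finset.sum_eq_zero (fun i _ => ?_)
      split_ifs with h3
      · simp only [v]
        rw [if_neg, if_neg]
        · rintro rfl; exact h32 h3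
        · rintro rfl; exact h30 h3
      · rfl
    have key : ∀ T : Finset (Fin m), ∑ i ∈ T, sg p e i * v i =
        (if i0 ∈ T then 1 else 0) - (if i2 ∈ T then 1 else 0) := by
      intro T
      have e1 : ∀ i, sg p e i * v i = (if i = i0 then 1 else 0) - (if i = i2 then 1 else 0) := by
        intro i
        simp only [v]
        by_cases h1 : i = i0
        · subst h1
          rw [if_pos rfl, if_pos rfl, if_neg h02, z3_sq1 _ hw0]; ring
        · rw [if_neg h1, if_neg h1]
          by_cases h2 : i = i2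
          · subst h2
            rw [if_pos rfl, if_pos rfl]
            linear_combination -(z3_sq1 _ hw2)
          · rw [if_neg h2, if_neg h2]; ring
      rw [Finset.sum_congr rfl (fun i _ => e1 i), Finset.sum_sub_distrib, Finset.sum_ite_eq',
        Finset.sum_ite_eq']
    refine ⟨v, fun _ => ?_, ?_⟩
    · unfold psi
      rw [hb]
      simp only [sub_zero]
      rw [key]; simp
    · unfold LamG
      rw [hb]
      simp only [sub_zero]
      by_cases hs : ∑ i ∈ S, sg p e i = 0
      · rw [if_pos hs, key, if_pos hi0, if_neg hi2]; decide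
      · rw [if_neg hs, key, if_neg (by simpa using hi0), if_pos (by simpa using hi2)]; decide
  · obtain ⟨⟨i3, h3, he3⟩, hs⟩ := b.outT.resolve_left hex
    let v : Fin m → ZMod 3 := fun i => if i = i0 then sg p e i0 else 0
    refine ⟨v, fun hW => ?_, ?_⟩
    · exfalso
      rcases hW with ⟨h4, -⟩ | ⟨i, h4, h5⟩
      · exact h4 i3 h3
      · have : i = i3 := b.h.inj (h4.trans h3.symm)
        rw [this] at h5; omega
    · unfold LamG
      rw [if_pos hs]
      have e1 : ∀ i, sg p e i * v i = if i = i0 then 1 else 0 := by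
        intro i
        simp only [v]
        by_cases h1 : i = i0
        · subst h1
          rw [if_pos rfl, if_pos rfl, z3_sq1 _ hw0]
        · rw [if_neg h1, if_neg h1, mul_zero]
      rw [Finset.sum_congr rfl (fun i _ => e1 i), Finset.sum_ite_eq', if_pos hi0]
      decide

/-- **both groups cannot be large** -/
theorem contra
    (h1 : Nat.card {v // EEG p e v} < 9 * Nat.card {v // UG p e v})
    (h2 : Nat.card {v // EEG p e' v} < 9 * Nat.card {v // UG p e' v}) : False := by
  have fin : ∀ {e e' : Fin m → ℕ}, PairG p e e' S →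
      Nat.card {v // EEG p e v} < 9 * Nat.card {v // UG p e v} →
      ¬ UG p e (ind S) → (∀ v, UG p e v → LamG p e S v = 0) → False := by
    intro e e' b h1 hD hL
    obtain ⟨v, hv, hne⟩ := b.nonzero
    obtain ⟨c, hc⟩ := exists_classG b.h b.EE_ind hD h1 hv
    have h3 := hL _ hc
    rw [b.Lam_add, b.Lam_ind, mul_zero, add_zero] at h3
    exact hne h3
  by_cases hD' : UG p e' (ind S)
  · exact fin b h1 (fun hD => b.one hD hD') (fun v hv => b.two hD' hv)
  by_cases hD : UG p e (ind S)
  · exact fin b.symm h2 hD' (fun v hv => b.symm.two hD hv)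
  refine fin b h1 hD (fun v hv => ?_)
  -- the reflected vector
  have hE : EEG p e' (fun i => if i ∈ S then - v i else v i) := by
    intro hW'
    have hbas : bas p (fun i => if i ∈ S then - v i else v i) = bas p v := by
      unfold bas
      refine Finset.sum_congr rfl (fun i _ => ?_)
      by_cases h3 : p i = 3
      · rw [if_pos h3, if_pos h3]
        show (if i ∈ S then - v i else v i) = v i
        rw [if_neg (b.i3_out h3)]
      · rw [if_neg h3, if_neg h3]
    have hs' : ∑ i ∈ S, sg p e i = 0 := by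
      by_contra hs
      rcases hW' with ⟨h3, hW⟩ | ⟨i3, h3, he3⟩
      · exact (b.noThree h3 hs).2.1 hW
      · have := (b.three h3 hs).2.e3
        omega
    have hW : CondG p e := by
      rcases hW' with ⟨h3, hW⟩ | ⟨i3, h3, he3⟩
      · left
        refine ⟨h3, ?_⟩
        have := b.tg_eq
        rw [hW, hs', add_zero] at this
        exact this.symm
      · right
        exact ⟨i3, h3, by rw [← b.e_out (b.i3_out h3)]; exact he3⟩
    have h3 := UG_sub_E b.h hv hW
    unfold psi at h3 ⊢
    rw [hbas]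
    have e1 : ∑ i, sg p e' i * ((if i ∈ S then - v i else v i) - bas p v) =
        ∑ i, sg p e i * (v i - bas p v) + 2 * bas p v * ∑ i ∈ S, sg p e i := by
      have h4 : ∑ i ∈ S, sg p e i = ∑ i, if i ∈ S then sg p e i else 0 := by
        rw [Finset.sum_ite_mem, Finset.univ_inter]
      rw [h4, Finset.mul_sum, ← Finset.sum_add_distrib]
      refine Finset.sum_congr rfl (fun i _ => ?_)
      by_cases hi : i ∈ S
      · rw [if_pos hi, if_pos hi, b.base.wt.ins i hi]; ring
      · rw [if_neg hi, if_neg hi, b.base.wt.out i hi]; ring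
    rw [e1, h3, hs']; ring
  obtain ⟨c, hc⟩ := exists_classG b.h' b.symm.EE_ind hD' h2 hE
  refine b.thr (c := c) (d := 0) hv hc (fun i => ?_)
  unfold ind
  by_cases hi : i ∈ S
  · rw [if_pos hi, if_pos hi, if_pos hi]; ring
  · rw [if_neg hi, if_neg hi, if_neg hi]; ring

/-- the bound, no condition at 3 -/
theorem bound (hm : 2 ≤ m) {d : ℕ} (hd : m ≤ d + 3) : GenBy (AA p e) d ∨ GenBy (AA p e') d := by
  by_contra hcon
  push Not at hcon
  obtain ⟨c1, c2⟩ := hcon
  have hpow : 3 ^ m ≤ 9 * 3 ^ (d + 1) := by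
    calc 3 ^ m ≤ 3 ^ (d + 3) := Nat.pow_le_pow_right (by norm_num) hd
      _ = 9 * 3 ^ (d + 1) := by ring
  have g : ∀ {e : Fin m → ℕ}, HypG p e → ¬ GenBy (AA p e) d →
      Nat.card {v // EEG p e v} < 9 * Nat.card {v // UG p e v} := by
    intro e h hc
    have h1 : ¬ Nat.card {v // UG p e v} ≤ 3 ^ (d + 1) := fun h1 =>
      hc (gen_of_cardG hm h _ h1)
    have h2 := card_EG p e
    omega
  exact b.contra (g b.h c1) (g b.h' c2)

/-- the bound with a condition at 3 -/
theorem bound' (hm : 2 ≤ m) {d : ℕ} (hd : m ≤ d + 4) (hW : CondG p e) (hW' : CondG p e') :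
    GenBy (AA p e) d ∨ GenBy (AA p e') d := by
  by_contra hcon
  push Not at hcon
  obtain ⟨c1, c2⟩ := hcon
  have hpow : 3 ^ m ≤ 27 * 3 ^ (d + 1) := by
    calc 3 ^ m ≤ 3 ^ (d + 4) := Nat.pow_le_pow_right (by norm_num) hd
      _ = 27 * 3 ^ (d + 1) := by ring
  have g : ∀ {e : Fin m → ℕ}, HypG p e → CondG p e → ¬ GenBy (AA p e) d →
      Nat.card {v // EEG p e v} < 9 * Nat.card {v // UG p e v} := by
    intro e h hW hc
    have h1 : ¬ Nat.card {v // UG p e v} ≤ 3 ^ (d + 1) := fun h1 =>
      hc (gen_of_cardG hm h _ h1)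
    have h2 := card_EG_zero h hW
    omega
  exact b.contra (g b.h hW c1) (g b.h' hW' c2)

end PairG

end Pool.Agent.CubeRank
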