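import Pool.Agent.Lib_helper84.Cub.GlueC
import Pool.Agent.CubeRank.Defs

/-!
# The product formula for several inert primes, with the term at the prime above 3
-/

set_option autoImplicit false

namespace Pool.Agent.CubeRank

open Pool.Agent.Lib_helper18 Pool.Agent.Lib_helper18.Eis Pool.Agent.Lib_helper84.Cub

variable {m : ℕ}

/-- the product formula for a primary element -/
theorem lemmaS_prim {q : Fin m → ℕ} (hq : ∀ i, (q i).Prime) (hq3 : ∀ i, q i % 3 = 2)
    (S : Finset (Fin m)) (a : Fin m → ZMod 3) :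
    ∀ (n : ℕ) (t : Eis), N t = n → t ≠ 0 → Prim t → (∀ i ∈ S, ¬ (q i : Eis) ∣ t) →
    (∀ l : Eis, Prime l → ¬ l ∣ 3 → l ∣ t →
      ∑ i ∈ S, a i * sym l (q i : Eis) = 0 ∨ 3 ∣ V l t) →
    ∑ i ∈ S, a i * sym (q i : Eis) t = 0 := by
  have hQ := fun i => prime_inert (hq i) (hq3 i)
  have hQ3 := fun i => n3 (hq i) (hq3 i)
  intro n
  induction n using Nat.strong_induction_on with
  | _ n ih =>
    intro t hn ht hprim hqt H
    by_cases hu : IsUnit t
    · have h1 := Prim.unit prim_one hu (by rwa [one_mul])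
      refine Finset.sum_eq_zero (fun i _ => ?_)
      rcases h1 with rfl | rfl
      · rw [sym_one (hQ i) (hQ3 i), mul_zero]
      · have h2 : ¬ (q i : Eis) ∣ 1 := not_dvd_of_isUnit (hQ i) isUnit_one
        rw [sym_neg (hQ i) (hQ3 i) h2, sym_one (hQ i) (hQ3 i), mul_zero]
    · obtain ⟨l, hlirr, hlt⟩ := WfDvdMonoid.exists_irreducible_factor hu ht
      have hl : Prime l := hlirr.prime
      have hl3 : ¬ l ∣ 3 := Prim.ndvd3 hl hprim hlt
      obtain ⟨j, hi⟩ := exists_prim (not_lam_dvd_of_prime hl hl3)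
      have hass : Associated (l * w ^ j) l := ⟨(isUnit_w.pow j).unit⁻¹, by
        rw [mul_assoc]; simp⟩
      have hl' : Prime (l * w ^ j) := (hass.symm.prime hl)
      rcases H l hl hl3 hlt with hgood | hval
      · -- a good prime; make it primary
        have hl3' : ¬ (l * w ^ j) ∣ 3 := fun h => hl3 (hass.symm.dvd.trans h)
        obtain ⟨t', ht'e⟩ : l * w ^ j ∣ t := hass.dvd.trans hlt
        have ht'p : Prim t' := hi.of_mul (by rw [← ht'e]; exact hprim)
        have ht' : t' ≠ 0 := by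
          rintro rfl
          rw [mul_zero] at ht'e
          exact ht ht'e
        have hqt' : ∀ i ∈ S, ¬ (q i : Eis) ∣ t' := fun i hiS h => hqt i hiS (by
          rw [ht'e]; exact Dvd.dvd.mul_left h _)
        have hql' : ∀ i ∈ S, ¬ (q i : Eis) ∣ l * w ^ j := fun i hiS h => hqt i hiS (by
          rw [ht'e]; exact Dvd.dvd.mul_right h _)
        have hlt' : N t' < n := by
          rw [← hn, ht'e, N_mul]
          have h1 := N_prime hl'
          have h2 := N_pos ht'
          nlinarith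
        have h1 := ih _ hlt' t' rfl ht' ht'p hqt' (by
          intro m hm hm3 hmt
          by_cases hass' : Associated m (l * w ^ j)
          · left
            rw [← hgood]
            exact Finset.sum_congr rfl (fun i _ => by rw [sym_associated (hass'.trans hass)])
          · rcases H m hm hm3 (by rw [ht'e]; exact Dvd.dvd.mul_left hmt _) with h | h
            · exact Or.inl h
            · right
              have hml : ¬ m ∣ l * w ^ j := fun h' => hass' (hm.associated_of_dvd hl' h')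
              rwa [ht'e, V_mul_not_dvd hm hml ht'] at h)
        have h2 : ∀ i ∈ S, a i * sym (q i : Eis) t =
            a i * sym l (q i : Eis) + a i * sym (q i : Eis) t' := by
          intro i hiS
          have r1 := recip_inert (hq i) (hq3 i) hl' hl3' hi (hql' i hiS)
          rw [ht'e, sym_mul (hQ i) (hQ3 i) (hql' i hiS) (hqt' i hiS), r1, sym_associated hass]
          ring
        rw [Finset.sum_congr rfl h2, Finset.sum_add_distrib, h1, hgood, add_zero]
      · -- valuation divisible by 3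
        have hVe : V (l * w ^ j) t = V l t := multiplicity_eq_of_associated_left hass.symm
        obtain ⟨c, hc, hlc⟩ := V_split hl' ht
        obtain ⟨k, hk⟩ := hval
        have hk0 : k ≠ 0 := by
          rintro rfl
          exact V_eq_zero_iff.mp (by rw [hk]) hlt
        rw [hVe, hk] at hc
        have hc0 : c ≠ 0 := by rintro rfl; exact hlc (dvd_zero _)
        have hcp : Prim c := (hi.pow (3 * k)).of_mul (by rw [← hc]; exact hprim)
        have hlk : l * w ^ j ∣ (l * w ^ j) ^ (3 * k) := dvd_pow_self _ (by omega)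
        have hqc : ∀ i ∈ S, ¬ (q i : Eis) ∣ c := fun i hiS h => hqt i hiS (by
          rw [hc]; exact Dvd.dvd.mul_left h _)
        have hqk : ∀ i ∈ S, ¬ (q i : Eis) ∣ (l * w ^ j) ^ (3 * k) := fun i hiS h => hqt i hiS (by
          rw [hc]; exact Dvd.dvd.mul_right h _)
        have hql : ∀ i ∈ S, ¬ (q i : Eis) ∣ l * w ^ j := fun i hiS h => hqk i hiS (h.trans hlk)
        have hlt' : N c < n := by
          rw [← hn, hc, N_mul]
          have h1 : 1 < N ((l * w ^ j) ^ (3 * k)) := by
            have : N ((l * w ^ j) ^ (3 * k)) = (N (l * w ^ j)) ^ (3 * k) := by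
              have h5 : ((N ((l * w ^ j) ^ (3 * k)) : ℕ) : ℤ) = ((N (l * w ^ j)) ^ (3 * k) : ℕ) := by
                rw [N_cast, Eis.norm_pow]; push_cast; rw [N_cast]
              exact_mod_cast h5
            rw [this]
            exact Nat.one_lt_pow (by omega) (N_prime hl')
          have h2 := N_pos hc0
          nlinarith
        have h1 := ih _ hlt' c rfl hc0 hcp hqc (by
          intro m hm hm3 hmt
          have hml : ¬ m ∣ (l * w ^ j) ^ (3 * k) := by
            intro h'
            have h6 := hm.dvd_of_dvd_pow h'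
            have := hm.associated_of_dvd hl' h6
            exact hlc (this.symm.dvd.trans hmt)
          rcases H m hm hm3 (by rw [hc]; exact Dvd.dvd.mul_left hmt _) with h | h
          · exact Or.inl h
          · right
            rwa [hc, V_mul_not_dvd hm hml hc0] at h)
        rw [← h1]
        refine Finset.sum_congr rfl (fun i hiS => ?_)
        rw [hc, sym_mul (hQ i) (hQ3 i) (hqk i hiS) (hqc i hiS),
          sym_pow (hQ i) (hQ3 i) (hql i hiS)]
        push_cast
        linear_combination (a i * (k : ZMod 3) * sym (q i : Eis) (l * w ^ j)) * three_zmod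

/-- **the product formula for several inert primes** -/
theorem lemmaS {q : Fin m → ℕ} (hq : ∀ i, (q i).Prime) (hq3 : ∀ i, q i % 3 = 2)
    (S : Finset (Fin m)) (a : Fin m → ZMod 3) {t : Eis} {c : ZMod 3} (ht : t ≠ 0)
    (hqt : ∀ i ∈ S, ¬ (q i : Eis) ∣ t) (hc : Cls t c)
    (H : ∀ l : Eis, Prime l → ¬ l ∣ 3 → l ∣ t →
      ∑ i ∈ S, a i * sym l (q i : Eis) = 0 ∨ 3 ∣ V l t) :
    ∑ i ∈ S, a i * sym (q i : Eis) t = c * ∑ i ∈ S, a i * sym (q i : Eis) w := by
  have hQ := fun i => prime_inert (hq i) (hq3 i)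
  have hQ3 := fun i => n3 (hq i) (hq3 i)
  obtain ⟨j, k, s, rfl, hp, rfl⟩ := hc
  have hw := fun i => not_dvd_w (hQ i)
  have hl := fun i => not_dvd_lam (hQ3 i)
  have hlj : ∀ i, ¬ (q i : Eis) ∣ lam ^ j := fun i h => hl i ((hQ i).dvd_of_dvd_pow h)
  have hwk : ∀ i, ¬ (q i : Eis) ∣ w ^ k := fun i h => hw i ((hQ i).dvd_of_dvd_pow h)
  have hqs : ∀ i ∈ S, ¬ (q i : Eis) ∣ s := fun i hi h => hqt i hi (Dvd.dvd.mul_left h _)
  have hs0 : s ≠ 0 := by rintro rfl; exact ht (by rw [mul_zero])
  have hwk0 : w ^ k ≠ 0 := pow_ne_zero _ (by decide)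
  have h1 := lemmaS_prim hq hq3 S a _ (s * w ^ k) rfl (mul_ne_zero hs0 hwk0) hp
    (fun i hi h => ((hQ i).dvd_or_dvd h).elim (hqs i hi) (hwk i)) (by
      intro l hl hl3 hlt
      have hls : l ∣ s := (hl.dvd_or_dvd hlt).resolve_right (fun h =>
        not_dvd_w hl (hl.dvd_of_dvd_pow h))
      rcases H l hl hl3 (Dvd.dvd.mul_left hls _) with h | h
      · exact Or.inl h
      · right
        have e1 : ¬ l ∣ lam ^ j := fun h => not_dvd_lam hl3 (hl.dvd_of_dvd_pow h)
        have e2 : ¬ l ∣ w ^ k := fun h => not_dvd_w hl (hl.dvd_of_dvd_pow h)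
        rw [V_mul_not_dvd hl e1 hs0] at h
        rwa [mul_comm, V_mul_not_dvd hl e2 hs0])
  rw [Finset.mul_sum]
  rw [← add_zero (∑ i ∈ S, -((j : ZMod 3) + k) * (a i * sym (q i : Eis) w)), ← h1,
    ← Finset.sum_add_distrib]
  refine Finset.sum_congr rfl (fun i hi => ?_)
  rw [sym_mul (hQ i) (hQ3 i) (hqs i hi) (hwk i), sym_pow (hQ i) (hQ3 i) (hw i),
    sym_mul (hQ i) (hQ3 i) (hlj i) (hqs i hi), sym_pow (hQ i) (hQ3 i) (hl i),
    sym_inert_lam (hq i) (hq3 i)]
  ring

/-- the symbol of a product -/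
theorem sym_prod {l : Eis} (hl : Prime l) (hl3 : ¬ l ∣ 3) {p : Fin m → ℕ} (e : Fin m → ℕ)
    (S : Finset (Fin m)) (hno : ∀ j, ¬ l ∣ (p j : Eis)) :
    ¬ l ∣ ∏ j ∈ S, (p j : Eis) ^ e j ∧
      sym l (∏ j ∈ S, (p j : Eis) ^ e j) = ∑ j ∈ S, (e j : ZMod 3) * sym l (p j : Eis) := by
  classical
  induction S using Finset.induction_on with
  | empty =>
    simp only [Finset.prod_empty, Finset.sum_empty]
    exact ⟨not_dvd_of_isUnit hl isUnit_one, sym_one hl hl3⟩
  | insert i S hi ih =>
    rw [Finset.prod_insert hi, Finset.sum_insert hi]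
    have h1 : ¬ l ∣ (p i : Eis) ^ e i := fun h => hno i (hl.dvd_of_dvd_pow h)
    refine ⟨fun h => (hl.dvd_or_dvd h).elim h1 ih.1, ?_⟩
    rw [sym_mul hl hl3 h1 ih.1, ih.2, sym_pow hl hl3 (hno i)]

/-- noncubes -/
theorem nonCube_of_sym {l : Eis} (hl : Prime l) (hl3 : ¬ l ∣ 3) {B : ℤ} (hB : ¬ l ∣ (B : Eis))
    (hs : sym l (B : Eis) ≠ 0) : NonCube l B := by
  intro u v h
  by_cases hv : l ∣ v
  · have h1 : l ∣ (B : Eis) * v ^ 3 := Dvd.dvd.mul_left (Dvd.dvd.pow hv (by norm_num)) _
    exact ⟨hl.dvd_of_dvd_pow ((dvd_add_left h1).mp h), hv⟩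
  · exfalso
    apply hs
    have hv3 : ¬ l ∣ v ^ 3 := fun h' => hv (hl.dvd_of_dvd_pow h')
    have hBv : ¬ l ∣ (B : Eis) * v ^ 3 := fun h' => (hl.dvd_or_dvd h').elim hB hv3
    have hu : ¬ l ∣ u := by
      intro h'
      have h1 : l ∣ u ^ 3 := Dvd.dvd.pow h' (by norm_num)
      exact hBv ((dvd_add_right h1).mp h)
    have h5 : l ∣ (B : Eis) * v ^ 3 - (-u) ^ 3 := by
      have e : (B : Eis) * v ^ 3 - (-u) ^ 3 = u ^ 3 + (B : Eis) * v ^ 3 := by ring
      rw [e]; exact h
    have h6 := sym_congr h5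
    have hu' : ¬ l ∣ -u := by rwa [dvd_neg]
    rw [sym_cube hl hl3 hu', sym_mul hl hl3 hB hv3, sym_cube hl hl3 hv, add_zero] at h6
    exact h6

end Pool.Agent.CubeRank
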