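import Pool.Agent.CubeRank.LawA
import Pool.Agent.Lib_helper84.Cub.Info

/-!
# The three cases in terms of cells, a set `S` of exchanged primes
-/

set_option autoImplicit false

namespace Pool.Agent.CubeRank

open Pool.Agent.Lib_helper18 Pool.Agent.Lib_helper18.Eis Pool.Agent.Lib_helper84.Cub

variable {m : ℕ} {p e e' : Fin m → ℕ} {pos pos' : Fin m → Fin 3} {x y : Fin 3 → ℤ}
  {S : Finset (Fin m)}

/-- data used in all cases -/
structure BaseS (p e e' : Fin m → ℕ) (S : Finset (Fin m)) : Prop where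
  hp : ∀ i, (p i).Prime
  h3 : ∀ i, p i % 3 = 2
  inj : Function.Injective p
  he : ∀ i, e i = 1 ∨ e i = 2
  he' : ∀ i, e' i = 1 ∨ e' i = 2
  hw : ∀ i, sym (p i : Eis) w ≠ 0
  rel : ∀ j, if j ∈ S then e j + e' j = 3 else e j = e' j

/-- the product of the exchanged prime powers -/
def bS (p e : Fin m → ℕ) (S : Finset (Fin m)) : ℤ := ∏ j, if j ∈ S then (p j : ℤ) ^ e j else 1

/-- the product of the exchanged primes -/
def qS (p : Fin m → ℕ) (S : Finset (Fin m)) : ℤ := ∏ j, if j ∈ S then (p j : ℤ) ^ 1 else 1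

/-- the standard position -/
def stdS (S : Finset (Fin m)) (j : Fin m) : Fin 3 := if j ∈ S then 2 else 1

theorem BaseS.bb (b : BaseS p e e' S) : bS p e S * bS p e' S = qS p S ^ 3 := by
  unfold bS qS
  rw [← Finset.prod_mul_distrib, ← Finset.prod_pow]
  refine Finset.prod_congr rfl (fun j _ => ?_)
  have hr := b.rel j
  split_ifs at hr ⊢ with hS
  · rw [← pow_add, hr]; ring
  · ring

/-- nonresidues -/
theorem BaseS.nonCube (_b : BaseS p e e' S) {l : Eis} (hl : Prime l) (hl3 : ¬ l ∣ 3)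
    (hno : ∀ j, ¬ l ∣ (p j : Eis))
    (h : ∑ i ∈ S, (e i : ZMod 3) * sym l (p i : Eis) ≠ 0) : NonCube l (bS p e S) := by
  have e1 : ((bS p e S : ℤ) : Eis) = ∏ j ∈ S, (p j : Eis) ^ e j := by
    unfold bS
    push_cast
    rw [← Finset.prod_filter]
    simp
  obtain ⟨h1, h2⟩ := sym_prod hl hl3 e S hno
  apply nonCube_of_sym hl hl3
  · rw [e1]; exact h1
  · rw [e1, h2]; exact h

/-- primes dividing some `p j` are harmless -/
theorem BaseS.good (b : BaseS p e e' S) {l : Eis} (hl : Prime l)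
    {j : Fin m} (hj : l ∣ (p j : Eis)) {i : Fin m} (hi : ¬ l ∣ (p i : Eis)) :
    sym l (p i : Eis) = 0 := by
  have hass := hl.associated_of_dvd (prime_inert (b.hp j) (b.h3 j)) hj
  have h1 : ¬ p j ∣ p i := fun h => hi (hass.dvd.trans (Nat.cast_dvd_cast h))
  rw [sym_associated hass, sym_nat (b.hp j) (b.h3 j) h1]

/-- the product formula for the exchanged primes -/
theorem BaseS.sum_of (b : BaseS p e e' S) {t : Eis} {f : Fin m → ZMod 3} {c : ZMod 3}
    (ht : t ≠ 0)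
    (h0 : ∀ i ∈ S, ¬ (p i : Eis) ∣ t ∧ sym (p i : Eis) t = f i * sym (p i : Eis) w)
    (hc : Cls t c)
    (hloc : ∀ l : Eis, Prime l → ¬ l ∣ 3 → (∀ j, ¬ l ∣ (p j : Eis)) → NonCube l (bS p e S) →
      3 ∣ V l t) :
    ∑ i ∈ S, (e i : ZMod 3) * (f i * sym (p i : Eis) w) =
      c * ∑ i ∈ S, (e i : ZMod 3) * sym (p i : Eis) w := by
  have h1 := lemmaS b.hp b.h3 S (fun i => (e i : ZMod 3)) ht (fun i hi => (h0 i hi).1) hc (by
    intro l hl hl3 hlt
    have hlq : ∀ i ∈ S, ¬ l ∣ (p i : Eis) := fun i hi h => (h0 i hi).1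
      ((hl.associated_of_dvd (prime_inert (b.hp i) (b.h3 i)) h).symm.dvd.trans hlt)
    by_cases hno : ∃ j, l ∣ (p j : Eis)
    · left
      obtain ⟨j, hj⟩ := hno
      refine Finset.sum_eq_zero (fun i hi => ?_)
      rw [b.good hl hj (hlq i hi), mul_zero]
    push Not at hno
    by_cases hgood : ∑ i ∈ S, (e i : ZMod 3) * sym l (p i : Eis) = 0
    · exact Or.inl hgood
    · exact Or.inr (hloc l hl hl3 hno (b.nonCube hl hl3 hno hgood)))
  rw [← h1]
  exact Finset.sum_congr rfl (fun i hi => by rw [(h0 i hi).2])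

/-! ### case II -/

/-- auxiliary products -/
def rdP (p : Fin m → ℕ) (S : Finset (Fin m)) (pos : Fin m → Fin 3) (k : Fin 3) : ℤ :=
  ∏ j, if j ∈ S ∧ pos j = k then (p j : ℤ) ^ 1 else 1

/-- the main element of case II in terms of cells -/
def tII (p : Fin m → ℕ) (S : Finset (Fin m)) (pos : Fin m → Fin 3) (x y : Fin 3 → ℤ) : Eis :=
  tTwo (rdP p S pos 1) (rdP p S pos 0) (x 0) (x 1) (y 0) (y 1)

/-- the exchange of the positions -/
def Exch (S : Finset (Fin m)) (pos pos' : Fin m → Fin 3) : Prop :=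
  ∀ j, pos' j = if j ∈ S then tau (pos j) else pos j

theorem exch_h1 (b : BaseS p e e' S) (hpos : Exch S pos pos') :
    cell p e pos 0 * cell p e' pos' 1 * rdP p S pos 1 ^ 3 =
      cell p e' pos' 0 * cell p e pos 1 * rdP p S pos 0 ^ 3 := by
  unfold rdP
  simp only [cell, ← Finset.prod_mul_distrib, ← Finset.prod_pow]
  refine Finset.prod_congr rfl (fun j _ => ?_)
  have hj := hpos j
  have hr := b.rel j
  have hej := b.he j
  have h3 : pos j = 0 ∨ pos j = 1 ∨ pos j = 2 := by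
    generalize pos j = k; revert k; decide
  split_ifs at hj hr with hS
  · have hee : (e j = 1 ∧ e' j = 2) ∨ (e j = 2 ∧ e' j = 1) := by omega
    rcases h3 with h3 | h3 | h3 <;> rcases hee with ⟨he, h9⟩ | ⟨he, h9⟩ <;> rw [h3] at hj <;>
      simp [hj, h3, hS, he, h9, tau] <;> ring
  · rcases h3 with h3 | h3 | h3 <;> rw [h3] at hj <;> simp [hj, h3, hS, hr]

theorem tII_at (b : BaseS p e e' S) (hP : IsPt p e pos x) (hP' : IsPt p e' pos' y)
    (hpos : Exch S pos pos') {i : Fin m} (hi : i ∈ S) :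
    ¬ (p i : Eis) ∣ tII p S pos x y ∧
      sym (p i : Eis) (tII p S pos x y) = fpos (pos i) * sym (p i : Eis) w := by
  have he0 : e i ≠ 0 := by have := b.he i; omega
  have he0' : e' i ≠ 0 := by have := b.he' i; omega
  have hp' := hpos i
  rw [if_pos hi] at hp'
  have hx := sum3 hP.sum
  have hy := sum3 hP'.sum
  have key : ((p i : ℤ) ∣ cell p e pos 2 ∧ (p i : ℤ) ∣ cell p e' pos' 2 ∧
        ¬ (p i : ℤ) ∣ rdP p S pos 1 ∧ fpos (pos i) = 2 ∨
      (p i : ℤ) ∣ cell p e pos 0 ∧ (p i : ℤ) ∣ cell p e' pos' 1 ∧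
        (p i : ℤ) ∣ rdP p S pos 0 ∧ ¬ (p i : ℤ) ∣ rdP p S pos 1 ∧ fpos (pos i) = 1 ∨
      (p i : ℤ) ∣ cell p e pos 1 ∧ (p i : ℤ) ∣ cell p e' pos' 0 ∧
        (p i : ℤ) ∣ rdP p S pos 1 ∧ ¬ (p i : ℤ) ∣ rdP p S pos 0 ∧
        fpos (pos i) = 0) := by
    have h3 : pos i = 0 ∨ pos i = 1 ∨ pos i = 2 := by
      generalize pos i = k; revert k; decide
    rcases h3 with h3 | h3 | h3
    · right; left
      rw [h3] at hp' ⊢
      exact ⟨dvd_prod_if (fun j => pos j = 0) h3 he0,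
        dvd_prod_if (fun j => pos' j = 1) hp' he0',
        dvd_prod_if (fun j => j ∈ S ∧ pos j = 0) ⟨hi, h3⟩ one_ne_zero,
        not_dvd_prod_if b.hp b.inj (fun j => j ∈ S ∧ pos j = 1)
          (fun h => by have := h.2; rw [h3] at this; exact absurd this (by decide)), rfl⟩
    · right; right
      rw [h3] at hp' ⊢
      exact ⟨dvd_prod_if (fun j => pos j = 1) h3 he0,
        dvd_prod_if (fun j => pos' j = 0) hp' he0',
        dvd_prod_if (fun j => j ∈ S ∧ pos j = 1) ⟨hi, h3⟩ one_ne_zero,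
        not_dvd_prod_if b.hp b.inj (fun j => j ∈ S ∧ pos j = 0)
          (fun h => by have := h.2; rw [h3] at this; exact absurd this (by decide)), rfl⟩
    · left
      rw [h3] at hp' ⊢
      exact ⟨dvd_prod_if (fun j => pos j = 2) h3 he0,
        dvd_prod_if (fun j => pos' j = 2) hp' he0',
        not_dvd_prod_if b.hp b.inj (fun j => j ∈ S ∧ pos j = 1)
          (fun h => by have := h.2; rw [h3] at this; exact absurd this (by decide)), rfl⟩
  exact caseII_one (b.hp i) (b.h3 i) hx (hP.cop 0 1 (by decide)) (hP.cop 1 2 (by decide)) hy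
    (hP'.cop 0 1 (by decide)) (hP'.cop 0 2 (by decide)) (exch_h1 b hpos) key

theorem tII_loc (b : BaseS p e e' S) (hP : IsPt p e pos x) (hP' : IsPt p e' pos' y)
    (hpos : Exch S pos pos') {l : Eis} (hl : Prime l) (hl3 : ¬ l ∣ 3)
    (hno : ∀ j, ¬ l ∣ (p j : Eis)) (hbad : NonCube l (bS p e S)) :
    3 ∣ V l (tII p S pos x y) := by
  have hx := sum3 hP.sum
  have hy := sum3 hP'.sum
  refine caseII_loc hl hl3
    (k := ∏ j, if j ∈ S ∧ (pos j = 1 ∨ pos j = 2 ∧ e j = 2) then (p j : ℤ) ^ 1 else 1)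
    (m := ∏ j, if j ∈ S ∧ (pos j = 0 ∨ pos j = 2 ∧ e j = 2) then (p j : ℤ) ^ 1 else 1)
    hbad hx (hP.cop 0 1 (by decide)) hy (hP'.cop 0 1 (by decide))
    (hP'.cop 0 2 (by decide)) (hP'.cop 1 2 (by decide)) (exch_h1 b hpos) ?_ ?_ ?_
    ⟨hP.ne 0, hP'.ne 2⟩
  · -- h2
    unfold bS
    simp only [cell, ← Finset.prod_mul_distrib, ← Finset.prod_pow]
    refine Finset.prod_congr rfl (fun j _ => ?_)
    have hj := hpos j
    have hr := b.rel j
    have hej := b.he j
    have h3 : pos j = 0 ∨ pos j = 1 ∨ pos j = 2 := by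
      generalize pos j = k; revert k; decide
    split_ifs at hj hr with hS
    · have hee : (e j = 1 ∧ e' j = 2) ∨ (e j = 2 ∧ e' j = 1) := by omega
      rcases h3 with h3 | h3 | h3 <;> rcases hee with ⟨he, h9⟩ | ⟨he, h9⟩ <;> rw [h3] at hj <;>
        simp [hj, h3, hS, he, h9, tau] <;> ring
    · rcases h3 with h3 | h3 | h3 <;> rw [h3] at hj <;> simp [hj, h3, hS, hr]
  · -- h3
    unfold bS
    simp only [cell, ← Finset.prod_mul_distrib, ← Finset.prod_pow]
    refine Finset.prod_congr rfl (fun j _ => ?_)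
    have hj := hpos j
    have hr := b.rel j
    have hej := b.he j
    have h3 : pos j = 0 ∨ pos j = 1 ∨ pos j = 2 := by
      generalize pos j = k; revert k; decide
    split_ifs at hj hr with hS
    · have hee : (e j = 1 ∧ e' j = 2) ∨ (e j = 2 ∧ e' j = 1) := by omega
      rcases h3 with h3 | h3 | h3 <;> rcases hee with ⟨he, h9⟩ | ⟨he, h9⟩ <;> rw [h3] at hj <;>
        simp [hj, h3, hS, he, h9, tau] <;> ring
    · rcases h3 with h3 | h3 | h3 <;> rw [h3] at hj <;> simp [hj, h3, hS, hr]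
  · -- units
    intro hdvd
    have hS : SPr p (cell p e' pos' 0 * cell p e' pos' 1 * cell p e pos 1 * cell p e pos 2 *
      rdP p S pos 1 * rdP p S pos 0 *
      (∏ j, if j ∈ S ∧ (pos j = 1 ∨ pos j = 2 ∧ e j = 2) then (p j : ℤ) ^ 1 else 1) *
      (∏ j, if j ∈ S ∧ (pos j = 0 ∨ pos j = 2 ∧ e j = 2) then (p j : ℤ) ^ 1 else 1)) := by
      refine SPr.mul (SPr.mul (SPr.mul (SPr.mul (SPr.mul (SPr.mul (SPr.mul ?_ ?_) ?_) ?_)
        ?_) ?_) ?_) ?_
      · exact SPr.prod p (fun j => pos' j = 0) e'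
      · exact SPr.prod p (fun j => pos' j = 1) e'
      · exact SPr.prod p (fun j => pos j = 1) e
      · exact SPr.prod p (fun j => pos j = 2) e
      · exact SPr.prod p (fun j => j ∈ S ∧ pos j = 1) (fun _ => 1)
      · exact SPr.prod p (fun j => j ∈ S ∧ pos j = 0) (fun _ => 1)
      · exact SPr.prod p (fun j => j ∈ S ∧ (pos j = 1 ∨ pos j = 2 ∧ e j = 2)) (fun _ => 1)
      · exact SPr.prod p (fun j => j ∈ S ∧ (pos j = 0 ∨ pos j = 2 ∧ e j = 2)) (fun _ => 1)
    obtain ⟨j, hj⟩ := hS l hl hdvd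
    exact hno j hj

/-- case II -/
theorem caseII_S (b : BaseS p e e' S) (hS : S.Nonempty)
    (hP : IsPt p e pos x) (hP' : IsPt p e' pos' y) (hpos : Exch S pos pos') :
    tII p S pos x y ≠ 0 ∧ ∀ c : ZMod 3, Cls (tII p S pos x y) c →
      ∑ i ∈ S, (e i : ZMod 3) * (fpos (pos i) * sym (p i : Eis) w) =
        c * ∑ i ∈ S, (e i : ZMod 3) * sym (p i : Eis) w := by
  have ht : tII p S pos x y ≠ 0 := by
    obtain ⟨i, hi⟩ := hS
    intro h
    have := (tII_at b hP hP' hpos hi).1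
    rw [h] at this
    exact this (dvd_zero _)
  refine ⟨ht, fun c hc => ?_⟩
  exact b.sum_of (f := fun i => fpos (pos i)) ht (fun i hi => tII_at b hP hP' hpos hi) hc
    (fun _ hl hl3 hno hbad => tII_loc b hP hP' hpos hl hl3 hno hbad)

/-! ### case I -/

/-- the main element of case I in terms of cells -/
def tI (p e : Fin m → ℕ) (S : Finset (Fin m)) (pos : Fin m → Fin 3) (x y : Fin 3 → ℤ) : Eis :=
  tOne (qS p S) (term p e pos x 0) (term p e pos x 1) (term p e pos x 2)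
    (x 0 * x 1 * x 2) (y 1) (y 2)

theorem cellS0 (p e : Fin m → ℕ) (S : Finset (Fin m)) : cell p e (stdS S) 0 = 1 := by
  unfold cell stdS
  refine Finset.prod_eq_one (fun j _ => ?_)
  by_cases h : j ∈ S
  · rw [if_pos h, if_neg (by decide)]
  · rw [if_neg h, if_neg (by decide)]

theorem cellS1 (p e : Fin m → ℕ) (S : Finset (Fin m)) :
    cell p e (stdS S) 1 = ∏ j, if ¬ j ∈ S then (p j : ℤ) ^ e j else 1 := by
  unfold cell stdS
  refine Finset.prod_congr rfl (fun j _ => ?_)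
  by_cases h : j ∈ S
  · rw [if_pos h, if_neg (by decide), if_neg (not_not.mpr h)]
  · rw [if_neg h, if_pos rfl, if_pos h]

theorem cellS2 (p e : Fin m → ℕ) (S : Finset (Fin m)) : cell p e (stdS S) 2 = bS p e S := by
  unfold cell stdS bS
  refine Finset.prod_congr rfl (fun j _ => ?_)
  by_cases h : j ∈ S
  · rw [if_pos h, if_pos rfl, if_pos h]
  · rw [if_neg h, if_neg (by decide), if_neg h]

theorem cellS1_eq (b : BaseS p e e' S) : cell p e (stdS S) 1 = cell p e' (stdS S) 1 := by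
  rw [cellS1, cellS1]
  refine Finset.prod_congr rfl (fun j _ => ?_)
  have := b.rel j
  by_cases hS : j ∈ S
  · rw [if_neg (not_not.mpr hS), if_neg (not_not.mpr hS)]
  · rw [if_neg hS] at this
    rw [this]

theorem tI_at (b : BaseS p e e' S) (hP : IsPt p e pos x) (hP' : IsPt p e' (stdS S) y)
    {i : Fin m} (hi : i ∈ S) :
    (¬ (p i : Eis) ∣ tI p e S pos x y ∧
      sym (p i : Eis) (tI p e S pos x y) = ((pos i : ℕ) : ZMod 3) * sym (p i : Eis) w) ∧
      y 1 ≠ 0 ∧ res (term p e pos x 0) (term p e pos x 1) (term p e pos x 2) ≠ 0 := by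
  have he : e i ≠ 0 := by have := b.he i; omega
  have he' : e' i ≠ 0 := by have := b.he' i; omega
  have hx := sum3 hP.sum
  have h12 := hP'.cop 1 2 (by decide)
  rw [cellS2] at h12
  obtain ⟨h1, h2, h3, h4⟩ := caseI_at (w0 := x 0 * x 1 * x 2) (b.hp i) (b.h3 i)
    (Q := qS p S) (B' := bS p e' S)
    (dvd_prod_if (fun j => j ∈ S) hi one_ne_zero)
    (dvd_prod_if (fun j => j ∈ S) hi he')
    (X0 := term p e pos x 0) (X1 := term p e pos x 1) (X2 := term p e pos x 2) hx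
    (coprime_cube (hP.cop 0 1 (by decide)))
    (coprime_cube (hP.cop 0 2 (by decide))) h12
    (cast_pos (pos i) (fun k => (p i : ℤ) ∣ term p e pos x k)
      (Dvd.dvd.mul_right (dvd_prod_if (fun j => pos j = pos i) rfl he) _))
  exact ⟨⟨h1, h2⟩, h3, h4⟩

theorem tI_loc (b : BaseS p e e' S) (hS : S.Nonempty) (hP : IsPt p e pos x)
    (hP' : IsPt p e' (stdS S) y)
    {l : Eis} (hl : Prime l) (hl3 : ¬ l ∣ 3)
    (hno : ∀ j, ¬ l ∣ (p j : Eis)) (hbad : NonCube l (bS p e S)) :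
    3 ∣ V l (tI p e S pos x y) := by
  have hx := sum3 hP.sum
  have hy := sum3 hP'.sum
  have hprod := cell_prod p e pos
  have hprod' := cell_prod p e (stdS S)
  rw [cellS0, cellS2, one_mul] at hprod'
  have c0 := cellS0 p e' S
  have c1 := cellS1_eq b
  obtain ⟨i0, hi0⟩ := hS
  obtain ⟨-, hy0, hs0⟩ := tI_at b hP hP' hi0
  have k01 := hP'.cop 0 1 (by decide)
  have k02 := hP'.cop 0 2 (by decide)
  rw [c0, one_mul] at k01
  rw [c0, one_mul, cellS2] at k02
  rw [c0, cellS2] at hy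
  refine caseI_loc (B := bS p e S) (B' := bS p e' S) (C := cell p e' (stdS S) 1)
    (x := y 0) hl hl3 ?_ hbad b.bb hx ?_ (coprime_cube (hP.cop 0 1 (by decide))) ?_ k01 k02 hy0 hs0
  · intro h
    obtain ⟨j, hj⟩ := SPr.prod p (fun j => j ∈ S) (fun _ => 1) l hl h
    exact hno j hj
  · rw [← c1]
    have e1 : term p e pos x 0 * term p e pos x 1 * term p e pos x 2 =
      (cell p e pos 0 * cell p e pos 1 * cell p e pos 2) * (x 0 * x 1 * x 2) ^ 3 := by
      unfold term; ring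
    rw [e1, hprod, ← hprod']; ring
  · linear_combination hy

/-- case I -/
theorem caseI_S (b : BaseS p e e' S) (hS : S.Nonempty)
    (hP : IsPt p e pos x) (hP' : IsPt p e' (stdS S) y) :
    tI p e S pos x y ≠ 0 ∧ ∀ c : ZMod 3, Cls (tI p e S pos x y) c →
      ∑ i ∈ S, (e i : ZMod 3) * (((pos i : ℕ) : ZMod 3) * sym (p i : Eis) w) =
        c * ∑ i ∈ S, (e i : ZMod 3) * sym (p i : Eis) w := by
  have ht : tI p e S pos x y ≠ 0 := by
    obtain ⟨i, hi⟩ := hS
    intro h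
    have := (tI_at b hP hP' hi).1.1
    rw [h] at this
    exact this (dvd_zero _)
  refine ⟨ht, fun c hc => ?_⟩
  exact b.sum_of (f := fun i => ((pos i : ℕ) : ZMod 3)) ht (fun i hi => (tI_at b hP hP' hi).1) hc
    (fun _ hl hl3 hno hbad => tI_loc b hS hP hP' hl hl3 hno hbad)

/-! ### case III -/

theorem inertD_prodS (b : BaseS p e e' S) (c : Fin m → Prop) [DecidablePred c]
    (n : Fin m → ℕ) : InertD (∏ j, if c j then (p j : ℤ) ^ n j else 1) := by
  intro l hl _ h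
  obtain ⟨j, hj⟩ := SPr.prod p c n l hl h
  exact ⟨p j, b.hp j, b.h3 j, hl.associated_of_dvd (prime_inert (b.hp j) (b.h3 j)) hj⟩

theorem caseIII_S (b : BaseS p e e' S) {i0 i2 : Fin m} (hi0 : i0 ∈ S) (hi2 : i2 ∉ S)
    (hP : IsPt p e (stdS S) x) (hP' : IsPt p e' (stdS S) y) : False := by
  have hx := sum3 hP.sum
  have hy := sum3 hP'.sum
  have he0 : e i0 ≠ 0 := by have := b.he i0; omega
  have he0' : e' i0 ≠ 0 := by have := b.he' i0; omega
  have he2 : e i2 ≠ 0 := by have := b.he i2; omega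
  have c0 := cellS0 p e S
  have c0' := cellS0 p e' S
  have c1 := cellS1_eq b
  have k01 := hP.cop 0 1 (by decide)
  have k12 := hP.cop 1 2 (by decide)
  have k01' := hP'.cop 0 1 (by decide)
  have k12' := hP'.cop 1 2 (by decide)
  rw [c0, cellS2] at hx
  rw [c0', cellS2, ← c1] at hy
  rw [c0, one_mul] at k01
  rw [cellS2] at k12
  rw [c0', one_mul, ← c1] at k01'
  rw [cellS2, ← c1] at k12'
  refine caseIII_gen' (b.hp i0) (b.h3 i0) (b.hp i2) (b.h3 i2)
    (B := bS p e S) (B' := bS p e' S)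
    (C := cell p e (stdS S) 1) (Q := qS p S)
    b.bb (dvd_prod_if (fun j => j ∈ S) hi0 one_ne_zero)
    (dvd_prod_if (fun j => j ∈ S) hi0 he0)
    (dvd_prod_if (fun j => j ∈ S) hi0 he0') ?_ ?_ ?_
    (x := x 0) (y := x 1) (z := x 2) (x' := y 0) (y' := y 1) (z' := y 2)
    (by linear_combination hx) (by linear_combination hy) k01 k12 k01' k12' (hP.ne 2) (hP'.ne 2)
    (b.hw i0) (b.hw i2)
  · rw [cellS1]
    exact dvd_prod_if (fun j => ¬ j ∈ S) hi2 he2
  · rw [cellS1]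
    exact inertD_prodS b (fun j => ¬ j ∈ S) e
  · exact inertD_prodS b (fun j => j ∈ S) (fun _ => 1)

end Pool.Agent.CubeRank
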