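import Pool.Agent.CubeRank.LawB

/-!
# Classes at the prime above 3, a set `S` of exchanged primes
-/

set_option autoImplicit false

namespace Pool.Agent.CubeRank

open Pool.Agent.Lib_helper18 Pool.Agent.Lib_helper18.Eis Pool.Agent.Lib_helper84.Cub

variable {m : ℕ} {p e e' : Fin m → ℕ} {pos pos' : Fin m → Fin 3} {x y : Fin 3 → ℤ}
  {S : Finset (Fin m)}

/-- the class of the main element of case I -/
theorem cls_tIS (h3 : ∀ k, ¬ (3 : ℤ) ∣ cell p e pos k) (hP : IsPt p e pos x) {o : Fin 3}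
    (hI : PInfo p e pos x o) (hT : (3 : ℤ) ∣ x 0 * x 1 * x 2 ∨ (3 : ℤ) ∣ y 2)
    (hy : ¬ (3 : ℤ) ∣ y 1) : Cls (tI p e S pos x y) ((o : ℕ) : ZMod 3) := by
  have hsum : term p e pos x 0 + term p e pos x 1 + term p e pos x 2 = 0 := sum3 hP.sum
  have h9T : (9 : ℤ) ∣ 3 * (x 0 * x 1 * x 2) * (qS p S * y 2) := by
    rcases hT with ⟨u, hu⟩ | ⟨u, hu⟩
    · rw [hu]; exact ⟨u * (qS p S * y 2), by ring⟩
    · rw [hu]; exact ⟨x 0 * x 1 * x 2 * (qS p S * u), by ring⟩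
  have d9 : ∀ k, (3 : ℤ) ∣ x k → (9 : ℤ) ∣ term p e pos x k := by
    rintro k ⟨u, hu⟩
    refine ⟨cell p e pos k * (3 * u ^ 3), ?_⟩
    unfold term
    rw [hu]; ring
  have hX : ∀ k, ¬ (3 : ℤ) ∣ x k → ¬ (3 : ℤ) ∣ term p e pos x k := fun k hk =>
    ndvd_mul (h3 k) (fun h => hk (Int.prime_three.dvd_of_dvd_pow h))
  have hu := hI.unit
  have ho : o = 0 ∨ o = 1 ∨ o = 2 := by clear * -; revert o; decide
  unfold tI tOne
  rcases hI.alt with h | ⟨-, h⟩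
  · apply clsOne_div h9T hy hsum
    rcases ho with rfl | rfl | rfl
    · exact Or.inl ⟨d9 0 h, hX 1 (hu 1 (by decide)), by decide⟩
    · exact Or.inr (Or.inl ⟨d9 1 h, hX 0 (hu 0 (by decide)), by decide⟩)
    · exact Or.inr (Or.inr ⟨d9 2 h, hX 0 (hu 0 (by decide)), by decide⟩)
  · apply clsOne_non h9T hy hsum
    rcases ho with rfl | rfl | rfl
    · exact Or.inl ⟨h 1 2 (by decide) (by decide), hX 1 (hu 1 (by decide)), by decide⟩
    · exact Or.inr (Or.inl ⟨h 0 2 (by decide) (by decide), hX 0 (hu 0 (by decide)), by decide⟩)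
    · exact Or.inr (Or.inr ⟨h 0 1 (by decide) (by decide), hX 0 (hu 0 (by decide)), by decide⟩)

theorem BaseS.rd3 (b : BaseS p e e' S) (pos : Fin m → Fin 3) (k : Fin 3) :
    ¬ (3 : ℤ) ∣ rdP p S pos k := by
  unfold rdP
  intro h
  rw [Prime.dvd_finsetProd_iff Int.prime_three] at h
  obtain ⟨j, -, hj⟩ := h
  split_ifs at hj with hc
  · have h1 := b.h3 j
    rw [pow_one] at hj
    omega
  · omega

theorem tII_eqS (p : Fin m → ℕ) (S : Finset (Fin m)) (pos : Fin m → Fin 3) (x y : Fin 3 → ℤ) :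
    tII p S pos x y = w * ((rdP p S pos 1 * x 1 * y 0 : ℤ) : Eis) +
      (-(rdP p S pos 0 * x 0 * y 1) : ℤ) := tTwo_eq _ _ _ _ _ _

theorem cls_tII_zeroS (b : BaseS p e e' S) (h : (3 : ℤ) ∣ x 1 ∨ (3 : ℤ) ∣ y 0)
    (h0 : ¬ (3 : ℤ) ∣ x 0) (h1 : ¬ (3 : ℤ) ∣ y 1) : Cls (tII p S pos x y) 0 := by
  rw [tII_eqS]
  refine clsTwo_zero ?_ (ndvd_mul (ndvd_mul (b.rd3 pos 0) h0) h1)
  rcases h with h | h
  · exact Dvd.dvd.mul_right (Dvd.dvd.mul_left h _) _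
  · exact Dvd.dvd.mul_left h _

theorem cls_tII_oneS (b : BaseS p e e' S) (h : (3 : ℤ) ∣ x 0 ∨ (3 : ℤ) ∣ y 1)
    (h0 : ¬ (3 : ℤ) ∣ x 1) (h1 : ¬ (3 : ℤ) ∣ y 0) : Cls (tII p S pos x y) 1 := by
  rw [tII_eqS]
  refine clsTwo_one ?_ (ndvd_mul (ndvd_mul (b.rd3 pos 1) h0) h1)
  rcases h with h | h
  · exact Dvd.dvd.mul_right (Dvd.dvd.mul_left h _) _
  · exact Dvd.dvd.mul_left h _

theorem cls_tII_twoS (b : BaseS p e e' S) (hpos : Exch S pos pos')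
    (hP : IsPt p e pos x) (hP' : IsPt p e' pos' y)
    (h3 : ∀ k, ¬ (3 : ℤ) ∣ cell p e pos k) (h3' : ∀ k, ¬ (3 : ℤ) ∣ cell p e' pos' k)
    (hx0 : ¬ (3 : ℤ) ∣ x 0) (hx1 : ¬ (3 : ℤ) ∣ x 1) (hy0 : ¬ (3 : ℤ) ∣ y 0)
    (hy1 : ¬ (3 : ℤ) ∣ y 1) (hxy : (3 : ℤ) ∣ x 2 ∨ (3 : ℤ) ∣ y 2) :
    Cls (tII p S pos x y) 2 := by
  have hx := sum3 hP.sum
  have hy := sum3 hP'.sum
  have h1 := exch_h1 b hpos
  set X := rdP p S pos 1 * x 1 * y 0 with hX
  set Y := rdP p S pos 0 * x 0 * y 1 with hY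
  have hXn : ¬ (3 : ℤ) ∣ X := ndvd_mul (ndvd_mul (b.rd3 pos 1) hx1) hy0
  have hYn : ¬ (3 : ℤ) ∣ Y := ndvd_mul (ndvd_mul (b.rd3 pos 0) hx0) hy1
  have hid : cell p e' pos' 0 * cell p e pos 1 * (X ^ 3 - Y ^ 3) =
      rdP p S pos 1 ^ 3 * (cell p e pos 0 * cell p e' pos' 2 * (x 0 * y 2) ^ 3 -
        cell p e' pos' 0 * cell p e pos 2 * (x 2 * y 0) ^ 3) := by
    rw [hX, hY]
    linear_combination (x 0 * y 1) ^ 3 * h1 +
      rdP p S pos 1 ^ 3 * cell p e' pos' 0 * y 0 ^ 3 * hx -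
      rdP p S pos 1 ^ 3 * cell p e pos 0 * x 0 ^ 3 * hy
  have c3 : ∀ {z : ℤ}, ¬ (3 : ℤ) ∣ z → ¬ (3 : ℤ) ∣ z ^ 3 := fun hz h =>
    hz (Int.prime_three.dvd_of_dvd_pow h)
  -- if `X = Y` modulo 3 then both parts are divisible by 3
  have key : (3 : ℤ) ∣ X - Y → (3 : ℤ) ∣ x 2 ∧ (3 : ℤ) ∣ y 2 := by
    intro h
    have h4 : (3 : ℤ) ∣ cell p e' pos' 0 * cell p e pos 1 * (X ^ 3 - Y ^ 3) := by
      apply Dvd.dvd.mul_left
      exact h.trans (sub_dvd_pow_sub_pow X Y 3)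
    rw [hid] at h4
    have h5 := (Int.prime_three.dvd_or_dvd h4).resolve_left
      (fun h => b.rd3 pos 1 (Int.prime_three.dvd_of_dvd_pow h))
    rcases hxy with hd | hd
    · refine ⟨hd, ?_⟩
      by_contra hy2
      have h6 : (3 : ℤ) ∣ cell p e' pos' 0 * cell p e pos 2 * (x 2 * y 0) ^ 3 :=
        Dvd.dvd.mul_left (Dvd.dvd.pow (Dvd.dvd.mul_right hd _) (by norm_num)) _
      have h7 := dvd_add h5 h6
      rw [sub_add_cancel] at h7
      exact ndvd_mul (ndvd_mul (h3 0) (h3' 2)) (c3 (ndvd_mul hx0 hy2)) h7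
    · refine ⟨?_, hd⟩
      by_contra hx2
      have h6 : (3 : ℤ) ∣ cell p e pos 0 * cell p e' pos' 2 * (x 0 * y 2) ^ 3 :=
        Dvd.dvd.mul_left (Dvd.dvd.pow (Dvd.dvd.mul_left hd _) (by norm_num)) _
      have h7 := dvd_sub h6 h5
      rw [sub_sub_cancel] at h7
      exact ndvd_mul (ndvd_mul (h3' 0) (h3 2)) (c3 (ndvd_mul hx2 hy0)) h7
  rw [tII_eqS]
  by_cases hXY : (3 : ℤ) ∣ X - Y
  · obtain ⟨⟨v, hv⟩, ⟨u, hu⟩⟩ := key hXY
    refine clsTwo_two' hXn ?_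
    apply cube_congr hXn
    have h27 : (3 : ℤ) ^ 3 ∣ (cell p e' pos' 0 * cell p e pos 1) * (X ^ 3 - Y ^ 3) := by
      rw [hid, hu, hv]
      exact ⟨rdP p S pos 1 ^ 3 * (cell p e pos 0 * cell p e' pos' 2 * (x 0 * u) ^ 3 -
        cell p e' pos' 0 * cell p e pos 2 * (v * y 0) ^ 3), by ring⟩
    have := Int.prime_three.pow_dvd_of_dvd_mul_left 3 (ndvd_mul (h3' 0) (h3 1)) h27
    norm_num at this
    exact this
  · exact clsTwo_two hXn (dvd_add_of hXn hYn hXY)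

/-! ### weights -/

theorem exc_aux : ∀ a b c : ZMod 3, ∀ o : Fin 3, OO ![a, b, c] o →
    b + 2 * c = ((o : ℕ) : ZMod 3) * (a + b + c) := by decide

theorem sum_cells (f : Fin m → ZMod 3) (pos : Fin m → Fin 3) :
    ∑ i, f i * ((pos i : ℕ) : ZMod 3) =
      (∑ i, if pos i = 1 then f i else 0) + 2 * ∑ i, if pos i = 2 then f i else 0 := by
  rw [Finset.mul_sum, ← Finset.sum_add_distrib]
  refine Finset.sum_congr rfl (fun i _ => ?_)
  have h3 : pos i = 0 ∨ pos i = 1 ∨ pos i = 2 := by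
    generalize pos i = k; revert k; decide
  rcases h3 with h | h | h <;> simp [h]
  ring

theorem sum_cells' (f : Fin m → ZMod 3) (pos : Fin m → Fin 3) :
    ∑ i, f i = (∑ i, if pos i = 0 then f i else 0) + (∑ i, if pos i = 1 then f i else 0) +
      ∑ i, if pos i = 2 then f i else 0 := by
  rw [← Finset.sum_add_distrib, ← Finset.sum_add_distrib]
  refine Finset.sum_congr rfl (fun i _ => ?_)
  have h3 : pos i = 0 ∨ pos i = 1 ∨ pos i = 2 := by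
    generalize pos i = k; revert k; decide
  rcases h3 with h | h | h <;> simp [h]

/-- the exceptional cell is given by a linear form -/
theorem exc_eq (h9 : ∀ i, p i % 9 = 2 ∨ p i % 9 = 5) {o : Fin 3}
    (h : OO (fun k => wq (cell p e pos k)) o) :
    ∑ i, sw p e i * ((pos i : ℕ) : ZMod 3) = ((o : ℕ) : ZMod 3) * tw p e := by
  have e1 : (fun k => wq (cell p e pos k)) =
      ![∑ i, (if pos i = 0 then sw p e i else 0), ∑ i, (if pos i = 1 then sw p e i else 0),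
        ∑ i, (if pos i = 2 then sw p e i else 0)] := by
    ext k
    fin_cases k <;> exact wq_cell h9 pos _
  rw [e1] at h
  rw [sum_cells, tw, sum_cells' (sw p e) pos]
  exact exc_aux _ _ _ _ h

theorem cell_three' (h9 : ∀ i, p i % 9 = 2 ∨ p i % 9 = 5) (pos : Fin m → Fin 3) (k : Fin 3) :
    ¬ (3 : ℤ) ∣ cell p e pos k := by
  intro h
  rw [cell, Prime.dvd_finsetProd_iff Int.prime_three] at h
  obtain ⟨j, -, hj⟩ := h
  split_ifs at hj
  · exact not_three_dvd (h9 j) (Int.prime_three.dvd_of_dvd_pow hj)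
  · omega

/-- 3-adic information in terms of the total weight -/
theorem info (h9 : ∀ i, p i % 9 = 2 ∨ p i % 9 = 5) (hP : IsPt p e pos x) :
    ∃ o, PInfo p e pos x o ∧
      ∑ i, sw p e i * ((pos i : ℕ) : ZMod 3) = ((o : ℕ) : ZMod 3) * tw p e ∧
      (tw p e = 1 → (3 : ℤ) ∣ x o) := by
  obtain ⟨o, ho⟩ := pt_info (cell_three' h9 pos) hP
  refine ⟨o, ho, exc_eq h9 ho.out, fun h => ho.div ?_⟩
  rw [wq_all h9]; exact h

end Pool.Agent.CubeRank
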