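import Pool.Agent.CubeRank.TMain

/-!
# The average of `4 ^ r(A)` in the family of all twists by inert primes of a given curve
-/

set_option autoImplicit false

namespace Pool.Agent.CubeRank

open Pool.Agent.Lib_helper18 Pool.Agent.Lib_helper18.Eis Pool.Agent.Lib_helper84.Cub

namespace TMain

variable {m : ℕ} {p e e' : Fin m → ℕ}

/-- the exchanged weight vanishes in a class -/
theorem sumS_zero (h : HypT p e) (h' : HypT p e') (htg : tg p e = tg p e') :
    ∑ i ∈ dS e e', sg p e i = 0 := by
  classical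
  have h1 : tg p e' - tg p e = ∑ i ∈ dS e e', sg p e i := by
    unfold tg
    rw [← Finset.sum_sub_distrib, dS, Finset.sum_filter]
    refine Finset.sum_congr rfl (fun i _ => ?_)
    have h2 := h.he i
    have h3 := h'.he i
    split_ifs with h4
    · have h5 : e' i + e i = 3 := by omega
      have h6 : (e' i : ZMod 3) + (e i : ZMod 3) = 3 := by exact_mod_cast congrArg Nat.cast h5
      unfold sg
      split_ifs
      · ring
      · linear_combination (wq (p i : ℤ)) * h6 + (wq (p i : ℤ) - (e i : ZMod 3) * wq (p i : ℤ)) * three_zmod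
    · rw [not_not] at h4
      unfold sg
      rw [h4, sub_self]
  rw [← h1, htg, sub_self]

section

variable (hAdd : KapAddStmtT) (hRep : KapRepStmtT)
include hAdd hRep

/-- the law in terms of `WW` -/
theorem law_WW (h : HypT p e) (h' : HypT p e') (h3 : ∀ i, e i ≠ e' i → p i % 3 = 2)
    (htg : tg p e = tg p e') {v : Fin m → ZMod 3} (hv : v ∈ WW p e) (hv' : v ∈ WW p e')
    (hv0 : ∀ i, v i ≠ 0) (hc : ¬ ∃ c, ∀ i, (e i : ZMod 3) * v i = c)
    (hc' : ¬ ∃ c, ∀ i, (e' i : ZMod 3) * v i = c) :
    ∑ i, (if p i = 3 then 0 else wq (p i : ℤ)) * v i *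
      ((e i : ZMod 3) - (e' i : ZMod 3)) ^ 2 = 0 := by
  rw [mem_WW hAdd h] at hv
  rw [mem_WW hAdd h'] at hv'
  obtain ⟨P, hP⟩ := hv
  obtain ⟨P', hP'⟩ := hv'
  have r1 := (hRep m p e h P _ hP).2 hc
  have r2 := (hRep m p e' h' P' _ hP').2 hc'
  have h1 := lawT m p e e' (dS e e') h h' (fun i => mem_dS) (fun i hi => h3 i (mem_dS.mp hi))
    (sumS_zero h h' htg) _ _ r1 r2 (fun i => mul_ne_zero (cast_ne h.he i) (hv0 i)) (fun i => by
    have h2 := h.he i
    have h4 := h'.he i
    split_ifs with h5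
    · have h5' := mem_dS.mp h5
      have h6 : e' i + e i = 3 := by omega
      have h7 : (e' i : ZMod 3) + (e i : ZMod 3) = 3 := by exact_mod_cast congrArg Nat.cast h6
      linear_combination (v i) * h7 + (v i) * three_zmod
    · have h5' : e i = e' i := by
        by_contra h6
        exact h5 (mem_dS.mpr h6)
      rw [h5'])
  refine Eq.trans ?_ h1
  rw [dS, Finset.sum_filter]
  refine Finset.sum_congr rfl (fun i _ => ?_)
  have h2 := h.he i
  have h4 := h'.he i
  split_ifs with h5 h6 h6
  · rw [sg, if_pos h5]; ring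
  · rw [not_not.mp h6]; ring
  · rw [sg, if_neg h5]
    have h7 : ((e i : ZMod 3) - (e' i : ZMod 3)) ^ 2 = (e i : ZMod 3) * (e i : ZMod 3) := by
      rcases h2 with h2 | h2 <;> rcases h4 with h4 | h4
      · exact absurd (h2.trans h4.symm) h6
      · rw [h2, h4]; decide
      · rw [h2, h4]; decide
      · exact absurd (h2.trans h4.symm) h6
    rw [h7]; ring
  · rw [not_not.mp h6]; ring

open Classical in
/-- the sum over one class -/
theorem sum_class (hm : 1 ≤ m) (p : Fin m → ℕ) (I : Finset (Fin m)) (hI : ∀ i ∈ I, p i % 3 = 2)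
    (F : Finset (Fin m → ℕ)) (hF : ∀ e ∈ F, HypT p e)
    (hF' : ∀ e ∈ F, ∀ e' ∈ F, (∀ i, i ∉ I → e i = e' i) ∧ tg p e = tg p e') :
    ∑ e ∈ F, 4 ^ Module.finrank (ZMod 3) (WW p e) ≤
      2 ^ m * (2 ^ m * (2 ^ ((I.filter (fun i => p i % 9 ≠ 8)).card / 2 +
        (I.filter (fun i => p i % 9 = 8)).card) + 2)) := by
  have h1 : ∀ e ∈ F, 4 ^ Module.finrank (ZMod 3) (WW p e) ≤
      2 ^ m * ((Nz m).filter (fun v => v ∈ WW p e)).card := by
    intro e he
    have h := hF e he
    refine (warn m (WW p e) _ (self_mem hAdd h) (cast_ne h.he)).trans ?_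
    refine Nat.mul_le_mul_left _ (le_of_eq ?_)
    rw [Nat.card_eq_fintype_card, Fintype.card_subtype]
    congr 1
    ext v
    simp only [Finset.mem_filter, Finset.mem_univ, true_and, mem_Nz]
    tauto
  refine (Finset.sum_le_sum h1).trans ?_
  rw [← Finset.mul_sum]
  refine Nat.mul_le_mul_left _ ?_
  -- double counting
  have h2 : ∑ e ∈ F, ((Nz m).filter (fun v => v ∈ WW p e)).card =
      ∑ v ∈ Nz m, (F.filter (fun e => v ∈ WW p e)).card := by
    simp only [Finset.card_filter]
    exact Finset.sum_comm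
  rw [h2, ← card_Nz m]
  refine (Finset.sum_le_card_nsmul _ _ (2 ^ ((I.filter (fun i => p i % 9 ≠ 8)).card / 2 +
        (I.filter (fun i => p i % 9 = 8)).card) + 2) (fun v hv => ?_)).trans
    (le_of_eq (smul_eq_mul _ _))
  rw [mem_Nz] at hv
  -- exceptional curves
  have hsplit : F.filter (fun e => v ∈ WW p e) ⊆
      F.filter (fun e => v ∈ WW p e ∧ ¬ ∃ c, ∀ i, (e i : ZMod 3) * v i = c) ∪
      F.filter (fun e => ∃ c, ∀ i, (e i : ZMod 3) * v i = c) := by
    intro f hf
    rw [Finset.mem_filter] at hf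
    by_cases hc : ∃ c, ∀ i, (f i : ZMod 3) * v i = c
    · exact Finset.mem_union_right _ (Finset.mem_filter.mpr ⟨hf.1, hc⟩)
    · exact Finset.mem_union_left _ (Finset.mem_filter.mpr ⟨hf.1, hf.2, hc⟩)
  refine (Finset.card_le_card hsplit).trans ((Finset.card_union_le _ _).trans ?_)
  refine Nat.add_le_add ?_ ?_
  swap
  · -- at most two curves
    set i0 : Fin m := ⟨0, hm⟩
    have : (F.filter (fun e => ∃ c, ∀ i, (e i : ZMod 3) * v i = c)).card ≤
        ({1, 2} : Finset ℕ).card := by
      refine Finset.card_le_card_of_injOn (fun e => e i0) ?_ ?_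
      · intro f hf
        have h4 := (hF f (Finset.mem_filter.mp hf).1).he i0
        simp only [Finset.coe_insert, Finset.coe_singleton, Set.mem_insert_iff,
          Set.mem_singleton_iff]
        exact h4
      · intro f hf g hg hfg
        have h4 := (hF f (Finset.mem_filter.mp hf).1).he
        have h5 := (hF g (Finset.mem_filter.mp hg).1).he
        obtain ⟨c, hc⟩ := (Finset.mem_filter.mp hf).2
        obtain ⟨c', hc'⟩ := (Finset.mem_filter.mp hg).2
        simp only at hfg
        have hcc : c = c' := by rw [← hc i0, ← hc' i0, hfg]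
        funext i
        have h6 : (f i : ZMod 3) = (g i : ZMod 3) := by
          apply mul_right_cancel₀ (hv i)
          rw [hc, hc', hcc]
        rcases h4 i with h7 | h7 <;> rcases h5 i with h8 | h8 <;> rw [h7, h8] at h6 ⊢ <;>
          exact absurd h6 (by decide)
    exact this.trans (by decide)
  -- the clique
  set G := F.filter (fun e => v ∈ WW p e ∧ ¬ ∃ c, ∀ i, (e i : ZMod 3) * v i = c) with hG
  have h3 : G.card = (G.image (fun e => fun i => (e i : ZMod 3))).card := by
    refine (Finset.card_image_of_injOn ?_).symm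
    intro f hf g hg hfg
    have h4 := (hF f (Finset.mem_filter.mp hf).1).he
    have h5 := (hF g (Finset.mem_filter.mp hg).1).he
    funext i
    have h6 := congrFun hfg i
    simp only at h6
    rcases h4 i with h7 | h7 <;> rcases h5 i with h8 | h8 <;> rw [h7, h8] at h6 ⊢ <;>
      exact absurd h6 (by decide)
  rw [h3]
  refine clique m (I.filter (fun i => p i % 9 ≠ 8)) (I.filter (fun i => p i % 9 = 8))
    (fun i => (if p i = 3 then 0 else wq (p i : ℤ)) * v i) _ ?_ ?_ ?_ ?_
  · intro i hi
    have h4 := Finset.mem_filter.mp hi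
    have h5 := hI i h4.1
    show (if p i = 3 then 0 else wq (p i : ℤ)) * v i ≠ 0
    rw [if_neg (by omega)]
    exact mul_ne_zero (wq_ne (by have := h4.2; omega)) (hv i)
  · intro x hx i
    obtain ⟨f, hf, rfl⟩ := Finset.mem_image.mp hx
    exact cast_ne (hF f (Finset.mem_filter.mp hf).1).he i
  · intro x hx y hy i hi hi'
    obtain ⟨f, hf, rfl⟩ := Finset.mem_image.mp hx
    obtain ⟨g, hg, rfl⟩ := Finset.mem_image.mp hy
    have hiI : i ∉ I := by
      intro h4
      by_cases h5 : p i % 9 = 8
      · exact hi' (Finset.mem_filter.mpr ⟨h4, h5⟩)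
      · exact hi (Finset.mem_filter.mpr ⟨h4, h5⟩)
    have h6 := (hF' f (Finset.mem_filter.mp hf).1 g (Finset.mem_filter.mp hg).1).1 i hiI
    simp only
    rw [h6]
  · intro x hx y hy
    obtain ⟨f, hf, rfl⟩ := Finset.mem_image.mp hx
    obtain ⟨g, hg, rfl⟩ := Finset.mem_image.mp hy
    have hf' := Finset.mem_filter.mp hf
    have hg' := Finset.mem_filter.mp hg
    have h6 := hF' f hf'.1 g hg'.1
    have h7 := law_WW hAdd hRep (hF f hf'.1) (hF g hg'.1) (fun i hi => by
      by_contra h8
      exact hi (h6.1 i (fun h9 => h8 (hI i h9)))) h6.2 hf'.2.1 hg'.2.1 hv hf'.2.2 hg'.2.2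
    refine Eq.trans ?_ h7
    refine Finset.sum_subset (Finset.subset_univ _) (fun i _ hi => ?_)
    simp only
    by_cases hiI : i ∈ I
    · have h8 : (if p i = 3 then 0 else wq (p i : ℤ)) = 0 := by
        have h3i := hI i hiI
        rw [if_neg (by omega)]
        have h10 : p i % 9 = 8 := by
          by_contra h11
          exact hi (Finset.mem_filter.mpr ⟨hiI, h11⟩)
        exact (wq_zero_iff (by omega)).mpr (by omega)
      rw [h8, zero_mul, zero_mul]
    · rw [h6.1 i hiI]; ring

end

end TMain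

end Pool.Agent.CubeRank
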