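import Pool.Agent.CubeRank.TDefs

/-!
# `a + ω b` is a cube times an element of bounded norm (T4)
-/

set_option autoImplicit false

namespace Pool.Agent.CubeRank

open Pool.Agent.Lib_helper18 Pool.Agent.Lib_helper18.Eis

namespace TClsAux

/-- every nonzero element is `s t² γ³` with `s t` squarefree -/
theorem decomp (z : Eis) (hz : z ≠ 0) :
    ∃ s t γ : Eis, z = s * t ^ 2 * γ ^ 3 ∧ Squarefree (s * t) := by
  induction z using UniqueFactorizationMonoid.induction_on_prime with
  | h₁ => exact absurd rfl hz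
  | h₂ x hx => exact ⟨x, 1, 1, by ring, by rw [mul_one]; exact hx.squarefree⟩
  | h₃ a p ha hp ih =>
    obtain ⟨s, t, γ, h1, h2⟩ := ih ha
    by_cases hs : p ∣ s
    · obtain ⟨s1, rfl⟩ := hs
      refine ⟨s1, p * t, γ, by rw [h1]; ring, ?_⟩
      have e : s1 * (p * t) = p * s1 * t := by ring
      rw [e]
      exact h2
    · by_cases ht : p ∣ t
      · obtain ⟨t1, rfl⟩ := ht
        refine ⟨s, t1, p * γ, by rw [h1]; ring, ?_⟩
        have e : s * (p * t1) = (s * t1) * p := by ring
        rw [e] at h2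
        exact h2.squarefree_of_dvd (dvd_mul_right _ _)
      · refine ⟨p * s, t, γ, by rw [h1]; ring, ?_⟩
        have e : p * s * t = p * (s * t) := by ring
        rw [e]
        have hst : ¬ p ∣ s * t := fun h => (hp.dvd_or_dvd h).elim hs ht
        rw [squarefree_mul_iff]
        refine ⟨?_, hp.irreducible.squarefree, h2⟩
        rw [hp.irreducible.isRelPrime_iff_not_dvd]
        exact hst

/-- all primes of `r` divide `B` -/
theorem dvd_pow_of_primes (B r : Eis) (hr : r ≠ 0) (h : ∀ q : Eis, Prime q → q ∣ r → q ∣ B) :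
    ∃ n : ℕ, r ∣ B ^ n := by
  induction r using UniqueFactorizationMonoid.induction_on_prime with
  | h₁ => exact absurd rfl hr
  | h₂ x hx => exact ⟨0, by rw [pow_zero]; exact hx.dvd⟩
  | h₃ a p ha hp ih =>
    obtain ⟨n, hn⟩ := ih ha fun q hq hqa => h q hq (dvd_mul_of_dvd_right hqa _)
    refine ⟨n + 1, ?_⟩
    rw [pow_succ, mul_comm]
    exact mul_dvd_mul hn (h p hp (dvd_mul_right _ _))

theorem sqf_dvd {B r : Eis} (hr : Squarefree r) (h : ∀ q : Eis, Prime q → q ∣ r → q ∣ B) :
    r ∣ B := by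
  obtain ⟨n, hn⟩ := dvd_pow_of_primes B r hr.ne_zero h
  exact hr.isRadical n B hn

theorem N_pos {x : Eis} (hx : x ≠ 0) : 0 < N x := by
  have := norm_pos hx
  unfold N
  omega

theorem N_le_of_dvd {x y : Eis} (hy : y ≠ 0) (h : x ∣ y) : N x ≤ N y := by
  obtain ⟨m, rfl⟩ := h
  rw [N_mul]
  have hm : m ≠ 0 := by
    rintro rfl
    simp at hy
  exact Nat.le_mul_of_pos_right _ (N_pos hm)

/-- multiplicities: no prime dividing `s t` can be prime to the other factors -/
theorem mult_contra {p s t γ x A c : Eis} (hp : Prime p) (hst : Squarefree (s * t))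
    (hpst : p ∣ s * t) (hx : ¬ p ∣ x) (hA : ¬ p ∣ A) (hc : c ≠ 0)
    (h : s * t ^ 2 * γ ^ 3 * x = A * c ^ 3) : False := by
  have hA0 : A ≠ 0 := by rintro rfl; exact hA (dvd_zero _)
  have hR : A * c ^ 3 ≠ 0 := mul_ne_zero hA0 (pow_ne_zero _ hc)
  have hL : s * t ^ 2 * γ ^ 3 * x ≠ 0 := by rw [h]; exact hR
  have hx0 : x ≠ 0 := right_ne_zero_of_mul hL
  have h1 := left_ne_zero_of_mul hL
  have hγ3 : γ ^ 3 ≠ 0 := right_ne_zero_of_mul h1
  have h2 := left_ne_zero_of_mul h1
  have ht2 : t ^ 2 ≠ 0 := right_ne_zero_of_mul h2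
  have hs0 : s ≠ 0 := left_ne_zero_of_mul h2
  have hγ : γ ≠ 0 := fun e => hγ3 (by rw [e]; simp)
  have ht : t ≠ 0 := fun e => ht2 (by rw [e]; simp)
  have fin : ∀ {y : Eis}, y ≠ 0 → FiniteMultiplicity p y := fun hy =>
    FiniteMultiplicity.of_prime_left hp hy
  have e1 : multiplicity p (s * t ^ 2 * γ ^ 3 * x) = multiplicity p (A * c ^ 3) := by rw [h]
  rw [multiplicity_mul hp (fin hL), multiplicity_mul hp (fin h1), multiplicity_mul hp (fin h2),
    multiplicity_mul hp (fin hR), (fin ht).multiplicity_pow hp, (fin hγ).multiplicity_pow hp,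
    (fin hc).multiplicity_pow hp, multiplicity_eq_zero.mpr hx, multiplicity_eq_zero.mpr hA] at e1
  have e2 : multiplicity p (s * t) = multiplicity p s + multiplicity p t :=
    multiplicity_mul hp (fin (mul_ne_zero hs0 ht))
  have e3 : multiplicity p (s * t) ≤ 1 := by
    by_contra hcon
    push Not at hcon
    have h4 : p ^ 2 ∣ s * t := (pow_dvd_pow p hcon).trans (pow_multiplicity_dvd p (s * t))
    rw [pow_two] at h4
    exact hp.not_isUnit (hst p h4)
  have e4 : multiplicity p (s * t) ≠ 0 := by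
    intro h0
    exact (multiplicity_eq_zero.mp h0) hpst
  omega

/-- a prime above `q = 2 mod 3` is `q` itself -/
theorem inert {l : Eis} (hl : Prime l) {q : ℕ} (hq : q.Prime) (h : q % 3 = 2) (hlq : l ∣ (q : Eis)) :
    (q : Eis) ∣ l := by
  obtain ⟨q', hq', hlq', hn⟩ := exists_rational_prime hl
  have hqq : q' = q := by
    by_contra hne
    have hcop : Nat.Coprime q' q := (Nat.coprime_primes hq' hq).mpr hne
    have h1 : IsCoprime (q' : ℤ) (q : ℤ) := Nat.isCoprime_iff_coprime.mpr hcop
    obtain ⟨u, v, huv⟩ := h1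
    have h2 : l ∣ 1 := by
      have e : (1 : Eis) = (u : Eis) * (q' : Eis) + (v : Eis) * (q : Eis) := by
        have := congrArg (fun n : ℤ => (n : Eis)) huv
        push_cast at this
        exact this.symm
      rw [e]
      exact dvd_add (dvd_mul_of_dvd_right hlq' _) (dvd_mul_of_dvd_right hlq _)
    exact hl.not_isUnit (isUnit_of_dvd_one h2)
  subst hqq
  have hn2 : l.norm = (q' : ℤ) ^ 2 := by
    rcases hn with hn | hn
    · exfalso
      have := norm_emod_three l
      rw [hn] at this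
      omega
    · exact hn
  obtain ⟨m, hm⟩ := hlq
  have h3 : (q' : ℤ) ^ 2 = l.norm * m.norm := by rw [← norm_mul, ← hm, norm_natCast]
  have hq0 : (q' : ℤ) ^ 2 ≠ 0 := by
    have := hq.pos
    positivity
  have h4 : m.norm = 1 := by
    rw [hn2] at h3
    have : (q' : ℤ) ^ 2 * 1 = (q' : ℤ) ^ 2 * m.norm := by rw [mul_one]; exact h3
    exact (mul_left_cancel₀ hq0 this).symm
  have h5 : IsUnit m := isUnit_iff_norm.mpr h4
  obtain ⟨n, hn'⟩ := h5.exists_right_inv
  exact ⟨n, by rw [hm, mul_assoc, hn', mul_one]⟩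

theorem not_dvd_coprime {p : Eis} (hp : Prime p) {a b : ℤ} (h : IsCoprime a b)
    (ha : p ∣ (a : Eis)) (hb : p ∣ (b : Eis)) : False := by
  obtain ⟨u, v, huv⟩ := h
  have h2 : p ∣ 1 := by
    have e : (1 : Eis) = (u : Eis) * (a : Eis) + (v : Eis) * (b : Eis) := by
      have := congrArg (fun n : ℤ => (n : Eis)) huv
      push_cast at this
      exact this.symm
    rw [e]
    exact dvd_add (dvd_mul_of_dvd_right ha _) (dvd_mul_of_dvd_right hb _)
  exact hp.not_isUnit (isUnit_of_dvd_one h2)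

end TClsAux

open TClsAux in
theorem clsT : ClsStmtT := by
  intro A0 A hA0 hA hq a b c hc hab heq
  set z : Eis := (a : Eis) + w * b with hz
  have hzre : z.re = a := by simp [hz]
  have hzim : z.im = b := by simp [hz]
  have hz0 : z ≠ 0 := by
    intro h
    have ha : a = 0 := by rw [← hzre, h]; rfl
    have hb : b = 0 := by rw [← hzim, h]; rfl
    rw [ha, hb] at hab
    have := isCoprime_zero_left.mp hab
    simp at this
  have hcz : conj z = (a : Eis) + w ^ 2 * b := by
    rw [hz, map_add, map_mul, conj_w, conj_intCast, conj_intCast]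
  have hcube : z * (conj z * ((a : Eis) + b)) = (A : Eis) * (c : Eis) ^ 3 := by
    have e := congrArg (fun n : ℤ => (n : Eis)) heq
    push_cast at e
    rw [← e, hcz, hz]
    have h1 := w_rel
    have h3 := w_cube
    linear_combination ((a : Eis) ^ 2 * b + a * b ^ 2) * h1 + ((a : Eis) * b ^ 2 + b ^ 3) * h3
  obtain ⟨s, t, γ, h1, h2⟩ := decomp z hz0
  have hst0 : s * t ≠ 0 := h2.ne_zero
  have hcE : (c : Eis) ≠ 0 := by
    intro h
    have := congrArg Eis.re h
    simp at this
    exact hc this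
  -- primes of s t divide 3 A0
  have key : ∀ p : Eis, Prime p → p ∣ s * t → p ∣ ((3 * A0 : ℤ) : Eis) := by
    intro p hp hpst
    have e3 : ((3 * A0 : ℤ) : Eis) = 3 * (A0 : Eis) := by push_cast; ring
    rw [e3]
    by_cases hp3 : p ∣ 3
    · exact dvd_mul_of_dvd_left hp3 _
    refine dvd_mul_of_dvd_right ?_ _
    have hpz : p ∣ z := by
      rw [h1]
      refine dvd_mul_of_dvd_left ?_ _
      rcases hp.dvd_or_dvd hpst with h | h
      · exact dvd_mul_of_dvd_left h _
      · exact dvd_mul_of_dvd_right (dvd_pow h two_ne_zero) _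
    have hplam : ¬ p ∣ lam := fun h => hp3 (h.trans lam_dvd_three)
    have hpw : ¬ p ∣ w := by
      intro h
      have : p ∣ w ^ 3 := dvd_pow h (by norm_num)
      rw [w_cube] at this
      exact hp.not_isUnit (isUnit_of_dvd_one this)
    have hpb : ¬ p ∣ (b : Eis) := by
      intro h
      have ha : p ∣ (a : Eis) := by
        have := dvd_sub hpz (dvd_mul_of_dvd_right h w)
        rw [hz, add_sub_cancel_right] at this
        exact this
      exact not_dvd_coprime hp hab ha h
    have hpcz : ¬ p ∣ conj z := by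
      intro h
      have h4 := dvd_sub hpz h
      have e : z - conj z = w * lam * (b : Eis) := by
        rw [hcz, hz, lam_eq]
        ring
      rw [e] at h4
      rcases hp.dvd_or_dvd h4 with h5 | h5
      · rcases hp.dvd_or_dvd h5 with h6 | h6
        · exact hpw h6
        · exact hplam h6
      · exact hpb h5
    have hpab : ¬ p ∣ ((a : Eis) + b) := by
      intro h
      have h4 := dvd_sub h hpz
      have e : (a : Eis) + b - z = lam * (b : Eis) := by
        rw [hz, lam_eq]
        ring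
      rw [e] at h4
      rcases hp.dvd_or_dvd h4 with h5 | h5
      · exact hplam h5
      · exact hpb h5
    have hpx : ¬ p ∣ conj z * ((a : Eis) + b) := fun h => (hp.dvd_or_dvd h).elim hpcz hpab
    have hpA : p ∣ (A : Eis) := by
      by_contra hcon
      refine mult_contra hp h2 hpst hpx hcon hcE ?_ (γ := γ)
      rw [← h1]
      exact hcube
    obtain ⟨q, hqp, hpq, -⟩ := exists_rational_prime hp
    have hqA : (q : ℤ) ∣ A := by
      by_contra hcon
      have hcop : IsCoprime (q : ℤ) A :=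
        ((Nat.prime_iff_prime_int.mp hqp).irreducible.coprime_iff_not_dvd).mpr hcon
      exact not_dvd_coprime hp hcop (by rw [Int.cast_natCast]; exact hpq) hpA
    rcases hq q hqp hqA with hq2 | hqA0
    · exfalso
      have h4 : (q : Eis) ∣ z := (inert hp hqp hq2 hpq).trans hpz
      rw [natCast_dvd_iff, hzre, hzim] at h4
      have h5 := hab.isUnit_of_dvd' h4.1 h4.2
      have h6 := (Nat.prime_iff_prime_int.mp hqp).not_isUnit
      exact h6 h5
    · refine hpq.trans ?_
      have h4 := intCast_dvd_intCast.mpr hqA0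
      rwa [Int.cast_natCast] at h4
  have hdvd : s * t ∣ ((3 * A0 : ℤ) : Eis) := sqf_dvd h2 key
  have h3A0 : ((3 * A0 : ℤ) : Eis) ≠ 0 := by
    intro h
    have := congrArg Eis.re h
    rw [intCast_re, zero_re] at this
    omega
  refine ⟨s * t ^ 2, γ, h1, ?_⟩
  have h5 : s * t ^ 2 ∣ (s * t) ^ 2 := ⟨s, by ring⟩
  have h6 : N (s * t ^ 2) ≤ N ((s * t) ^ 2) := N_le_of_dvd (pow_ne_zero _ hst0) h5
  have h7 : N (s * t) ≤ N ((3 * A0 : ℤ) : Eis) := N_le_of_dvd h3A0 hdvd
  have h8 : N ((3 * A0 : ℤ) : Eis) = 9 * A0.natAbs ^ 2 := by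
    unfold N
    rw [norm_intCast, Int.natAbs_pow, Int.natAbs_mul]
    norm_num
    ring
  have h9 : N ((s * t) ^ 2) = N (s * t) ^ 2 := by rw [pow_two, N_mul, pow_two]
  rw [h8] at h7
  calc N (s * t ^ 2) ≤ N ((s * t) ^ 2) := h6
    _ = N (s * t) ^ 2 := h9
    _ ≤ (9 * A0.natAbs ^ 2) ^ 2 := Nat.pow_le_pow_left h7 2
    _ = 81 * A0.natAbs ^ 4 := by ring

end Pool.Agent.CubeRank
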