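import Pool.Agent.CubeRank.GLawC

/-!
# Ranks of the curves `X³ + Y³ = A` for arbitrary `A` (statements of the modules)

`A = ∏ p_i ^ e_i`, the `p_i` arbitrary distinct primes, at least one of them `≡ 2, 5 (mod 9)`.
-/

set_option autoImplicit false

namespace Pool.Agent.CubeRank

open Pool.Agent.Lib_helper18 Pool.Agent.Lib_helper18.Eis Pool.Agent.Lib_helper84.Cub

/-- standing hypotheses, all primes allowed -/
structure HypT {m : ℕ} (p e : Fin m → ℕ) : Prop where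
  hp : ∀ i, (p i).Prime
  inj : Function.Injective p
  he : ∀ i, e i = 1 ∨ e i = 2
  ex : ∃ i, p i % 9 = 2 ∨ p i % 9 = 5

/-- the points which come from the 3-isogenous curve -/
def Lft (A : ℤ) (P : GA A) : Prop :=
  P = 0 ∨ ∃ (a b c : ℤ) (γ : Eis) (t1 t2 : ℤ), Crd A P a b c ∧ t1 ≠ 0 ∧ t2 ≠ 0 ∧
    (t1 : Eis) * ((a : Eis) + w * b) = t2 * (lam * γ ^ 3)

/-- (T1) every lifted point has a class -/
def KapExStmtT : Prop := ∀ (m : ℕ) (p e : Fin m → ℕ), HypT p e → ∀ P : GA (AA p e),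
  Lft (AA p e) P → ∃ v, KapG p e P v

/-- (T2) the class is additive -/
def KapAddStmtT : Prop := ∀ (m : ℕ) (p e : Fin m → ℕ), HypT p e →
  ∀ (P Q : GA (AA p e)) (v v' : Fin m → ZMod 3), KapG p e P v → KapG p e Q v' →
    KapG p e (P + Q) (v + v')

/-- (T3) points of class zero are multiples of 3, other classes are represented -/
def KapRepStmtT : Prop := ∀ (m : ℕ) (p e : Fin m → ℕ), HypT p e →
  ∀ (P : GA (AA p e)) (v : Fin m → ZMod 3), KapG p e P v →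
    ((∃ c, ∀ i, v i = c) → P ∈ threeMul (AA p e)) ∧ ((¬ ∃ c, ∀ i, v i = c) → Rep p e v)

/-- (T4) `a + ω b` is a cube times an element of bounded norm; primes `≡ 2 (mod 3)` do not occur -/
def ClsStmtT : Prop := ∀ A0 A : ℤ, A0 ≠ 0 → A ≠ 0 →
  (∀ q : ℕ, q.Prime → (q : ℤ) ∣ A → q % 3 = 2 ∨ (q : ℤ) ∣ A0) →
  ∀ a b c : ℤ, c ≠ 0 → IsCoprime a b → a ^ 3 + b ^ 3 = A * c ^ 3 →
    ∃ μ γ : Eis, (a : Eis) + w * b = μ * γ ^ 3 ∧ N μ ≤ 81 * A0.natAbs ^ 4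

/-- (T4b) two points with the same `μ` differ by a lifted point -/
def DiffStmtT : Prop := ∀ A : ℤ, A ≠ 0 → CubeFree A → (¬ ∃ n : ℤ, n ^ 3 = A) →
  ∀ (P Q : GA A) (a b c a' b' c' : ℤ) (μ γ γ' : Eis), Crd A P a b c → Crd A Q a' b' c' →
    (a : Eis) + w * b = μ * γ ^ 3 → (a' : Eis) + w * b' = μ * γ' ^ 3 → Lft A (P - Q)

/-- (T5) the law for classes without zeros -/
def LawStmtT : Prop := ∀ (m : ℕ) (p e e' : Fin m → ℕ) (S : Finset (Fin m)), HypT p e → HypT p e' →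
  (∀ i, i ∈ S ↔ e i ≠ e' i) → (∀ i ∈ S, p i % 3 = 2) → ∑ i ∈ S, sg p e i = 0 →
  ∀ v v' : Fin m → ZMod 3, Rep p e v → Rep p e' v' → (∀ i, v i ≠ 0) →
    (∀ i, v' i = if i ∈ S then - v i else v i) → ∑ i ∈ S, sg p e i * v i = 0

end Pool.Agent.CubeRank
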