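import Pool.Agent.CubeRank.TDefs

/-!
# Two points with the same `μ` differ by a lifted point (module T_DIFF)
-/

set_option autoImplicit false

namespace Pool.Agent.CubeRank

open Pool.Agent.Lib_helper18 Pool.Agent.Lib_helper18.Eis Pool.Agent.Lib_helper84.Cub

namespace TDiff

theorem crd_a_ne {A : ℤ} (hnc : ¬ ∃ n : ℤ, n ^ 3 = A) {P : GA A} {a b c : ℤ}
    (h : Crd A P a b c) : a ≠ 0 := by
  rintro rfl
  obtain ⟨_, hco, he, _⟩ := h
  have hb : IsUnit b := isCoprime_zero_left.mp hco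
  rw [zero_pow (by norm_num), zero_add] at he
  have hA : IsUnit A := by
    refine isUnit_of_dvd_unit (Dvd.intro _ he.symm) ?_
    exact hb.pow 3
  rcases Int.isUnit_iff.mp hA with h | h
  · exact hnc ⟨1, by rw [h]; norm_num⟩
  · exact hnc ⟨-1, by rw [h]; norm_num⟩

theorem lin_zero {x y : ℤ} (h : (x : Eis) - w * y = 0) : x = 0 ∧ y = 0 := by
  have h1 := congrArg Eis.re h
  have h2 := congrArg Eis.im h
  simp at h1 h2
  exact ⟨h1, h2⟩

end TDiff

open TDiff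

/-- (T4b) -/
theorem diffT (h1 : BasicsStmt) (h2 : CollStmt) : DiffStmtT := by
  intro A hA hcf hnc P Q a b c a' b' c' μ γ γ' hP hQ hμ hμ'
  by_cases hPQ : P = Q
  · left
    rw [hPQ, sub_self]
  right
  obtain ⟨hex, -, -, -, hneg⟩ := h1 A hA
  obtain ⟨a3, b3, c3, hR⟩ := hex hcf (P - Q) (sub_ne_zero.mpr hPQ)
  have hnP := (hneg P a b c hP).1
  obtain ⟨l, m, n, ⟨u, v, t, huvt⟩, hl1, -, -, hE⟩ := h2 A hA hnc (-P) Q (P - Q) b a c a' b' c'
    a3 b3 c3 (by abel) hnP hQ hR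
  -- nonvanishing
  have hb0 : b ≠ 0 := crd_a_ne hnc hnP
  have ha'0 : a' ≠ 0 := crd_a_ne hnc hQ
  have ha30 : a3 ≠ 0 := crd_a_ne hnc hR
  have hB : b * a' * a3 ≠ 0 := mul_ne_zero (mul_ne_zero hb0 ha'0) ha30
  have hM : (m : Eis) - w * l ≠ 0 := by
    intro h0
    obtain ⟨hm0, hl0⟩ := lin_zero h0
    rw [hm0, hl0] at hl1 huvt
    have hn0 : n * c = 0 := by linarith
    rcases mul_eq_zero.mp hn0 with h | h
    · rw [h] at huvt
      omega
    · exact hP.1 h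
  have hcast : ∀ z : ℤ, z ≠ 0 → (z : Eis) ≠ 0 := by
    intro z hz h0
    have := congrArg Eis.re h0
    simp at this
    exact hz this
  have hrhs : (A : Eis) * ((m : Eis) - w * l) ^ 3 * ((b * a' * a3 : ℤ) : Eis) ≠ 0 :=
    mul_ne_zero (mul_ne_zero (hcast A hA) (pow_ne_zero 3 hM)) (hcast _ hB)
  have hlhs := hrhs
  rw [← hE] at hlhs
  have hD : n ^ 3 + A * m ^ 3 ≠ 0 := by
    intro h0
    rw [h0] at hlhs
    simp at hlhs
  have hzQ : (a' : Eis) + w * b' ≠ 0 := by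
    intro h0
    rw [h0] at hlhs
    simp at hlhs
  have hzP : (b : Eis) + w * a ≠ 0 := by
    intro h0
    rw [h0] at hlhs
    simp at hlhs
  have hμ0 : μ ≠ 0 := by
    rintro rfl
    rw [zero_mul] at hμ'
    exact hzQ hμ'
  have hγ'0 : γ' ≠ 0 := by
    rintro rfl
    rw [zero_pow (by norm_num), mul_zero] at hμ'
    exact hzQ hμ'
  -- conjugation
  have hconj : (b : Eis) + w * a = w * (conj μ * conj γ ^ 3) := by
    have e1 := congrArg conj hμ
    simp only [map_mul, map_add, map_pow, conj_intCast, conj_w] at e1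
    rw [← e1]
    linear_combination (-(b : Eis)) * w_cube
  have hγ0 : γ ≠ 0 := by
    rintro rfl
    rw [map_zero, zero_pow (by norm_num), mul_zero, mul_zero] at hconj
    exact hzP hconj
  have h4 : lam ^ 4 = 9 * w ^ 2 := by
    rw [lam_eq]
    linear_combination (w ^ 2 - 5 * w + 1) * w_rel
  have eμ := mul_conj μ
  have eγ := mul_conj γ
  have eγ' := mul_conj γ'
  rw [hconj, hμ'] at hE
  refine ⟨a3, b3, c3, lam * (((m : Eis) - w * l) * (γ * conj γ')),
    9 * (n ^ 3 + A * m ^ 3) * μ.norm * (γ.norm * γ'.norm) ^ 3, A * (b * a' * a3), hR, ?_, ?_, ?_⟩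
  · have e1 : μ.norm ≠ 0 := fun h => hμ0 (norm_eq_zero.mp h)
    have e2 : γ.norm ≠ 0 := fun h => hγ0 (norm_eq_zero.mp h)
    have e3 : γ'.norm ≠ 0 := fun h => hγ'0 (norm_eq_zero.mp h)
    exact mul_ne_zero (mul_ne_zero (mul_ne_zero (by norm_num) hD) e1)
      (pow_ne_zero 3 (mul_ne_zero e2 e3))
  · exact mul_ne_zero hA hB
  · push_cast at hE ⊢
    rw [← eμ, ← eγ, ← eγ']
    linear_combination (9 * w ^ 2 * (γ * conj γ') ^ 3) * hE -
      (9 * ((n : Eis) ^ 3 + A * m ^ 3) * (μ * conj μ) *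
        ((γ * conj γ) * (γ' * conj γ')) ^ 3 * ((a3 : Eis) + w * b3)) * w_cube -
      ((A : Eis) * ((b : Eis) * a' * a3) * ((m : Eis) - w * l) ^ 3 * (γ * conj γ') ^ 3) * h4

end Pool.Agent.CubeRank
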