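import Pool.Agent.CubeRank.TDefs
import Pool.Agent.CubeRank.GKapAdd

/-!
# The class of a point is additive, arbitrary primes (module T_KAPADD)
-/

set_option autoImplicit false

namespace Pool.Agent.CubeRank

open Pool.Agent.Lib_helper18 Pool.Agent.Lib_helper18.Eis Pool.Agent.Lib_helper84.Cub

namespace TKapAdd

open KapAddAux GKapAdd

section

variable {m : ℕ} {p e : Fin m → ℕ} (H : HypT p e)
include H

theorem AA_ne : AA p e ≠ 0 := by
  unfold AA
  refine Finset.prod_ne_zero_iff.2 fun i _ => pow_ne_zero _ ?_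
  exact_mod_cast (H.hp i).ne_zero

theorem dvd_AA (i : Fin m) : (p i : ℤ) ∣ AA p e := by
  unfold AA
  refine (dvd_pow_self (p i : ℤ) ?_).trans (Finset.dvd_prod_of_mem _ (Finset.mem_univ i))
  rcases H.he i with h | h <;> omega

theorem cube_ndvd (i : Fin m) : ¬ (p i : ℤ) ^ 3 ∣ AA p e := by
  intro h
  unfold AA at h
  rw [← Finset.mul_prod_erase Finset.univ _ (Finset.mem_univ i)] at h
  have hZ := Nat.prime_iff_prime_int.mp (H.hp i)
  have h0 : (p i : ℤ) ^ e i ≠ 0 := pow_ne_zero _ hZ.ne_zero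
  have h1 : (p i : ℤ) ^ (e i + 1) ∣ (p i : ℤ) ^ 3 := pow_dvd_pow _ (by
    rcases H.he i with h | h <;> omega)
  have h2 := h1.trans h
  rw [pow_succ] at h2
  have h4 := (mul_dvd_mul_iff_left h0).1 h2
  obtain ⟨j, hj, h5⟩ := (Prime.dvd_finsetProd_iff hZ _).1 h4
  have h6 := hZ.dvd_of_dvd_pow h5
  have h7 : p i ∣ p j := by exact_mod_cast h6
  have h8 := (Nat.prime_dvd_prime_iff_eq (H.hp i) (H.hp j)).1 h7
  exact (Finset.ne_of_mem_erase hj) (H.inj h8).symm

theorem not_cube : ¬ ∃ n : ℤ, n ^ 3 = AA p e := by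
  rintro ⟨n, hn⟩
  obtain ⟨i, _⟩ := H.ex
  have hZ := Nat.prime_iff_prime_int.mp (H.hp i)
  have h1 : (p i : ℤ) ∣ n ^ 3 := by rw [hn]; exact dvd_AA H _
  have h2 := hZ.dvd_of_dvd_pow h1
  exact cube_ndvd H i (by rw [← hn]; exact pow_dvd_pow_of_dvd h2 3)

/-- adding a constant to the class -/
theorem kap_shift {P : GA (AA p e)} {v : Fin m → ZMod 3} (h : KapG p e P v) (c : ZMod 3) :
    KapG p e P (fun i => v i + c) := by
  rw [kapG_iff] at h ⊢
  rcases h with ⟨h0, d, hd⟩ | ⟨a, b, z, γ, t1, t2, hC, ht1, ht2, he, hs⟩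
  · exact Or.inl ⟨h0, d + c, fun i => by simp only [hd]⟩
  · refine Or.inr ⟨a, b, z, γ * W c, t1, t2, hC, ht1, ht2, ?_, fun i => ?_⟩
    · rw [he, mul_pow, W_cube, mul_one]
    · exact (hs i).mul (H.hp i) (Cl.W (H.hp i) c)

/-- the class of the negative -/
theorem kap_neg (h1 : BasicsStmt) {P : GA (AA p e)} {v : Fin m → ZMod 3} (h : KapG p e P v) :
    KapG p e (-P) (fun i => - v i) := by
  rw [kapG_iff] at h ⊢
  rcases h with ⟨h0, d, hd⟩ | ⟨a, b, z, γ, t1, t2, hC, ht1, ht2, he, hs⟩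
  · exact Or.inl ⟨by rw [h0, neg_zero], -d, fun i => by simp only [hd]⟩
  · refine Or.inr ⟨b, a, z, conj γ, t1, -t2, ((h1 _ (AA_ne H)).2.2.2.2 P a b z hC).1, ht1,
      neg_ne_zero.2 ht2, ?_, fun i => (hs i).conj⟩
    have e1 := congrArg conj he
    simp only [map_mul, map_add, map_pow, conj_intCast, conj_w, lam_eq, map_sub, map_one] at e1
    have hc := w_cube
    have hr := w_rel
    rw [lam_eq]
    push_cast
    linear_combination w * e1 + (-(t1 : Eis) * b - t2 * conj γ ^ 3) * hc +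
      (0 : Eis) * hr

/-- the class of a point is unique up to constants -/
theorem kap_unique (h1 : BasicsStmt) {P : GA (AA p e)} {v v' : Fin m → ZMod 3}
    (h : KapG p e P v) (h' : KapG p e P v') : ∃ c, ∀ i, v i = v' i + c := by
  rw [kapG_iff] at h h'
  rcases h with ⟨h0, d, hd⟩ | ⟨a, b, z, γ, t1, t2, hC, ht1, ht2, he, hs⟩
  · rcases h' with ⟨h0', d', hd'⟩ | ⟨a', b', z', γ', t1', t2', hC', _⟩
    · exact ⟨d - d', fun i => by rw [hd, hd']; ring⟩
    · exact absurd h0 (crd_ne hC')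
  · rcases h' with ⟨h0', d', hd'⟩ | ⟨a', b', z', γ', t1', t2', hC', ht1', ht2', he', hs'⟩
    · exact absurd h0' (crd_ne hC)
    · have hcong : ∃ (k : ℕ) (M : ℤ), γ * conj γ' = M * w ^ k := by
        have hl := prime_lam.ne_zero
        rcases (h1 _ (AA_ne H)).2.2.2.1 P a b z a' b' z' hC hC' with ⟨ea, eb, _⟩ | ⟨ea, eb, _⟩
        · refine ratio (n := t2 * t1') (n' := t2' * t1) (mul_ne_zero ht2 ht1') ?_
          refine mul_left_cancel₀ hl ?_
          rw [ea, eb] at he'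
          push_cast
          linear_combination (-(t1' : Eis)) * he + (t1 : Eis) * he'
        · refine ratio (n := -(t2 * t1')) (n' := t2' * t1) (neg_ne_zero.2
            (mul_ne_zero ht2 ht1')) ?_
          refine mul_left_cancel₀ hl ?_
          rw [ea, eb] at he'
          push_cast at he' ⊢
          linear_combination (t1' : Eis) * he + (t1 : Eis) * he'
      obtain ⟨k, M, hk⟩ := hcong
      refine ⟨k, fun i => ?_⟩
      have e1 := Cl.ratio (H.hp i) (hs i) (hs' i) hk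
      linear_combination e1

/-- the coordinates of a point with a class at a prime `p i` -/
theorem crd_q (i : Fin m) {P : GA (AA p e)} {a b c : ℤ} (h : Crd (AA p e) P a b c)
    {γ : Eis} {t1 t2 : ℤ} (ht1 : t1 ≠ 0)
    (he : (t1 : Eis) * ((a : Eis) + w * b) = t2 * (lam * γ ^ 3)) {v : ZMod 3}
    (hv : Cl (p i) γ v) :
    ¬ (p i : ℤ) ∣ a ∧ ¬ (p i : ℤ) ∣ b ∧ (p i : ℤ) ∣ a + b := by
  obtain ⟨_, hc, _, _⟩ := h
  have hZ := Nat.prime_iff_prime_int.mp (H.hp i)
  obtain ⟨n, hn, β, hβ⟩ := hv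
  have hγ : γ = n * W v + (p i : Eis) * β := by linear_combination hβ
  obtain ⟨β', hβ'⟩ : ∃ β' : Eis, γ ^ 3 = ((n ^ 3 : ℤ) : Eis) + ((p i : ℤ) : Eis) * β' := by
    refine ⟨3 * (n : Eis) ^ 2 * W v ^ 2 * β + 3 * n * W v * ((p i : Eis) * β ^ 2) +
      (p i : Eis) ^ 2 * β ^ 3, ?_⟩
    rw [hγ]
    push_cast
    linear_combination (n : Eis) ^ 3 * W_cube v
  -- cancel the common factor of `t1` and `t2`
  obtain ⟨g, u1, u2, hg, hu1, hu2, hcop⟩ : ∃ g u1 u2 : ℤ, g ≠ 0 ∧ t1 = g * u1 ∧ t2 = g * u2 ∧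
      IsCoprime u1 u2 := by
    have hg : 0 < Int.gcd t1 t2 := Int.gcd_pos_of_ne_zero_left _ ht1
    obtain ⟨u1, u2, hcop, h1, h2⟩ := Int.exists_gcd_one hg
    refine ⟨(Int.gcd t1 t2 : ℤ), u1, u2, by exact_mod_cast hg.ne', by rw [mul_comm]; exact h1,
      by rw [mul_comm]; exact h2, Int.isCoprime_iff_gcd_eq_one.2 hcop⟩
  have hgE : ((g : ℤ) : Eis) ≠ 0 := by
    intro h
    have := congrArg Eis.re h
    simp at this
    exact hg this
  have hE : (u1 : Eis) * ((a : Eis) + w * b) = (u2 : Eis) * (lam * γ ^ 3) := by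
    refine mul_left_cancel₀ hgE ?_
    rw [hu1, hu2] at he
    push_cast at he
    linear_combination he
  rw [hβ', lam_eq] at hE
  have hre := congrArg Eis.re hE
  have him := congrArg Eis.im hE
  simp only [mul_re, mul_im, add_re, add_im, sub_re, sub_im, one_re, one_im, intCast_re,
    intCast_im, w_re, w_im] at hre him
  have h1 : (p i : ℤ) ∣ u1 * a - u2 * n ^ 3 :=
    ⟨u2 * (β'.re + β'.im), by linear_combination hre⟩
  have h2 : (p i : ℤ) ∣ u1 * b + u2 * n ^ 3 :=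
    ⟨u2 * (2 * β'.im - β'.re), by linear_combination him⟩
  have h3 : ¬ (p i : ℤ) ∣ u1 := by
    intro h3
    have h4 : (p i : ℤ) ∣ u2 * n ^ 3 := (dvd_add_right (h3.mul_right b)).1 h2
    have h5 : (p i : ℤ) ∣ u2 := (hZ.dvd_or_dvd h4).resolve_right fun h => hn (hZ.dvd_of_dvd_pow h)
    exact hZ.not_isUnit (hcop.isUnit_of_dvd' h3 h5)
  have h4 : (p i : ℤ) ∣ a + b := by
    have h5 : (p i : ℤ) ∣ u1 * (a + b) := by
      have h6 := dvd_add h1 h2
      have e6 : u1 * a - u2 * n ^ 3 + (u1 * b + u2 * n ^ 3) = u1 * (a + b) := by ring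
      rwa [e6] at h6
    exact (hZ.dvd_or_dvd h5).resolve_left h3
  refine ⟨fun ha => ?_, fun hb => ?_, h4⟩
  · exact hZ.not_isUnit (hc.isUnit_of_dvd' ha ((dvd_add_right ha).1 h4))
  · exact hZ.not_isUnit (hc.isUnit_of_dvd' ((dvd_add_left hb).1 h4) hb)

omit H in
theorem norm_ndvd {q : ℕ} (hq : q.Prime) (h3 : q ≠ 3) {a b : ℤ}
    (h : ¬ (q : ℤ) ∣ a ∧ ¬ (q : ℤ) ∣ b ∧ (q : ℤ) ∣ a + b) :
    ¬ (q : ℤ) ∣ ((a : Eis) + w * b).norm := by
  obtain ⟨ha, hb, hab⟩ := h
  have hZ := Nat.prime_iff_prime_int.mp hq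
  intro h
  have e1 : ((a : Eis) + w * b).norm = (a + b) * (a + b) - 3 * (a * b) := by
    simp only [norm_def, add_re, add_im, mul_re, mul_im, w_re, w_im, intCast_re, intCast_im]
    ring
  rw [e1] at h
  have h1 : (q : ℤ) ∣ 3 * (a * b) := (dvd_sub_right (hab.mul_right _)).1 h
  rcases hZ.dvd_or_dvd h1 with h2 | h2
  · have h5 : q ∣ 3 := by exact_mod_cast h2
    exact h3 ((Nat.prime_dvd_prime_iff_eq hq Nat.prime_three).1 h5)
  · exact (hZ.dvd_or_dvd h2).elim ha hb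

omit H in
theorem dvd_of_dvd_mul_norm {q : ℕ} (hq : q.Prime) {D : ℤ} {Z : Eis} (hZn : ¬ (q : ℤ) ∣ Z.norm)
    (h : (q : Eis) ∣ (D : Eis) * Z) : (q : ℤ) ∣ D := by
  have hZ := Nat.prime_iff_prime_int.mp hq
  have h1 : (q : Eis) ∣ ((D * Z.norm : ℤ) : Eis) := by
    have h2 := h.mul_right (conj Z)
    rw [mul_assoc, mul_conj] at h2
    push_cast
    exact h2
  exact (hZ.dvd_or_dvd (cast_dvd.1 h1)).resolve_right hZn

/-- the case that one of three points with sum zero is zero -/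
theorem kap_sum_zero (h1 : BasicsStmt) {P Q R : GA (AA p e)} {v v' v'' : Fin m → ZMod 3}
    (h : KapG p e P v) (h' : KapG p e Q v') (h'' : KapG p e R v'') (h0 : P + Q + R = 0)
    (hP : P = 0) : ∃ c, ∀ i, v i + v' i + v'' i = c := by
  obtain ⟨d, hd⟩ : ∃ d, ∀ i, v i = d := by
    rcases h with ⟨_, d, hd⟩ | ⟨a, b, z, γ, t1, t2, hC, _⟩
    · exact ⟨d, hd⟩
    · exact absurd hP (crd_ne hC)
  have hQ : Q = -R := by
    rw [hP, zero_add] at h0
    exact eq_neg_of_add_eq_zero_left h0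
  obtain ⟨c, hc⟩ := kap_unique H h1 h' (hQ ▸ kap_neg H h1 h'')
  exact ⟨d + c, fun i => by rw [hd, hc]; ring⟩

end

section

variable {m : ℕ} {p e : Fin m → ℕ} (H : HypT p e)
include H

/-- three points with sum zero -/
theorem kap_sum (h1 : BasicsStmt) (h2 : CollStmt) {P Q R : GA (AA p e)}
    {v v' v'' : Fin m → ZMod 3}
    (h : KapG p e P v) (h' : KapG p e Q v') (h'' : KapG p e R v'') (h0 : P + Q + R = 0) :
    ∃ c, ∀ i, v i + v' i + v'' i = c := by
  by_cases hP : P = 0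
  · exact kap_sum_zero H h1 h h' h'' h0 hP
  by_cases hQ : Q = 0
  · obtain ⟨c, hc⟩ := kap_sum_zero H h1 h' h h'' (by rw [← h0]; abel) hQ
    exact ⟨c, fun i => by rw [← hc i]; ring⟩
  by_cases hR : R = 0
  · obtain ⟨c, hc⟩ := kap_sum_zero H h1 h'' h h' (by rw [← h0]; abel) hR
    exact ⟨c, fun i => by rw [← hc i]; ring⟩
  rw [kapG_iff] at h h' h''
  obtain ⟨a1, b1, c1, γ1, t1, s1, hC1, ht1, hs1, he1, hq1⟩ := h.resolve_left fun h => hP h.1
  obtain ⟨a2, b2, c2, γ2, t2, s2, hC2, ht2, hs2, he2, hq2⟩ := h'.resolve_left fun h => hQ h.1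
  obtain ⟨a3, b3, c3, γ3, t3, s3, hC3, ht3, hs3, he3, hq3⟩ := h''.resolve_left fun h => hR h.1
  obtain ⟨l, mm, n, ⟨u, z, t, hpr⟩, hl1, _, _, hcoll⟩ := h2 (AA p e) (AA_ne H) (not_cube H)
    P Q R a1 b1 c1 a2 b2 c2 a3 b3 c3 h0 hC1 hC2 hC3
  -- the linear form at a prime different from 3
  have hY : ∀ i, p i ≠ 3 → ¬ (p i : ℤ) ∣ l ∧ (p i : ℤ) ∣ mm - l := by
    intro i hi3
    have hZ := Nat.prime_iff_prime_int.mp (H.hp i)
    obtain ⟨x1, x2, x3⟩ := crd_q H i hC1 ht1 he1 (hq1 i)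
    have x4 := norm_ndvd (H.hp i) hi3 ⟨x1, x2, x3⟩
    have y4 := norm_ndvd (H.hp i) hi3 (crd_q H i hC2 ht2 he2 (hq2 i))
    have z4 := norm_ndvd (H.hp i) hi3 (crd_q H i hC3 ht3 he3 (hq3 i))
    have k1 : (p i : Eis) ∣ ((n ^ 3 + AA p e * mm ^ 3 : ℤ) : Eis) *
        (((a1 : Eis) + w * b1) * ((a2 : Eis) + w * b2) * ((a3 : Eis) + w * b3)) := by
      rw [hcoll]
      exact Dvd.dvd.mul_right (Dvd.dvd.mul_right (cast_dvd.2 (dvd_AA H i)) _) _
    have k2 : (p i : ℤ) ∣ n ^ 3 + AA p e * mm ^ 3 := by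
      refine dvd_of_dvd_mul_norm (H.hp i) ?_ k1
      rw [norm_mul, norm_mul]
      intro k
      rcases hZ.dvd_or_dvd k with k | k
      · rcases hZ.dvd_or_dvd k with k | k
        · exact x4 k
        · exact y4 k
      · exact z4 k
    have k3 : (p i : ℤ) ∣ n := by
      have k5 : (p i : ℤ) ∣ n ^ 3 := (dvd_add_left (Dvd.dvd.mul_right (dvd_AA H i) _)).1 k2
      exact hZ.dvd_of_dvd_pow k5
    have k4 : (p i : ℤ) ∣ mm - l := by
      have k5 : (p i : ℤ) ∣ (mm - l) * a1 := by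
        have e : (mm - l) * a1 = mm * (a1 + b1) + n * c1 := by linear_combination -hl1
        rw [e]
        exact dvd_add (Dvd.dvd.mul_left x3 _) (Dvd.dvd.mul_right k3 _)
      exact (hZ.dvd_or_dvd k5).resolve_right x1
    refine ⟨?_, k4⟩
    intro hl
    have hmm : (p i : ℤ) ∣ mm := by
      have := dvd_add k4 hl
      rwa [sub_add_cancel] at this
    apply hZ.not_dvd_one
    rw [← hpr]
    exact dvd_add (dvd_add (Dvd.dvd.mul_left hl _) (Dvd.dvd.mul_left hmm _))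
      (Dvd.dvd.mul_left k3 _)
  have hlc : lam * conj lam = 3 := by
    rw [lam_eq, map_sub, map_one, conj_w]
    have hr := w_rel
    have hc := w_cube
    linear_combination hc - hr
  have hD : n ^ 3 + AA p e * mm ^ 3 ≠ 0 := by
    intro hD
    rw [hD, Int.cast_zero, zero_mul] at hcoll
    obtain ⟨i, hi⟩ := H.ex
    have hi3 : p i ≠ 3 := by rcases hi with h | h <;> omega
    have a0 : ∀ {a : ℤ}, ¬ (p i : ℤ) ∣ a → a ≠ 0 := fun h h0 => h (h0 ▸ dvd_zero _)
    have hA : ((AA p e : ℤ) : Eis) ≠ 0 := by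
      intro h
      have := congrArg Eis.re h
      simp at this
      exact AA_ne H this
    have hYn : (mm : Eis) - w * l ≠ 0 := by
      intro h
      have h4 := congrArg Eis.im h
      simp at h4
      exact a0 (hY i hi3).1 h4
    have haa : ((a1 * a2 * a3 : ℤ) : Eis) ≠ 0 := by
      intro h
      have h4 := congrArg Eis.re h
      rw [intCast_re] at h4
      exact mul_ne_zero (mul_ne_zero (a0 (crd_q H i hC1 ht1 he1 (hq1 i)).1)
        (a0 (crd_q H i hC2 ht2 he2 (hq2 i)).1)) (a0 (crd_q H i hC3 ht3 he3 (hq3 i)).1) h4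
    exact mul_ne_zero (mul_ne_zero hA (pow_ne_zero 3 hYn)) haa hcoll.symm
  obtain ⟨k, M, hk⟩ := ratio (X := lam * (γ1 * γ2 * γ3)) (Y := (mm : Eis) - w * l)
    (n := (n ^ 3 + AA p e * mm ^ 3) * (s1 * s2 * s3)) (n' := AA p e * (t1 * t2 * t3) *
      (a1 * a2 * a3)) (mul_ne_zero hD (mul_ne_zero (mul_ne_zero hs1 hs2) hs3)) (by
    have e1 : (lam * (γ1 * γ2 * γ3)) ^ 3 * (((n ^ 3 + AA p e * mm ^ 3) * (s1 * s2 * s3) : ℤ) : Eis)
        = ((n ^ 3 + AA p e * mm ^ 3 : ℤ) : Eis) * ((s1 * (lam * γ1 ^ 3)) *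
          (s2 * (lam * γ2 ^ 3)) * (s3 * (lam * γ3 ^ 3))) := by
      push_cast
      ring
    rw [e1, ← he1, ← he2, ← he3]
    push_cast at hcoll ⊢
    linear_combination (t1 * t2 * t3 : Eis) * hcoll)
  rw [wpow_eq] at hk
  refine ⟨k, fun i => ?_⟩
  obtain ⟨N, hN, hd⟩ := ((hq1 i).mul (H.hp i) (hq2 i)).mul (H.hp i) (hq3 i)
  by_cases h3 : p i ≠ 3
  · -- primes different from 3
    obtain ⟨k5, k4⟩ := hY i h3
    have hZ := Nat.prime_iff_prime_int.mp (H.hp i)
    refine (uniq (q := p i) (M := M) (N := 3 * l * N) (u := k) ?_ ?_).symm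
    · intro hh
      rcases hZ.dvd_or_dvd hh with hh | hh
      · rcases hZ.dvd_or_dvd hh with hh | hh
        · have h5 : p i ∣ 3 := by exact_mod_cast hh
          exact h3 ((Nat.prime_dvd_prime_iff_eq (H.hp i) Nat.prime_three).1 h5)
        · exact k5 hh
      · exact hN hh
    · have e : (M : Eis) * W k - ((3 * l * N : ℤ) : Eis) * W (v i + v' i + v'' i) =
          lam * conj ((mm : Eis) - w * l) * (γ1 * γ2 * γ3 - N * W (v i + v' i + v'' i)) +
          ((mm - l : ℤ) : Eis) * (lam * (N * W (v i + v' i + v'' i))) := by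
        rw [← hk, map_sub, map_mul, conj_w, conj_intCast, conj_intCast, lam_eq]
        push_cast
        have hr := w_rel
        have hc := w_cube
        linear_combination (l * N * W (v i + v' i + v'' i) : Eis) * (hc - hr)
      rw [e]
      exact dvd_add (Dvd.dvd.mul_left hd _) (Dvd.dvd.mul_right (cast_dvd.2 k4) _)
  · -- the prime 3
    rw [not_not] at h3
    have h3A : (3 : ℤ) ∣ AA p e := by
      have := dvd_AA H i
      rw [h3] at this
      exact_mod_cast this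
    have h27 : ¬ (3 : ℤ) ^ 3 ∣ AA p e := by
      have := cube_ndvd H i
      rw [h3] at this
      exact_mod_cast this
    have q1 := hq1 i
    have q2 := hq2 i
    have q3 := hq3 i
    rw [h3] at q1 q2 q3 hd hN
    obtain ⟨_, y1, z1, r1, f1, g1⟩ := crd_three h3A h27 hC1 ht1 hs1 he1 q1
    obtain ⟨_, y2, z2, r2, f2, g2⟩ := crd_three h3A h27 hC2 ht2 hs2 he2 q2
    obtain ⟨_, y3, z3, r3, f3, g3⟩ := crd_three h3A h27 hC3 ht3 hs3 he3 q3
    have hN' : ¬ (3 : ℤ) ∣ N := by exact_mod_cast hN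
    have hd' : (3 : Eis) ∣ γ1 * γ2 * γ3 - N * W (v i + v' i + v'' i) := by
      have e3 : ((3 : ℕ) : Eis) = 3 := by norm_num
      rwa [e3] at hd
    obtain ⟨c1', hc1'⟩ := z1
    have hbb : (mm - l) * b1 = -27 * l * r1 - n * c1 := by
      linear_combination hl1 - l * f1
    obtain ⟨g, hg⟩ : (3 : ℤ) ∣ mm - l := by
      have h4 : (3 : ℤ) ∣ (mm - l) * b1 := ⟨-9 * l * r1 - n * c1', by rw [hbb, hc1']; ring⟩
      exact (prime3.dvd_or_dvd h4).resolve_right y1
    have hgE : (mm : Eis) - l = 3 * g := by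
      have := congrArg (Int.cast : ℤ → Eis) hg
      push_cast at this
      exact this
    have eY : (mm : Eis) - w * l = lam * (l + g * conj lam) := by
      have : lam * ((l : Eis) + g * conj lam) = lam * l + g * (lam * conj lam) := by ring
      rw [this, hlc, lam_eq]
      linear_combination hgE
    obtain ⟨A', hA'⟩ := h3A
    have hAE : ((AA p e : ℤ) : Eis) = 3 * A' := by rw [hA']; push_cast; ring
    have hc2 : ((n ^ 3 + AA p e * mm ^ 3 : ℤ) : Eis) * ((-b1 + 9 * r1 * (2 + w)) *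
        (-b2 + 9 * r2 * (2 + w)) * (-b3 + 9 * r3 * (2 + w))) =
        (AA p e : Eis) * (l + g * conj lam) ^ 3 * ((a1 * a2 * a3 : ℤ) : Eis) := by
      refine mul_left_cancel₀ (pow_ne_zero 3 prime_lam.ne_zero) ?_
      rw [g1, g2, g3, eY] at hcoll
      linear_combination hcoll
    have hn3 : (3 : ℤ) ∣ n := by
      have h4 : ((3 : ℕ) : Eis) ∣ (((n ^ 3 + AA p e * mm ^ 3) * (b1 * b2 * b3) : ℤ) : Eis) := by
        refine ⟨-((A' : Eis) * (l + g * conj lam) ^ 3 * ((a1 * a2 * a3 : ℤ) : Eis)) +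
          3 * ((n ^ 3 + AA p e * mm ^ 3 : ℤ) : Eis) *
          ((r1 * (2 + w)) * (b2 * b3) + (r2 * (2 + w)) * (b1 * b3) + (r3 * (2 + w)) * (b1 * b2) -
            9 * ((r1 * (2 + w)) * (r2 * (2 + w)) * b3 + (r1 * (2 + w)) * (r3 * (2 + w)) * b2 +
              (r2 * (2 + w)) * (r3 * (2 + w)) * b1) +
            81 * ((r1 * (2 + w)) * (r2 * (2 + w)) * (r3 * (2 + w)))), ?_⟩
        have e3 : ((3 : ℕ) : Eis) = 3 := by norm_num
        rw [e3, Int.cast_mul (n ^ 3 + AA p e * mm ^ 3)]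
        generalize ((n ^ 3 + AA p e * mm ^ 3 : ℤ) : Eis) = D at hc2 ⊢
        rw [hAE] at hc2
        push_cast at hc2 ⊢
        linear_combination (-1 : Eis) * hc2
      have h5 : (3 : ℤ) ∣ (n ^ 3 + AA p e * mm ^ 3) * (b1 * b2 * b3) := by
        have := cast_dvd.1 h4
        exact_mod_cast this
      have h6 : (3 : ℤ) ∣ n ^ 3 + AA p e * mm ^ 3 := by
        rcases prime3.dvd_or_dvd h5 with h6 | h6
        · exact h6
        · exfalso
          rcases prime3.dvd_or_dvd h6 with h6 | h6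
          · rcases prime3.dvd_or_dvd h6 with h6 | h6
            · exact y1 h6
            · exact y2 h6
          · exact y3 h6
      have h7 : (3 : ℤ) ∣ n ^ 3 :=
        (dvd_add_left (Dvd.dvd.mul_right (⟨A', hA'⟩ : (3 : ℤ) ∣ AA p e) _)).1 h6
      exact prime3.dvd_of_dvd_pow h7
    obtain ⟨n', hn'⟩ := hn3
    have hg3 : (3 : ℤ) ∣ g := by
      have h4 : (3 : ℤ) ∣ g * b1 := by
        refine ⟨-3 * l * r1 - n' * c1', ?_⟩
        have h5 : (3 : ℤ) * (g * b1) = 3 * (3 * (-3 * l * r1 - n' * c1')) := by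
          rw [hg, hc1', hn'] at hbb
          linear_combination hbb
        exact mul_left_cancel₀ (by norm_num) h5
      exact (prime3.dvd_or_dvd h4).resolve_right y1
    have hl3 : ¬ (3 : ℤ) ∣ l := by
      intro hl
      have hmm : (3 : ℤ) ∣ mm := by
        have := dvd_add (⟨g, hg⟩ : (3 : ℤ) ∣ mm - l) hl
        rwa [sub_add_cancel] at this
      apply prime3.not_dvd_one
      rw [← hpr]
      exact dvd_add (dvd_add (Dvd.dvd.mul_left hl _) (Dvd.dvd.mul_left hmm _))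
        (Dvd.dvd.mul_left ⟨n', hn'⟩ _)
    -- the product
    have hk2 : (3 : Eis) * ((γ1 * γ2 * γ3) * (l + g * lam)) = M * W k := by
      rw [← hk, eY, map_mul, map_add, map_mul, conj_conj, conj_intCast, conj_intCast, ← hlc]
      ring
    obtain ⟨M', hM'⟩ : (3 : ℤ) ∣ M := by
      have h4 : ((3 : ℕ) : Eis) ∣ (M : Eis) := by
        refine ⟨(γ1 * γ2 * γ3) * (l + g * lam) * W (-(k : ZMod 3)), ?_⟩
        have e3 : ((3 : ℕ) : Eis) = 3 := by norm_num
        rw [e3]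
        linear_combination (-W (-(k : ZMod 3))) * hk2 - (M : Eis) * W_mul_neg (k : ZMod 3)
      have := cast_dvd.1 h4
      exact_mod_cast this
    have h3ne : (3 : Eis) ≠ 0 := by
      intro h
      have := congrArg Eis.re h
      rw [← hlc] at h
      exact mul_ne_zero prime_lam.ne_zero (fun h5 => prime_lam.ne_zero (by
        have := congrArg conj h5
        rwa [conj_conj, map_zero] at this)) h
    have hk3 : (γ1 * γ2 * γ3) * (l + g * lam) = M' * W k := by
      refine mul_left_cancel₀ h3ne ?_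
      rw [hk2, hM']
      push_cast
      ring
    refine (uniq (q := 3) (M := M') (N := N * l) (u := k) ?_ ?_).symm
    · intro hh
      have hh' : (3 : ℤ) ∣ N * l := by exact_mod_cast hh
      exact (prime3.dvd_or_dvd hh').elim hN' hl3
    · obtain ⟨g', hg'⟩ := hg3
      obtain ⟨δ, hδ⟩ := hd'
      refine ⟨δ * l + γ1 * γ2 * γ3 * g' * lam, ?_⟩
      have e3 : ((3 : ℕ) : Eis) = 3 := by norm_num
      have hgE' : (g : Eis) = 3 * g' := by rw [hg']; push_cast; ring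
      rw [e3, ← hk3, hgE']
      push_cast
      linear_combination (l : Eis) * hδ

end

section

variable {m : ℕ} {p e : Fin m → ℕ} (H : HypT p e)
include H

theorem cubeFree : CubeFree (AA p e) := by
  intro q hq hdvd
  have hqA : q ∣ AA p e := (dvd_pow_self q (by norm_num)).trans hdvd
  obtain ⟨i, -, hi⟩ := (Prime.dvd_finsetProd_iff hq _).mp hqA
  have hi' : q ∣ (p i : ℤ) := hq.dvd_of_dvd_pow hi
  have hass : Associated q (p i : ℤ) :=
    (Prime.dvd_prime_iff_associated hq (Nat.prime_iff_prime_int.mp (H.hp i))).mp hi'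
  exact cube_ndvd H i ((hass.pow_pow (n := 3)).symm.dvd.trans hdvd)

/-- the third point on the line through two points with a class is lifted -/
theorem lft_third (h1 : BasicsStmt) (h2 : CollStmt) {P Q R : GA (AA p e)}
    {v v' : Fin m → ZMod 3} (h : KapG p e P v) (h' : KapG p e Q v') (h0 : P + Q + R = 0)
    (hP : P ≠ 0) (hQ : Q ≠ 0) : Lft (AA p e) R := by
  by_cases hR : R = 0
  · exact Or.inl hR
  have hA0 := AA_ne H
  rw [kapG_iff] at h h'
  obtain ⟨a1, b1, c1, γ1, t1, s1, hC1, ht1, hs1, he1, hq1⟩ := h.resolve_left fun h => hP h.1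
  obtain ⟨a2, b2, c2, γ2, t2, s2, hC2, ht2, hs2, he2, hq2⟩ := h'.resolve_left fun h => hQ h.1
  obtain ⟨a3, b3, c3, hC3⟩ := (h1 _ hA0).1 (cubeFree H) R hR
  obtain ⟨l, mm, n, ⟨u, z, t, hpr⟩, hl1, _, _, hcoll⟩ := h2 (AA p e) hA0 (not_cube H)
    P Q R a1 b1 c1 a2 b2 c2 a3 b3 c3 h0 hC1 hC2 hC3
  -- no coordinate `a` is zero
  have ha : ∀ {S : GA (AA p e)} {a b c : ℤ}, Crd (AA p e) S a b c → a ≠ 0 := by
    intro S a b c hC ha
    obtain ⟨_, hco, heq, _⟩ := hC
    rw [ha] at heq hco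
    have hb : IsUnit b := isCoprime_zero_left.1 hco
    obtain ⟨i, _⟩ := H.ex
    have hZ := Nat.prime_iff_prime_int.mp (H.hp i)
    have h3 : (p i : ℤ) ∣ b ^ 3 := by
      have h4 : (p i : ℤ) ∣ AA p e * c ^ 3 := (dvd_AA H i).mul_right _
      rw [← heq] at h4
      simpa using h4
    exact hZ.not_isUnit (isUnit_of_dvd_unit h3 (hb.pow 3))
  have hD : n ^ 3 + AA p e * mm ^ 3 ≠ 0 := by
    intro hD
    by_cases hm0 : mm = 0
    · have hn0 : n = 0 := by
        rw [hm0] at hD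
        have : n ^ 3 = 0 := by linarith [hD]
        exact pow_eq_zero_iff (by norm_num) |>.1 this
      rw [hm0, hn0] at hl1 hpr
      have hl0 : l ≠ 0 := by
        rintro rfl
        norm_num at hpr
      have : l * a1 = 0 := by linarith
      exact (mul_ne_zero hl0 (ha hC1)) this
    · have h4 : mm ^ 3 ∣ n ^ 3 := ⟨-AA p e, by linear_combination hD⟩
      obtain ⟨k, hk⟩ := (Int.pow_dvd_pow_iff (by norm_num)).1 h4
      apply not_cube H
      refine ⟨-k, ?_⟩
      have h5 : mm ^ 3 ≠ 0 := pow_ne_zero 3 hm0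
      refine mul_left_cancel₀ h5 ?_
      rw [hk] at hD
      linear_combination -hD
  have hγ : ∀ {a b c t s : ℤ} {S : GA (AA p e)} {γ : Eis}, Crd (AA p e) S a b c → t ≠ 0 →
      (t : Eis) * ((a : Eis) + w * b) = s * (lam * γ ^ 3) → γ.norm ≠ 0 := by
    intro a b c t s S γ hC ht he h
    rw [norm_eq_zero] at h
    rw [h] at he
    have hre := congrArg Eis.re he
    simp [lam_eq] at hre
    exact hre.elim ht (ha hC)
  have hlam : lam ^ 6 = -27 := by
    have hr := w_rel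
    have hc := w_cube
    have e1 : lam ^ 2 = -3 * w := by
      rw [lam_eq]
      linear_combination hr
    calc lam ^ 6 = (lam ^ 2) ^ 3 := by ring
      _ = -27 := by rw [e1]; linear_combination (-27 : Eis) * hc
  refine Or.inr ⟨a3, b3, c3, lam * ((mm : Eis) - w * l) * conj (γ1 * γ2),
    -27 * ((n ^ 3 + AA p e * mm ^ 3) * (s1 * s2)) * (γ1.norm * γ2.norm) ^ 3,
    t1 * t2 * (AA p e * (a1 * a2 * a3)), hC3, ?_, ?_, ?_⟩
  · exact mul_ne_zero (mul_ne_zero (by norm_num) (mul_ne_zero hD (mul_ne_zero hs1 hs2)))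
      (pow_ne_zero 3 (mul_ne_zero (hγ hC1 ht1 he1) (hγ hC2 ht2 he2)))
  · exact mul_ne_zero (mul_ne_zero ht1 ht2)
      (mul_ne_zero hA0 (mul_ne_zero (mul_ne_zero (ha hC1) (ha hC2)) (ha hC3)))
  · have n1 := mul_conj γ1
    have n2 := mul_conj γ2
    push_cast at hcoll ⊢
    rw [← n1, ← n2, map_mul]
    generalize conj γ1 = g1 at *
    generalize conj γ2 = g2 at *
    have e1 : (n ^ 3 + (AA p e : Eis) * mm ^ 3) * (((s1 : Eis) * (lam * γ1 ^ 3)) *
        ((s2 : Eis) * (lam * γ2 ^ 3)) * ((a3 : Eis) + w * b3)) =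
        (t1 : Eis) * t2 * ((AA p e : Eis) * ((mm : Eis) - w * l) ^ 3 * (a1 * a2 * a3)) := by
      rw [← he1, ← he2]
      linear_combination ((t1 : Eis) * t2) * hcoll
    have e2 : (-27 : Eis) * ((n ^ 3 + (AA p e : Eis) * mm ^ 3) * (s1 * s2)) *
        (γ1 * g1 * (γ2 * g2)) ^ 3 * ((a3 : Eis) + w * b3) =
        lam ^ 4 * (g1 * g2) ^ 3 * ((n ^ 3 + (AA p e : Eis) * mm ^ 3) *
          (((s1 : Eis) * (lam * γ1 ^ 3)) * ((s2 : Eis) * (lam * γ2 ^ 3)) *
            ((a3 : Eis) + w * b3))) := by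
      linear_combination (-(n ^ 3 + (AA p e : Eis) * mm ^ 3) * (s1 * s2) *
        (γ1 * g1 * (γ2 * g2)) ^ 3 * ((a3 : Eis) + w * b3)) * hlam
    rw [e2, e1]
    ring

end

end TKapAdd

open TKapAdd GKapAdd in
/-- (T2) the class is additive -/
theorem kapAddT (h1 : BasicsStmt) (h2 : CollStmt) (h3 : KapExStmtT) : KapAddStmtT := by
  intro m p e H P Q v v' hv hv'
  obtain ⟨v'', hv''⟩ : ∃ v'', KapG p e (-(P + Q)) v'' := by
    by_cases hP : P = 0
    · rw [hP, zero_add]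
      exact ⟨_, TKapAdd.kap_neg H h1 hv'⟩
    by_cases hQ : Q = 0
    · rw [hQ, add_zero]
      exact ⟨_, TKapAdd.kap_neg H h1 hv⟩
    exact h3 m p e H (-(P + Q)) (lft_third H h1 h2 hv hv' (by abel) hP hQ)
  obtain ⟨c, hc⟩ := TKapAdd.kap_sum H h1 h2 hv hv' hv'' (by abel)
  have h4 := TKapAdd.kap_neg H h1 hv''
  rw [neg_neg] at h4
  have h5 := TKapAdd.kap_shift H h4 c
  have e1 : (fun i => - v'' i + c) = v + v' := by
    funext i
    rw [Pi.add_apply, ← hc i]
    ring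
  rwa [e1] at h5

end Pool.Agent.CubeRank
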