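import Pool.Agent.CubeRank.TKapRep

/-!
# CubeRank T1: every lifted point has a class, version for arbitrary primes
(MP_8e0b0b_nt; module T_KAPEX, by helper48, after helper71 and helper95)
-/

set_option autoImplicit false

namespace Pool.Agent.CubeRank

open Pool.Agent.Lib_helper18 Pool.Agent.Lib_helper18.Eis Pool.Agent.Lib_helper84.Cub

theorem AAT_ne_zero {m : ℕ} {p e : Fin m → ℕ} (h : HypT p e) : AA p e ≠ 0 := by
  refine Finset.prod_ne_zero_iff.mpr fun i _ => pow_ne_zero _ ?_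
  exact_mod_cast (h.hp i).ne_zero

theorem HypT.dvd_AA {m : ℕ} {p e : Fin m → ℕ} (h : HypT p e) (i : Fin m) :
    (p i : ℤ) ∣ AA p e := by
  have h1 : (p i : ℤ) ^ e i ∣ AA p e := Finset.dvd_prod_of_mem _ (Finset.mem_univ i)
  refine (dvd_pow_self _ ?_).trans h1
  have := h.he i; omega

/-- a product of distinct primes with exponents at most 2 is cube free -/
theorem cubeFree_AAT {m : ℕ} {p e : Fin m → ℕ} (h : HypT p e) : CubeFree (AA p e) := by
  intro q hq hdvd
  have hqA : q ∣ AA p e := (dvd_pow_self q (by norm_num)).trans hdvd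
  obtain ⟨i, -, hi⟩ := (Prime.dvd_finsetProd_iff hq _).mp hqA
  have hi' : q ∣ (p i : ℤ) := hq.dvd_of_dvd_pow hi
  have hass : Associated q (p i : ℤ) :=
    (Prime.dvd_prime_iff_associated hq (Nat.prime_iff_prime_int.mp (h.hp i))).mp hi'
  have hdvd' : (p i : ℤ) ^ 3 ∣ AA p e := (hass.pow_pow (n := 3)).symm.dvd.trans hdvd
  have hsplit : AA p e = (p i : ℤ) ^ e i * ∏ j ∈ Finset.univ.erase i, (p j : ℤ) ^ e j :=
    (Finset.mul_prod_erase _ _ (Finset.mem_univ i)).symm
  rw [hsplit] at hdvd'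
  have hcop : IsCoprime ((p i : ℤ) ^ 3) (∏ j ∈ Finset.univ.erase i, (p j : ℤ) ^ e j) := by
    refine IsCoprime.prod_right fun j hj => ?_
    refine IsCoprime.pow ?_
    rw [Nat.isCoprime_iff_coprime, Nat.coprime_primes (h.hp i) (h.hp j)]
    intro hpp
    exact (Finset.ne_of_mem_erase hj) (h.inj hpp).symm
  have h3 : (p i : ℤ) ^ 3 ∣ (p i : ℤ) ^ e i := hcop.dvd_of_dvd_mul_right hdvd'
  have h4 : (p i) ^ 3 ∣ (p i) ^ e i := by exact_mod_cast h3
  have h5 := (Nat.pow_dvd_pow_iff_le_right (h.hp i).one_lt).mp h4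
  have := h.he i
  omega

/-- module `T_KAPEX` -/
theorem kapExT : KapExStmtT := by
  intro m p e h P hP
  rcases hP with hP | ⟨a, b, c, γ, t1, t2, hcrd, ht1, ht2, hg⟩
  · exact ⟨0, Or.inl ⟨hP, 0, fun _ => rfl⟩⟩
  obtain ⟨al, de, s, r2, hcop, hs, hr2, hprod, heq⟩ :=
    TKapRepAux.lift_of (cubeFree_AAT h) (AAT_ne_zero h) hcrd.1 hcrd.2.2.1 ht1 ht2 hg
  have key : ∀ i, ∃ v : ZMod 3, ∃ n : ℤ, ¬ (p i : ℤ) ∣ n ∧
      (p i : Eis) ∣ ((al : Eis) + de * w) - n * w ^ v.val := by
    intro i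
    have hpz : Prime (p i : ℤ) := Nat.prime_iff_prime_int.mp (h.hp i)
    have hdv : (p i : ℤ) ∣ al * de * (al - de) := by
      rw [hprod]; exact (h.dvd_AA i).mul_right _
    have castdvd : ∀ n : ℤ, (p i : ℤ) ∣ n → (p i : Eis) ∣ (n : Eis) := by
      intro n hn
      have : ((p i : ℤ) : Eis) ∣ (n : Eis) := intCast_dvd_intCast.mpr hn
      simpa using this
    by_cases hde : (p i : ℤ) ∣ de
    · have hal : ¬ (p i : ℤ) ∣ al := fun h' => hpz.not_isUnit (hcop.isUnit_of_dvd' h' hde)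
      refine ⟨0, al, hal, ?_⟩
      have h0 : (0 : ZMod 3).val = 0 := rfl
      have : ((al : Eis) + de * w) - (al : Eis) * w ^ (0 : ZMod 3).val = de * w := by
        rw [h0, pow_zero]; ring
      rw [this]; exact (castdvd de hde).mul_right _
    by_cases hal : (p i : ℤ) ∣ al
    · refine ⟨1, de, hde, ?_⟩
      have h0 : (1 : ZMod 3).val = 1 := rfl
      have : ((al : Eis) + de * w) - (de : Eis) * w ^ (1 : ZMod 3).val = al := by
        rw [h0, pow_one]; ring
      rw [this]; exact castdvd al hal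
    · have hsub : (p i : ℤ) ∣ al - de := by
        rcases hpz.dvd_or_dvd hdv with h' | h'
        · rcases hpz.dvd_or_dvd h' with h'' | h''
          · exact absurd h'' hal
          · exact absurd h'' hde
        · exact h'
      refine ⟨2, -al, by rwa [dvd_neg], ?_⟩
      have h0 : (2 : ZMod 3).val = 2 := rfl
      have : ((al : Eis) + de * w) - ((-al : ℤ) : Eis) * w ^ (2 : ZMod 3).val =
          -((al - de : ℤ) : Eis) * w := by
        rw [h0, w_sq]; push_cast; ring
      rw [this]; exact ((dvd_neg.mpr (castdvd _ hsub))).mul_right _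
  choose v hv using key
  exact ⟨v, Or.inr ⟨a, b, c, (al : Eis) + de * w, t1, r2, hcrd, ht1, hr2, heq, hv⟩⟩

end Pool.Agent.CubeRank
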