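import Pool.Agent.CubeRank.TDefs
import Pool.Agent.CubeRank.GKapRep
import Pool.Agent.CubeRank.GKapEx

/-!
# CubeRank T3: points of class zero are multiples of 3, other classes are represented,
version for arbitrary primes (MP_8e0b0b_nt; helper95, after helper7 and helper55)
-/

set_option autoImplicit false

namespace Pool.Agent.CubeRank

open Finset Pool.Agent.Lib_helper18 Pool.Agent.Lib_helper18.Eis Pool.Agent.Lib_helper84.Cub
  Pool.Agent.Lib_helper18.CubStep0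

namespace TKapRepAux

/-- `A u³ = D v³` with `A` cube free and `v ≠ 0`: `D = A s³` -/
lemma cube_ratio {A D u v : ℤ} (hf : CubeFree A) (hv : v ≠ 0) (hu : u ≠ 0)
    (h : A * u ^ 3 = D * v ^ 3) : ∃ s : ℤ, s ≠ 0 ∧ D = A * s ^ 3 := by
  obtain ⟨g, u', v', hg, hco, rfl, rfl⟩ : ∃ g u' v' : ℤ, g ≠ 0 ∧ IsCoprime u' v' ∧
      u = g * u' ∧ v = g * v' := by
    have hgpos : 0 < Int.gcd u v := Int.gcd_pos_of_ne_zero_left _ hu
    obtain ⟨u', v', hco, h1, h2⟩ := Int.exists_gcd_one hgpos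
    exact ⟨Int.gcd u v, u', v', by exact_mod_cast hgpos.ne', Int.isCoprime_iff_gcd_eq_one.mpr hco,
      by rw [mul_comm]; exact h1, by rw [mul_comm]; exact h2⟩
  have hu' : u' ≠ 0 := right_ne_zero_of_mul hu
  have h1 : A * u' ^ 3 = D * v' ^ 3 := by
    have h2 : g ^ 3 * (A * u' ^ 3) = g ^ 3 * (D * v' ^ 3) := by linear_combination h
    exact mul_left_cancel₀ (pow_ne_zero 3 hg) h2
  have h2 : v' ^ 3 ∣ A * u' ^ 3 := ⟨D, by rw [h1]; ring⟩
  have h3 : v' ^ 3 ∣ A := (hco.symm.pow (m := 3) (n := 3)).dvd_of_dvd_mul_right h2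
  have h4 : IsUnit v' := by
    by_contra hn
    have h0 : v' ≠ 0 := right_ne_zero_of_mul hv
    obtain ⟨q, hq, hqv⟩ := WfDvdMonoid.exists_irreducible_factor hn h0
    exact hf q hq.prime ((pow_dvd_pow_of_dvd hqv 3).trans h3)
  rcases Int.isUnit_iff.mp h4 with h5 | h5
  · refine ⟨u', hu', ?_⟩
    rw [h5] at h1
    linarith
  · refine ⟨-u', neg_ne_zero.mpr hu', ?_⟩
    rw [h5] at h1
    linear_combination h1

/-- the lift of a point from the isogenous curve, in coprime integers -/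
lemma lift_of {A : ℤ} (hf : CubeFree A) (hA : A ≠ 0) {a b c : ℤ} (hc : c ≠ 0)
    (habc : a ^ 3 + b ^ 3 = A * c ^ 3) {γ : Eis} {t1 t2 : ℤ} (ht1 : t1 ≠ 0) (ht2 : t2 ≠ 0)
    (hg : (t1 : Eis) * ((a : Eis) + w * b) = t2 * (lam * γ ^ 3)) :
    ∃ α δ s r2 : ℤ, IsCoprime α δ ∧ s ≠ 0 ∧ r2 ≠ 0 ∧ α * δ * (α - δ) = A * s ^ 3 ∧
      (t1 : Eis) * ((a : Eis) + w * b) = r2 * (lam * ((α : Eis) + δ * w) ^ 3) := by
  have hab : ¬ (a = 0 ∧ b = 0) := by
    rintro ⟨rfl, rfl⟩
    have h1 : A * c ^ 3 = 0 := by rw [← habc]; ring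
    exact (mul_ne_zero hA (pow_ne_zero 3 hc)) h1
  have hre : t1 * a = (t2 * (lam * γ ^ 3)).re := by
    rw [← hg]; simp
  have him : t1 * b = (t2 * (lam * γ ^ 3)).im := by
    rw [← hg]; simp
  have hγ : ¬ (γ.re = 0 ∧ γ.im = 0) := by
    rintro ⟨h1, h2⟩
    have h0 : γ = 0 := by ext <;> simp [h1, h2]
    apply hab
    rw [h0] at hre him
    simp at hre him
    exact ⟨hre.resolve_left ht1, him.resolve_left ht1⟩
  obtain ⟨g, α, δ, hg0, hco, hα, hδ⟩ : ∃ g α δ : ℤ, g ≠ 0 ∧ IsCoprime α δ ∧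
      γ.re = g * α ∧ γ.im = g * δ := by
    have hgpos : 0 < Int.gcd γ.re γ.im := by
      rw [Int.gcd_pos_iff]
      by_contra hn
      push Not at hn
      exact hγ hn
    obtain ⟨u', v', hco, h1, h2⟩ := Int.exists_gcd_one hgpos
    exact ⟨Int.gcd γ.re γ.im, u', v', by exact_mod_cast hgpos.ne',
      Int.isCoprime_iff_gcd_eq_one.mpr hco,
      by rw [mul_comm]; exact h1, by rw [mul_comm]; exact h2⟩
  have hγe : γ = (g : Eis) * ((α : Eis) + δ * w) := by
    ext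
    · simp [hα]
    · simp [hδ]
  have hr2 : t2 * g ^ 3 ≠ 0 := mul_ne_zero ht2 (pow_ne_zero 3 hg0)
  have hnew : (t1 : Eis) * ((a : Eis) + w * b) =
      ((t2 * g ^ 3 : ℤ) : Eis) * (lam * ((α : Eis) + δ * w) ^ 3) := by
    rw [hg, hγe]; push_cast; ring
  have ha : t1 * a = (t2 * g ^ 3) * (α ^ 3 + 3 * α ^ 2 * δ - 6 * α * δ ^ 2 + δ ^ 3) := by
    have h5 := congrArg Eis.re hnew
    simp only [pow_succ, pow_zero, one_mul, mul_im, mul_re, add_re, add_im, intCast_im,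
      intCast_re, w_re, w_im, lam_re, lam_im] at h5
    linear_combination h5
  have hb : t1 * b = (t2 * g ^ 3) * (-α ^ 3 + 6 * α ^ 2 * δ - 3 * α * δ ^ 2 - δ ^ 3) := by
    have h5 := congrArg Eis.im hnew
    simp only [pow_succ, pow_zero, one_mul, mul_im, mul_re, add_re, add_im, intCast_im,
      intCast_re, w_re, w_im, lam_re, lam_im] at h5
    linear_combination h5
  have hN : α ^ 2 - α * δ + δ ^ 2 ≠ 0 := by
    intro h0
    have h1 : (2 * α - δ) ^ 2 + 3 * δ ^ 2 = 0 := by linear_combination 4 * h0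
    have h2 : δ = 0 := by nlinarith [sq_nonneg (2 * α - δ), sq_nonneg δ]
    have h3 : α = 0 := by
      rw [h2] at h0
      have : α ^ 2 = 0 := by linarith
      exact pow_eq_zero_iff (by norm_num) |>.mp this
    rw [h2, h3] at hco
    exact not_isCoprime_zero_zero hco
  have hkey : A * (t1 * c) ^ 3 = (α * δ * (α - δ)) *
      (3 * (t2 * g ^ 3) * (α ^ 2 - α * δ + δ ^ 2)) ^ 3 := by
    have h1 : A * (t1 * c) ^ 3 = (t1 * a) ^ 3 + (t1 * b) ^ 3 := by
      linear_combination (-t1 ^ 3) * habc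
    rw [h1, ha, hb]
    ring
  obtain ⟨s, hs, hD⟩ := cube_ratio hf (mul_ne_zero (mul_ne_zero (by norm_num) hr2) hN)
    (mul_ne_zero ht1 hc) hkey
  exact ⟨α, δ, s, t2 * g ^ 3, hco, hs, hr2, hD, hnew⟩

end TKapRepAux

open KapRepAux GKapRepAux TKapRepAux in
/-- module `T_KAPREP` -/
theorem kapRepT (h1 : BasicsStmt) (h3 : TripleStmt) : KapRepStmtT := by
  intro m p e hH P v hK
  rcases hK with ⟨hP0, c, hc⟩ | ⟨a, b, c, γ, t1, t2, hCrd, ht1, ht2, hg, hcl⟩
  · refine ⟨fun _ => ?_, fun hn => absurd ⟨c, hc⟩ hn⟩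
    rw [hP0]
    exact (threeMul (AA p e)).zero_mem
  have he0 : ∀ i, e i ≠ 0 := fun i => by have := hH.he i; omega
  obtain ⟨i0, -⟩ := hH.ex
  obtain ⟨hc0, hab, habc, -⟩ := id hCrd
  have hprime : ∀ i, Prime (p i : ℤ) := fun i => Nat.prime_iff_prime_int.mp (hH.hp i)
  have hA0 : AA p e ≠ 0 :=
    prod_ne_zero_iff.mpr (fun j _ => pow_ne_zero _ (hprime j).ne_zero)
  have hcf := cube_not_dvd_prod p e hH.hp hH.inj (fun i => by have := hH.he i; omega) univ
  have hcf' : CubeFree (AA p e) := hcf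
  obtain ⟨α, δ, s, r2, hco, hs0, hr2, hprod, hg'⟩ := lift_of hcf' hA0 hc0 habc ht1 ht2 hg
  -- comparison of the two lifts
  have hcmp : ((t1 * t2 : ℤ) : Eis) * γ ^ 3 = ((t1 * r2 : ℤ) : Eis) * ((α : Eis) + δ * w) ^ 3 := by
    have h5 : lam * (((t1 * t2 : ℤ) : Eis) * γ ^ 3) =
        lam * (((t1 * r2 : ℤ) : Eis) * ((α : Eis) + δ * w) ^ 3) := by
      push_cast
      linear_combination (t1 : Eis) * hg' - (t1 : Eis) * hg
    exact mul_left_cancel₀ prime_lam.ne_zero h5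
  obtain ⟨n, j, hnj⟩ := cube_rat (mul_ne_zero ht1 ht2) hcmp
  -- splitting
  have huv : IsCoprime α (-δ) := hco.neg_right
  have hut : IsCoprime α (δ - α) := by
    obtain ⟨u, v, huv⟩ := hco
    exact ⟨u + v, v, by linear_combination huv⟩
  have hvt : IsCoprime (-δ) (δ - α) := by
    obtain ⟨u, v, huv⟩ := hco
    exact ⟨-(u + v), -u, by linear_combination huv⟩
  obtain ⟨pos, x, hu, hv, ht, hs⟩ := split3 hH.hp he0 huv hut hvt
    (s := s) (by rw [← hprod]; ring)
  have hpt : IsPt p e pos x := isPt_of hu hv ht hs hs0 huv hut hvt (by ring)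
  have hval : ∀ i, v i = fv (j : ZMod 3) (pos i) := by
    intro i
    obtain ⟨n1, hn1, hγ⟩ := hcl i
    obtain ⟨s0, s1, s2⟩ := pos_cong (hH.hp i) hco
    have hk : pos i = 0 ∨ pos i = 1 ∨ pos i = 2 := by
      generalize pos i = k
      fin_cases k <;> simp
    have hvv : (((v i).val : ℕ) : ZMod 3) = v i := ZMod.natCast_zmod_val _
    unfold fv
    rcases hk with hk | hk | hk
    · obtain ⟨n2, hn2, hγ'⟩ := s0 (by
        rw [hu]; exact Dvd.dvd.mul_right (dvd_cell p e he0 pos i 0 hk) _)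
      have h5 := class_eq (hH.hp i) hnj hn1 hγ hn2 hγ'
      rw [hvv] at h5
      rw [hk, h5]
      simp
    · obtain ⟨n2, hn2, hγ'⟩ := s1 (by
        rw [hv]; exact Dvd.dvd.mul_right (dvd_cell p e he0 pos i 1 hk) _)
      have h5 := class_eq (hH.hp i) hnj hn1 hγ hn2 hγ'
      rw [hvv] at h5
      rw [hk, h5]
      simp
    · obtain ⟨n2, hn2, hγ'⟩ := s2 (by
        rw [ht]; exact Dvd.dvd.mul_right (dvd_cell p e he0 pos i 2 hk) _)
      have h5 := class_eq (hH.hp i) hnj hn1 hγ hn2 hγ'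
      rw [hvv] at h5
      rw [hk, h5]
      have : (1 - (((2 : Fin 3).val : ℕ) : ZMod 3)) = ((2 : ℕ) : ZMod 3) := by decide
      rw [this]
  refine ⟨?_, ?_⟩
  · rintro ⟨c', hc'⟩
    -- constant class
    have hnc : ¬ ∃ n : ℤ, n ^ 3 = AA p e := by
      rintro ⟨n, hn⟩
      have hd : (p i0 : ℤ) ∣ AA p e := by
        unfold AA
        exact (dvd_pow_self _ (he0 i0)).trans (dvd_prod_of_mem _ (mem_univ i0))
      rw [← hn] at hd
      have hd2 := (hprime i0).dvd_of_dvd_pow hd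
      have hd3 : (p i0 : ℤ) ^ 3 ∣ AA p e := by
        rw [← hn]
        exact pow_dvd_pow_of_dvd hd2 3
      exact hcf _ (hprime i0) hd3
    have hpos : ∀ i, pos i = pos i0 := by
      intro i
      apply fv_inj (j : ZMod 3)
      rw [← hval, ← hval, hc', hc']
    generalize hk0 : pos i0 = k0 at hpos
    obtain ⟨hcA, hc1⟩ := cell_all p e pos k0 hpos
    have hx := hpt.ne
    have hk : k0 = 0 ∨ k0 = 1 ∨ k0 = 2 := by
      clear hk0 hpos hcA hc1
      fin_cases k0 <;> simp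
    have hab' : ∀ y z : ℤ, IsCoprime (y ^ 3) (z ^ 3) → IsCoprime y z := fun y z h =>
      (IsCoprime.pow_iff (by norm_num) (by norm_num)).mp h
    rcases hk with hk | hk | hk
    · subst hk
      rw [hcA] at hu
      rw [hc1 1 (by decide), one_mul] at hv
      rw [hc1 2 (by decide), one_mul] at ht
      have hδ : δ = -x 1 ^ 3 := by linarith
      have hα : α = -x 1 ^ 3 - x 2 ^ 3 := by linarith
      refine core h1 h3 (AA p e) hA0 hnc P a b c hCrd t1 r2 α δ (x 2) (x 1) (-x 0) ht1 hr2 hg'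
        (neg_ne_zero.mpr (hx 0)) (hab' _ _ (by rw [← hv, ← ht]; exact hvt.symm)) ?_ ?_ ?_
      · linear_combination hα - hu
      · rw [hα, hδ]; unfold TX; ring
      · rw [hα, hδ]; unfold TY; ring
    · subst hk
      rw [hcA] at hv
      rw [hc1 0 (by decide), one_mul] at hu
      rw [hc1 2 (by decide), one_mul] at ht
      have hδ : δ = x 0 ^ 3 + x 2 ^ 3 := by linarith
      refine core h1 h3 (AA p e) hA0 hnc P a b c hCrd t1 r2 α δ (x 0) (x 2) (-x 1) ht1 hr2 hg'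
        (neg_ne_zero.mpr (hx 1)) (hab' _ _ (by rw [← hu, ← ht]; exact hut)) ?_ ?_ ?_
      · linear_combination -hv - hδ
      · rw [hu, hδ]; unfold TX; ring
      · rw [hu, hδ]; unfold TY; ring
    · subst hk
      rw [hcA] at ht
      rw [hc1 0 (by decide), one_mul] at hu
      rw [hc1 1 (by decide), one_mul] at hv
      have hδ : δ = -x 1 ^ 3 := by linarith
      refine core h1 h3 (AA p e) hA0 hnc P a b c hCrd t1 r2 α δ (x 1) (x 0) (-x 2) ht1 hr2 hg'
        (neg_ne_zero.mpr (hx 2)) (hab' _ _ (by rw [← hu, ← hv]; exact huv.symm)) ?_ ?_ ?_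
      · linear_combination hδ - ht - hu
      · rw [hu, hδ]; unfold TX; ring
      · rw [hu, hδ]; unfold TY; ring
  · intro _
    -- representation
    have hinj : Function.Injective (fun k : Fin 3 => zf (fv (j : ZMod 3) k)) := by
      intro k k' hkk
      exact zf_fv_inj _ _ _ hkk
    let σ : Equiv.Perm (Fin 3) := Equiv.ofBijective _ (Finite.injective_iff_bijective.mp hinj)
    have h5 := hpt.perm σ
    refine ⟨x ∘ σ.symm, ?_⟩
    have h6 : (fun i => zf (v i)) = σ ∘ pos := by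
      funext i
      rw [hval i]
      rfl
    rw [h6]
    exact h5

end Pool.Agent.CubeRank
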