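import Pool.Agent.CubeRank.TAvg
import Pool.Agent.CubeRank.TKapEx
import Pool.Agent.CubeRank.TKapAdd
import Pool.Agent.CubeRank.TKapRep
import Pool.Agent.CubeRank.TDiff
import Pool.Agent.CubeRank.TCls

/-!
# The average rank in the family of all twists of a given curve by inert primes
-/

set_option autoImplicit false

namespace Pool.Agent.CubeRank

open Pool.Agent.Lib_helper18 Pool.Agent.Lib_helper18.Eis Pool.Agent.Lib_helper84.Cub

namespace TMain

section append

variable {m0 k : ℕ} {p0 e0 : Fin m0 → ℕ} {q : Fin k → ℕ}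

theorem AA_append (f : Fin k → ℕ) :
    AA (Fin.append p0 q) (Fin.append e0 f) =
      (∏ i, (p0 i : ℤ) ^ e0 i) * ∏ i, (q i : ℤ) ^ f i := by
  unfold AA
  rw [Fin.prod_univ_add]
  simp only [Fin.append_left, Fin.append_right]

variable (hp0 : ∀ i, (p0 i).Prime) (inj0 : Function.Injective p0)
  (he0 : ∀ i, e0 i = 1 ∨ e0 i = 2) (hne : ∀ i j, p0 i ≠ q j)
  (hq : ∀ i, (q i).Prime) (h3 : ∀ i, q i % 3 = 2)
  (hinj : Function.Injective q) (hex : ∃ i, q i % 9 ≠ 8)

include hp0 inj0 he0 hne hq h3 hinj hex in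
theorem hypT_append {f : Fin k → ℕ} (hf : ∀ i, f i = 1 ∨ f i = 2) :
    HypT (Fin.append p0 q) (Fin.append e0 f) where
  hp := fun i => by
    refine Fin.addCases (fun i => ?_) (fun i => ?_) i
    · rw [Fin.append_left]; exact hp0 i
    · rw [Fin.append_right]; exact hq i
  inj := by
    intro i j
    refine Fin.addCases (fun i => ?_) (fun i => ?_) i <;>
      refine Fin.addCases (fun j => ?_) (fun j => ?_) j
    · rw [Fin.append_left, Fin.append_left]; intro h; rw [inj0 h]
    · rw [Fin.append_left, Fin.append_right]; intro h; exact absurd h (hne i j)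
    · rw [Fin.append_left, Fin.append_right]; intro h; exact absurd h.symm (hne j i)
    · rw [Fin.append_right, Fin.append_right]; intro h; rw [hinj h]
  he := fun i => by
    refine Fin.addCases (fun i => ?_) (fun i => ?_) i
    · rw [Fin.append_left]; exact he0 i
    · rw [Fin.append_right]; exact hf i
  ex := by
    obtain ⟨i, hi⟩ := hex
    refine ⟨Fin.natAdd m0 i, ?_⟩
    rw [Fin.append_right]
    have := h3 i
    omega

include hp0 inj0 he0 hne hq h3 hinj hex in
open Classical in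
theorem family (hk : 1 ≤ k) :
    2 ^ ((nT q + 1) / 2) * ∑ f ∈ Ex k,
      4 ^ Module.finrank (ZMod 3) (WW (Fin.append p0 q) (Fin.append e0 f)) ≤
        9 * 4 ^ m0 * 8 ^ k := by
  have hAdd : KapAddStmtT := kapAddT basics coll (kapExT)
  have hRep : KapRepStmtT := kapRepT basics triple
  have hT := nT_le (q := q)
  have hinjA : Function.Injective (fun f : Fin k → ℕ => (Fin.append e0 f : Fin (m0 + k) → ℕ)) := by
    intro f g hfg
    funext i
    have := congrFun hfg (Fin.natAdd m0 i)
    simpa only [Fin.append_right] using this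
  have h1 : ∑ f ∈ Ex k, 4 ^ Module.finrank (ZMod 3) (WW (Fin.append p0 q) (Fin.append e0 f)) ≤
      3 * (2 ^ (m0 + k) * (2 ^ (m0 + k) * (2 ^ (nT q / 2 + (k - nT q)) + 2))) := by
    rw [← Finset.sum_fiberwise_of_maps_to (t := Finset.univ)
      (g := fun f => tg (Fin.append p0 q) (Fin.append e0 f)) (fun _ _ => Finset.mem_univ _)]
    have key : ∀ c : ZMod 3, ∑ f ∈ (Ex k).filter
        (fun f => tg (Fin.append p0 q) (Fin.append e0 f) = c),
        4 ^ Module.finrank (ZMod 3) (WW (Fin.append p0 q) (Fin.append e0 f)) ≤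
        2 ^ (m0 + k) * (2 ^ (m0 + k) * (2 ^ (nT q / 2 + (k - nT q)) + 2)) := by
      intro c
      have hI : ∀ i ∈ (Finset.univ.map (Fin.natAddEmb m0) : Finset (Fin (m0 + k))),
          Fin.append p0 q i % 3 = 2 := by
        intro i hi
        obtain ⟨j, -, rfl⟩ := Finset.mem_map.mp hi
        rw [Fin.natAddEmb_apply, Fin.append_right]
        exact h3 j
      have hmain := sum_class hAdd hRep (by omega : 1 ≤ m0 + k) (Fin.append p0 q)
        (Finset.univ.map (Fin.natAddEmb m0)) hI
        (((Ex k).filter (fun f => tg (Fin.append p0 q) (Fin.append e0 f) = c)).image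
          (fun f : Fin k → ℕ => (Fin.append e0 f : Fin (m0 + k) → ℕ)))
        (fun e he => by
          obtain ⟨f, hf, rfl⟩ := Finset.mem_image.mp he
          exact hypT_append hp0 inj0 he0 hne hq h3 hinj hex
            (mem_Ex.mp (Finset.mem_filter.mp hf).1))
        (fun e he e' he' => by
          obtain ⟨f, hf, rfl⟩ := Finset.mem_image.mp he
          obtain ⟨g, hg, rfl⟩ := Finset.mem_image.mp he'
          refine ⟨fun i => ?_, ?_⟩
          · refine Fin.addCases (fun i => ?_) (fun i => ?_) i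
            · intro _
              rw [Fin.append_left, Fin.append_left]
            · intro hi
              exact absurd (Finset.mem_map.mpr ⟨i, Finset.mem_univ _, rfl⟩) hi
          · rw [(Finset.mem_filter.mp hf).2, (Finset.mem_filter.mp hg).2])
      rw [Finset.sum_image (fun _ _ _ _ h => hinjA h)] at hmain
      have c1 : ((Finset.univ.map (Fin.natAddEmb m0)).filter
          (fun i => Fin.append p0 q i % 9 ≠ 8)).card = nT q := by
        rw [Finset.filter_map, Finset.card_map]
        unfold nT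
        congr 1
        ext i
        simp only [Finset.mem_filter, Finset.mem_univ, true_and, Function.comp,
          Fin.natAddEmb_apply, Fin.append_right]
      have c2 : ((Finset.univ.map (Fin.natAddEmb m0)).filter
          (fun i => Fin.append p0 q i % 9 = 8)).card = k - nT q := by
        rw [Finset.filter_map, Finset.card_map]
        have : (Finset.univ.filter (fun i => q i % 9 = 8)).card = k - nT q := by
          have h5 := Finset.card_filter_add_card_filter_not (s := (Finset.univ : Finset (Fin k)))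
            (fun i => q i % 9 = 8)
          rw [Finset.card_univ, Fintype.card_fin] at h5
          have h6 : (Finset.univ.filter (fun i => ¬ q i % 9 = 8)).card = nT q := by
            unfold nT
            congr
          rw [h6] at h5
          omega
        rw [← this]
        congr 1
        ext i
        simp only [Finset.mem_filter, Finset.mem_univ, true_and, Function.comp,
          Fin.natAddEmb_apply, Fin.append_right]
      rw [c1, c2] at hmain
      exact hmain
    refine (Finset.sum_le_sum (fun c _ => key c)).trans (le_of_eq ?_)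
    rw [Finset.sum_const, smul_eq_mul]
    rfl
  refine (Nat.mul_le_mul_left _ h1).trans ?_
  have e1 : 2 ^ ((nT q + 1) / 2) * 2 ^ (nT q / 2 + (k - nT q)) = 2 ^ k := by
    rw [← pow_add]
    congr 1
    omega
  have e2 : 2 ^ ((nT q + 1) / 2) ≤ 2 ^ k := Nat.pow_le_pow_right (by norm_num) (by omega)
  have e3 : (8 : ℕ) ^ k = 2 ^ k * 2 ^ k * 2 ^ k := by
    rw [← mul_pow, ← mul_pow]
    norm_num
  have e4 : (4 : ℕ) ^ m0 = 2 ^ m0 * 2 ^ m0 := by
    rw [← mul_pow]
    norm_num
  calc 2 ^ ((nT q + 1) / 2) *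
        (3 * (2 ^ (m0 + k) * (2 ^ (m0 + k) * (2 ^ (nT q / 2 + (k - nT q)) + 2))))
      = 3 * (2 ^ (m0 + k) * 2 ^ (m0 + k)) *
          (2 ^ ((nT q + 1) / 2) * 2 ^ (nT q / 2 + (k - nT q)) + 2 * 2 ^ ((nT q + 1) / 2)) := by
        ring
    _ ≤ 3 * (2 ^ (m0 + k) * 2 ^ (m0 + k)) * (2 ^ k + 2 * 2 ^ k) := by
        rw [e1]
        exact Nat.mul_le_mul_left _ (by omega)
    _ = 9 * 4 ^ m0 * 8 ^ k := by
        rw [e3, e4, pow_add]
        ring

end append

/-- factorisation of a cube-free number -/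
theorem factor {A0 : ℕ} (h0 : A0 ≠ 0) (hcf : ∀ p : ℕ, p.Prime → ¬ p ^ 3 ∣ A0) :
    ∃ (m0 : ℕ) (p0 e0 : Fin m0 → ℕ), (∀ i, (p0 i).Prime) ∧ Function.Injective p0 ∧
      (∀ i, e0 i = 1 ∨ e0 i = 2) ∧ (∀ i, p0 i ∣ A0) ∧ ∏ i, (p0 i : ℤ) ^ e0 i = A0 := by
  classical
  set φ := A0.primeFactors.equivFin.symm with hφ
  refine ⟨A0.primeFactors.card, fun i => (φ i).1, fun i => A0.factorization (φ i).1,
    fun i => Nat.prime_of_mem_primeFactors (φ i).2, ?_, fun i => ?_,
    fun i => Nat.dvd_of_mem_primeFactors (φ i).2, ?_⟩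
  · intro i j hij
    exact φ.injective (Subtype.ext hij)
  · have hpr := Nat.prime_of_mem_primeFactors (φ i).2
    have hd := Nat.dvd_of_mem_primeFactors (φ i).2
    have h1 : 1 ≤ A0.factorization (φ i).1 := by
      rw [← hpr.pow_dvd_iff_le_factorization h0, pow_one]
      exact hd
    have h2 : ¬ 3 ≤ A0.factorization (φ i).1 := by
      rw [← hpr.pow_dvd_iff_le_factorization h0]
      exact hcf _ hpr
    show A0.factorization (φ i).1 = 1 ∨ A0.factorization (φ i).1 = 2
    omega
  · have h1 : ∏ i, ((φ i).1 : ℕ) ^ A0.factorization (φ i).1 = A0 := by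
      rw [Equiv.prod_comp φ (fun x => (x.1 : ℕ) ^ A0.factorization x.1),
        Finset.prod_coe_sort A0.primeFactors (fun x => x ^ A0.factorization x)]
      exact Nat.prod_factorization_pow_eq_self h0
    exact_mod_cast congrArg (Nat.cast : ℕ → ℤ) h1

/-- **the average of `4 ^ r` over the twists of a given curve** -/
theorem twists {A0 : ℕ} (h0 : A0 ≠ 0) (hcf : ∀ p : ℕ, p.Prime → ¬ p ^ 3 ∣ A0) :
    ∃ c : ℕ, ∀ (k : ℕ) (q : Fin k → ℕ), 2 ≤ k → (∀ i, (q i).Prime) → (∀ i, q i % 3 = 2) →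
      Function.Injective q → (∀ i, ¬ q i ∣ A0) → (∃ i, q i % 9 ≠ 8) →
      (∀ e : Fin k → ℕ, (∀ i, e i = 1 ∨ e i = 2) →
        GenBy (A0 * ∏ i, (q i : ℤ) ^ e i) (rr (A0 * ∏ i, (q i : ℤ) ^ e i))) ∧
      2 ^ ((nT q + 1) / 2) * ∑ e ∈ Ex k, 4 ^ rr (A0 * ∏ i, (q i : ℤ) ^ e i) ≤ c * 8 ^ k := by
  obtain ⟨m0, p0, e0, hp0, inj0, he0, hd, hprod⟩ := factor h0 hcf
  refine ⟨9 * 4 ^ (m0 + nB (81 * (A0 : ℤ).natAbs ^ 4)), fun k q hk hq h3 hinj hnd hex => ?_⟩
  have hAdd : KapAddStmtT := kapAddT basics coll kapExT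
  have hRep : KapRepStmtT := kapRepT basics triple
  have hDiff : DiffStmtT := diffT basics coll
  have hCls : ClsStmtT := clsT
  have hne : ∀ i j, p0 i ≠ q j := fun i j h => hnd j (by rw [← h]; exact hd i)
  have hgen : ∀ {e : Fin k → ℕ}, (∀ i, e i = 1 ∨ e i = 2) →
      GenBy (A0 * ∏ i, (q i : ℤ) ^ e i) (nB (81 * (A0 : ℤ).natAbs ^ 4) +
        (Module.finrank (ZMod 3) (WW (Fin.append p0 q) (Fin.append e0 e)) - 1)) := by
    intro e he
    have h := hypT_append hp0 inj0 he0 hne hq h3 hinj hex he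
    have h2 := gen_card kapExT hAdd hRep hCls hDiff (by omega : 2 ≤ m0 + k) h
      (A0 := (A0 : ℤ)) (by exact_mod_cast h0) (fun i => by
        refine Fin.addCases (fun i => ?_) (fun i => ?_) i
        · rw [Fin.append_left]; right; exact_mod_cast hd i
        · rw [Fin.append_right]; left; exact h3 i)
    rw [AA_append, hprod] at h2
    exact h2
  refine ⟨fun e he => gen_rr (hgen he), ?_⟩
  have hfam := family hp0 inj0 he0 hne hq h3 hinj hex (by omega : 1 ≤ k)
  calc 2 ^ ((nT q + 1) / 2) * ∑ e ∈ Ex k, 4 ^ rr (A0 * ∏ i, (q i : ℤ) ^ e i)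
      ≤ 2 ^ ((nT q + 1) / 2) * ∑ e ∈ Ex k, 4 ^ nB (81 * (A0 : ℤ).natAbs ^ 4) *
          4 ^ Module.finrank (ZMod 3) (WW (Fin.append p0 q) (Fin.append e0 e)) := by
        refine Nat.mul_le_mul_left _ (Finset.sum_le_sum (fun e he => ?_))
        rw [← pow_add]
        refine Nat.pow_le_pow_right (by norm_num) ((rr_le (hgen (mem_Ex.mp he))).trans ?_)
        exact Nat.add_le_add_left (Nat.sub_le _ _) _
    _ = 4 ^ nB (81 * (A0 : ℤ).natAbs ^ 4) * (2 ^ ((nT q + 1) / 2) * ∑ e ∈ Ex k,
          4 ^ Module.finrank (ZMod 3) (WW (Fin.append p0 q) (Fin.append e0 e))) := by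
        rw [← Finset.mul_sum]; ring
    _ ≤ 4 ^ nB (81 * (A0 : ℤ).natAbs ^ 4) * (9 * 4 ^ m0 * 8 ^ k) := Nat.mul_le_mul_left _ hfam
    _ = 9 * 4 ^ (m0 + nB (81 * (A0 : ℤ).natAbs ^ 4)) * 8 ^ k := by rw [pow_add]; ring

end TMain

end Pool.Agent.CubeRank
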