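import Pool.Agent.CubeRank.TDefs
import Pool.Agent.CubeRank.GLaw

/-!
# The reciprocity law for classes without zeros, arbitrary primes (T5)
-/

set_option autoImplicit false

namespace Pool.Agent.CubeRank

open Pool.Agent.Lib_helper18 Pool.Agent.Lib_helper18.Eis Pool.Agent.Lib_helper84.Cub

namespace TLaw

variable {m : ℕ} {p e e' : Fin m → ℕ} {pos pos' : Fin m → Fin 3} {x y : Fin 3 → ℤ}
  {S : Finset (Fin m)}

/-- data used in all cases -/
structure BaseU (p e e' : Fin m → ℕ) (S : Finset (Fin m)) : Prop where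
  hp : ∀ i, (p i).Prime
  sp3 : ∀ {i}, i ∈ S → p i % 3 = 2
  inj : Function.Injective p
  he : ∀ i, e i = 1 ∨ e i = 2
  he' : ∀ i, e' i = 1 ∨ e' i = 2
  rel : ∀ j, if j ∈ S then e j + e' j = 3 else e j = e' j

/-- nonresidues -/
theorem BaseU.nonCube (_b : BaseU p e e' S) {l : Eis} (hl : Prime l) (hl3 : ¬ l ∣ 3)
    (hno : ∀ j, ¬ l ∣ (p j : Eis))
    (h : ∑ i ∈ S, (e i : ZMod 3) * sym l (p i : Eis) ≠ 0) : NonCube l (bS p e S) := by
  have e1 : ((bS p e S : ℤ) : Eis) = ∏ j ∈ S, (p j : Eis) ^ e j := by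
    unfold bS
    push_cast
    rw [← Finset.prod_filter]
    simp
  obtain ⟨h1, h2⟩ := sym_prod hl hl3 e S hno
  apply nonCube_of_sym hl hl3
  · rw [e1]; exact h1
  · rw [e1, h2]; exact h


theorem exch_h1U (b : BaseU p e e' S) (hpos : Exch S pos pos') :
    cell p e pos 0 * cell p e' pos' 1 * rdP p S pos 1 ^ 3 =
      cell p e' pos' 0 * cell p e pos 1 * rdP p S pos 0 ^ 3 := by
  unfold rdP
  simp only [cell, ← Finset.prod_mul_distrib, ← Finset.prod_pow]
  refine Finset.prod_congr rfl (fun j _ => ?_)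
  have hj := hpos j
  have hr := b.rel j
  have hej := b.he j
  have h3 : pos j = 0 ∨ pos j = 1 ∨ pos j = 2 := by
    generalize pos j = k; revert k; decide
  split_ifs at hj hr with hS
  · have hee : (e j = 1 ∧ e' j = 2) ∨ (e j = 2 ∧ e' j = 1) := by omega
    rcases h3 with h3 | h3 | h3 <;> rcases hee with ⟨he, h9⟩ | ⟨he, h9⟩ <;> rw [h3] at hj <;>
      simp [hj, h3, hS, he, h9, tau] <;> ring
  · rcases h3 with h3 | h3 | h3 <;> rw [h3] at hj <;> simp [hj, h3, hS, hr]

theorem tII_atU (b : BaseU p e e' S) (hP : IsPt p e pos x) (hP' : IsPt p e' pos' y)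
    (hpos : Exch S pos pos') {i : Fin m} (hi : i ∈ S) :
    ¬ (p i : Eis) ∣ tII p S pos x y ∧
      sym (p i : Eis) (tII p S pos x y) = fpos (pos i) * sym (p i : Eis) w := by
  have he0 : e i ≠ 0 := by have := b.he i; omega
  have he0' : e' i ≠ 0 := by have := b.he' i; omega
  have hp' := hpos i
  rw [if_pos hi] at hp'
  have hx := sum3 hP.sum
  have hy := sum3 hP'.sum
  have key : ((p i : ℤ) ∣ cell p e pos 2 ∧ (p i : ℤ) ∣ cell p e' pos' 2 ∧
        ¬ (p i : ℤ) ∣ rdP p S pos 1 ∧ fpos (pos i) = 2 ∨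
      (p i : ℤ) ∣ cell p e pos 0 ∧ (p i : ℤ) ∣ cell p e' pos' 1 ∧
        (p i : ℤ) ∣ rdP p S pos 0 ∧ ¬ (p i : ℤ) ∣ rdP p S pos 1 ∧ fpos (pos i) = 1 ∨
      (p i : ℤ) ∣ cell p e pos 1 ∧ (p i : ℤ) ∣ cell p e' pos' 0 ∧
        (p i : ℤ) ∣ rdP p S pos 1 ∧ ¬ (p i : ℤ) ∣ rdP p S pos 0 ∧
        fpos (pos i) = 0) := by
    have h3 : pos i = 0 ∨ pos i = 1 ∨ pos i = 2 := by
      generalize pos i = k; revert k; decide
    rcases h3 with h3 | h3 | h3
    · right; left
      rw [h3] at hp' ⊢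
      exact ⟨dvd_prod_if (fun j => pos j = 0) h3 he0,
        dvd_prod_if (fun j => pos' j = 1) hp' he0',
        dvd_prod_if (fun j => j ∈ S ∧ pos j = 0) ⟨hi, h3⟩ one_ne_zero,
        not_dvd_prod_if b.hp b.inj (fun j => j ∈ S ∧ pos j = 1)
          (fun h => by have := h.2; rw [h3] at this; exact absurd this (by decide)), rfl⟩
    · right; right
      rw [h3] at hp' ⊢
      exact ⟨dvd_prod_if (fun j => pos j = 1) h3 he0,
        dvd_prod_if (fun j => pos' j = 0) hp' he0',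
        dvd_prod_if (fun j => j ∈ S ∧ pos j = 1) ⟨hi, h3⟩ one_ne_zero,
        not_dvd_prod_if b.hp b.inj (fun j => j ∈ S ∧ pos j = 0)
          (fun h => by have := h.2; rw [h3] at this; exact absurd this (by decide)), rfl⟩
    · left
      rw [h3] at hp' ⊢
      exact ⟨dvd_prod_if (fun j => pos j = 2) h3 he0,
        dvd_prod_if (fun j => pos' j = 2) hp' he0',
        not_dvd_prod_if b.hp b.inj (fun j => j ∈ S ∧ pos j = 1)
          (fun h => by have := h.2; rw [h3] at this; exact absurd this (by decide)), rfl⟩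
  exact caseII_one (b.hp i) (b.sp3 hi) hx (hP.cop 0 1 (by decide)) (hP.cop 1 2 (by decide)) hy
    (hP'.cop 0 1 (by decide)) (hP'.cop 0 2 (by decide)) (exch_h1U b hpos) key

theorem tII_locU (b : BaseU p e e' S) (hP : IsPt p e pos x) (hP' : IsPt p e' pos' y)
    (hpos : Exch S pos pos') {l : Eis} (hl : Prime l) (hl3 : ¬ l ∣ 3)
    (hno : ∀ j, ¬ l ∣ (p j : Eis)) (hbad : NonCube l (bS p e S)) :
    3 ∣ V l (tII p S pos x y) := by
  have hx := sum3 hP.sum
  have hy := sum3 hP'.sum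
  refine caseII_loc hl hl3
    (k := ∏ j, if j ∈ S ∧ (pos j = 1 ∨ pos j = 2 ∧ e j = 2) then (p j : ℤ) ^ 1 else 1)
    (m := ∏ j, if j ∈ S ∧ (pos j = 0 ∨ pos j = 2 ∧ e j = 2) then (p j : ℤ) ^ 1 else 1)
    hbad hx (hP.cop 0 1 (by decide)) hy (hP'.cop 0 1 (by decide))
    (hP'.cop 0 2 (by decide)) (hP'.cop 1 2 (by decide)) (exch_h1U b hpos) ?_ ?_ ?_
    ⟨hP.ne 0, hP'.ne 2⟩
  · -- h2
    unfold bS
    simp only [cell, ← Finset.prod_mul_distrib, ← Finset.prod_pow]
    refine Finset.prod_congr rfl (fun j _ => ?_)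
    have hj := hpos j
    have hr := b.rel j
    have hej := b.he j
    have h3 : pos j = 0 ∨ pos j = 1 ∨ pos j = 2 := by
      generalize pos j = k; revert k; decide
    split_ifs at hj hr with hS
    · have hee : (e j = 1 ∧ e' j = 2) ∨ (e j = 2 ∧ e' j = 1) := by omega
      rcases h3 with h3 | h3 | h3 <;> rcases hee with ⟨he, h9⟩ | ⟨he, h9⟩ <;> rw [h3] at hj <;>
        simp [hj, h3, hS, he, h9, tau] <;> ring
    · rcases h3 with h3 | h3 | h3 <;> rw [h3] at hj <;> simp [hj, h3, hS, hr]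
  · -- h3
    unfold bS
    simp only [cell, ← Finset.prod_mul_distrib, ← Finset.prod_pow]
    refine Finset.prod_congr rfl (fun j _ => ?_)
    have hj := hpos j
    have hr := b.rel j
    have hej := b.he j
    have h3 : pos j = 0 ∨ pos j = 1 ∨ pos j = 2 := by
      generalize pos j = k; revert k; decide
    split_ifs at hj hr with hS
    · have hee : (e j = 1 ∧ e' j = 2) ∨ (e j = 2 ∧ e' j = 1) := by omega
      rcases h3 with h3 | h3 | h3 <;> rcases hee with ⟨he, h9⟩ | ⟨he, h9⟩ <;> rw [h3] at hj <;>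
        simp [hj, h3, hS, he, h9, tau] <;> ring
    · rcases h3 with h3 | h3 | h3 <;> rw [h3] at hj <;> simp [hj, h3, hS, hr]
  · -- units
    intro hdvd
    have hS : SPr p (cell p e' pos' 0 * cell p e' pos' 1 * cell p e pos 1 * cell p e pos 2 *
      rdP p S pos 1 * rdP p S pos 0 *
      (∏ j, if j ∈ S ∧ (pos j = 1 ∨ pos j = 2 ∧ e j = 2) then (p j : ℤ) ^ 1 else 1) *
      (∏ j, if j ∈ S ∧ (pos j = 0 ∨ pos j = 2 ∧ e j = 2) then (p j : ℤ) ^ 1 else 1)) := by
      refine SPr.mul (SPr.mul (SPr.mul (SPr.mul (SPr.mul (SPr.mul (SPr.mul ?_ ?_) ?_) ?_)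
        ?_) ?_) ?_) ?_
      · exact SPr.prod p (fun j => pos' j = 0) e'
      · exact SPr.prod p (fun j => pos' j = 1) e'
      · exact SPr.prod p (fun j => pos j = 1) e
      · exact SPr.prod p (fun j => pos j = 2) e
      · exact SPr.prod p (fun j => j ∈ S ∧ pos j = 1) (fun _ => 1)
      · exact SPr.prod p (fun j => j ∈ S ∧ pos j = 0) (fun _ => 1)
      · exact SPr.prod p (fun j => j ∈ S ∧ (pos j = 1 ∨ pos j = 2 ∧ e j = 2)) (fun _ => 1)
      · exact SPr.prod p (fun j => j ∈ S ∧ (pos j = 0 ∨ pos j = 2 ∧ e j = 2)) (fun _ => 1)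
    obtain ⟨j, hj⟩ := hS l hl hdvd
    exact hno j hj


/-- the symbol of a product of prime powers -/
theorem sym_prod_if {l : Eis} (hl : Prime l) (hl3 : ¬ l ∣ 3) (f : Fin m → ℤ)
    (s : Finset (Fin m)) (hf : ∀ j ∈ s, ¬ l ∣ (f j : Eis)) :
    ¬ l ∣ ((∏ j ∈ s, f j : ℤ) : Eis) ∧
      sym l ((∏ j ∈ s, f j : ℤ) : Eis) = ∑ j ∈ s, sym l (f j : Eis) := by
  classical
  induction s using Finset.induction_on with
  | empty =>
    simp only [Finset.prod_empty, Finset.sum_empty, Int.cast_one]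
    exact ⟨not_dvd_of_isUnit hl isUnit_one, sym_one hl hl3⟩
  | insert a s ha ih =>
    have ih' := ih (fun j hj => hf j (Finset.mem_insert_of_mem hj))
    have h1 := hf a (Finset.mem_insert_self _ _)
    rw [Finset.prod_insert ha, Finset.sum_insert ha, Int.cast_mul]
    exact ⟨fun h => (hl.dvd_or_dvd h).elim h1 ih'.1, by rw [sym_mul hl hl3 h1 ih'.1, ih'.2]⟩

theorem sym_cell {l : Eis} (hl : Prime l) (hl3 : ¬ l ∣ 3) (he : ∀ i, e i = 1 ∨ e i = 2)
    {k : Fin 3} (h : ¬ l ∣ (cell p e pos k : Eis)) :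
    sym l (cell p e pos k : Eis) =
      ∑ j, if pos j = k then (e j : ZMod 3) * sym l (p j : Eis) else 0 := by
  have h1 : ∀ j ∈ Finset.univ,
      ¬ l ∣ (((if pos j = k then (p j : ℤ) ^ e j else 1 : ℤ)) : Eis) := by
    intro j hj hd
    apply h
    unfold cell
    rw [← Finset.mul_prod_erase Finset.univ _ hj, Int.cast_mul]
    exact Dvd.dvd.mul_right hd _
  have h2 := (sym_prod_if hl hl3 (fun j => if pos j = k then (p j : ℤ) ^ e j else 1)
    Finset.univ h1).2
  unfold cell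
  rw [h2]
  refine Finset.sum_congr rfl (fun j hj => ?_)
  have h3 := h1 j hj
  split_ifs at h3 ⊢ with h4
  · push_cast at h3 ⊢
    have h5 : ¬ l ∣ (p j : Eis) := fun h6 => h3 (Dvd.dvd.pow h6 (by
      have := he j; omega))
    exact sym_pow hl hl3 h5 _
  · push_cast
    exact sym_one hl hl3

/-- a cell which is a cube residue -/
theorem sym_cell_zero {l : Eis} (hl : Prime l) (hl3 : ¬ l ∣ 3) (hP : IsPt p e pos x)
    {i j k : Fin 3} (hij : i ≠ j) (hik : i ≠ k) (hjk : j ≠ k)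
    (hi : l ∣ (cell p e pos i : Eis)) (hk : cell p e pos k = 1) :
    ¬ l ∣ (cell p e pos j : Eis) ∧ sym l (cell p e pos j : Eis) = 0 := by
  have hcop : ∀ n, i ≠ n → ¬ l ∣ ((cell p e pos n * x n : ℤ) : Eis) := by
    intro n hn hd
    obtain ⟨u, v, huv⟩ := hP.cop i n hn
    apply hl.not_isUnit
    apply isUnit_of_dvd_one
    have e1 : (1 : Eis) = (u : Eis) * ((cell p e pos i : Eis) * (x i : Eis)) +
        (v : Eis) * ((cell p e pos n * x n : ℤ) : Eis) := by
      have := congrArg (Int.cast : ℤ → Eis) huv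
      push_cast at this ⊢
      exact this.symm
    rw [e1]
    exact dvd_add (Dvd.dvd.mul_left (Dvd.dvd.mul_right hi _) _) (Dvd.dvd.mul_left hd _)
  have hj := hcop j hij
  have hk' := hcop k hik
  rw [Int.cast_mul] at hj hk'
  have hjc : ¬ l ∣ (cell p e pos j : Eis) := fun h => hj (Dvd.dvd.mul_right h _)
  have hjx : ¬ l ∣ (x j : Eis) := fun h => hj (Dvd.dvd.mul_left h _)
  have hkx : ¬ l ∣ (x k : Eis) := fun h => hk' (Dvd.dvd.mul_left h _)
  refine ⟨hjc, ?_⟩
  have hsum : cell p e pos i * x i ^ 3 + cell p e pos j * x j ^ 3 + cell p e pos k * x k ^ 3 = 0 := by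
    rw [← hP.sum]
    have key : ∀ i j k : Fin 3, i ≠ j → i ≠ k → j ≠ k → ∀ f : Fin 3 → ℤ,
        f i + f j + f k = ∑ n, f n := by
      intro i j k h1 h2 h3 f
      rw [Fin.sum_univ_three]
      have key2 : ∀ i j k : Fin 3, i ≠ j → i ≠ k → j ≠ k → (i = 0 ∧ j = 1 ∧ k = 2) ∨
        (i = 0 ∧ j = 2 ∧ k = 1) ∨ (i = 1 ∧ j = 0 ∧ k = 2) ∨ (i = 1 ∧ j = 2 ∧ k = 0) ∨
        (i = 2 ∧ j = 0 ∧ k = 1) ∨ (i = 2 ∧ j = 1 ∧ k = 0) := by decide
      rcases key2 i j k h1 h2 h3 with ⟨rfl, rfl, rfl⟩ | ⟨rfl, rfl, rfl⟩ | ⟨rfl, rfl, rfl⟩ |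
        ⟨rfl, rfl, rfl⟩ | ⟨rfl, rfl, rfl⟩ | ⟨rfl, rfl, rfl⟩ <;> ring
    exact key i j k hij hik hjk (fun n => cell p e pos n * x n ^ 3)
  rw [hk, one_mul] at hsum
  have h5 : l ∣ (cell p e pos j : Eis) * (x j : Eis) ^ 3 - (-(x k : Eis)) ^ 3 := by
    have e2 : (cell p e pos j : Eis) * (x j : Eis) ^ 3 - (-(x k : Eis)) ^ 3 =
        -((cell p e pos i : Eis) * (x i : Eis) ^ 3) := by
      have := congrArg (Int.cast : ℤ → Eis) hsum
      push_cast at this
      linear_combination this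
    rw [e2, dvd_neg]
    exact Dvd.dvd.mul_right hi _
  have h6 := sym_congr h5
  have hkx' : ¬ l ∣ -(x k : Eis) := by rwa [dvd_neg]
  have hjx3 : ¬ l ∣ (x j : Eis) ^ 3 := fun h => hjx (hl.dvd_of_dvd_pow h)
  rw [sym_cube hl hl3 hkx', sym_mul hl hl3 hjc hjx3, sym_cube hl hl3 hjx, add_zero] at h6
  exact h6

/-- primes dividing an unexchanged `p j` are harmless -/
theorem BaseU.good (b : BaseU p e e' S) (hP : IsPt p e pos x) (hP' : IsPt p e' pos' y)
    (hpos : Exch S pos pos') (h2 : ∀ j, pos j ≠ 2) {l : Eis} (hl : Prime l) (hl3 : ¬ l ∣ 3)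
    {j : Fin m} (hj : l ∣ (p j : Eis)) (hjS : j ∉ S) :
    ∑ i ∈ S, (e i : ZMod 3) * sym l (p i : Eis) = 0 := by
  classical
  have c2 : cell p e pos 2 = 1 := by
    unfold cell
    exact Finset.prod_eq_one (fun i _ => if_neg (h2 i))
  have h2' : ∀ j, pos' j ≠ 2 := by
    intro i
    have h3 := hpos i
    have h4 := h2 i
    split_ifs at h3
    · rw [h3]
      revert h4
      generalize pos i = k
      revert k
      decide
    · rw [h3]; exact h4
  have c2' : cell p e' pos' 2 = 1 := by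
    unfold cell
    exact Finset.prod_eq_one (fun i _ => if_neg (h2' i))
  have hj' : pos' j = pos j := by
    have := hpos j
    rwa [if_neg hjS] at this
  have hdv : ∀ (n : Fin m → ℕ) (ps : Fin m → Fin 3), (∀ i, n i = 1 ∨ n i = 2) →
      l ∣ (cell p n ps (ps j) : Eis) := by
    intro n ps hn
    unfold cell
    rw [← Finset.mul_prod_erase Finset.univ _ (Finset.mem_univ j), if_pos rfl, Int.cast_mul]
    refine Dvd.dvd.mul_right ?_ _
    push_cast
    exact Dvd.dvd.pow hj (by have := hn j; omega)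
  have d1 := hdv e pos b.he
  have d2 := hdv e' pos' b.he'
  -- the two cases
  have main : ∀ k : Fin 3, k ≠ 2 → k ≠ pos j →
      ∑ i ∈ S, (e i : ZMod 3) * sym l (p i : Eis) = 0 := by
    intro k hk2 hkj
    have hj2 := h2 j
    obtain ⟨a1, a2⟩ := sym_cell_zero hl hl3 hP (i := pos j) (j := k) (k := 2) (Ne.symm hkj) hj2
      hk2 d1 c2
    obtain ⟨a3, a4⟩ := sym_cell_zero hl hl3 hP' (i := pos' j) (j := k) (k := 2)
      (by rw [hj']; exact Ne.symm hkj) (h2' j) hk2 d2 c2'
    rw [sym_cell hl hl3 b.he a1] at a2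
    rw [sym_cell hl hl3 b.he' a3] at a4
    have e1 : ∀ s : ZMod 3, s ≠ 0 → s * s = 1 := by decide
    -- signs
    set sg' : ZMod 3 := if k = 1 then 1 else -1 with hsg
    have hk01 : k = 0 ∨ k = 1 := by
      revert hk2; clear hkj a1 a2 a3 a4 hsg; revert k; decide
    have e2 : ∑ i ∈ S, (e i : ZMod 3) * sym l (p i : Eis) =
        (∑ i, if pos i = k then (e i : ZMod 3) * sym l (p i : Eis) else 0) -
        ∑ i, if pos' i = k then (e' i : ZMod 3) * sym l (p i : Eis) else 0 := by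
      rw [← Finset.sum_sub_distrib]
      rw [← Finset.sum_filter_add_sum_filter_not Finset.univ (fun i => i ∈ S)
        (fun i => (if pos i = k then (e i : ZMod 3) * sym l (p i : Eis) else 0) -
          if pos' i = k then (e' i : ZMod 3) * sym l (p i : Eis) else 0)]
      have z : ∑ i ∈ Finset.univ.filter (fun i => i ∉ S),
          ((if pos i = k then (e i : ZMod 3) * sym l (p i : Eis) else 0) -
          if pos' i = k then (e' i : ZMod 3) * sym l (p i : Eis) else 0) = 0 := by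
        refine Finset.sum_eq_zero (fun i hi => ?_)
        have hi' := (Finset.mem_filter.mp hi).2
        have h5 := hpos i
        have h6 := b.rel i
        rw [if_neg hi'] at h5 h6
        rw [h5, h6, sub_self]
      rw [z, add_zero]
      have hfil : Finset.univ.filter (fun i => i ∈ S) = S := by ext; simp
      rw [hfil]
      refine Finset.sum_congr rfl (fun i hi => ?_)
      have h5 := hpos i
      have h6 := b.rel i
      rw [if_pos hi] at h5 h6
      have h7 : (e i : ZMod 3) + (e' i : ZMod 3) = 0 := by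
        have := congrArg (Nat.cast : ℕ → ZMod 3) h6
        push_cast at this
        rw [this]; rfl
      have h8 := h2 i
      have h9 : pos i = 0 ∨ pos i = 1 := by
        revert h8; generalize pos i = n; revert n; decide
      rcases h9 with h9 | h9 <;> rw [h9] at h5 ⊢ <;> rcases hk01 with hk | hk <;> rw [hk, h5] <;>
        simp [tau] <;> linear_combination (sym l (p i : Eis)) * h7
    rw [e2, a2, a4, sub_self]
  have hj2 := h2 j
  have h9 : pos j = 0 ∨ pos j = 1 := by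
    revert hj2; generalize pos j = n; revert n; decide
  rcases h9 with h9 | h9
  · exact main 1 (by decide) (by rw [h9]; decide)
  · exact main 0 (by decide) (by rw [h9]; decide)

/-- the law -/
theorem BaseU.law (b : BaseU p e e' S) (hS : S.Nonempty) (hP : IsPt p e pos x)
    (hP' : IsPt p e' pos' y) (hpos : Exch S pos pos') (h2 : ∀ j, pos j ≠ 2)
    (hs : ∑ i ∈ S, (e i : ZMod 3) * sym (p i : Eis) w = 0) :
    ∑ i ∈ S, (e i : ZMod 3) * (fpos (pos i) * sym (p i : Eis) w) = 0 := by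
  have ht : tII p S pos x y ≠ 0 := by
    obtain ⟨i, hi⟩ := hS
    intro h
    have := (tII_atU b hP hP' hpos hi).1
    rw [h] at this
    exact this (dvd_zero _)
  obtain ⟨c, hc⟩ := exists_cls ht
  have h0 := fun i (hi : i ∈ S) => tII_atU b hP hP' hpos hi
  have h1 := lemmaSG S (fun i _ => b.hp i) (fun i hi => b.sp3 hi) (fun i => (e i : ZMod 3)) ht
    (fun i hi => (h0 i hi).1) hc (by
    intro l hl hl3 hlt
    have hlq : ∀ i ∈ S, ¬ l ∣ (p i : Eis) := fun i hi h => (h0 i hi).1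
      ((hl.associated_of_dvd (prime_inert (b.hp i) (b.sp3 hi)) h).symm.dvd.trans hlt)
    by_cases hno : ∃ j, l ∣ (p j : Eis)
    · left
      obtain ⟨j, hj⟩ := hno
      exact b.good hP hP' hpos h2 hl hl3 hj (fun hjS => hlq j hjS hj)
    push Not at hno
    by_cases hgood : ∑ i ∈ S, (e i : ZMod 3) * sym l (p i : Eis) = 0
    · exact Or.inl hgood
    · exact Or.inr (tII_locU b hP hP' hpos hl hl3 hno (b.nonCube hl hl3 hno hgood)))
  rw [hs, mul_zero] at h1
  rw [← h1]
  exact Finset.sum_congr rfl (fun i hi => by rw [(h0 i hi).2])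

end TLaw

open TLaw in
theorem lawT : LawStmtT := by
  intro m p e e' S h h' hS hS3 hs v v' hv hv' hv0 hvv
  classical
  by_cases hne : S.Nonempty
  swap
  · rw [Finset.not_nonempty_iff_eq_empty.mp hne]; simp
  have b : BaseU p e e' S :=
    { hp := h.hp, sp3 := fun hi => hS3 _ hi, inj := h.inj, he := h.he, he' := h'.he
      rel := fun j => by
        have h1 := h.he j
        have h2 := h'.he j
        have h3 := hS j
        split_ifs with h4
        · have := h3.mp h4; omega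
        · by_contra h5
          exact h4 (h3.mpr h5) }
  obtain ⟨x, hx⟩ := rep_shift hv 2
  obtain ⟨y, hy⟩ := rep_shift hv' 2
  have hsg : ∀ i ∈ S, sg p e i = -((e i : ZMod 3) * sym (p i : Eis) w) := by
    intro i hi
    have h3 := hS3 i hi
    unfold sg
    rw [if_neg (by omega)]
    have := FData.sym_w_r (h.hp i) h3
    rw [this]; ring
  have hs' : ∑ i ∈ S, (e i : ZMod 3) * sym (p i : Eis) w = 0 := by
    have h5 := hs
    rw [Finset.sum_congr rfl hsg, Finset.sum_neg_distrib, neg_eq_zero] at h5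
    exact h5
  have hpos : Exch S (fun i => zf (v i + 2)) (fun i => zf (v' i + 2)) := by
    intro i
    have h5 := hvv i
    have key : ∀ z : ZMod 3, zf (-z + 2) = tau (zf (z + 2)) := by decide
    split_ifs at h5 ⊢ with hi
    · simp only [h5]; exact key _
    · simp only [h5]
  have h2 : ∀ j, zf (v j + 2) ≠ 2 := by
    intro j
    have h5 := hv0 j
    have key : ∀ z : ZMod 3, z ≠ 0 → zf (z + 2) ≠ 2 := by decide
    exact key _ h5
  have h6 := b.law hne hx hy hpos h2 hs'
  have key : ∀ z : ZMod 3, fpos (zf (z + 2)) = 2 - z := by decide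
  rw [Finset.sum_congr rfl (fun i hi => by rw [key (v i)])] at h6
  have h7 : ∑ i ∈ S, sg p e i * v i = ∑ i ∈ S, (e i : ZMod 3) * ((2 - v i) * sym (p i : Eis) w) -
      2 * ∑ i ∈ S, (e i : ZMod 3) * sym (p i : Eis) w := by
    rw [Finset.mul_sum, ← Finset.sum_sub_distrib]
    refine Finset.sum_congr rfl (fun i hi => ?_)
    rw [hsg i hi]; ring
  rw [h7, h6, hs', mul_zero, sub_zero]

end Pool.Agent.CubeRank
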