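import Pool.Agent.CubeRank.TLaw
import Pool.Agent.CubeRank.AvgFinal

/-!
# The group of classes and the number of generators, arbitrary primes
-/

set_option autoImplicit false

namespace Pool.Agent.CubeRank

open Pool.Agent.Lib_helper18 Pool.Agent.Lib_helper18.Eis Pool.Agent.Lib_helper84.Cub

namespace TMain

variable {m : ℕ} {p e e' : Fin m → ℕ}

section group

variable (hAdd : KapAddStmtT)
include hAdd

theorem UG_add (h : HypT p e) {v v' : Fin m → ZMod 3} (hv : UG p e v)
    (hv' : UG p e v') : UG p e (v + v') := by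
  obtain ⟨P, hP⟩ := hv
  obtain ⟨Q, hQ⟩ := hv'
  exact ⟨P + Q, hAdd m p e h P Q v v' hP hQ⟩

theorem UG_smul (h : HypT p e) {v : Fin m → ZMod 3} (hv : UG p e v) (c : ZMod 3) :
    UG p e (fun i => c * v i) := by
  have h0 : c = 0 ∨ c = 1 ∨ c = 2 := by revert c; decide
  rcases h0 with rfl | rfl | rfl
  · have := UG_const p e 0
    convert this using 2
    simp
  · simpa using hv
  · have := UG_add hAdd h hv hv
    convert this using 1
    funext i
    simp only [Pi.add_apply]
    ring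

theorem mem_WW (h : HypT p e) {v : Fin m → ZMod 3} :
    v ∈ WW p e ↔ UG p e (fun i => (e i : ZMod 3) * v i) := by
  refine ⟨fun hv => ?_, fun hv => Submodule.subset_span hv⟩
  unfold WW at hv
  induction hv using Submodule.span_induction with
  | mem x hx => exact hx
  | zero =>
    have := UG_const p e 0
    convert this using 2
    simp
  | add x y _ _ hx hy =>
    have := UG_add hAdd h hx hy
    convert this using 1
    funext i
    simp only [Pi.add_apply]
    ring
  | smul a x _ hx =>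
    have := UG_smul hAdd h hx a
    convert this using 1
    funext i
    simp only [Pi.smul_apply, smul_eq_mul]
    ring

theorem self_mem (h : HypT p e) : (fun i => (e i : ZMod 3)) ∈ WW p e := by
  rw [mem_WW hAdd h]
  have := UG_const p e 1
  convert this using 2
  exact sq_one h.he _

theorem card_WW (h : HypT p e) :
    Nat.card {v // UG p e v} = 3 ^ Module.finrank (ZMod 3) (WW p e) := by
  have h1 : Nat.card (WW p e) = 3 ^ Module.finrank (ZMod 3) (WW p e) := by
    rw [Module.natCard_eq_pow_finrank (K := ZMod 3)]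
    simp
  rw [← h1]
  refine Nat.card_congr ?_
  exact
    { toFun := fun v => ⟨fun i => (e i : ZMod 3) * v.1 i, by
        rw [mem_WW hAdd h]
        have := v.2
        convert this using 1
        funext i
        rw [← mul_assoc, sq_one h.he, one_mul]⟩
      invFun := fun v => ⟨fun i => (e i : ZMod 3) * v.1 i, (mem_WW hAdd h).mp v.2⟩
      left_inv := fun v => by
        ext i
        simp only
        rw [← mul_assoc, sq_one h.he, one_mul]
      right_inv := fun v => by
        ext i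
        simp only
        rw [← mul_assoc, sq_one h.he, one_mul] }

end group

/-! ### elements of bounded norm -/

/-- elements of bounded norm -/
def Bd (B : ℕ) : Type := {μ : Eis // N μ ≤ B}

theorem bd_finite (B : ℕ) : Finite (Bd B) := by
  have hb : ∀ μ : Bd B, μ.1.re ∈ Set.Icc (-(4 * B : ℤ)) (4 * B) ∧
      μ.1.im ∈ Set.Icc (-(4 * B : ℤ)) (4 * B) := by
    rintro ⟨μ, hμ⟩
    have h1 : (N μ : ℤ) = μ.norm := N_cast μ
    have h2 : μ.norm ≤ B := by rw [← h1]; exact_mod_cast hμ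
    have h3 : μ.norm = μ.re ^ 2 - μ.re * μ.im + μ.im ^ 2 := norm_def μ
    rw [h3] at h2
    simp only [Set.mem_Icc]
    have key : ∀ a b : ℤ, a ^ 2 - a * b + b ^ 2 ≤ B → -(4 * B : ℤ) ≤ a ∧ a ≤ 4 * B := by
      intro a b hab
      have h4 : 3 * a ^ 2 ≤ 4 * B := by nlinarith [sq_nonneg (2 * b - a)]
      constructor
      · nlinarith [sq_nonneg (a + 1)]
      · nlinarith [sq_nonneg (a - 1)]
    refine ⟨key _ _ h2, key μ.im μ.re (by linarith)⟩
  let F : Bd B → (Set.Icc (-(4 * B : ℤ)) (4 * B)) × (Set.Icc (-(4 * B : ℤ)) (4 * B)) :=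
    fun μ => (⟨μ.1.re, (hb μ).1⟩, ⟨μ.1.im, (hb μ).2⟩)
  refine Finite.of_injective F ?_
  rintro ⟨μ, hμ⟩ ⟨ν, hν⟩ h
  have h1 := congrArg (fun x => (x.1 : ℤ)) h
  have h2 := congrArg (fun x => (x.2 : ℤ)) h
  apply Subtype.ext
  exact Eis.ext h1 h2

/-- the number of elements of bounded norm -/
noncomputable def nB (B : ℕ) : ℕ := Nat.card (Bd B)

/-! ### the number of generators -/

theorem AA_ne (h : HypT p e) : AA p e ≠ 0 := by
  unfold AA
  refine Finset.prod_ne_zero_iff.2 fun i _ => pow_ne_zero _ ?_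
  exact_mod_cast (h.hp i).ne_zero

theorem dvd_AA (h : HypT p e) (i : Fin m) : (p i : ℤ) ∣ AA p e := by
  unfold AA
  refine (dvd_pow_self (p i : ℤ) ?_).trans (Finset.dvd_prod_of_mem _ (Finset.mem_univ i))
  rcases h.he i with h | h <;> omega

theorem cubeFree (h : HypT p e) : CubeFree (AA p e) := by
  intro q hq hd
  unfold AA at hd
  have h1 : q ∣ ∏ i, (p i : ℤ) ^ e i := (dvd_pow_self q (by norm_num)).trans hd
  obtain ⟨i, -, hi⟩ := (Prime.dvd_finsetProd_iff hq _).1 h1
  have hZ := Nat.prime_iff_prime_int.mp (h.hp i)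
  have hass : Associated q (p i : ℤ) := hq.associated_of_dvd hZ (hq.dvd_of_dvd_pow hi)
  have hd' : (p i : ℤ) ^ 3 ∣ ∏ i, (p i : ℤ) ^ e i := (hass.pow_pow (n := 3)).symm.dvd.trans hd
  rw [← Finset.mul_prod_erase Finset.univ _ (Finset.mem_univ i)] at hd'
  have h0 : (p i : ℤ) ^ e i ≠ 0 := pow_ne_zero _ hZ.ne_zero
  have h2 : (p i : ℤ) ^ (e i + 1) ∣ (p i : ℤ) ^ 3 := pow_dvd_pow _ (by
    rcases h.he i with h | h <;> omega)
  have h3 := h2.trans hd'
  rw [pow_succ] at h3
  have h4 := (mul_dvd_mul_iff_left h0).1 h3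
  obtain ⟨j, hj, h5⟩ := (Prime.dvd_finsetProd_iff hZ _).1 h4
  have h6 := hZ.dvd_of_dvd_pow h5
  have h7 : p i ∣ p j := by exact_mod_cast h6
  have h8 := (Nat.prime_dvd_prime_iff_eq (h.hp i) (h.hp j)).1 h7
  exact (Finset.ne_of_mem_erase hj) (h.inj h8).symm

theorem not_cube (h : HypT p e) : ¬ ∃ n : ℤ, n ^ 3 = AA p e := by
  rintro ⟨n, hn⟩
  obtain ⟨i, _⟩ := h.ex
  have hZ := Nat.prime_iff_prime_int.mp (h.hp i)
  have h1 : (p i : ℤ) ∣ n ^ 3 := by rw [hn]; exact dvd_AA h _
  have h2 := hZ.dvd_of_dvd_pow h1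
  exact cubeFree h _ hZ (by rw [← hn]; exact pow_dvd_pow_of_dvd h2 3)

theorem AA_big (hm : 2 ≤ m) (h : HypT p e) : 3 ≤ (AA p e).natAbs := by
  have h1 : (4 : ℤ) ≤ AA p e := by
    have h2 : ∀ i, (2 : ℤ) ≤ (p i : ℤ) ^ e i := by
      intro i
      have h3 : (2 : ℤ) ≤ p i := by exact_mod_cast (h.hp i).two_le
      have h4 := h.he i
      rcases h4 with h4 | h4 <;> rw [h4] <;> nlinarith
    have h5 : (∏ _i : Fin m, (2 : ℤ)) ≤ ∏ i, (p i : ℤ) ^ e i :=
      Finset.prod_le_prod (fun _ _ => by norm_num) (fun i _ => h2 i)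
    rw [Finset.prod_const, Finset.card_univ, Fintype.card_fin] at h5
    calc (4 : ℤ) = 2 ^ 2 := by norm_num
      _ ≤ 2 ^ m := pow_le_pow_right₀ (by norm_num) hm
      _ ≤ _ := h5
  omega

section gens

variable (hEx : KapExStmtT) (hAdd : KapAddStmtT) (hRep : KapRepStmtT) (hCls : ClsStmtT)
  (hDiff : DiffStmtT)

include hAdd hRep in
theorem kap_diff (h : HypT p e) {P Q : GA (AA p e)} {v v' : Fin m → ZMod 3}
    (hP : KapG p e P v) (hQ : KapG p e Q v') (hc : ∃ c, ∀ i, v i = v' i + c) :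
    P - Q ∈ threeMul (AA p e) := by
  -- the class of `-Q` is obtained from `2 Q = 3 Q - Q`
  have h2 := hAdd m p e h Q Q v' v' hQ hQ
  have h3 := hAdd m p e h P (Q + Q) v (v' + v') hP h2
  obtain ⟨c, hc⟩ := hc
  have h4 := (hRep m p e h _ _ h3).1 ⟨c, fun i => by
    simp only [Pi.add_apply]
    rw [hc i]
    linear_combination (v' i) * three_zmod⟩
  have h5 : (3 : ℕ) • Q ∈ threeMul (AA p e) := ⟨Q, rfl⟩
  have h6 := (threeMul (AA p e)).sub_mem h4 h5
  have e1 : P + (Q + Q) - (3 : ℕ) • Q = P - Q := by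
    rw [succ_nsmul, succ_nsmul, one_nsmul]
    abel
  rwa [e1] at h6

include hEx hAdd hRep hCls hDiff in
open Classical in
theorem gen_card (hm : 2 ≤ m) (h : HypT p e) {A0 : ℤ} (hA0 : A0 ≠ 0)
    (hp : ∀ i, p i % 3 = 2 ∨ (p i : ℤ) ∣ A0) :
    GenBy (AA p e) (nB (81 * A0.natAbs ^ 4) + (Module.finrank (ZMod 3) (WW p e) - 1)) := by
  have i0 : Fin m := ⟨0, by omega⟩
  set A := AA p e with hA
  have hAne := AA_ne h
  have hcf := cubeFree h
  have hnc := not_cube h
  set B := 81 * A0.natAbs ^ 4 with hB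
  have hfinB := bd_finite B
  -- the code of a point
  have hcode : ∀ P : GA A, ∃ o : Option (Bd B),
      (P = 0 ∧ o = none) ∨ ∃ (a b c : ℤ) (γ : Eis) (μ : Bd B), o = some μ ∧ Crd A P a b c ∧
        (a : Eis) + w * b = μ.1 * γ ^ 3 := by
    intro P
    by_cases hP : P = 0
    · exact ⟨none, Or.inl ⟨hP, rfl⟩⟩
    · obtain ⟨a, b, c, hC⟩ := (basics A hAne).1 hcf P hP
      obtain ⟨μ, γ, h1, h2⟩ := hCls A0 A hA0 hAne (fun q hq hqd => by
        have hZ := Nat.prime_iff_prime_int.mp hq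
        rw [hA, AA] at hqd
        obtain ⟨i, -, hi⟩ := (Prime.dvd_finsetProd_iff hZ _).1 hqd
        have h7 : q ∣ p i := by exact_mod_cast hZ.dvd_of_dvd_pow hi
        have h8 := (Nat.prime_dvd_prime_iff_eq hq (h.hp i)).1 h7
        rw [h8]
        exact hp i) a b c hC.1 hC.2.1 hC.2.2.1
      exact ⟨some ⟨μ, h2⟩, Or.inr ⟨a, b, c, γ, ⟨μ, h2⟩, rfl, hC, h1⟩⟩
  choose code hcode using hcode
  have hdiff : ∀ P Q : GA A, code P = code Q → Lft A (P - Q) := by
    intro P Q hPQ
    rcases hcode P with ⟨hP, h1⟩ | ⟨a, b, c, γ, μ, h1, hC, h2⟩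
    · rcases hcode Q with ⟨hQ, h3⟩ | ⟨a', b', c', γ', μ', h3, hC', h4⟩
      · rw [hP, hQ, sub_zero]; exact Or.inl rfl
      · rw [h1, h3] at hPQ; exact absurd hPQ (by simp)
    · rcases hcode Q with ⟨hQ, h3⟩ | ⟨a', b', c', γ', μ', h3, hC', h4⟩
      · rw [h1, h3] at hPQ; exact absurd hPQ (by simp)
      · rw [h1, h3] at hPQ
        have hμ : μ = μ' := Option.some_injective _ hPQ
        rw [← hμ] at h4
        exact hDiff A hAne hcf hnc P Q a b c a' b' c' μ.1 γ γ' hC hC' h2 h4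
  -- base points
  set T := threeMul A with hT
  let rep : GA A ⧸ T → GA A := Quotient.out
  have hbase : ∀ o : Option (Bd B), ∃ R : GA A, ∀ g : GA A ⧸ T, code (rep g) = o →
      Lft A (rep g - R) := by
    intro o
    by_cases ho : ∃ g0 : GA A ⧸ T, code (rep g0) = o
    · obtain ⟨g0, hg0⟩ := ho
      exact ⟨rep g0, fun g hg => hdiff _ _ (hg.trans hg0.symm)⟩
    · exact ⟨0, fun g hg => absurd ⟨g, hg⟩ ho⟩
  choose base hbase using hbase
  have hvex : ∀ g : GA A ⧸ T, ∃ v, KapG p e (rep g - base (code (rep g))) v := fun g =>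
    hEx m p e h _ (hbase _ g rfl)
  choose vv hvv using hvex
  let F : (GA A ⧸ T) × ZMod 3 → Option (Bd B) × {v // UG p e v} := fun x =>
    (code (rep x.1), ⟨vv x.1 + fun _ => x.2,
      UG_add hAdd h ⟨_, hvv x.1⟩ (UG_const p e x.2)⟩)
  have hF : Function.Injective F := by
    rintro ⟨g, c⟩ ⟨g', c'⟩ hgg
    have h0 : code (rep g) = code (rep g') := congrArg Prod.fst hgg
    have h1 : ∀ i, vv g i + c = vv g' i + c' := by
      intro i
      exact congrFun (congrArg Subtype.val (congrArg Prod.snd hgg)) i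
    have k2 := hvv g'
    rw [← h0] at k2
    have h2 := kap_diff hAdd hRep h (hvv g) k2
      ⟨c' - c, fun i => by linear_combination h1 i⟩
    have h3 : g = g' := by
      have e0 : rep g - base (code (rep g)) - (rep g' - base (code (rep g))) =
          -rep g' + rep g := by abel
      rw [e0] at h2
      have e1 : (QuotientAddGroup.mk (rep g') : GA A ⧸ T) = QuotientAddGroup.mk (rep g) := by
        rw [QuotientAddGroup.eq]
        exact h2
      have e2 : (QuotientAddGroup.mk (rep g) : GA A ⧸ T) = g := Quotient.out_eq g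
      have e3 : (QuotientAddGroup.mk (rep g') : GA A ⧸ T) = g' := Quotient.out_eq g'
      rw [← e2, ← e3, e1]
    subst h3
    have h4 := h1 i0
    exact Prod.ext rfl (add_left_cancel h4)
  have hfin : Finite ((GA A ⧸ T) × ZMod 3) := Finite.of_injective F hF
  have hfinq : Finite (GA A ⧸ T) :=
    Finite.of_injective (fun g => ((g, 0) : (GA A ⧸ T) × ZMod 3))
      (fun a b hab => congrArg Prod.fst hab)
  have hcard := Nat.card_le_card_of_injective F hF
  rw [Nat.card_prod, Nat.card_zmod, Nat.card_prod, card_WW hAdd h, Finite.card_option] at hcard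
  have hd1 : 1 ≤ Module.finrank (ZMod 3) (WW p e) := by
    rw [Nat.one_le_iff_ne_zero]
    intro h0
    rw [Submodule.finrank_eq_zero] at h0
    have h1 := self_mem hAdd h
    rw [h0, Submodule.mem_bot] at h1
    exact cast_ne h.he i0 (congrFun h1 i0)
  obtain ⟨d, hd⟩ : ∃ d, Module.finrank (ZMod 3) (WW p e) = d + 1 :=
    ⟨Module.finrank (ZMod 3) (WW p e) - 1, by omega⟩
  rw [hd] at hcard ⊢
  rw [Nat.add_sub_cancel]
  have hpow : Nat.card (Bd B) + 1 ≤ 3 ^ Nat.card (Bd B) := by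
    have := Nat.lt_pow_self (n := Nat.card (Bd B)) (a := 3) (by norm_num)
    omega
  have hidx : T.index ≤ 3 ^ (nB B + d) := by
    have h5 : T.index * 3 ≤ 3 ^ (nB B + d) * 3 := by
      calc T.index * 3 ≤ (Nat.card (Bd B) + 1) * 3 ^ (d + 1) := hcard
        _ ≤ 3 ^ Nat.card (Bd B) * 3 ^ (d + 1) := Nat.mul_le_mul_right _ hpow
        _ = 3 ^ (nB B + d) * 3 := by rw [nB, pow_add, pow_succ]; ring
    exact Nat.le_of_mul_le_mul_right h5 (by norm_num)
  have hfi : T.FiniteIndex := AddSubgroup.finiteIndex_of_finite_quotient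
  exact gen' A hcf (AA_big hm h) _ hfi hidx

end gens

end TMain

end Pool.Agent.CubeRank
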